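import Pool.Agent.NLK.Sz

/-!
# NLK-ArithB: upper bound for the first determinant

PLAN.  `K ≤ m K ≤ 2 (m V + m M) + m ≤ 123 R`, `dz p ≤ 223 R`, `2 (B + L) ≤ n * (2 (B+L)) ≤ 122 R`,
`2 (V + M) ≤ 122 R`, `P, B, V, S, B+L, V+M ≤ 61 R`, `9 ^ Q ≤ (9 ^ 30) ^ R` (Facts, Defs).  `x ≤ a R` (`R ≥ 1`) implies
`x ≤ (2 a) ^ R` (`Arith_lin` in NLC/Arith), so `hh p ≤ c ^ R` and `K! ≤ K ^ K ≤ (246 ^ R) ^ K`.  The base
`(D1 + (D1+1) D2) D3 ≤ (223 R + 224 R * 122 R) * 122 R ≤ c R ^ 3`, `R ≤ n ^ 3 ≤ (2 ^ n) ^ 3`, and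
`n K ≤ m K ≤ 123 R`, so `(c R ^ 3) ^ K ≤ c ^ (123 R) * 2 ^ (9 * 123 R)`.
-/

namespace Pool.Agent.NLK

open Finset

private lemma ArithB_lin {x a R : ℕ} (hR : 1 ≤ R) (h : x ≤ a * R) : x ≤ (2 * a) ^ R := by
  calc x ≤ a * R := h
    _ ≤ a ^ R * 2 ^ R := Nat.mul_le_mul (Nat.le_self_pow (by omega) a) (Nat.lt_two_pow_self).le
    _ = (2 * a) ^ R := by rw [mul_pow, mul_comm]

/-- linear bounds for all parameters -/
private lemma ArithB_bounds {p : Par} (F : Facts p) :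
    p.P ≤ 61 * p.R ∧ p.B ≤ 61 * p.R ∧ p.V ≤ 61 * p.R ∧ p.S ≤ 61 * p.R ∧
      p.B + p.L ≤ 61 * p.R ∧ p.V + p.M ≤ 61 * p.R ∧ dz p ≤ 223 * p.R := by
  obtain ⟨R1, N1, N2, P1, J1, S1, Q1, Q2, L1, L2, B1, B2, M1, M2, V1, V2, n1, n2, n3, n4⟩ := F
  have hL : p.L ≤ p.n * p.L := Nat.le_mul_of_pos_left _ n3
  have hB : p.B ≤ p.n * p.B := Nat.le_mul_of_pos_left _ n3
  have hM : p.M ≤ p.m * p.M := Nat.le_mul_of_pos_left _ n4
  have hV : p.V ≤ p.m * p.V := Nat.le_mul_of_pos_left _ n4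
  have e1 : p.n * (2 * p.B + p.L) = 2 * (p.n * p.B) + p.n * p.L := by ring
  have e2 : p.m * (2 * p.V + p.M) = 2 * (p.m * p.V) + p.m * p.M := by ring
  have hd : dz p = p.P + p.S + p.n * (2 * p.B + p.L) + p.m * (2 * p.V + p.M) + 2 := rfl
  refine ⟨by omega, by omega, by omega, by omega, by omega, by omega, by omega⟩

/-- the power of the base -/
private lemma ArithB_pw {D K n R c : ℕ} (hn : 1 ≤ n) (h1 : n * K ≤ 123 * R) (hc : 1 ≤ c)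
    (hD : D ≤ c * R ^ 3) (hR : R ≤ n ^ 3) :
    D ^ K ≤ (c ^ 123 * 2 ^ (9 * 123)) ^ R := by
  have hK : K ≤ 123 * R := le_trans (Nat.le_mul_of_pos_left K hn) h1
  have e1 : D ^ K ≤ c ^ K * (R ^ 3) ^ K := by
    rw [← mul_pow]
    exact Nat.pow_le_pow_left hD K
  have e2 : c ^ K ≤ (c ^ 123) ^ R := by
    rw [← pow_mul]
    exact Nat.pow_le_pow_right hc hK
  have e3 : (R ^ 3) ^ K ≤ (2 ^ (9 * 123)) ^ R := by
    calc (R ^ 3) ^ K ≤ ((n ^ 3) ^ 3) ^ K :=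
          Nat.pow_le_pow_left (Nat.pow_le_pow_left hR 3) K
      _ = n ^ (9 * K) := by
          rw [← pow_mul, ← pow_mul]
          congr 1
          ring
      _ ≤ (2 ^ n) ^ (9 * K) := Nat.pow_le_pow_left (Nat.lt_two_pow_self).le _
      _ = 2 ^ (9 * (n * K)) := by
          rw [← pow_mul]
          congr 1
          ring
      _ ≤ 2 ^ (9 * (123 * R)) :=
          Nat.pow_le_pow_right (by norm_num) (Nat.mul_le_mul_left _ h1)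
      _ = (2 ^ (9 * 123)) ^ R := by
          rw [← pow_mul]
          congr 1
          ring
  refine e1.trans ((Nat.mul_le_mul e2 e3).trans (le_of_eq ?_))
  rw [mul_pow]

/-- the bound for the norm -/
private lemma ArithB_hh {p : Par} (F : Facts p) (Y c3 : ℕ) (hY : Y = 9 ^ 30)
    (hc3 : c3 = 24 * 446 * ((122 * 122 * 122 * (122 * 122 * 122 * Y) * Y) *
      (122 * 122 * 122 * (122 * 122 * 122 * (122 * 122 * 122 * Y) * Y)))) :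
    hh p ≤ c3 ^ p.R := by
  obtain ⟨hP, hB, hV, hS, hBL, hVM, hd⟩ := ArithB_bounds F
  have hR1 := F.R1
  have hQ := F.Q1
  have bP : p.P ≤ 122 ^ p.R := ArithB_lin (a := 61) hR1 hP
  have bB : p.B ≤ 122 ^ p.R := ArithB_lin (a := 61) hR1 hB
  have bV : p.V ≤ 122 ^ p.R := ArithB_lin (a := 61) hR1 hV
  have bS : p.S ≤ 122 ^ p.R := ArithB_lin (a := 61) hR1 hS
  have bBL : p.B + p.L ≤ 122 ^ p.R := ArithB_lin (a := 61) hR1 hBL
  have bVM : p.V + p.M ≤ 122 ^ p.R := ArithB_lin (a := 61) hR1 hVM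
  have bd : dz p ≤ 446 ^ p.R := ArithB_lin (a := 223) hR1 hd
  have b24 : 24 ≤ 24 ^ p.R := Nat.le_self_pow (by omega) 24
  have bY : 9 ^ p.Q ≤ Y ^ p.R := by
    rw [hY, ← pow_mul]
    exact Nat.pow_le_pow_right (by norm_num) hQ
  have e : c3 ^ p.R = 24 ^ p.R * 446 ^ p.R * ((122 ^ p.R * 122 ^ p.R * 122 ^ p.R *
      (122 ^ p.R * 122 ^ p.R * 122 ^ p.R * Y ^ p.R) * Y ^ p.R) *
      (122 ^ p.R * 122 ^ p.R * 122 ^ p.R * (122 ^ p.R * 122 ^ p.R * 122 ^ p.R *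
      (122 ^ p.R * 122 ^ p.R * 122 ^ p.R * Y ^ p.R) * Y ^ p.R))) := by
    rw [hc3]
    simp only [mul_pow]
  rw [e, hh]
  gcongr

theorem bb_le : ∃ c1 : ℕ, 1 ≤ c1 ∧ ∀ p : Par, Facts p → ∀ K : ℕ, 1 ≤ K →
    K ≤ 2 * (p.V + p.M) + 1 →
    bb (dz p) (2 * (p.B + p.L)) (2 * (p.V + p.M)) (hh p) K ≤ c1 ^ (K * p.R) := by
  obtain ⟨c, hc⟩ : ∃ c : ℕ, c = (223 + 224 * 122) * 122 := ⟨_, rfl⟩
  obtain ⟨c2, hc2⟩ : ∃ c2 : ℕ, c2 = c ^ 123 * 2 ^ (9 * 123) := ⟨_, rfl⟩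
  obtain ⟨Y, hY⟩ : ∃ Y : ℕ, Y = 9 ^ 30 := ⟨_, rfl⟩
  obtain ⟨c3, hc3⟩ : ∃ c3 : ℕ, c3 = 24 * 446 * ((122 * 122 * 122 * (122 * 122 * 122 * Y) * Y) *
      (122 * 122 * 122 * (122 * 122 * 122 * (122 * 122 * 122 * Y) * Y))) := ⟨_, rfl⟩
  have hc0 : 1 ≤ c := by rw [hc]; norm_num
  have hc20 : 1 ≤ c2 := by
    rw [hc2]
    exact Nat.mul_pos (Nat.pow_pos hc0) (Nat.pow_pos (by norm_num))
  have hY0 : 0 < Y := by
    rw [hY]
    exact Nat.pow_pos (by norm_num)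
  have hc30 : 1 ≤ c3 := by
    have a0 : 0 < 122 * 122 * 122 * Y := Nat.mul_pos (by norm_num) hY0
    have a1 : 0 < 122 * 122 * 122 * (122 * 122 * 122 * Y) * Y :=
      Nat.mul_pos (Nat.mul_pos (by norm_num) a0) hY0
    rw [hc3]
    exact Nat.mul_pos (by norm_num) (Nat.mul_pos a1 (Nat.mul_pos (by norm_num) a1))
  refine ⟨246 * (c2 * c3), ?_, ?_⟩
  · exact Nat.mul_pos (by norm_num) (Nat.mul_pos hc20 hc30)
  intro p F K hK1 hK2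
  obtain ⟨hP, hB, hV, hS, hBL, hVM, hd⟩ := ArithB_bounds F
  have hR1 := F.R1
  have hH := ArithB_hh F Y c3 hY hc3
  have hn1 := F.n3
  have hnm := F.n1
  have hmK : p.m * K ≤ 123 * p.R := by
    have e : p.m * K ≤ p.m * (2 * (p.V + p.M) + 1) := Nat.mul_le_mul_left _ hK2
    have e2 : p.m * (2 * (p.V + p.M) + 1) = 2 * (p.m * p.V) + 2 * (p.m * p.M) + p.m := by ring
    have h1 := F.V1
    have h2 := F.M1
    have h3 := F.n2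
    omega
  have hnK : p.n * K ≤ 123 * p.R := le_trans (Nat.mul_le_mul_right _ hnm) hmK
  have hK : K ≤ 123 * p.R := le_trans (Nat.le_mul_of_pos_left _ hn1) hnK
  have hRn : p.R ≤ p.n ^ 3 := by
    have := F.N1
    omega
  have bK : K ≤ 246 ^ p.R := ArithB_lin (a := 123) hR1 hK
  obtain ⟨D1, hD1⟩ : ∃ D1, D1 = dz p := ⟨_, rfl⟩
  obtain ⟨D2, hD2⟩ : ∃ D2, D2 = 2 * (p.B + p.L) := ⟨_, rfl⟩
  obtain ⟨D3, hD3⟩ : ∃ D3, D3 = 2 * (p.V + p.M) := ⟨_, rfl⟩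
  rw [← hD1] at hd
  have hD2' : D2 ≤ 122 * p.R := by omega
  have hD3' : D3 ≤ 122 * p.R := by omega
  have hbase : (D1 + (D1 + 1) * D2) * D3 ≤ c * p.R ^ 3 := by
    have h1 : D1 + 1 ≤ 224 * p.R := by omega
    have h2 : (D1 + 1) * D2 ≤ (224 * p.R) * (122 * p.R) := Nat.mul_le_mul h1 hD2'
    have h3 : D1 ≤ 223 * (p.R * p.R) := by
      refine hd.trans (Nat.mul_le_mul_left _ ?_)
      exact Nat.le_mul_of_pos_left _ hR1
    calc (D1 + (D1 + 1) * D2) * D3 ≤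
        (223 * (p.R * p.R) + (224 * p.R) * (122 * p.R)) * (122 * p.R) :=
          Nat.mul_le_mul (Nat.add_le_add h3 h2) hD3'
      _ = c * p.R ^ 3 := by rw [hc]; ring
  have hpw : ((D1 + (D1 + 1) * D2) * D3) ^ K ≤ c2 ^ p.R := by
    rw [hc2]
    exact ArithB_pw hn1 hnK hc0 hbase hRn
  rw [← hD1, ← hD2, ← hD3, bb]
  calc K.factorial * (((D1 + (D1 + 1) * D2) * D3) ^ K * hh p) ^ K
      ≤ (246 ^ p.R) ^ K * (c2 ^ p.R * c3 ^ p.R) ^ K := by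
        refine Nat.mul_le_mul ?_ (Nat.pow_le_pow_left (Nat.mul_le_mul hpw hH) K)
        exact (Nat.factorial_le_pow K).trans (Nat.pow_le_pow_left bK K)
    _ = (246 * (c2 * c3)) ^ (K * p.R) := by
        rw [mul_comm K p.R, pow_mul, mul_pow 246, mul_pow c2, ← mul_pow (246 ^ p.R)]

end Pool.Agent.NLK
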