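import Pool.Agent.NLK.Sz

/-!
# NLK-ArithC: upper bound for the second determinant

PLAN.  `K ≤ m K ≤ 123 R`, `dz p ≤ 223 R`, `D2 = 2 (B + L) ≤ n D2 ≤ 122 R`, `n K2 ≤ K (n D2) + n ≤ 123 K R`,
`K2 ≤ 123 K R` (Facts, Defs).  `K2! ≤ K2 ^ K2 ≤ (246 ^ (K R)) ^ K2` (`x ≤ a y`, `y ≥ 1` implies `x ≤ (2 a) ^ y`).
`(K dz) (K D2) ≤ c R ^ 4`, `R ≤ n ^ 3 ≤ (2 ^ n) ^ 3`, so
`(c R ^ 4) ^ K2 ≤ c ^ (123 K R) * 2 ^ (12 n K2) ≤ c ^ (123 K R) * 2 ^ (12 * 123 K R)`.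
-/

namespace Pool.Agent.NLK

open Finset

private theorem ArithC_pow (a x : ℕ) (hx : 1 ≤ x) : a * x ≤ (2 * a) ^ x := by
  have h1 : x ≤ 2 ^ x := Nat.lt_two_pow_self.le
  have h2 : a ≤ a ^ x := Nat.le_self_pow (by omega) a
  calc a * x ≤ a ^ x * 2 ^ x := Nat.mul_le_mul h2 h1
    _ = (2 * a) ^ x := by rw [mul_pow, mul_comm]

private theorem ArithC_base (p : Par) (h : Facts p) {b K : ℕ}
    (hb : b = 123 * 223 * (123 * 122) * 4096) (hK2 : K ≤ 2 * (p.V + p.M) + 1) :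
    (K * dz p) * (K * (2 * (p.B + p.L))) ≤ b ^ p.n := by
  have hR := h.R1
  have hKR : K ≤ 123 * p.R := by
    have h1 : K ≤ p.m * K := Nat.le_mul_of_pos_left K (by have := h.n4; omega)
    have h2 : p.m * K ≤ p.m * (2 * (p.V + p.M) + 1) := Nat.mul_le_mul_left _ hK2
    have h3 : p.m * (2 * (p.V + p.M) + 1) = 2 * (p.m * p.V) + 2 * (p.m * p.M) + p.m := by ring
    have h4 := h.M1
    have h5 := h.V1
    have h6 := h.n2
    omega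
  have hdz : dz p ≤ 223 * p.R := by
    unfold dz
    have h3 : p.n * (2 * p.B + p.L) = 2 * (p.n * p.B) + p.n * p.L := by ring
    have h4 : p.m * (2 * p.V + p.M) = 2 * (p.m * p.V) + p.m * p.M := by ring
    have e1 := h.B1
    have e2 := h.L1
    have e3 := h.V1
    have e4 := h.M1
    have e5 := h.P1
    have e6 := h.S1
    omega
  have hD : 2 * (p.B + p.L) ≤ 122 * p.R := by
    have h1 : 2 * (p.B + p.L) ≤ p.n * (2 * (p.B + p.L)) :=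
      Nat.le_mul_of_pos_left _ (by have := h.n3; omega)
    have h3 : p.n * (2 * (p.B + p.L)) = 2 * (p.n * p.B) + 2 * (p.n * p.L) := by ring
    have e1 := h.B1
    have e2 := h.L1
    omega
  have hRn : p.R ≤ (2 ^ p.n) ^ 3 := by
    have h1 := h.N1
    have h2 : p.n ^ 3 ≤ (2 ^ p.n) ^ 3 := Nat.pow_le_pow_left Nat.lt_two_pow_self.le 3
    omega
  have hn : p.n ≠ 0 := by have := h.n3; omega
  calc (K * dz p) * (K * (2 * (p.B + p.L)))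
      ≤ ((123 * p.R) * (223 * p.R)) * ((123 * p.R) * (122 * p.R)) :=
        Nat.mul_le_mul (Nat.mul_le_mul hKR hdz) (Nat.mul_le_mul hKR hD)
    _ = (123 * 223 * (123 * 122)) * p.R ^ 4 := by ring
    _ ≤ (123 * 223 * (123 * 122)) ^ p.n * ((2 ^ p.n) ^ 3) ^ 4 :=
        Nat.mul_le_mul (Nat.le_self_pow hn _) (Nat.pow_le_pow_left hRn 4)
    _ = (123 * 223 * (123 * 122)) ^ p.n * (4096) ^ p.n := by
        have h4 : ((2 ^ p.n) ^ 3) ^ 4 = 4096 ^ p.n := by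
          rw [← pow_mul, ← pow_mul, mul_comm p.n, pow_mul]
          norm_num
        rw [h4]
    _ = b ^ p.n := by rw [← mul_pow, hb]

theorem second_le (c1 : ℕ) (hc1 : 1 ≤ c1) : ∃ c2 : ℕ, 1 ≤ c2 ∧ ∀ p : Par, Facts p →
    ∀ K K2 X : ℕ, 1 ≤ K → K ≤ 2 * (p.V + p.M) + 1 → 1 ≤ K2 →
    K2 ≤ K * (2 * (p.B + p.L)) + 1 → X ≤ c1 ^ (K * p.R) →
    (K2.factorial * (((K * dz p) * (K * (2 * (p.B + p.L)))) ^ K2 * X) ^ K2) ^ 2 ≤
      c2 ^ (K2 * (K * p.R)) := by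
  obtain ⟨b, hb⟩ : ∃ b : ℕ, b = 123 * 223 * (123 * 122) * 4096 := ⟨_, rfl⟩
  have hb1 : 1 ≤ b := by rw [hb]; norm_num
  obtain ⟨c, hc⟩ : ∃ c : ℕ, c = 246 * (b ^ 123 * c1) := ⟨_, rfl⟩
  have hc0 : 1 ≤ c := by
    rw [hc]
    have h1 : 0 < b ^ 123 * c1 := Nat.mul_pos (Nat.pow_pos hb1) hc1
    omega
  refine ⟨c ^ 2, Nat.one_le_pow _ _ hc0, fun p h K K2 X hK1 hK2 hK3 hK4 hX => ?_⟩
  have hbase := ArithC_base p h hb hK2
  obtain ⟨r, hr⟩ : ∃ r : ℕ, r = K * p.R := ⟨_, rfl⟩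
  have hr1 : 1 ≤ r := by
    rw [hr]
    exact Nat.mul_pos hK1 h.R1
  have hnK : p.n * K2 ≤ 123 * r := by
    have h1 : p.n * K2 ≤ p.n * (K * (2 * (p.B + p.L)) + 1) := Nat.mul_le_mul_left _ hK4
    have h2 : p.n * (K * (2 * (p.B + p.L)) + 1) =
        K * (2 * (p.n * p.B) + 2 * (p.n * p.L)) + p.n := by ring
    have h3 : K * (2 * (p.n * p.B) + 2 * (p.n * p.L)) ≤ K * (122 * p.R) := by
      refine Nat.mul_le_mul_left _ ?_
      have e1 := h.B1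
      have e2 := h.L1
      omega
    have h4 : K * (122 * p.R) = 122 * r := by rw [hr]; ring
    have h5 : p.n ≤ r := by
      have e1 := h.n1
      have e2 := h.n2
      have e3 : p.R ≤ K * p.R := Nat.le_mul_of_pos_left _ (by omega)
      omega
    omega
  have hK2r : K2 ≤ 246 ^ r := by
    have h1 : K2 ≤ p.n * K2 := Nat.le_mul_of_pos_left _ (by have := h.n3; omega)
    exact (h1.trans hnK).trans (ArithC_pow 123 r hr1)
  have hY : ((K * dz p) * (K * (2 * (p.B + p.L)))) ^ K2 ≤ (b ^ 123) ^ r := by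
    calc ((K * dz p) * (K * (2 * (p.B + p.L)))) ^ K2 ≤ (b ^ p.n) ^ K2 :=
          Nat.pow_le_pow_left hbase K2
      _ = b ^ (p.n * K2) := by rw [pow_mul]
      _ ≤ b ^ (123 * r) := Nat.pow_le_pow_right hb1 hnK
      _ = (b ^ 123) ^ r := by rw [pow_mul]
  rw [← hr] at hX
  have hall : K2 * (((K * dz p) * (K * (2 * (p.B + p.L)))) ^ K2 * X) ≤ c ^ r := by
    calc K2 * (((K * dz p) * (K * (2 * (p.B + p.L)))) ^ K2 * X)
        ≤ 246 ^ r * ((b ^ 123) ^ r * c1 ^ r) := Nat.mul_le_mul hK2r (Nat.mul_le_mul hY hX)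
      _ = c ^ r := by rw [hc, mul_pow, mul_pow]
  rw [← hr]
  obtain ⟨Y, hYd⟩ : ∃ Y : ℕ, Y = ((K * dz p) * (K * (2 * (p.B + p.L)))) ^ K2 * X := ⟨_, rfl⟩
  rw [← hYd] at hall ⊢
  calc (K2.factorial * Y ^ K2) ^ 2 ≤ (K2 ^ K2 * Y ^ K2) ^ 2 :=
        Nat.pow_le_pow_left (Nat.mul_le_mul_right _ (Nat.factorial_le_pow K2)) 2
    _ = ((K2 * Y) ^ K2) ^ 2 := by rw [mul_pow K2 Y K2]
    _ ≤ ((c ^ r) ^ K2) ^ 2 := Nat.pow_le_pow_left (Nat.pow_le_pow_left hall K2) 2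
    _ = (c ^ 2) ^ (K2 * r) := by
        have e : r * (K2 * 2) = 2 * (K2 * r) := by ring
        rw [← pow_mul, ← pow_mul, ← pow_mul, e]

end Pool.Agent.NLK
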