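import Pool.Agent.NLK.ArithA
import Pool.Agent.NLK.ArithB
import Pool.Agent.NLK.ArithC

/-!
# NLK-Arith: the final inequality

Assembly of `T_low`, `sum_low` (ArithA), `bb_le` (ArithB), `second_le` (ArithC).
-/

namespace Pool.Agent.NLK

open Finset

theorem arith : ∃ Z0 N0 : ℕ, ∀ p : Par, Facts p → p.m = p.n ^ 2 → N0 ≤ p.n → ∀ z : ℕ, Z0 ≤ z →
    ∀ K c K2 : ℕ, 1 ≤ K → K ≤ 2 * (p.V + p.M) + 1 →
    z ^ (p.m * c) ≤ bb (dz p) (2 * (p.B + p.L)) (2 * (p.V + p.M)) (hh p) K → 1 ≤ K2 →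
    K2 ≤ K * (2 * (p.B + p.L)) + 1 →
    (K2.factorial * (((K * dz p) * (K * (2 * (p.B + p.L)))) ^ K2 *
      bb (dz p) (2 * (p.B + p.L)) (2 * (p.V + p.M)) (hh p) K) ^ K2) ^ 2 <
    z ^ (∑ e ∈ range K2, ((∑ e ∈ range K, (p.R / 2 - p.n * (K - 1) - p.m * e)) - p.m * c -
      (K2 - 1) - p.n * e)) := by
  obtain ⟨c1, hc1, h1⟩ := bb_le
  obtain ⟨c2, hc2, h2⟩ := second_le c1 hc1
  obtain ⟨M, hM⟩ : ∃ M, M = 40000 * (16 * (123 * 40000)) := ⟨_, rfl⟩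
  refine ⟨max ((c1 + 1) ^ 40000) (c2 ^ M + 1), 4 * 122 * 40000, ?_⟩
  intro p F hm hn z hz K c K2 hK1 hK hzc hK21 hK22
  have hz1 : (c1 + 1) ^ 40000 ≤ z := (le_max_left _ _).trans hz
  have hz2 : c2 ^ M + 1 ≤ z := (le_max_right _ _).trans hz
  obtain ⟨T, hT⟩ : ∃ T, T = ∑ e ∈ range K, (p.R / 2 - p.n * (K - 1) - p.m * e) := ⟨_, rfl⟩
  rw [← hT]
  have hTl : K * p.R ≤ 20000 * T := by
    rw [hT]
    exact T_low F hm (by omega) hK1 hK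
  have hbb := h1 p F K hK1 hK
  have hR := F.R1
  have hKR : 1 ≤ K * p.R := Nat.mul_pos hK1 hR
  have hmc : 40000 * (p.m * c) ≤ K * p.R := by
    have h3 : (c1 + 1) ^ (40000 * (p.m * c)) ≤ (c1 + 1) ^ (K * p.R) :=
      calc (c1 + 1) ^ (40000 * (p.m * c)) = ((c1 + 1) ^ 40000) ^ (p.m * c) := pow_mul _ _ _
        _ ≤ z ^ (p.m * c) := Nat.pow_le_pow_left hz1 _
        _ ≤ _ := hzc
        _ ≤ c1 ^ (K * p.R) := hbb
        _ ≤ (c1 + 1) ^ (K * p.R) := Nat.pow_le_pow_left (Nat.le_succ c1) _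
    exact (Nat.pow_le_pow_iff_right (by omega)).1 h3
  obtain ⟨S1, hS1⟩ : ∃ S1, S1 = T - p.m * c := ⟨_, rfl⟩
  rw [← hS1]
  have hKS : K * p.R ≤ 40000 * S1 := by omega
  have hS1p : 1 ≤ S1 := by omega
  have hnB := F.B1
  have hnL := F.L1
  have hnK : p.n * (K2 - 1) ≤ 122 * (K * p.R) :=
    calc p.n * (K2 - 1) ≤ p.n * (K * (2 * (p.B + p.L))) := Nat.mul_le_mul_left _ (by omega)
      _ = K * (2 * (p.n * p.B + p.n * p.L)) := by ring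
      _ ≤ K * (122 * p.R) := Nat.mul_le_mul_left _ (by omega)
      _ = 122 * (K * p.R) := by ring
  have hY : 4 * (K2 - 1) ≤ S1 := by
    have h3 : (4 * 122 * 40000) * (K2 - 1) ≤ p.n * (K2 - 1) := Nat.mul_le_mul_right _ hn
    omega
  have hn1 : 1 ≤ p.n := F.n3
  have hnKR : p.n ≤ K * p.R :=
    calc p.n ≤ p.m := F.n1
      _ ≤ p.R := F.n2
      _ = 1 * p.R := (one_mul _).symm
      _ ≤ K * p.R := Nat.mul_le_mul_right _ hK1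
  have hnK2 : p.n * K2 ≤ (123 * 40000) * S1 := by
    have h3 : p.n * K2 = p.n * (K2 - 1) + p.n := by
      obtain ⟨k, rfl⟩ : ∃ k, K2 = k + 1 := ⟨K2 - 1, by omega⟩
      rw [Nat.add_sub_cancel, Nat.mul_add, Nat.mul_one]
    rw [h3]
    omega
  have hsum := sum_low (X := S1) (Y := K2 - 1) (n := p.n) (K := K2) (a := 123 * 40000) hn1 hK21
    (by norm_num) hY hnK2
  obtain ⟨Sg, hSg⟩ : ∃ Sg, Sg = ∑ e ∈ range K2, (S1 - (K2 - 1) - p.n * e) := ⟨_, rfl⟩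
  rw [← hSg] at hsum ⊢
  have hKK : K2 * (K * p.R) ≤ M * Sg :=
    calc K2 * (K * p.R) ≤ K2 * (40000 * S1) := Nat.mul_le_mul_left _ hKS
      _ = 40000 * (K2 * S1) := by ring
      _ ≤ 40000 * (16 * (123 * 40000) * Sg) := Nat.mul_le_mul_left _ hsum
      _ = M * Sg := by rw [hM]; ring
  have hSg1 : Sg ≠ 0 := by
    rintro h3
    rw [h3, Nat.mul_zero] at hsum
    have h4 : 1 ≤ K2 * S1 := Nat.mul_pos hK21 hS1p
    omega
  calc _ ≤ c2 ^ (K2 * (K * p.R)) := h2 p F K K2 _ hK1 hK hK21 hK22 hbb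
    _ ≤ c2 ^ (M * Sg) := Nat.pow_le_pow_right hc2 hKK
    _ = (c2 ^ M) ^ Sg := pow_mul _ _ _
    _ < (c2 ^ M + 1) ^ Sg := Nat.pow_lt_pow_left (Nat.lt_succ_self _) hSg1
    _ ≤ z ^ Sg := Nat.pow_le_pow_left hz2 _

end Pool.Agent.NLK
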