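import Pool.Agent.NLK.Sz

/-!
# NLK-ArithA: lower bounds for the orders

PLAN.  `sum_low`: let `s = X / (4 n) + 1`, `m = min K s`.  For `c < m`: `4 (n c) ≤ X`, so
`X ≤ 2 (X - Y - n c)`; hence `m X ≤ 2 Σ`.  `K ≤ 4 a m`: `n K ≤ a X < a (4 n s)`.  (Compare `Arith_sum` in
NLC/Arith.)  `T_low`: `X = R / 2`, `Y = n (K-1)`, weight `m`: `m K ≤ 2 (m V + m M) + m ≤ 123 R`,
`R ≤ 3 (R / 2)` (`R ≥ m = n ^ 2 ≥ 2`), `n (n (K-1)) ≤ 123 R`, so `12 n (K-1) ≤ R` for `n ≥ 1476`; `a = 369`.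
-/

namespace Pool.Agent.NLK

open Finset

theorem sum_low {X Y n K a : ℕ} (hn : 1 ≤ n) (hK : 1 ≤ K) (ha : 1 ≤ a) (hY : 4 * Y ≤ X)
    (h : n * K ≤ a * X) : K * X ≤ 16 * a * ∑ c ∈ range K, (X - Y - n * c) := by
  obtain ⟨m, hm⟩ : ∃ m, m = min K (X / (4 * n) + 1) := ⟨_, rfl⟩
  have hmK : m ≤ K := by rw [hm]; exact min_le_left _ _
  obtain ⟨Sg, hSg⟩ : ∃ Sg, Sg = ∑ c ∈ range K, (X - Y - n * c) := ⟨_, rfl⟩
  have h3 : m * X ≤ 2 * Sg := by
    rw [hSg, Finset.mul_sum]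
    have h4 : ∑ c ∈ range m, 2 * (X - Y - n * c) ≤ ∑ c ∈ range K, 2 * (X - Y - n * c) :=
      Finset.sum_le_sum_of_subset (Finset.range_subset_range.2 hmK)
    refine le_trans ?_ h4
    have h5 : ∀ c ∈ range m, X ≤ 2 * (X - Y - n * c) := by
      intro c hc
      rw [Finset.mem_range] at hc
      have h6 : c ≤ X / (4 * n) := by
        have : m ≤ X / (4 * n) + 1 := by rw [hm]; exact min_le_right _ _
        omega
      have h7 : 4 * n * c ≤ X := le_trans (Nat.mul_le_mul_left _ h6) (Nat.mul_div_le _ _)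
      rw [mul_assoc] at h7
      omega
    have h8 := Finset.card_nsmul_le_sum (range m) (fun c => 2 * (X - Y - n * c)) X h5
    rw [Finset.card_range, smul_eq_mul] at h8
    exact h8
  have h9 : K ≤ 4 * a * m := by
    rcases le_total K (X / (4 * n) + 1) with h' | h'
    · rw [min_eq_left h'] at hm
      rw [hm]
      exact Nat.le_mul_of_pos_left _ (by omega)
    · rw [min_eq_right h'] at hm
      have h10 : X < 4 * n * (X / (4 * n) + 1) := Nat.lt_mul_div_succ X (by omega)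
      rw [← hm] at h10
      have h11 : n * K ≤ n * (4 * a * m) := by
        calc n * K ≤ a * X := h
          _ ≤ a * (4 * n * m) := Nat.mul_le_mul_left _ h10.le
          _ = n * (4 * a * m) := by ring
      exact Nat.le_of_mul_le_mul_left h11 (by omega)
  rw [← hSg]
  calc K * X ≤ 4 * a * m * X := Nat.mul_le_mul_right _ h9
    _ = 4 * a * (m * X) := by ring
    _ ≤ 4 * a * (2 * Sg) := Nat.mul_le_mul_left _ h3
    _ = 8 * a * Sg := by ring
    _ ≤ 16 * a * Sg := Nat.mul_le_mul_right _ (by omega)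

theorem T_low {p : Par} (F : Facts p) (hm : p.m = p.n ^ 2) (hn : 1476 ≤ p.n) {K : ℕ} (hK : 1 ≤ K)
    (hK2 : K ≤ 2 * (p.V + p.M) + 1) :
    K * p.R ≤ 20000 * ∑ e ∈ range K, (p.R / 2 - p.n * (K - 1) - p.m * e) := by
  have hV := F.V1
  have hM := F.M1
  have hmR := F.n2
  have hR2 : 2 ≤ p.R := by
    have h1 : 2 ≤ p.n ^ 2 := by nlinarith
    omega
  have h1 : p.m * K ≤ 123 * p.R := by
    calc p.m * K ≤ p.m * (2 * (p.V + p.M) + 1) := Nat.mul_le_mul_left _ hK2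
      _ = 2 * (p.m * p.V + p.m * p.M) + p.m := by ring
      _ ≤ 123 * p.R := by omega
  have h2 : p.R ≤ 3 * (p.R / 2) := by omega
  have h3 : p.m * K ≤ 369 * (p.R / 2) := by omega
  have h4 : 4 * (p.n * (K - 1)) ≤ p.R / 2 := by
    have h5 : p.n * (p.n * (K - 1)) ≤ 123 * p.R := by
      calc p.n * (p.n * (K - 1)) = p.m * (K - 1) := by rw [hm]; ring
        _ ≤ p.m * K := Nat.mul_le_mul_left _ (Nat.sub_le _ _)
        _ ≤ 123 * p.R := h1
    have h6 : 1476 * (p.n * (K - 1)) ≤ p.n * (p.n * (K - 1)) := Nat.mul_le_mul_right _ hn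
    omega
  have h7 := sum_low (X := p.R / 2) (Y := p.n * (K - 1)) (n := p.m) (K := K) (a := 369) F.n4 hK
    (by norm_num) h4 h3
  obtain ⟨Sg, hSg⟩ : ∃ Sg, Sg = ∑ e ∈ range K, (p.R / 2 - p.n * (K - 1) - p.m * e) := ⟨_, rfl⟩
  rw [← hSg] at h7 ⊢
  calc K * p.R ≤ K * (3 * (p.R / 2)) := Nat.mul_le_mul_left _ h2
    _ = 3 * (K * (p.R / 2)) := by ring
    _ ≤ 20000 * Sg := by omega

end Pool.Agent.NLK
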