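import Pool.Agent.NLC.NBd
import Pool.Agent.NLC.Phi

/-!
# NLK: exponent 3 and length `p ^ 3` in the Nagell-Ljunggren equation - definitions

`z` is the base, `w = z ^ n`, `v = z ^ m` (`m = n ^ 2` in the application), `t` an integer with
`t ^ 3 (z-1) ^ 2 (v - 1) = (w - 1) ^ 2 (z ^ N - 1)`, `3 J + 2 + m = N + 2 n` (`N = n ^ 3`).
`T(z, w, v) = z ^ J (1 - 1/z) ^ (-2/3) (1 - 1/w) ^ (2/3) (1 - 1/v) ^ (-1/3)`.
Form `G = A T + B0`, `A = ∑ A i β γ z ^ (P-1-i - n β - m γ) w ^ β v ^ γ`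
(`i < P`, `β < B`, `γ < V`).  Three-variable version of Pool/Agent/NLC (`q = 3`, `h = 2`).
-/

namespace Pool.Agent.NLK

open Finset Polynomial
open Pool.Agent.NLG (KZ kap)

/-- The parameters: `n`, `m`, `J`; the numbers `P`, `B`, `V` of powers of `z`, `w`, `v` in `A`, the order
`R` of smallness at infinity; the powers `w ^ (-L)` and `v ^ (-M)` may occur. -/
structure Par where
  n : ℕ
  m : ℕ
  J : ℕ
  P : ℕ
  R : ℕ
  B : ℕ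
  L : ℕ
  V : ℕ
  M : ℕ

/-- The number of non-negative weights. -/
def Par.S (p : Par) : ℕ := p.P + p.J

/-- The total order. -/
def Par.Q (p : Par) : ℕ := p.P + p.J + p.R

/-- The factor of `A i β γ` in `gZ`. -/
noncomputable def mZ (p : Par) (r j k i β γ : ℕ) : ℤ :=
  if j ≤ β + p.L ∧ k ≤ γ + p.M ∧ i + p.n * (β + p.L - j) + p.m * (γ + p.M - k) ≤ r then
    KZ 3 (-2) (r - i - p.n * (β + p.L - j) - p.m * (γ + p.M - k)) * KZ 3 2 (β + p.L - j) *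
      KZ 3 (-1) (γ + p.M - k) *
      9 ^ (p.Q - (r - i - p.n * (β + p.L - j) - p.m * (γ + p.M - k)) - (β + p.L - j) -
        (γ + p.M - k))
  else 0

/-- The coefficient of `z ^ (ρ - n b - m c) w ^ b v ^ c`, `ρ = S - 1 - r`, `b = j - L`, `c = k - M`, in
`9 ^ Q A T`. -/
noncomputable def gZ (p : Par) (A : ℕ → ℕ → ℕ → ℤ) (r j k : ℕ) : ℤ :=
  ∑ i ∈ range p.P, ∑ β ∈ range p.B, ∑ γ ∈ range p.V, mZ p r j k i β γ * A i β γ

/-- `9 ^ l` times the coefficient of `τ ^ l` in `(x(τ)/x) ^ (a/3) ((x(τ)-1)/(x-1)) ^ (b/3)`,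
`x(τ) = x (1 - (x-1) τ)`. -/
noncomputable def EE (a b x : ℤ) (l : ℕ) : ℤ :=
  ∑ k ∈ range (l + 1), KZ 3 a k * (x - 1) ^ k * (KZ 3 b (l - k) * x ^ (l - k))

/-- The part of the value of the derivative with `t`. -/
noncomputable def vA (p : Par) (A : ℕ → ℕ → ℕ → ℤ) (z w v : ℤ) (l₁ l₂ l₃ : ℕ) : ℤ :=
  ∑ i ∈ range p.P, ∑ β ∈ range p.B, ∑ γ ∈ range p.V,
    A i β γ * 9 ^ p.Q * z ^ (p.P - 1 - i) *
      EE (3 * (((p.P - 1 - i : ℕ) : ℤ) - p.n * β - p.m * γ + p.J) + 2) (-2) z l₁ *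
      EE (3 * β - 2) 2 w l₂ * EE (3 * γ + 1) (-1) v l₃

/-- The polynomial part (with the opposite sign). -/
noncomputable def vB (p : Par) (A : ℕ → ℕ → ℕ → ℤ) (z w v : ℤ) (l₁ l₂ l₃ : ℕ) : ℤ :=
  ∑ r ∈ range p.S, ∑ j ∈ range (p.B + p.L), ∑ k ∈ range (p.V + p.M),
    gZ p A r j k * z ^ (p.S - 1 - r) *
    (KZ 3 (3 * (((p.S - 1 - r : ℕ) : ℤ) - p.n * ((j : ℤ) - p.L) - p.m * ((k : ℤ) - p.M))) l₁ *
      (z - 1) ^ l₁) *
    (KZ 3 (3 * ((j : ℤ) - p.L)) l₂ * (w - 1) ^ l₂) *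
    (KZ 3 (3 * ((k : ℤ) - p.M)) l₃ * (v - 1) ^ l₃)

/-- `9 ^ (l₁ + l₂ + l₃)` times the coefficient of `τ ^ l₁ σ ^ l₂ υ ^ l₃` of the form at the point. -/
noncomputable def vv (p : Par) (A : ℕ → ℕ → ℕ → ℤ) (z w v t : ℤ) (l₁ l₂ l₃ : ℕ) : ℤ :=
  t * vA p A z w v l₁ l₂ l₃ - vB p A z w v l₁ l₂ l₃

/-- `9 ^ Q A` times `z ^ (n (B-1) + m (V-1)) w ^ L v ^ M`, a polynomial in `z` (outer), `w` (middle) and
`v` (inner variable). -/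
noncomputable def AP (p : Par) (A : ℕ → ℕ → ℕ → ℤ) : ℤ[X][X][X] :=
  ∑ i ∈ range p.P, ∑ β ∈ range p.B, ∑ γ ∈ range p.V,
    monomial (p.P - 1 - i + p.n * (p.B - 1 - β) + p.m * (p.V - 1 - γ))
      (monomial (β + p.L) (monomial (γ + p.M) (9 ^ p.Q * A i β γ)))

/-- The polynomial part, times `z ^ (n (B-1) + m (V-1)) w ^ L v ^ M`. -/
noncomputable def BP (p : Par) (A : ℕ → ℕ → ℕ → ℤ) : ℤ[X][X][X] :=
  - ∑ r ∈ range p.S, ∑ j ∈ range (p.B + p.L), ∑ k ∈ range (p.V + p.M),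
    monomial (p.S - 1 - r + p.n * (p.B + p.L - 1 - j) + p.m * (p.V + p.M - 1 - k))
      (monomial j (monomial k (gZ p A r j k)))

/-- The Wronskian (with respect to `z`) of `A T` and `B0`, divided by `T`. -/
noncomputable def NN (p : Par) (A : ℕ → ℕ → ℕ → ℤ) : ℤ[X][X][X] :=
  C (C (C 3)) * (X * (X - 1)) * (BP p A * derivative (AP p A) - AP p A * derivative (BP p A)) +
    AP p A * BP p A * (C (C (C (3 * (p.J : ℤ)))) * (X - 1) - C (C (C 2)))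

/-- `∑ i ^ a j ^ b k ^ c N_ijk z ^ i w ^ j v ^ k` for `N = ∑ N_ijk z ^ i w ^ j v ^ k`. -/
noncomputable def mom (z w v : ℤ) (N : ℤ[X][X][X]) (a b c : ℕ) : ℤ :=
  N.sum fun i f => (i : ℤ) ^ a * z ^ i * NLC.mom w v f b c

/-- The sum of the absolute values of the coefficients. -/
noncomputable def nrm (N : ℤ[X][X][X]) : ℤ := N.sum fun _ f => NLC.nrm f

/-- The real number `T` at the point. -/
noncomputable def TT (p : Par) (z : ℝ) : ℝ :=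
  z ^ p.J * (1 - 1 / z) ^ (-2 / 3 : ℝ) * (1 - 1 / z ^ p.n) ^ (2 / 3 : ℝ) *
    (1 - 1 / z ^ p.m) ^ (-1 / 3 : ℝ)

/-- The term `x` of the expansion at infinity of the derivative of one monomial. -/
noncomputable def FF (p : Par) (z l₁ l₂ l₃ a β γ : ℕ) (x : ℕ × ℕ × ℕ) : ℝ :=
  (kap (-2 / 3) x.1 : ℝ) * (kap (2 / 3) x.2.1 : ℝ) * (kap (-1 / 3) x.2.2 : ℝ) *
    ((kap (((a : ℤ) - p.n * β - p.m * γ + p.J - x.1 : ℤ) : ℚ) l₁ : ℝ) *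
      (kap (((β : ℤ) - x.2.1 : ℤ) : ℚ) l₂ : ℝ) * (kap (((γ : ℤ) - x.2.2 : ℤ) : ℚ) l₃ : ℝ) *
      (z : ℝ) ^ ((a : ℤ) + p.J - x.1 - p.n * x.2.1 - p.m * x.2.2))

/-- The value of the derivative of the monomial `z ^ (ρ - n b - m c) w ^ b v ^ c`. -/
noncomputable def KK (p : Par) (z l₁ l₂ l₃ r j k : ℕ) : ℝ :=
  (kap (((p.S : ℤ) - 1 - r - p.n * ((j : ℤ) - p.L) - p.m * ((k : ℤ) - p.M) : ℤ) : ℚ) l₁ : ℝ) *
    (kap (((j : ℤ) - p.L : ℤ) : ℚ) l₂ : ℝ) * (kap (((k : ℤ) - p.M : ℤ) : ℚ) l₃ : ℝ) *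
    (z : ℝ) ^ ((p.S : ℤ) - 1 - r)

/-- The choice of the parameters. -/
structure Good (p : Par) : Prop where
  hn : 61 ≤ p.n
  hm : p.m = p.n ^ 2
  hJ : 3 * p.J + 2 + p.m = p.n ^ 3 + 2 * p.n
  hR : p.R = p.n ^ 3 / 60
  hP : p.P = 8 * p.R
  hL : p.L = p.Q / p.n
  hB : p.B = p.L + 1
  hM : p.M = p.Q / p.m
  hV : p.V = p.M + 1

/-- Consequences of `Good`. -/
structure Facts (p : Par) : Prop where
  R1 : 1 ≤ p.R
  N1 : 60 * p.R ≤ p.n ^ 3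
  N2 : p.n ^ 3 ≤ 61 * p.R
  P1 : p.P = 8 * p.R
  J1 : p.J ≤ 21 * p.R
  S1 : p.S ≤ 29 * p.R
  Q1 : p.Q ≤ 30 * p.R
  Q2 : p.P + p.J + p.R ≤ p.n ^ 3
  L1 : p.n * p.L ≤ 30 * p.R
  L2 : p.Q < p.n * (p.L + 1)
  B1 : p.n * p.B ≤ 31 * p.R
  B2 : p.B = p.L + 1
  M1 : p.m * p.M ≤ 30 * p.R
  M2 : p.Q < p.m * (p.M + 1)
  V1 : p.m * p.V ≤ 31 * p.R
  V2 : p.V = p.M + 1
  n1 : p.n ≤ p.m
  n2 : p.m ≤ p.R
  n3 : 1 ≤ p.n
  n4 : 1 ≤ p.m

theorem Good.facts {p : Par} (g : Good p) : Facts p := by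
  obtain ⟨hn, hm, hJ, hR, hP, hL, hB, hM, hV⟩ := g
  have e2 : p.n ^ 2 = p.n * p.n := by ring
  have e3 : p.n ^ 3 = p.n * (p.n * p.n) := by ring
  have hm' : p.m = p.n * p.n := by rw [hm, e2]
  have h1 : 61 * p.n ≤ p.n * p.n := Nat.mul_le_mul_right _ hn
  have h2 : 61 * (p.n * p.n) ≤ p.n ^ 3 := by
    rw [e3]
    exact Nat.mul_le_mul_right _ hn
  have h0 : 61 * 61 ≤ p.n * p.n := Nat.mul_le_mul hn hn
  have hR1 : 60 * p.R ≤ p.n ^ 3 := by omega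
  have hR2 : p.n ^ 3 < 60 * (p.R + 1) := by omega
  have hR3 : p.n ^ 3 ≤ 61 * p.R := by omega
  have hmR : p.m ≤ p.R := by omega
  have hnm : p.n ≤ p.m := by omega
  have hQ : p.Q = p.P + p.J + p.R := rfl
  have hS : p.S = p.P + p.J := rfl
  have hJ3 : p.J ≤ 21 * p.R := by omega
  have hS1 : p.S ≤ 29 * p.R := by omega
  have hQ1 : p.Q ≤ 30 * p.R := by omega
  have hnL : p.n * p.L ≤ p.Q := by
    rw [hL]
    exact Nat.mul_div_le _ _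
  have hnL2 : p.Q < p.n * (p.L + 1) := by
    rw [hL]
    exact Nat.lt_mul_div_succ _ (by omega)
  have hmM : p.m * p.M ≤ p.Q := by
    rw [hM]
    exact Nat.mul_div_le _ _
  have hmM2 : p.Q < p.m * (p.M + 1) := by
    rw [hM]
    exact Nat.lt_mul_div_succ _ (by omega)
  have hnB : p.n * p.B = p.n * p.L + p.n := by rw [hB, Nat.mul_add, Nat.mul_one]
  have hmV : p.m * p.V = p.m * p.M + p.m := by rw [hV, Nat.mul_add, Nat.mul_one]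
  exact ⟨by omega, hR1, hR3, hP, hJ3, hS1, hQ1, by omega, by omega, hnL2, by omega, hB,
    by omega, hmM2, by omega, hV, hnm, hmR, by omega, by omega⟩

/-! ### `KZ 3` -/

theorem KZ3_cast (j : ℤ) (k : ℕ) : (KZ 3 j k : ℚ) = 9 ^ k * kap ((j : ℚ) / 3) k := by
  have h := Pool.Agent.NLG.KZ_cast (q := 3) (by norm_num) j k
  rw [h, pow_mul]
  norm_num

theorem KZ3_castR (j : ℤ) (k : ℕ) : (KZ 3 j k : ℝ) = 9 ^ k * ((kap ((j : ℚ) / 3) k : ℚ) : ℝ) := by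
  have h := congrArg (fun x : ℚ => (x : ℝ)) (KZ3_cast j k)
  push_cast at h
  exact h

theorem KZ3_zero (j : ℤ) : KZ 3 j 0 = 1 := Pool.Agent.NLG.KZ_zero_right (by norm_num) j

theorem abs_KZ3_le {j : ℤ} (hj : |j| ≤ 3) (k : ℕ) : |KZ 3 j k| ≤ 9 ^ k := by
  have h := Pool.Agent.NLG.abs_KZ_le (q := 3) (by norm_num) (j := j) (by exact_mod_cast hj) k
  rw [pow_mul] at h
  norm_num at h
  exact h

end Pool.Agent.NLK
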