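import Pool.Agent.NLK.Defs

/-!
# NLK-Deg: the degrees of `NN`

PLAN.  As `natDegree_NN`, `natDegree_coeff_NN` in `Pool/Agent/NLC/NBd.lean` (private `nbd_AP_deg`, `nbd_BP_deg`,
`NBdIn` and its lemmas).  For the inner degrees use predicates `∀ i, (F.coeff i).natDegree ≤ a` and
`∀ i j, ((F.coeff i).coeff j).natDegree ≤ a`, stable under `+`, `-`, `*` (`a + b`), derivative, monomials, sums.
`natDegree AP ≤ P + n B + m V`, `natDegree BP ≤ S + n (B+L) + m (V+M)`; middle degrees `≤ B + L`, inner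
degrees `≤ V + M`.
-/

namespace Pool.Agent.NLK

open Finset Polynomial

private structure deg_Fam {R : Type*} [CommRing R] (P : ℕ → R → Prop) : Prop where
  zero : ∀ a, P a 0
  add : ∀ a x y, P a x → P a y → P a (x + y)
  neg : ∀ a x, P a x → P a (-x)
  mul : ∀ a b x y, P a x → P b y → P (a + b) (x * y)
  one : P 0 1

private theorem deg_sub {R : Type*} [CommRing R] {P : ℕ → R → Prop} (h : deg_Fam P) (a : ℕ)
    (x y : R) (hx : P a x) (hy : P a y) : P a (x - y) := by
  rw [sub_eq_add_neg]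
  exact h.add a _ _ hx (h.neg a _ hy)

private theorem deg_sum {R : Type*} [CommRing R] {P : ℕ → R → Prop} (h : deg_Fam P) {ι : Type*}
    (a : ℕ) (s : Finset ι) (f : ι → R) (hf : ∀ i ∈ s, P a (f i)) : P a (∑ i ∈ s, f i) := by
  classical
  induction s using Finset.induction_on with
  | empty => rw [sum_empty]; exact h.zero a
  | insert i s his ih =>
    rw [sum_insert his]
    exact h.add a _ _ (hf i (mem_insert_self i s)) (ih fun j hj => hf j (mem_insert_of_mem hj))

private theorem deg_natCast {R : Type*} [CommRing R] {P : ℕ → R → Prop} (h : deg_Fam P) (n : ℕ) :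
    P 0 (n : R) := by
  induction n with
  | zero => rw [Nat.cast_zero]; exact h.zero 0
  | succ n ih => rw [Nat.cast_succ]; exact h.add 0 _ _ ih h.one

private def deg_up {R : Type*} [CommRing R] (P : ℕ → R → Prop) (a : ℕ) (F : R[X]) : Prop :=
  ∀ i, P a (F.coeff i)

private theorem deg_up_fam {R : Type*} [CommRing R] {P : ℕ → R → Prop} (h : deg_Fam P) :
    deg_Fam (deg_up P) where
  zero a i := by rw [coeff_zero]; exact h.zero a
  add a x y hx hy i := by rw [coeff_add]; exact h.add a _ _ (hx i) (hy i)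
  neg a x hx i := by rw [coeff_neg]; exact h.neg a _ (hx i)
  mul a b x y hx hy i := by
    rw [coeff_mul]
    exact deg_sum h _ _ _ fun p _ => h.mul a b _ _ (hx _) (hy _)
  one i := by
    rw [coeff_one]
    split
    · exact h.one
    · exact h.zero 0

private theorem deg_up_der {R : Type*} [CommRing R] {P : ℕ → R → Prop} (h : deg_Fam P) (a : ℕ)
    (F : R[X]) (hF : deg_up P a F) : deg_up P a (derivative F) := by
  intro i
  rw [coeff_derivative]
  have h1 := deg_natCast h (i + 1)
  rw [Nat.cast_succ] at h1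
  have h2 := h.mul a 0 _ _ (hF (i + 1)) h1
  rwa [add_zero] at h2

private theorem deg_up_mono {R : Type*} [CommRing R] {P : ℕ → R → Prop} (h : deg_Fam P) (a n : ℕ)
    (x : R) (hx : P a x) : deg_up P a (monomial n x) := by
  intro i
  rw [coeff_monomial]
  split
  · exact hx
  · exact h.zero a

private theorem deg_up_C {R : Type*} [CommRing R] {P : ℕ → R → Prop} (h : deg_Fam P) (a : ℕ)
    (x : R) (hx : P a x) : deg_up P a (C x) := by
  intro i
  rw [coeff_C]
  split
  · exact hx
  · exact h.zero a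

private theorem deg_up_X {R : Type*} [CommRing R] {P : ℕ → R → Prop} (h : deg_Fam P) :
    deg_up P 0 (X : R[X]) := by
  intro i
  rw [coeff_X]
  split
  · exact h.one
  · exact h.zero 0

private theorem deg_base (R : Type*) [CommRing R] :
    deg_Fam (fun a (x : R[X]) => x.natDegree ≤ a) where
  zero a := by simp
  add a x y hx hy := (natDegree_add_le x y).trans (max_le hx hy)
  neg a x hx := by rw [natDegree_neg]; exact hx
  mul a b x y hx hy := natDegree_mul_le.trans (Nat.add_le_add hx hy)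
  one := by simp


private theorem deg_NN_fam (p : Par) (A : ℕ → ℕ → ℕ → ℤ) {P : ℕ → ℤ[X][X][X] → Prop}
    (h : deg_Fam P) (hX : P 0 X) (hC : ∀ c : ℤ, P 0 (C (C (C c))))
    (hder : ∀ a F, P a F → P a (derivative F)) (a : ℕ) (hA : P a (AP p A)) (hB : P a (BP p A)) :
    P (a + a) (NN p A) := by
  have h1 : P 0 (X - 1 : ℤ[X][X][X]) := deg_sub h 0 _ _ hX h.one
  have h2 : P (a + a) (BP p A * derivative (AP p A) - AP p A * derivative (BP p A)) :=
    deg_sub h _ _ _ (h.mul a a _ _ hB (hder a _ hA)) (h.mul a a _ _ hA (hder a _ hB))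
  have h3 : P (0 + (0 + 0)) (C (C (C 3)) * (X * (X - 1)) : ℤ[X][X][X]) :=
    h.mul 0 _ _ _ (hC 3) (h.mul 0 0 _ _ hX h1)
  have h4 : P (0 + 0) (C (C (C (3 * (p.J : ℤ)))) * (X - 1) - C (C (C 2)) : ℤ[X][X][X]) :=
    deg_sub h _ _ _ (h.mul 0 0 _ _ (hC _) h1) (hC 2)
  have h5 := h.mul _ _ _ _ h3 h2
  have h6 := h.mul _ _ _ _ (h.mul a a _ _ hA hB) h4
  simp only [zero_add, add_zero] at h5 h6
  exact h.add _ _ _ h5 h6

theorem natDegree_AP (p : Par) (A : ℕ → ℕ → ℕ → ℤ) :
    (AP p A).natDegree ≤ p.P + p.n * p.B + p.m * p.V := by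
  unfold AP
  refine natDegree_sum_le_of_forall_le _ _ fun i hi => ?_
  refine natDegree_sum_le_of_forall_le _ _ fun β hβ => ?_
  refine natDegree_sum_le_of_forall_le _ _ fun γ hγ => ?_
  refine (natDegree_monomial_le _).trans ?_
  have h1 : p.n * (p.B - 1 - β) ≤ p.n * p.B := Nat.mul_le_mul_left _ (by omega)
  have h2 : p.m * (p.V - 1 - γ) ≤ p.m * p.V := Nat.mul_le_mul_left _ (by omega)
  omega

theorem natDegree_BP (p : Par) (A : ℕ → ℕ → ℕ → ℤ) :
    (BP p A).natDegree ≤ p.S + p.n * (p.B + p.L) + p.m * (p.V + p.M) := by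
  unfold BP
  rw [natDegree_neg]
  refine natDegree_sum_le_of_forall_le _ _ fun r hr => ?_
  refine natDegree_sum_le_of_forall_le _ _ fun j hj => ?_
  refine natDegree_sum_le_of_forall_le _ _ fun k hk => ?_
  refine (natDegree_monomial_le _).trans ?_
  have h1 : p.n * (p.B + p.L - 1 - j) ≤ p.n * (p.B + p.L) := Nat.mul_le_mul_left _ (by omega)
  have h2 : p.m * (p.V + p.M - 1 - k) ≤ p.m * (p.V + p.M) := Nat.mul_le_mul_left _ (by omega)
  omega

theorem natDegree_NN (p : Par) (A : ℕ → ℕ → ℕ → ℤ) :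
    (NN p A).natDegree ≤ p.P + p.S + p.n * (2 * p.B + p.L) + p.m * (2 * p.V + p.M) + 2 := by
  have hA := natDegree_AP p A
  have hB := natDegree_BP p A
  have hA' := natDegree_derivative_le (AP p A)
  have hB' := natDegree_derivative_le (BP p A)
  have e1 : p.P + p.S + p.n * (2 * p.B + p.L) + p.m * (2 * p.V + p.M) + 2 =
      (p.P + p.n * p.B + p.m * p.V) + (p.S + p.n * (p.B + p.L) + p.m * (p.V + p.M)) + 2 := by ring
  rw [e1]
  generalize p.P + p.n * p.B + p.m * p.V = DA at hA ⊢
  generalize p.S + p.n * (p.B + p.L) + p.m * (p.V + p.M) = DB at hB ⊢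
  have hX1 : (X - 1 : ℤ[X][X][X]).natDegree ≤ 1 := by
    refine (natDegree_sub_le _ _).trans (max_le natDegree_X_le ?_)
    rw [natDegree_one]
    exact Nat.zero_le _
  have h1 : (C (C (C 3)) * (X * (X - 1)) : ℤ[X][X][X]).natDegree ≤ 2 := by
    refine (natDegree_C_mul_le _ _).trans ?_
    exact natDegree_mul_le.trans (Nat.add_le_add natDegree_X_le hX1)
  have h2 : (BP p A * derivative (AP p A) - AP p A * derivative (BP p A)).natDegree ≤ DA + DB := by
    refine (natDegree_sub_le _ _).trans (max_le ?_ ?_)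
    · refine natDegree_mul_le.trans ?_
      omega
    · refine natDegree_mul_le.trans ?_
      omega
  have h3 : (AP p A * BP p A).natDegree ≤ DA + DB :=
    natDegree_mul_le.trans (Nat.add_le_add hA hB)
  have h4 : (C (C (C (3 * (p.J : ℤ)))) * (X - 1) - C (C (C 2)) : ℤ[X][X][X]).natDegree ≤ 1 := by
    refine (natDegree_sub_le _ _).trans (max_le ((natDegree_C_mul_le _ _).trans hX1) ?_)
    rw [natDegree_C]
    exact Nat.zero_le _
  unfold NN
  refine (natDegree_add_le _ _).trans (max_le ?_ ?_)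
  · refine natDegree_mul_le.trans ?_
    omega
  · refine natDegree_mul_le.trans ?_
    omega

theorem natDegree_coeff_NN (p : Par) (A : ℕ → ℕ → ℕ → ℤ) (i : ℕ) :
    ((NN p A).coeff i).natDegree ≤ 2 * (p.B + p.L) := by
  have hb := deg_base ℤ[X]
  have hA : deg_up (fun a (x : ℤ[X][X]) => x.natDegree ≤ a) (p.B + p.L) (AP p A) := by
    unfold AP
    refine deg_sum (deg_up_fam hb) _ _ _ fun i hi => ?_
    refine deg_sum (deg_up_fam hb) _ _ _ fun β hβ => ?_
    refine deg_sum (deg_up_fam hb) _ _ _ fun γ hγ => ?_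
    refine deg_up_mono hb _ _ _ ?_
    refine (natDegree_monomial_le _).trans ?_
    have := mem_range.1 hβ
    omega
  have hB : deg_up (fun a (x : ℤ[X][X]) => x.natDegree ≤ a) (p.B + p.L) (BP p A) := by
    unfold BP
    refine (deg_up_fam hb).neg _ _ ?_
    refine deg_sum (deg_up_fam hb) _ _ _ fun i hi => ?_
    refine deg_sum (deg_up_fam hb) _ _ _ fun j hj => ?_
    refine deg_sum (deg_up_fam hb) _ _ _ fun k hk => ?_
    refine deg_up_mono hb _ _ _ ?_
    refine (natDegree_monomial_le _).trans ?_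
    have := mem_range.1 hj
    omega
  have h := deg_NN_fam p A (deg_up_fam hb) (deg_up_X hb)
    (fun c => deg_up_C hb 0 _ (by rw [natDegree_C]))
    (fun a F hF => deg_up_der hb a F hF) _ hA hB
  have h1 := h i
  rw [← two_mul] at h1
  exact h1

theorem natDegree_coeff_coeff_NN (p : Par) (A : ℕ → ℕ → ℕ → ℤ) (i j : ℕ) :
    (((NN p A).coeff i).coeff j).natDegree ≤ 2 * (p.V + p.M) := by
  have hb := deg_base ℤ
  have hu := deg_up_fam hb
  have hA : deg_up (deg_up (fun a (x : ℤ[X]) => x.natDegree ≤ a)) (p.V + p.M) (AP p A) := by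
    unfold AP
    refine deg_sum (deg_up_fam hu) _ _ _ fun i hi => ?_
    refine deg_sum (deg_up_fam hu) _ _ _ fun β hβ => ?_
    refine deg_sum (deg_up_fam hu) _ _ _ fun γ hγ => ?_
    refine deg_up_mono hu _ _ _ (deg_up_mono hb _ _ _ ?_)
    refine (natDegree_monomial_le _).trans ?_
    have := mem_range.1 hγ
    omega
  have hB : deg_up (deg_up (fun a (x : ℤ[X]) => x.natDegree ≤ a)) (p.V + p.M) (BP p A) := by
    unfold BP
    refine (deg_up_fam hu).neg _ _ ?_
    refine deg_sum (deg_up_fam hu) _ _ _ fun i hi => ?_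
    refine deg_sum (deg_up_fam hu) _ _ _ fun j hj => ?_
    refine deg_sum (deg_up_fam hu) _ _ _ fun k hk => ?_
    refine deg_up_mono hu _ _ _ (deg_up_mono hb _ _ _ ?_)
    refine (natDegree_monomial_le _).trans ?_
    have := mem_range.1 hk
    omega
  have h := deg_NN_fam p A (deg_up_fam hu) (deg_up_X hu)
    (fun c => deg_up_C hu 0 _ (deg_up_C hb 0 _ (by rw [natDegree_C])))
    (fun a F hF => deg_up_der hu a F hF) _ hA hB
  have h1 := h i j
  rw [← two_mul] at h1
  exact h1

end Pool.Agent.NLK
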