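import Pool.Agent.NLK.Phi

/-!
# NLK-ElimB: the form times the unit

Three-variable version of `elim_G'` of `Pool/Agent/NLC/Elim.lean`: every monomial of the form is compared with its
expansion at the point (`phi_monomial`, `NLC.bs_mul`).
-/

namespace Pool.Agent.NLK

open Finset Polynomial
open Pool.Agent.NLG (KZ kap)
open Pool.Agent.NLC (bs wS)

private theorem elimb_mono (z w v : ℤ) (i j k : ℕ) (c : ℤ) :
    phi z w v (monomial i (monomial j (monomial k c))) =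
      cc ((c : ℚ) * (z : ℚ) ^ i * (w : ℚ) ^ j * (v : ℚ) ^ k) *
        (emZ (bs ((z : ℚ) - 1) i) * (emW (bs ((w : ℚ) - 1) j) * emV (bs ((v : ℚ) - 1) k))) := by
  rw [phi_monomial, map_mul emZ (PowerSeries.C _) (bs _ _), map_mul emW (PowerSeries.C _) (bs _ _),
    map_mul emV (PowerSeries.C _) (bs _ _), cc_emZ, cc_emW, cc_emV, map_mul cc _ ((v : ℚ) ^ k),
    map_mul cc _ ((w : ℚ) ^ j)]
  ring

private theorem elimb_Z (c e e' : ℚ) : emZ (bs c e) * emZ (bs c e') = emZ (bs c (e + e')) := by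
  rw [← map_mul, NLC.bs_mul]

private theorem elimb_W (c e e' : ℚ) : emW (bs c e) * emW (bs c e') = emW (bs c (e + e')) := by
  rw [← map_mul, NLC.bs_mul]

private theorem elimb_V (c e e' : ℚ) : emV (bs c e) * emV (bs c e') = emV (bs c (e + e')) := by
  rw [← map_mul, NLC.bs_mul]

private theorem elimb_pow {z w v : ℤ} {n m : ℕ} (hw : w = z ^ n) (hv : v = z ^ m)
    {u₁ v₁ s₁ u₂ v₂ s₂ a : ℕ} (h₁ : u₁ + v₁ = s₁) (h₂ : u₂ + v₂ = s₂) :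
    (z : ℚ) ^ (n * s₁ + m * s₂) * (z : ℚ) ^ a =
      (z : ℚ) ^ (a + n * u₁ + m * u₂) * (w : ℚ) ^ v₁ * (v : ℚ) ^ v₂ := by
  rw [hw, hv, ← h₁, ← h₂]
  push_cast
  rw [← pow_mul, ← pow_mul, ← pow_add, ← pow_add, ← pow_add]
  congr 1
  ring

private theorem elimb_A (p : Par) (hB : 1 ≤ p.B) (hV : 1 ≤ p.V) (A : ℕ → ℕ → ℕ → ℤ) {z w v : ℤ}
    (hw : w = z ^ p.n) (hv : v = z ^ p.m) {i β γ : ℕ} (hβ : β < p.B) (hγ : γ < p.V) :
    UU p z w v * (cc ((A i β γ : ℚ) * 9 ^ p.Q * (z : ℚ) ^ (p.P - 1 - i)) *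
      (emZ (bs ((z : ℚ) - 1) (((p.P - 1 - i : ℕ) : ℚ) - p.n * β - p.m * γ + p.J + 2 / 3) *
          bs (z : ℚ) (-2 / 3)) *
        (emW (bs ((w : ℚ) - 1) ((β : ℚ) - 2 / 3) * bs (w : ℚ) (2 / 3)) *
          emV (bs ((v : ℚ) - 1) ((γ : ℚ) + 1 / 3) * bs (v : ℚ) (-1 / 3))))) =
      phi z w v (monomial (p.P - 1 - i + p.n * (p.B - 1 - β) + p.m * (p.V - 1 - γ))
        (monomial (β + p.L) (monomial (γ + p.M) (9 ^ p.Q * A i β γ)))) * Th p z w v := by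
  have hβ2 : ((p.B - 1 - β : ℕ) : ℚ) = (p.B : ℚ) - 1 - β := by
    rw [Nat.cast_sub (by omega), Nat.cast_sub hB, Nat.cast_one]
  have hγ2 : ((p.V - 1 - γ : ℕ) : ℚ) = (p.V : ℚ) - 1 - γ := by
    rw [Nat.cast_sub (by omega), Nat.cast_sub hV, Nat.cast_one]
  rw [elimb_mono, UU, Th, map_mul emZ (bs _ _), map_mul emZ (bs _ _), map_mul emW (bs _ _),
    map_mul emW (bs _ _), map_mul emV (bs _ _), map_mul emV (bs _ _)]
  have hk : emZ (bs ((z : ℚ) - 1) (p.n * ((p.B : ℚ) - 1) + p.m * ((p.V : ℚ) - 1))) *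
      emZ (bs ((z : ℚ) - 1) (((p.P - 1 - i : ℕ) : ℚ) - p.n * β - p.m * γ + p.J + 2 / 3)) =
      emZ (bs ((z : ℚ) - 1)
        ((p.P - 1 - i + p.n * (p.B - 1 - β) + p.m * (p.V - 1 - γ) : ℕ) : ℚ)) *
        emZ (bs ((z : ℚ) - 1) ((p.J : ℚ) + 2 / 3)) := by
    rw [elimb_Z, elimb_Z]
    congr 2
    rw [Nat.cast_add, Nat.cast_add, Nat.cast_mul, Nat.cast_mul, hβ2, hγ2]
    ring
  have hkw : emW (bs ((w : ℚ) - 1) p.L) * emW (bs ((w : ℚ) - 1) ((β : ℚ) - 2 / 3)) =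
      emW (bs ((w : ℚ) - 1) ((β + p.L : ℕ) : ℚ)) * emW (bs ((w : ℚ) - 1) (-2 / 3)) := by
    rw [elimb_W, elimb_W]
    congr 2
    rw [Nat.cast_add]
    ring
  have hkv : emV (bs ((v : ℚ) - 1) p.M) * emV (bs ((v : ℚ) - 1) ((γ : ℚ) + 1 / 3)) =
      emV (bs ((v : ℚ) - 1) ((γ + p.M : ℕ) : ℚ)) * emV (bs ((v : ℚ) - 1) (1 / 3)) := by
    rw [elimb_V, elimb_V]
    congr 2
    rw [Nat.cast_add]
    ring
  have hc : cc ((z : ℚ) ^ (p.n * (p.B - 1 + p.L) + p.m * (p.V - 1 + p.M))) *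
      cc ((A i β γ : ℚ) * 9 ^ p.Q * (z : ℚ) ^ (p.P - 1 - i)) =
      cc (((9 ^ p.Q * A i β γ : ℤ) : ℚ) *
        (z : ℚ) ^ (p.P - 1 - i + p.n * (p.B - 1 - β) + p.m * (p.V - 1 - γ)) *
        (w : ℚ) ^ (β + p.L) * (v : ℚ) ^ (γ + p.M)) := by
    rw [← map_mul]
    congr 1
    have h2 := elimb_pow (a := p.P - 1 - i) hw hv
      (show (p.B - 1 - β) + (β + p.L) = p.B - 1 + p.L by omega)
      (show (p.V - 1 - γ) + (γ + p.M) = p.V - 1 + p.M by omega)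
    push_cast
    linear_combination (A i β γ : ℚ) * 9 ^ p.Q * h2
  rw [← hc]
  linear_combination
    (cc ((z : ℚ) ^ (p.n * (p.B - 1 + p.L) + p.m * (p.V - 1 + p.M))) *
      cc ((A i β γ : ℚ) * 9 ^ p.Q * (z : ℚ) ^ (p.P - 1 - i)) * emZ (bs (z : ℚ) (-2 / 3)) *
      emW (bs (w : ℚ) (2 / 3)) * emV (bs (v : ℚ) (-1 / 3)) *
      (emW (bs ((w : ℚ) - 1) p.L) * emW (bs ((w : ℚ) - 1) ((β : ℚ) - 2 / 3))) *
      (emV (bs ((v : ℚ) - 1) p.M) * emV (bs ((v : ℚ) - 1) ((γ : ℚ) + 1 / 3)))) * hk +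
    (cc ((z : ℚ) ^ (p.n * (p.B - 1 + p.L) + p.m * (p.V - 1 + p.M))) *
      cc ((A i β γ : ℚ) * 9 ^ p.Q * (z : ℚ) ^ (p.P - 1 - i)) * emZ (bs (z : ℚ) (-2 / 3)) *
      emW (bs (w : ℚ) (2 / 3)) * emV (bs (v : ℚ) (-1 / 3)) *
      (emZ (bs ((z : ℚ) - 1)
        ((p.P - 1 - i + p.n * (p.B - 1 - β) + p.m * (p.V - 1 - γ) : ℕ) : ℚ)) *
        emZ (bs ((z : ℚ) - 1) ((p.J : ℚ) + 2 / 3))) *
      (emV (bs ((v : ℚ) - 1) p.M) * emV (bs ((v : ℚ) - 1) ((γ : ℚ) + 1 / 3)))) * hkw +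
    (cc ((z : ℚ) ^ (p.n * (p.B - 1 + p.L) + p.m * (p.V - 1 + p.M))) *
      cc ((A i β γ : ℚ) * 9 ^ p.Q * (z : ℚ) ^ (p.P - 1 - i)) * emZ (bs (z : ℚ) (-2 / 3)) *
      emW (bs (w : ℚ) (2 / 3)) * emV (bs (v : ℚ) (-1 / 3)) *
      (emZ (bs ((z : ℚ) - 1)
        ((p.P - 1 - i + p.n * (p.B - 1 - β) + p.m * (p.V - 1 - γ) : ℕ) : ℚ)) *
        emZ (bs ((z : ℚ) - 1) ((p.J : ℚ) + 2 / 3))) *
      (emW (bs ((w : ℚ) - 1) ((β + p.L : ℕ) : ℚ)) * emW (bs ((w : ℚ) - 1) (-2 / 3)))) * hkv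

private theorem elimb_B (p : Par) (hB : 1 ≤ p.B) (hV : 1 ≤ p.V) (A : ℕ → ℕ → ℕ → ℤ) {z w v : ℤ}
    (hw : w = z ^ p.n) (hv : v = z ^ p.m) {r j k : ℕ} (hj : j < p.B + p.L) (hk : k < p.V + p.M) :
    UU p z w v * (cc ((gZ p A r j k : ℚ) * (z : ℚ) ^ (p.S - 1 - r)) *
      (emZ (bs ((z : ℚ) - 1)
          (((p.S - 1 - r : ℕ) : ℚ) - p.n * ((j : ℚ) - p.L) - p.m * ((k : ℚ) - p.M))) *
        (emW (bs ((w : ℚ) - 1) ((j : ℚ) - p.L)) * emV (bs ((v : ℚ) - 1) ((k : ℚ) - p.M))))) =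
      phi z w v (monomial (p.S - 1 - r + p.n * (p.B + p.L - 1 - j) + p.m * (p.V + p.M - 1 - k))
        (monomial j (monomial k (gZ p A r j k)))) := by
  have hj2 : ((p.B + p.L - 1 - j : ℕ) : ℚ) = (p.B : ℚ) + p.L - 1 - j := by
    rw [Nat.cast_sub (by omega), Nat.cast_sub (by omega), Nat.cast_one, Nat.cast_add]
  have hk2 : ((p.V + p.M - 1 - k : ℕ) : ℚ) = (p.V : ℚ) + p.M - 1 - k := by
    rw [Nat.cast_sub (by omega), Nat.cast_sub (by omega), Nat.cast_one, Nat.cast_add]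
  rw [elimb_mono, UU]
  have hkz : emZ (bs ((z : ℚ) - 1) (p.n * ((p.B : ℚ) - 1) + p.m * ((p.V : ℚ) - 1))) *
      emZ (bs ((z : ℚ) - 1)
        (((p.S - 1 - r : ℕ) : ℚ) - p.n * ((j : ℚ) - p.L) - p.m * ((k : ℚ) - p.M))) =
      emZ (bs ((z : ℚ) - 1)
        ((p.S - 1 - r + p.n * (p.B + p.L - 1 - j) + p.m * (p.V + p.M - 1 - k) : ℕ) : ℚ)) := by
    rw [elimb_Z]
    congr 2
    rw [Nat.cast_add, Nat.cast_add, Nat.cast_mul, Nat.cast_mul, hj2, hk2]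
    ring
  have hkw : emW (bs ((w : ℚ) - 1) p.L) * emW (bs ((w : ℚ) - 1) ((j : ℚ) - p.L)) =
      emW (bs ((w : ℚ) - 1) (j : ℚ)) := by
    rw [elimb_W]
    congr 2
    ring
  have hkv : emV (bs ((v : ℚ) - 1) p.M) * emV (bs ((v : ℚ) - 1) ((k : ℚ) - p.M)) =
      emV (bs ((v : ℚ) - 1) (k : ℚ)) := by
    rw [elimb_V]
    congr 2
    ring
  have hc : cc ((z : ℚ) ^ (p.n * (p.B - 1 + p.L) + p.m * (p.V - 1 + p.M))) *
      cc ((gZ p A r j k : ℚ) * (z : ℚ) ^ (p.S - 1 - r)) =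
      cc ((gZ p A r j k : ℚ) *
        (z : ℚ) ^ (p.S - 1 - r + p.n * (p.B + p.L - 1 - j) + p.m * (p.V + p.M - 1 - k)) *
        (w : ℚ) ^ j * (v : ℚ) ^ k) := by
    rw [← map_mul]
    congr 1
    have h2 := elimb_pow (a := p.S - 1 - r) hw hv
      (show (p.B + p.L - 1 - j) + j = p.B - 1 + p.L by omega)
      (show (p.V + p.M - 1 - k) + k = p.V - 1 + p.M by omega)
    linear_combination (gZ p A r j k : ℚ) * h2
  rw [← hc, ← hkz, ← hkw, ← hkv]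
  ring

theorem UU_GG (p : Par) (hB : 1 ≤ p.B) (hV : 1 ≤ p.V) (A : ℕ → ℕ → ℕ → ℤ) {z w v : ℤ} (t : ℤ)
    (hw : w = z ^ p.n) (hv : v = z ^ p.m) : UU p z w v * GG p A z w v t =
      cc (t : ℚ) * phi z w v (AP p A) * Th p z w v + phi z w v (BP p A) := by
  have h1 : UU p z w v * (∑ i ∈ range p.P, ∑ β ∈ range p.B, ∑ γ ∈ range p.V,
      cc ((A i β γ : ℚ) * 9 ^ p.Q * (z : ℚ) ^ (p.P - 1 - i)) *
      (emZ (bs ((z : ℚ) - 1) (((p.P - 1 - i : ℕ) : ℚ) - p.n * β - p.m * γ + p.J + 2 / 3) *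
          bs (z : ℚ) (-2 / 3)) *
        (emW (bs ((w : ℚ) - 1) ((β : ℚ) - 2 / 3) * bs (w : ℚ) (2 / 3)) *
          emV (bs ((v : ℚ) - 1) ((γ : ℚ) + 1 / 3) * bs (v : ℚ) (-1 / 3))))) =
      phi z w v (AP p A) * Th p z w v := by
    rw [AP, map_sum, Finset.mul_sum, Finset.sum_mul]
    refine Finset.sum_congr rfl (fun i _ => ?_)
    rw [map_sum, Finset.mul_sum, Finset.sum_mul]
    refine Finset.sum_congr rfl (fun β hβ => ?_)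
    rw [map_sum, Finset.mul_sum, Finset.sum_mul]
    refine Finset.sum_congr rfl (fun γ hγ => ?_)
    exact elimb_A p hB hV A hw hv (Finset.mem_range.1 hβ) (Finset.mem_range.1 hγ)
  have h2 : UU p z w v * (∑ r ∈ range p.S, ∑ j ∈ range (p.B + p.L), ∑ k ∈ range (p.V + p.M),
      cc ((gZ p A r j k : ℚ) * (z : ℚ) ^ (p.S - 1 - r)) *
      (emZ (bs ((z : ℚ) - 1)
          (((p.S - 1 - r : ℕ) : ℚ) - p.n * ((j : ℚ) - p.L) - p.m * ((k : ℚ) - p.M))) *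
        (emW (bs ((w : ℚ) - 1) ((j : ℚ) - p.L)) * emV (bs ((v : ℚ) - 1) ((k : ℚ) - p.M))))) =
      - phi z w v (BP p A) := by
    rw [BP, map_neg (phi z w v), neg_neg, map_sum, Finset.mul_sum]
    refine Finset.sum_congr rfl (fun r _ => ?_)
    rw [map_sum, Finset.mul_sum]
    refine Finset.sum_congr rfl (fun j hj => ?_)
    rw [map_sum, Finset.mul_sum]
    refine Finset.sum_congr rfl (fun k hk => ?_)
    exact elimb_B p hB hV A hw hv (Finset.mem_range.1 hj) (Finset.mem_range.1 hk)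
  rw [GG, mul_sub, h2, mul_left_comm, h1]
  ring

end Pool.Agent.NLK
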