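import Pool.Agent.NLK.PS

/-!
# NLK-ElimC: the derivative and the inverse of `Th`

PLAN.  `elim_d1`, `elim_Th_deriv`, `elim_Th_inv` of `Pool/Agent/NLC/Elim.lean` with a third factor `emV`
(`deriv_emW`, `deriv_emV`, `deriv_emZ` from PS, may be assumed; `NLC.bs_deriv`, `NLC.bs_mul`, `NLC.bs_zero`).
-/

namespace Pool.Agent.NLK

open Finset Polynomial
open Pool.Agent.NLG (KZ kap)
open Pool.Agent.NLC (bs wS)

private theorem ElimC_leib {R : Type} [CommRing R] (F G : PowerSeries R) :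
    PowerSeries.derivative R (F * G) =
      F * PowerSeries.derivative R G + G * PowerSeries.derivative R F :=
  (PowerSeries.derivative R).leibniz F G

private theorem ElimC_d1 (z e f : ℚ) :
    (PowerSeries.C z * (1 - PowerSeries.C (z - 1) * PowerSeries.X)) *
      (PowerSeries.C z * (1 - PowerSeries.C (z - 1) * PowerSeries.X) - 1) *
      PowerSeries.derivative ℚ (bs (z - 1) e * bs z (-f)) =
    PowerSeries.C (-(z * (z - 1))) *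
      (PowerSeries.C e * (PowerSeries.C z * (1 - PowerSeries.C (z - 1) * PowerSeries.X) - 1) -
        PowerSeries.C f * (PowerSeries.C z * (1 - PowerSeries.C (z - 1) * PowerSeries.X))) *
      (bs (z - 1) e * bs z (-f)) := by
  have h1 := NLC.bs_deriv (z - 1) e
  have h2 := NLC.bs_deriv z (-f)
  rw [ElimC_leib]
  obtain ⟨a, ha⟩ : ∃ a, a = bs (z - 1) e := ⟨_, rfl⟩
  obtain ⟨b, hb⟩ : ∃ b, b = bs z (-f) := ⟨_, rfl⟩
  rw [← ha] at h1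
  rw [← hb] at h2
  rw [← ha, ← hb]
  obtain ⟨da, hda⟩ : ∃ da, da = PowerSeries.derivative ℚ a := ⟨_, rfl⟩
  obtain ⟨db, hdb⟩ : ∃ db, db = PowerSeries.derivative ℚ b := ⟨_, rfl⟩
  rw [← hda] at h1
  rw [← hdb] at h2
  rw [← hda, ← hdb]
  simp only [map_neg, map_mul, map_sub, map_one] at h1 h2 ⊢
  obtain ⟨Z, hZ⟩ : ∃ Z : PowerSeries ℚ, Z = PowerSeries.C z := ⟨_, rfl⟩
  obtain ⟨E, hE⟩ : ∃ E : PowerSeries ℚ, E = PowerSeries.C e := ⟨_, rfl⟩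
  obtain ⟨F, hF⟩ : ∃ F : PowerSeries ℚ, F = PowerSeries.C f := ⟨_, rfl⟩
  rw [← hZ, ← hE] at h1
  rw [← hZ, ← hF] at h2
  rw [← hZ, ← hE, ← hF]
  linear_combination (Z * (Z - 1) * (1 - Z * PowerSeries.X) * b) * h1 +
    (Z * (Z - 1) * (1 - (Z - 1) * PowerSeries.X) * a) * h2

theorem Th_deriv (p : Par) (z w v : ℤ) :
    emZ (wS z) * (emZ (wS z) - 1) * PowerSeries.derivative NLC.Rg (Th p z w v) =
    cc (-((z : ℚ) * ((z : ℚ) - 1))) *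
      (cc ((p.J : ℚ) + 2 / 3) * (emZ (wS z) - 1) - cc (2 / 3) * emZ (wS z)) * Th p z w v := by
  have h1 := congrArg emZ (ElimC_d1 (z : ℚ) ((p.J : ℚ) + 2 / 3) (2 / 3))
  have h0 : (-2 / 3 : ℚ) = -(2 / 3) := by norm_num
  have h2 : wS z = PowerSeries.C (z : ℚ) *
    (1 - PowerSeries.C ((z : ℚ) - 1) * PowerSeries.X) := rfl
  rw [← h2] at h1
  rw [Th, ElimC_leib, ElimC_leib, deriv_emW, deriv_emV, mul_zero, mul_zero, add_zero, mul_zero,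
    zero_add, deriv_emZ, h0]
  obtain ⟨g, hg⟩ : ∃ g, g = bs ((z : ℚ) - 1) ((p.J : ℚ) + 2 / 3) * bs (z : ℚ) (-(2 / 3)) := ⟨_, rfl⟩
  rw [← hg] at h1 ⊢
  rw [map_mul emZ, map_mul emZ, map_sub emZ, map_one emZ, map_mul emZ (PowerSeries.C _ * _),
    map_mul emZ (PowerSeries.C _), map_sub emZ, map_mul emZ, map_sub emZ, map_one emZ,
    map_mul emZ (PowerSeries.C _) (wS z), cc_emZ, cc_emZ, cc_emZ] at h1
  linear_combination (emW (bs ((w : ℚ) - 1) (-(2 / 3)) * bs (w : ℚ) (2 / 3)) *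
      emV (bs ((v : ℚ) - 1) (1 / 3) * bs (v : ℚ) (-1 / 3))) * h1

private theorem ElimC_inv (c d e f : ℚ) : (bs c (-e) * bs d (-f)) * (bs c e * bs d f) = 1 := by
  have h1 : ∀ c e : ℚ, bs c (-e) * bs c e = 1 := by
    intro c e
    rw [NLC.bs_mul, neg_add_cancel, NLC.bs_zero]
  calc _ = (bs c (-e) * bs c e) * (bs d (-f) * bs d f) := by ring
    _ = 1 := by rw [h1, h1, one_mul]

theorem Th_inv (p : Par) (z w v : ℤ) : ∃ V : Rg, V * Th p z w v = 1 := by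
  refine ⟨emZ (bs ((z : ℚ) - 1) (-((p.J : ℚ) + 2 / 3)) * bs (z : ℚ) (-(-2 / 3))) *
    (emW (bs ((w : ℚ) - 1) (-(-2 / 3)) * bs (w : ℚ) (-(2 / 3))) *
      emV (bs ((v : ℚ) - 1) (-(1 / 3)) * bs (v : ℚ) (-(-1 / 3)))), ?_⟩
  rw [Th]
  have h1 := congrArg emZ (ElimC_inv ((z : ℚ) - 1) z ((p.J : ℚ) + 2 / 3) (-2 / 3))
  have h2 := congrArg emW (ElimC_inv ((w : ℚ) - 1) w (-2 / 3) (2 / 3))
  have h3 := congrArg emV (ElimC_inv ((v : ℚ) - 1) v (1 / 3) (-1 / 3))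
  rw [map_mul emZ, map_one] at h1
  rw [map_mul emW, map_one] at h2
  rw [map_mul emV, map_one] at h3
  obtain ⟨a, ha⟩ : ∃ a, a = emZ (bs ((z : ℚ) - 1) ((p.J : ℚ) + 2 / 3) * bs (z : ℚ) (-2 / 3)) :=
    ⟨_, rfl⟩
  obtain ⟨b, hb⟩ : ∃ b, b = emW (bs ((w : ℚ) - 1) (-2 / 3) * bs (w : ℚ) (2 / 3)) := ⟨_, rfl⟩
  obtain ⟨c, hc⟩ : ∃ c, c = emV (bs ((v : ℚ) - 1) (1 / 3) * bs (v : ℚ) (-1 / 3)) := ⟨_, rfl⟩
  rw [← ha] at h1 ⊢
  rw [← hb] at h2 ⊢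
  rw [← hc] at h3 ⊢
  rw [mul_mul_mul_comm, h1, one_mul, mul_mul_mul_comm, h2, h3, one_mul]

end Pool.Agent.NLK
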