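import Pool.Agent.NLK.ElimA
import Pool.Agent.NLK.ElimB
import Pool.Agent.NLK.ElimC

/-!
# NLK-Elim: elimination of `t`

PLAN.  The final theorem `elim` of `Pool/Agent/NLC/Elim.lean` with `q = 3`, `h = 2` and a third variable.
`GG_co` (ElimA), `UU_GG` (ElimB), `Th_deriv`, `Th_inv` (ElimC), `phi_deriv`, `mom_of_Wt` (Phi), `Wt_*` (PS) may be
assumed.  `G' = UU * GG`; `phi X = emZ (wS z)`, `phi (C (C (C c))) = cc c` (via `map_intCast`), and
`cc 3 * (emZ (wS z) * (emZ (wS z) - 1)) * (phi BP * D G' - D (phi BP) * G') =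
cc zz * cc t * (Th * phi NN)`, `zz = - z (z - 1)`.
-/

namespace Pool.Agent.NLK

open Finset Polynomial
open Pool.Agent.NLG (KZ kap)
open Pool.Agent.NLC (bs wS)

private theorem elim_leib0 {R : Type} [CommRing R] (F G : PowerSeries R) :
    PowerSeries.derivative R (F * G) =
      F * PowerSeries.derivative R G + G * PowerSeries.derivative R F :=
  (PowerSeries.derivative R).leibniz F G

private theorem elim_leib (F G : Rg) : PowerSeries.derivative NLC.Rg (F * G) =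
    F * PowerSeries.derivative NLC.Rg G + G * PowerSeries.derivative NLC.Rg F :=
  elim_leib0 F G

private theorem elim_sub (z w v : ℤ) (a b : ℤ[X][X][X]) :
    phi z w v (a - b) = phi z w v a - phi z w v b := RingHom.map_sub _ a b

private theorem elim_int (z w v : ℤ) (c : ℤ) :
    phi z w v ((c : ℤ) : ℤ[X][X][X]) = ((c : ℤ) : Rg) := map_intCast (phi z w v) c

private theorem elim_cint (c : ℤ) : cc ((c : ℤ) : ℚ) = ((c : ℤ) : Rg) := map_intCast cc c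

private theorem elim_phiX (z w v : ℤ) : phi z w v X = emZ (wS z) := by
  rw [phi, coe_eval₂RingHom, eval₂_X]

private theorem elim_CCC (c : ℤ) : (C (C (C c)) : ℤ[X][X][X]) = ((c : ℤ) : ℤ[X][X][X]) := by
  have h := map_intCast ((C : ℤ[X][X] →+* ℤ[X][X][X]).comp
    ((C : ℤ[X] →+* ℤ[X][X]).comp (C : ℤ →+* ℤ[X]))) c
  rw [RingHom.comp_apply, RingHom.comp_apply] at h
  exact h

private theorem elim_phiC (z w v : ℤ) (c : ℤ) : phi z w v (C (C (C c))) = cc (c : ℚ) := by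
  rw [elim_CCC, elim_int, elim_cint]

theorem elim (p : Par) (hn : 1 ≤ p.n) (hm : 1 ≤ p.m) (hB : 1 ≤ p.B) (hV : 1 ≤ p.V)
    (A : ℕ → ℕ → ℕ → ℤ) {z t : ℤ} (hz : 2 ≤ z) (ht : t ≠ 0) {T : ℕ}
    (hv : ∀ l₁ l₂ l₃, l₁ + p.n * l₂ + p.m * l₃ < T + 1 →
      vv p A z (z ^ p.n) (z ^ p.m) t l₁ l₂ l₃ = 0) :
    ∀ a b c, a + p.n * b + p.m * c < T → mom z (z ^ p.n) (z ^ p.m) (NN p A) a b c = 0 := by
  obtain ⟨w, hw⟩ : ∃ w, w = z ^ p.n := ⟨_, rfl⟩
  obtain ⟨v, hvv⟩ : ∃ v, v = z ^ p.m := ⟨_, rfl⟩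
  rw [← hw, ← hvv] at hv ⊢
  have hw1 : w ≠ 1 := by
    have h1 : 1 < z ^ p.n := one_lt_pow₀ (by omega) (by omega)
    rw [hw]
    exact h1.ne'
  have hv1 : v ≠ 1 := by
    have h1 : 1 < z ^ p.m := one_lt_pow₀ (by omega) (by omega)
    rw [hvv]
    exact h1.ne'
  refine mom_of_Wt (by omega) hw1 hv1 ?_
  -- the weights of the form
  have hG : Wt p.n p.m (T + 1) (GG p A z w v t) := by
    intro l₁ l₂ l₃ hl
    have h1 := GG_co p A z w v t l₁ l₂ l₃
    rw [hv l₁ l₂ l₃ hl, Int.cast_zero] at h1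
    have h2 : (9 : ℚ) ^ (l₁ + l₂ + l₃) ≠ 0 := pow_ne_zero _ (by norm_num)
    exact (mul_eq_zero.1 h1.symm).resolve_left h2
  obtain ⟨G', hG'⟩ : ∃ G', G' = UU p z w v * GG p A z w v t := ⟨_, rfl⟩
  have hW1 : Wt p.n p.m (T + 1) G' := by
    rw [hG']
    exact Wt_mul hG _
  have hW2 : Wt p.n p.m T G' := Wt_mono (Nat.le_succ T) hW1
  have hW3 : Wt p.n p.m T (PowerSeries.derivative NLC.Rg G') := Wt_deriv hW1
  rw [UU_GG p hB hV A t hw hvv] at hG'
  -- the derivative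
  have ha := phi_deriv z w v (AP p A)
  have hb := phi_deriv z w v (BP p A)
  have hT := Th_deriv p z w v
  have ht' : PowerSeries.derivative NLC.Rg (cc (t : ℚ)) = 0 := by
    rw [← cc_emW, deriv_emW]
  have hDG : PowerSeries.derivative NLC.Rg G' = cc (t : ℚ) *
      (phi z w v (AP p A) * PowerSeries.derivative NLC.Rg (Th p z w v) +
        Th p z w v * PowerSeries.derivative NLC.Rg (phi z w v (AP p A))) +
      PowerSeries.derivative NLC.Rg (phi z w v (BP p A)) := by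
    rw [hG', map_add, elim_leib, elim_leib, ht']
    ring
  have hX1 : phi z w v (X - 1) = emZ (wS z) - 1 := by
    rw [elim_sub, elim_phiX, map_one]
  have hNN : phi z w v (NN p A) = cc 3 * (emZ (wS z) * (emZ (wS z) - 1)) *
      (phi z w v (BP p A) * phi z w v (derivative (AP p A)) -
        phi z w v (AP p A) * phi z w v (derivative (BP p A))) +
      phi z w v (AP p A) * phi z w v (BP p A) *
        (cc 3 * cc (p.J : ℚ) * (emZ (wS z) - 1) - cc 2) := by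
    have h1 : cc (((3 * (p.J : ℤ) : ℤ)) : ℚ) = cc 3 * cc (p.J : ℚ) := by
      rw [← map_mul]
      congr 1
      push_cast
      ring
    have h3 : phi z w v (C (C (C (3 * (p.J : ℤ))))) = cc 3 * cc (p.J : ℚ) := by
      rw [elim_phiC, h1]
    have h4 : phi z w v (C (C (C (3 : ℤ)))) = cc 3 := by
      rw [elim_phiC]
      congr 1
    have h5 : phi z w v (C (C (C (2 : ℤ)))) = cc 2 := by
      rw [elim_phiC]
      congr 1
    obtain ⟨Xm, hXm⟩ : ∃ Xm : ℤ[X][X][X], Xm = X - 1 := ⟨_, rfl⟩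
    obtain ⟨c3, hc3⟩ : ∃ c3 : ℤ[X][X][X], c3 = C (C (C (3 : ℤ))) := ⟨_, rfl⟩
    obtain ⟨c2, hc2⟩ : ∃ c2 : ℤ[X][X][X], c2 = C (C (C (2 : ℤ))) := ⟨_, rfl⟩
    obtain ⟨cJ, hcJ⟩ : ∃ cJ : ℤ[X][X][X], cJ = C (C (C (3 * (p.J : ℤ)))) := ⟨_, rfl⟩
    rw [← hXm] at hX1
    rw [← hcJ] at h3
    rw [← hc3] at h4
    rw [← hc2] at h5
    rw [NN, ← hXm, ← hc3, ← hc2, ← hcJ, map_add, map_mul, map_mul, map_mul, elim_sub, map_mul,
      map_mul, map_mul, map_mul, elim_sub, map_mul, h3, h4, h5, hX1, elim_phiX]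
  have hcq : cc 3 * cc (2 / 3 : ℚ) = cc 2 := by
    rw [← map_mul]
    congr 1
    norm_num
  have hcq2 : cc 3 * cc (p.J + 2 / 3 : ℚ) = cc 3 * cc (p.J : ℚ) + cc 2 := by
    rw [map_add, mul_add, hcq]
  obtain ⟨zz, hzz⟩ : ∃ zz : ℚ, zz = -((z : ℚ) * ((z : ℚ) - 1)) := ⟨_, rfl⟩
  rw [← hzz] at ha hb hT
  have hmain : cc 3 * (emZ (wS z) * (emZ (wS z) - 1)) *
      (phi z w v (BP p A) * PowerSeries.derivative NLC.Rg G' +
        -(PowerSeries.derivative NLC.Rg (phi z w v (BP p A)) * G')) =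
      cc zz * cc (t : ℚ) * (Th p z w v * phi z w v (NN p A)) := by
    rw [hDG, hNN, ha, hb, hG']
    obtain ⟨DT, hDT⟩ : ∃ DT, DT = PowerSeries.derivative NLC.Rg (Th p z w v) := ⟨_, rfl⟩
    rw [← hDT] at hT ⊢
    linear_combination (cc 3 * cc (t : ℚ) * phi z w v (AP p A) *
      phi z w v (BP p A)) * hT + (cc zz * cc (t : ℚ) * phi z w v (AP p A) *
      phi z w v (BP p A) * Th p z w v * (emZ (wS z) - 1)) * hcq2 -
      (cc zz * cc (t : ℚ) * phi z w v (AP p A) *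
      phi z w v (BP p A) * Th p z w v * emZ (wS z)) * hcq
  have hW : Wt p.n p.m T (cc zz * cc (t : ℚ) * (Th p z w v * phi z w v (NN p A))) := by
    rw [← hmain]
    exact Wt_mul (Wt_add (Wt_mul hW3 _) (Wt_neg (Wt_mul hW2 _))) _
  obtain ⟨V, hV'⟩ := Th_inv p z w v
  have hz0 : zz ≠ 0 := by
    rw [hzz]
    have h1 : (2 : ℚ) ≤ (z : ℚ) := by exact_mod_cast hz
    have h2 : 0 < (z : ℚ) * ((z : ℚ) - 1) := mul_pos (by linarith) (by linarith)
    linarith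
  have ht0 : (t : ℚ) ≠ 0 := by exact_mod_cast ht
  have hcz : cc zz⁻¹ * cc zz = 1 := by
    rw [← map_mul, inv_mul_cancel₀ hz0, map_one]
  have hct : cc (t : ℚ)⁻¹ * cc (t : ℚ) = 1 := by
    rw [← map_mul, inv_mul_cancel₀ ht0, map_one]
  have hfin : phi z w v (NN p A) = (cc zz⁻¹ * cc (t : ℚ)⁻¹ * V) *
      (cc zz * cc (t : ℚ) * (Th p z w v * phi z w v (NN p A))) := by
    calc phi z w v (NN p A) = 1 * 1 * 1 * phi z w v (NN p A) := by ring
      _ = (cc zz⁻¹ * cc zz) * (cc (t : ℚ)⁻¹ * cc (t : ℚ)) *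
          (V * Th p z w v) * phi z w v (NN p A) := by rw [hcz, hct, hV']
      _ = _ := by ring
  rw [hfin]
  exact Wt_mul hW _

end Pool.Agent.NLK
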