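import Pool.Agent.NLK.PS

/-!
# NLK-ElimA: the coefficients of the form at the point
-/

namespace Pool.Agent.NLK

open Finset Polynomial
open Pool.Agent.NLG (KZ kap)
open Pool.Agent.NLC (bs wS)

private theorem ElimA_KZ {a x : ℤ} {e x' : ℚ} (ha : (a : ℚ) / 3 = e) (hx : (x : ℚ) = x') (l : ℕ) :
    ((KZ 3 a l * x ^ l : ℤ) : ℚ) = 9 ^ l * PowerSeries.coeff l (bs x' e) := by
  rw [bs, PowerSeries.coeff_mk, Int.cast_mul, KZ3_cast, ha, Int.cast_pow, hx]
  ring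

private theorem ElimA_EE {a b x : ℤ} {e f x' : ℚ} (ha : (a : ℚ) / 3 = e) (hb : (b : ℚ) / 3 = f)
    (hx : (x : ℚ) = x') (l : ℕ) :
    (EE a b x l : ℚ) = 9 ^ l * PowerSeries.coeff l (bs (x' - 1) e * bs x' f) := by
  rw [EE, PowerSeries.coeff_mul, Finset.Nat.sum_antidiagonal_eq_sum_range_succ
    (fun i j => PowerSeries.coeff i (bs (x' - 1) e) * PowerSeries.coeff j (bs x' f)) l,
    Finset.mul_sum, Int.cast_sum]
  refine Finset.sum_congr rfl (fun k hk => ?_)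
  have hk' : k ≤ l := Nat.lt_succ_iff.1 (Finset.mem_range.1 hk)
  have h1 : (9 : ℚ) ^ l = 9 ^ k * 9 ^ (l - k) := by
    rw [← pow_add, Nat.add_sub_cancel' hk']
  have hx1 : ((x - 1 : ℤ) : ℚ) = x' - 1 := by
    rw [← hx]
    push_cast
    ring
  rw [Int.cast_mul, ElimA_KZ ha hx1, ElimA_KZ hb hx, h1]
  ring

theorem GG_co (p : Par) (A : ℕ → ℕ → ℕ → ℤ) (z w v t : ℤ) (l₁ l₂ l₃ : ℕ) :
    (vv p A z w v t l₁ l₂ l₃ : ℚ) = 9 ^ (l₁ + l₂ + l₃) * co l₁ l₂ l₃ (GG p A z w v t) := by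
  rw [vv, GG, co_sub, co_cc, Int.cast_sub, Int.cast_mul, mul_sub]
  congr 1
  · rw [mul_left_comm]
    congr 1
    rw [vA, Int.cast_sum, co_sum, Finset.mul_sum]
    refine Finset.sum_congr rfl (fun i _ => ?_)
    rw [Int.cast_sum, co_sum, Finset.mul_sum]
    refine Finset.sum_congr rfl (fun β _ => ?_)
    rw [Int.cast_sum, co_sum, Finset.mul_sum]
    refine Finset.sum_congr rfl (fun γ _ => ?_)
    have h1 := ElimA_EE (a := 3 * (((p.P - 1 - i : ℕ) : ℤ) - p.n * β - p.m * γ + p.J) + 2)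
      (b := -2) (x := z) (e := ((p.P - 1 - i : ℕ) : ℚ) - p.n * β - p.m * γ + p.J + 2 / 3)
      (f := -2 / 3) (x' := (z : ℚ)) (by push_cast; ring) (by norm_num) rfl l₁
    have h2 := ElimA_EE (a := 3 * (β : ℤ) - 2) (b := 2) (x := w) (e := (β : ℚ) - 2 / 3)
      (f := 2 / 3) (x' := (w : ℚ)) (by push_cast; ring) (by norm_num) rfl l₂
    have h3 := ElimA_EE (a := 3 * (γ : ℤ) + 1) (b := -1) (x := v) (e := (γ : ℚ) + 1 / 3)
      (f := -1 / 3) (x' := (v : ℚ)) (by push_cast; ring) (by norm_num) rfl l₃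
    rw [co_cc, co_em, Int.cast_mul, Int.cast_mul, Int.cast_mul, h1, h2, h3, pow_add, pow_add]
    push_cast
    ring
  · rw [vB, Int.cast_sum, co_sum, Finset.mul_sum]
    refine Finset.sum_congr rfl (fun r _ => ?_)
    rw [Int.cast_sum, co_sum, Finset.mul_sum]
    refine Finset.sum_congr rfl (fun j _ => ?_)
    rw [Int.cast_sum, co_sum, Finset.mul_sum]
    refine Finset.sum_congr rfl (fun k _ => ?_)
    have h1 := ElimA_KZ
      (a := 3 * (((p.S - 1 - r : ℕ) : ℤ) - p.n * ((j : ℤ) - p.L) - p.m * ((k : ℤ) - p.M)))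
      (x := z - 1)
      (e := ((p.S - 1 - r : ℕ) : ℚ) - p.n * ((j : ℚ) - p.L) - p.m * ((k : ℚ) - p.M))
      (x' := (z : ℚ) - 1) (by push_cast; ring) (by push_cast; ring) l₁
    have h2 := ElimA_KZ (a := 3 * ((j : ℤ) - p.L)) (x := w - 1) (e := (j : ℚ) - p.L)
      (x' := (w : ℚ) - 1) (by push_cast; ring) (by push_cast; ring) l₂
    have h3 := ElimA_KZ (a := 3 * ((k : ℤ) - p.M)) (x := v - 1) (e := (k : ℚ) - p.M)
      (x' := (v : ℚ) - 1) (by push_cast; ring) (by push_cast; ring) l₃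
    rw [co_cc, co_em, Int.cast_mul, Int.cast_mul, Int.cast_mul, h1, h2, h3, pow_add, pow_add]
    push_cast
    ring

end Pool.Agent.NLK
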