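import Pool.Agent.NLK.Defs

/-!
# NLK-ErrA: the size of `vA`

`|EE a b x l| ≤ 9 ^ l x ^ l 2 ^ (M + l + 1)` for `|a| ≤ 3 M`, `|b| ≤ 3`, `x ≥ 1`; the rest is a product of
bounds for the factors.
-/

namespace Pool.Agent.NLK

open Finset Polynomial
open Pool.Agent.NLG (KZ kap)

private theorem ErrA_kap {ρ : ℚ} {M : ℕ} (h : |ρ| ≤ M) (k : ℕ) :
    |kap ρ k| ≤ ((M + k).choose k : ℚ) := by
  induction k with
  | zero =>
    rw [Pool.Agent.NLG.kap_zero, abs_one, Nat.choose_zero_right, Nat.cast_one]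
  | succ k ih =>
    have hk := Pool.Agent.NLG.kap_succ ρ k
    have hk0 : (0 : ℚ) < (k : ℚ) + 1 := by positivity
    have h3 : ((k : ℚ) + 1) * |kap ρ (k + 1)| = |(k : ℚ) - ρ| * |kap ρ k| := by
      rw [← abs_mul, ← hk, abs_mul, abs_of_pos hk0]
    have h4 : |(k : ℚ) - ρ| ≤ (M : ℚ) + k + 1 := by
      have := abs_le.1 h
      rw [abs_le]
      have hk1 : (0 : ℚ) ≤ k := by positivity
      have hM1 : (0 : ℚ) ≤ M := by positivity
      constructor <;> linarith [this.1, this.2]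
    have h5 : ((M : ℚ) + k + 1) * ((M + k).choose k : ℚ) =
        ((M + (k + 1)).choose (k + 1) : ℚ) * ((k : ℚ) + 1) := by
      have := Nat.add_one_mul_choose_eq (M + k) k
      exact_mod_cast this
    have h6 : ((k : ℚ) + 1) * |kap ρ (k + 1)| ≤
        ((k : ℚ) + 1) * ((M + (k + 1)).choose (k + 1) : ℚ) := by
      rw [h3, mul_comm ((k : ℚ) + 1), ← h5]
      exact mul_le_mul h4 ih (abs_nonneg _) (by positivity)
    exact le_of_mul_le_mul_left h6 hk0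

private theorem ErrA_KZ {j : ℤ} {M : ℕ} (hj : |j| ≤ 3 * (M : ℤ)) (k : ℕ) :
    |(KZ 3 j k : ℝ)| ≤ 9 ^ k * 2 ^ (M + k) := by
  have h1 : |((j : ℚ) / 3)| ≤ M := by
    rw [abs_div, abs_of_pos (by norm_num : (0 : ℚ) < 3), div_le_iff₀ (by norm_num : (0 : ℚ) < 3)]
    have : ((|j| : ℤ) : ℚ) ≤ ((3 * M : ℤ) : ℚ) := by exact_mod_cast hj
    push_cast at this
    linarith
  have h2 : |(KZ 3 j k : ℚ)| ≤ 9 ^ k * 2 ^ (M + k) := by
    rw [KZ3_cast, abs_mul, abs_of_nonneg (by positivity : (0 : ℚ) ≤ 9 ^ k)]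
    refine mul_le_mul_of_nonneg_left ((ErrA_kap h1 k).trans ?_) (by positivity)
    exact_mod_cast Nat.choose_le_two_pow (M + k) k
  exact_mod_cast h2

private theorem ErrA_KZ1 {j : ℤ} (hj : |j| ≤ 3) (k : ℕ) : |(KZ 3 j k : ℝ)| ≤ 9 ^ k := by
  have h := abs_KZ3_le hj k
  exact_mod_cast h

private theorem ErrA_EE {a b x : ℤ} (hx : 1 ≤ x) {M : ℕ} (ha : |a| ≤ 3 * (M : ℤ)) (hb : |b| ≤ 3)
    (l : ℕ) : |(EE a b x l : ℝ)| ≤ 9 ^ l * (x : ℝ) ^ l * 2 ^ (M + l + 1) := by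
  have hz : (1 : ℝ) ≤ x := by exact_mod_cast hx
  obtain ⟨z, hzx⟩ : ∃ z : ℝ, z = x := ⟨_, rfl⟩
  unfold EE
  push_cast
  rw [← hzx] at hz ⊢
  refine (abs_sum_le_sum_abs _ _).trans ?_
  have hz0 : 0 ≤ z := by linarith
  have h1 : ∀ k ∈ range (l + 1),
      |(KZ 3 a k : ℝ) * (z - 1) ^ k * ((KZ 3 b (l - k) : ℝ) * z ^ (l - k))| ≤
      9 ^ l * z ^ l * (2 ^ M * 2 ^ k) := by
    intro k hk
    have hkl : k ≤ l := Nat.lt_succ_iff.1 (mem_range.1 hk)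
    rw [abs_mul, abs_mul, abs_mul, abs_pow, abs_pow, abs_of_nonneg hz0,
      abs_of_nonneg (by linarith : 0 ≤ z - 1)]
    have e1 := ErrA_KZ ha k
    have e2 := ErrA_KZ1 hb (l - k)
    have e3 : (z - 1) ^ k ≤ z ^ k := pow_le_pow_left₀ (by linarith) (by linarith) k
    have e4 : (0 : ℝ) ≤ (z - 1) ^ k := pow_nonneg (by linarith) k
    calc |(KZ 3 a k : ℝ)| * (z - 1) ^ k * (|(KZ 3 b (l - k) : ℝ)| * z ^ (l - k))
        ≤ (9 ^ k * 2 ^ (M + k)) * z ^ k * (9 ^ (l - k) * z ^ (l - k)) := by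
          refine mul_le_mul (mul_le_mul e1 e3 e4 (by positivity))
            (mul_le_mul_of_nonneg_right e2 (by positivity)) (by positivity) (by positivity)
      _ = 9 ^ l * z ^ l * (2 ^ M * 2 ^ k) := by
          have f1 : (9 : ℝ) ^ l = 9 ^ k * 9 ^ (l - k) := by
            rw [← pow_add, Nat.add_sub_cancel' hkl]
          have f2 : z ^ l = z ^ k * z ^ (l - k) := by
            rw [← pow_add, Nat.add_sub_cancel' hkl]
          rw [f1, f2, pow_add]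
          ring
  refine (sum_le_sum h1).trans ?_
  rw [← mul_sum, ← mul_sum]
  refine mul_le_mul_of_nonneg_left ?_ (by positivity)
  have h2 : ∑ k ∈ range (l + 1), (2 : ℝ) ^ k = 2 ^ (l + 1) - 1 := by
    have := geom_sum_eq (by norm_num : (2 : ℝ) ≠ 1) (l + 1)
    rw [this]
    norm_num
  have h3 : (2 : ℝ) ^ (M + l + 1) = 2 ^ M * 2 ^ (l + 1) := by
    rw [← pow_add, add_assoc]
  rw [h2, h3]
  exact mul_le_mul_of_nonneg_left (by linarith) (by positivity)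

theorem vA_le (p : Par) (A : ℕ → ℕ → ℕ → ℤ) {H : ℝ} (hH : 0 ≤ H)
    (hA : ∀ i β γ, |(A i β γ : ℝ)| ≤ H) {z : ℕ} (hz : 1 ≤ z) (l₁ l₂ l₃ : ℕ) :
    |(vA p A z ((z : ℤ) ^ p.n) ((z : ℤ) ^ p.m) l₁ l₂ l₃ : ℝ)| ≤
      9 ^ (l₁ + l₂ + l₃) * (z : ℝ) ^ (l₁ + p.n * l₂ + p.m * l₃) *
        (p.P * p.B * p.V * (H * 9 ^ p.Q) *
        ((z : ℝ) ^ p.P *
          2 ^ (p.P + p.J + p.n * p.B + p.m * p.V + p.B + p.V + l₁ + l₂ + l₃ + 3))) := by
  have hz' : (1 : ℝ) ≤ z := by exact_mod_cast hz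
  have hzZ : (1 : ℤ) ≤ (z : ℤ) := by exact_mod_cast hz
  have hw : (1 : ℤ) ≤ (z : ℤ) ^ p.n := one_le_pow₀ hzZ
  have hv : (1 : ℤ) ≤ (z : ℤ) ^ p.m := one_le_pow₀ hzZ
  have key : |(vA p A z ((z : ℤ) ^ p.n) ((z : ℤ) ^ p.m) l₁ l₂ l₃ : ℝ)| ≤
      p.P * (p.B * (p.V * (H * 9 ^ p.Q * (z : ℝ) ^ p.P *
        (9 ^ l₁ * (z : ℝ) ^ l₁ * 2 ^ ((p.P + p.J + p.n * p.B + p.m * p.V) + l₁ + 1)) *
        (9 ^ l₂ * ((z : ℝ) ^ p.n) ^ l₂ * 2 ^ (p.B + l₂ + 1)) *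
        (9 ^ l₃ * ((z : ℝ) ^ p.m) ^ l₃ * 2 ^ (p.V + l₃ + 1))))) := by
    unfold vA
    rw [Int.cast_sum]
    refine (abs_sum_le_sum_abs _ _).trans ?_
    refine (sum_le_card_nsmul _ _ _ (fun i hi => ?_)).trans (le_of_eq (by
      rw [card_range, nsmul_eq_mul]))
    rw [Int.cast_sum]
    refine (abs_sum_le_sum_abs _ _).trans ?_
    refine (sum_le_card_nsmul _ _ _ (fun β hβ => ?_)).trans (le_of_eq (by
      rw [card_range, nsmul_eq_mul]))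
    rw [Int.cast_sum]
    refine (abs_sum_le_sum_abs _ _).trans ?_
    refine (sum_le_card_nsmul _ _ _ (fun γ hγ => ?_)).trans (le_of_eq (by
      rw [card_range, nsmul_eq_mul]))
    have hi' : i < p.P := mem_range.1 hi
    have hβ' : β < p.B := mem_range.1 hβ
    have hγ' : γ < p.V := mem_range.1 hγ
    have e1 : |(EE (3 * (((p.P - 1 - i : ℕ) : ℤ) - p.n * β - p.m * γ + p.J) + 2) (-2) z l₁ : ℝ)| ≤
        9 ^ l₁ * (((z : ℤ) : ℝ)) ^ l₁ *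
          2 ^ ((p.P + p.J + p.n * p.B + p.m * p.V) + l₁ + 1) := by
      refine ErrA_EE hzZ ?_ (by norm_num) l₁
      have ha : ((p.P - 1 - i : ℕ) : ℤ) + 1 ≤ p.P := by
        have : (p.P - 1 - i) + 1 ≤ p.P := by omega
        exact_mod_cast this
      have ha0 : (0 : ℤ) ≤ ((p.P - 1 - i : ℕ) : ℤ) := by positivity
      have hJ0 : (0 : ℤ) ≤ (p.J : ℤ) := by positivity
      have hnβ : (0 : ℤ) ≤ (p.n : ℤ) * β := by positivity
      have hmγ : (0 : ℤ) ≤ (p.m : ℤ) * γ := by positivity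
      have hnB : (p.n : ℤ) * β ≤ p.n * p.B := by
        have : (β : ℤ) ≤ p.B := by exact_mod_cast hβ'.le
        exact mul_le_mul_of_nonneg_left this (by positivity)
      have hmV : (p.m : ℤ) * γ ≤ p.m * p.V := by
        have : (γ : ℤ) ≤ p.V := by exact_mod_cast hγ'.le
        exact mul_le_mul_of_nonneg_left this (by positivity)
      push_cast
      rw [abs_le]
      constructor <;> linarith
    have e2 : |(EE (3 * β - 2) 2 ((z : ℤ) ^ p.n) l₂ : ℝ)| ≤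
        9 ^ l₂ * ((((z : ℤ) ^ p.n : ℤ)) : ℝ) ^ l₂ * 2 ^ (p.B + l₂ + 1) := by
      refine ErrA_EE hw ?_ (by norm_num) l₂
      have h1 : (β : ℤ) + 1 ≤ p.B := by exact_mod_cast hβ'
      have h2 : (0 : ℤ) ≤ β := by positivity
      rw [abs_le]
      constructor <;> linarith
    have e3 : |(EE (3 * γ + 1) (-1) ((z : ℤ) ^ p.m) l₃ : ℝ)| ≤
        9 ^ l₃ * ((((z : ℤ) ^ p.m : ℤ)) : ℝ) ^ l₃ * 2 ^ (p.V + l₃ + 1) := by
      refine ErrA_EE hv ?_ (by norm_num) l₃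
      have h1 : (γ : ℤ) + 1 ≤ p.V := by exact_mod_cast hγ'
      have h2 : (0 : ℤ) ≤ γ := by positivity
      rw [abs_le]
      constructor <;> linarith
    rw [Int.cast_natCast] at e1
    rw [Int.cast_pow, Int.cast_natCast] at e2 e3
    have e0 : |((9 : ℤ) ^ p.Q : ℝ)| = 9 ^ p.Q := by
      rw [abs_of_nonneg (by positivity)]
      norm_num
    rw [Int.cast_mul, Int.cast_mul, Int.cast_mul, Int.cast_mul, Int.cast_mul, Int.cast_pow,
      Int.cast_pow, Int.cast_natCast, abs_mul, abs_mul, abs_mul, abs_mul, abs_mul, e0, abs_pow,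
      Nat.abs_cast]
    have e4 : (z : ℝ) ^ (p.P - 1 - i) ≤ (z : ℝ) ^ p.P := pow_le_pow_right₀ hz' (by omega)
    refine mul_le_mul (mul_le_mul (mul_le_mul (mul_le_mul (mul_le_mul_of_nonneg_right (hA i β γ)
      (by positivity)) e4 (by positivity) (by positivity)) e1 (abs_nonneg _) (by positivity)) e2
      (abs_nonneg _) (by positivity)) e3 (abs_nonneg _) (by positivity)
  refine key.trans (le_of_eq ?_)
  have f1 : (2 : ℝ) ^ (p.P + p.J + p.n * p.B + p.m * p.V + p.B + p.V + l₁ + l₂ + l₃ + 3) =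
      2 ^ ((p.P + p.J + p.n * p.B + p.m * p.V) + l₁ + 1) * 2 ^ (p.B + l₂ + 1) *
        2 ^ (p.V + l₃ + 1) := by
    rw [← pow_add, ← pow_add]
    congr 1
    omega
  have f2 : (z : ℝ) ^ (l₁ + p.n * l₂ + p.m * l₃) =
      (z : ℝ) ^ l₁ * ((z : ℝ) ^ p.n) ^ l₂ * ((z : ℝ) ^ p.m) ^ l₃ := by
    rw [pow_add, pow_add, pow_mul, pow_mul]
  have f3 : (9 : ℝ) ^ (l₁ + l₂ + l₃) = 9 ^ l₁ * 9 ^ l₂ * 9 ^ l₃ := by
    rw [pow_add, pow_add]
  rw [f1, f2, f3]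
  ring

end Pool.Agent.NLK
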