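import Pool.Agent.NLK.ErrT
import Pool.Agent.NLK.ErrA

/-!
# NLK-Err: the error made by replacing `t` by `T`
-/

namespace Pool.Agent.NLK

open Finset Polynomial
open Pool.Agent.NLG (KZ kap)

theorem err (p : Par) (hn : 1 ≤ p.n) (hm : 1 ≤ p.m) (A : ℕ → ℕ → ℕ → ℤ) {H : ℝ} (hH : 0 ≤ H)
    (hA : ∀ i β γ, |(A i β γ : ℝ)| ≤ H) {z t N : ℕ} (hz : 2 ≤ z)
    (hJ : 3 * p.J + 2 + p.m = N + 2 * p.n)
    (ht : (t : ℤ) ^ 3 * ((z : ℤ) - 1) ^ 2 * ((z : ℤ) ^ p.m - 1) =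
      ((z : ℤ) ^ p.n - 1) ^ 2 * ((z : ℤ) ^ N - 1)) (l₁ l₂ l₃ : ℕ) :
    |((t : ℝ) - TT p z) * (vA p A z ((z : ℤ) ^ p.n) ((z : ℤ) ^ p.m) l₁ l₂ l₃ : ℝ)| ≤
      9 ^ (l₁ + l₂ + l₃) * (z : ℝ) ^ (l₁ + p.n * l₂ + p.m * l₃) *
        (p.P * p.B * p.V * (H * 9 ^ p.Q) *
        ((z : ℝ) ^ p.P *
          2 ^ (p.P + p.J + p.n * p.B + p.m * p.V + p.B + p.V + l₁ + l₂ + l₃ + 5) *
            ((z : ℝ) ^ p.J / (z : ℝ) ^ N))) := by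
  have h1 := err_T p hn hm hz hJ ht
  have h2 := vA_le p A hH hA (by omega : 1 ≤ z) l₁ l₂ l₃
  rw [abs_mul]
  refine (mul_le_mul h1 h2 (abs_nonneg _) (by positivity)).trans (le_of_eq ?_)
  rw [show p.P + p.J + p.n * p.B + p.m * p.V + p.B + p.V + l₁ + l₂ + l₃ + 5 =
    (p.P + p.J + p.n * p.B + p.m * p.V + p.B + p.V + l₁ + l₂ + l₃ + 3) + 2 from by ring,
    pow_add (2 : ℝ) _ 2]
  ring

end Pool.Agent.NLK
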