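import Pool.Agent.NLK.Defs

/-!
# NLK-ErrT: `t` is close to `T`

PLAN.  As `err_T` in `Pool/Agent/NLC/Err.lean`.  `x = 1 - 1/z`, `y = 1 - 1/z^n`, `u = 1 - 1/z^m`, all in
`[1/2, 1)`.  `T ^ 3 x ^ 2 u = z ^ (3 J) y ^ 2`, and from the hypotheses `t ^ 3 = T ^ 3 (1 - 1/z^N)`
(`z - 1 = z x`, `z^n - 1 = z^n y`, `z^m - 1 = z^m u`, `3 J + 2 + m = N + 2 n`).  So `T (1 - 1/z^N) ≤ t ≤ T`
(`(1-δ)^3 ≤ 1-δ`), `T ≤ z^J * 2 * 1 * 2` (`x ^ (-2/3) ≤ x⁻¹ ≤ 2`, `u ^ (-1/3) ≤ u⁻¹ ≤ 2`, `y ^ (2/3) ≤ 1`).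
-/

namespace Pool.Agent.NLK

open Finset Polynomial
open Pool.Agent.NLG (KZ kap)

private theorem ErrT_half {z : ℝ} (hz : 2 ≤ z) {k : ℕ} (hk : 1 ≤ k) :
    1 / 2 ≤ 1 - 1 / z ^ k ∧ 1 - 1 / z ^ k ≤ 1 := by
  have h1 : (2 : ℝ) ≤ z ^ k := by
    calc (2 : ℝ) ≤ z := hz
      _ = z ^ 1 := (pow_one _).symm
      _ ≤ z ^ k := pow_le_pow_right₀ (by linarith) hk
  have h2 : 1 / z ^ k ≤ 1 / 2 := one_div_le_one_div_of_le (by norm_num) h1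
  have h3 : 0 ≤ 1 / z ^ k := by positivity
  exact ⟨by linarith, by linarith⟩

private theorem ErrT_neg {x a : ℝ} (hx2 : 1 / 2 ≤ x) (hx1 : x ≤ 1) (ha : -1 ≤ a) :
    x ^ a ≤ 2 := by
  have hx0 : 0 < x := by linarith
  have e1 : x ^ a ≤ x ^ (-1 : ℝ) := Real.rpow_le_rpow_of_exponent_ge hx0 hx1 ha
  have e2 : x ^ (-1 : ℝ) ≤ 2 := by
    rw [Real.rpow_neg_one]
    have := inv_anti₀ (by norm_num : (0 : ℝ) < 1 / 2) hx2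
    norm_num at this
    exact this
  exact e1.trans e2

theorem err_T (p : Par) (hn : 1 ≤ p.n) (hm : 1 ≤ p.m) {z t N : ℕ} (hz : 2 ≤ z)
    (hJ : 3 * p.J + 2 + p.m = N + 2 * p.n)
    (ht : (t : ℤ) ^ 3 * ((z : ℤ) - 1) ^ 2 * ((z : ℤ) ^ p.m - 1) =
      ((z : ℤ) ^ p.n - 1) ^ 2 * ((z : ℤ) ^ N - 1)) :
    |(t : ℝ) - TT p z| ≤ 4 * ((z : ℝ) ^ p.J / (z : ℝ) ^ N) := by
  have hzR : (2 : ℝ) ≤ z := by exact_mod_cast hz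
  have hz0 : (0 : ℝ) < z := by linarith
  obtain ⟨x, hx⟩ : ∃ x : ℝ, x = 1 - 1 / (z : ℝ) := ⟨_, rfl⟩
  obtain ⟨y, hy⟩ : ∃ y : ℝ, y = 1 - 1 / (z : ℝ) ^ p.n := ⟨_, rfl⟩
  obtain ⟨u, hu⟩ : ∃ u : ℝ, u = 1 - 1 / (z : ℝ) ^ p.m := ⟨_, rfl⟩
  have hxx := ErrT_half hzR (le_refl 1)
  rw [pow_one, ← hx] at hxx
  have hyy := ErrT_half hzR hn
  rw [← hy] at hyy
  have huu := ErrT_half hzR hm
  rw [← hu] at huu
  obtain ⟨hx2, hx1⟩ := hxx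
  obtain ⟨hy2, hy1⟩ := hyy
  obtain ⟨hu2, hu1⟩ := huu
  have hx0 : 0 < x := by linarith
  have hy0 : 0 < y := by linarith
  have hu0 : 0 < u := by linarith
  have hTdef : TT p z =
      (z : ℝ) ^ p.J * x ^ (-2 / 3 : ℝ) * y ^ (2 / 3 : ℝ) * u ^ (-1 / 3 : ℝ) := by
    unfold TT
    rw [hx, hy, hu]
  have hTx : x ^ (-2 / 3 : ℝ) ≤ 2 := ErrT_neg hx2 hx1 (by norm_num)
  have hTu : u ^ (-1 / 3 : ℝ) ≤ 2 := ErrT_neg hu2 hu1 (by norm_num)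
  have hTy : y ^ (2 / 3 : ℝ) ≤ 1 := Real.rpow_le_one hy0.le hy1 (by norm_num)
  have hx3 : 0 < x ^ (-2 / 3 : ℝ) := Real.rpow_pos_of_pos hx0 _
  have hy3 : 0 < y ^ (2 / 3 : ℝ) := Real.rpow_pos_of_pos hy0 _
  have hu3 : 0 < u ^ (-1 / 3 : ℝ) := Real.rpow_pos_of_pos hu0 _
  have hzJ : 0 < (z : ℝ) ^ p.J := by positivity
  obtain ⟨T, hT⟩ : ∃ T : ℝ, T = TT p z := ⟨_, rfl⟩
  rw [← hT]
  have hT0 : 0 < T := by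
    rw [hT, hTdef]
    positivity
  have hT2 : T ≤ 4 * (z : ℝ) ^ p.J := by
    rw [hT, hTdef]
    calc (z : ℝ) ^ p.J * x ^ (-2 / 3 : ℝ) * y ^ (2 / 3 : ℝ) * u ^ (-1 / 3 : ℝ)
        ≤ (z : ℝ) ^ p.J * 2 * 1 * 2 := by
          refine mul_le_mul (mul_le_mul (mul_le_mul_of_nonneg_left hTx hzJ.le) hTy hy3.le
            (by positivity)) hTu hu3.le (by positivity)
      _ = 4 * (z : ℝ) ^ p.J := by ring
  -- `T ^ 3`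
  have hT3 : T ^ 3 * (x ^ 2 * u) = (z : ℝ) ^ (3 * p.J) * y ^ 2 := by
    have e1 : (x ^ (-2 / 3 : ℝ)) ^ 3 * x ^ 2 = 1 := by
      rw [← Real.rpow_natCast (x ^ (-2 / 3 : ℝ)) 3, ← Real.rpow_mul hx0.le]
      have e : (-2 / 3 : ℝ) * ((3 : ℕ) : ℝ) = -((2 : ℕ) : ℝ) := by norm_num
      rw [e, Real.rpow_neg hx0.le, Real.rpow_natCast, inv_mul_cancel₀ (pow_ne_zero _ hx0.ne')]
    have e2 : (y ^ (2 / 3 : ℝ)) ^ 3 = y ^ 2 := by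
      rw [← Real.rpow_natCast (y ^ (2 / 3 : ℝ)) 3, ← Real.rpow_mul hy0.le]
      have e : (2 / 3 : ℝ) * ((3 : ℕ) : ℝ) = ((2 : ℕ) : ℝ) := by norm_num
      rw [e, Real.rpow_natCast]
    have e3 : (u ^ (-1 / 3 : ℝ)) ^ 3 * u = 1 := by
      rw [← Real.rpow_natCast (u ^ (-1 / 3 : ℝ)) 3, ← Real.rpow_mul hu0.le]
      have e : (-1 / 3 : ℝ) * ((3 : ℕ) : ℝ) = -1 := by norm_num
      rw [e, Real.rpow_neg_one, inv_mul_cancel₀ hu0.ne']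
    rw [hT, hTdef, mul_pow, mul_pow, mul_pow, e2, ← pow_mul, mul_comm p.J 3]
    calc (z : ℝ) ^ (3 * p.J) * (x ^ (-2 / 3 : ℝ)) ^ 3 * y ^ 2 * (u ^ (-1 / 3 : ℝ)) ^ 3 *
          (x ^ 2 * u)
        = (z : ℝ) ^ (3 * p.J) * y ^ 2 * ((x ^ (-2 / 3 : ℝ)) ^ 3 * x ^ 2) *
          ((u ^ (-1 / 3 : ℝ)) ^ 3 * u) := by ring
      _ = _ := by rw [e1, e3, mul_one, mul_one]
  -- `t ^ 3`
  have hδ0 : 0 ≤ 1 / (z : ℝ) ^ N := by positivity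
  have hδ1 : 1 / (z : ℝ) ^ N ≤ 1 := by
    rw [div_le_one (by positivity)]
    exact one_le_pow₀ (by linarith)
  have htq : (t : ℝ) ^ 3 = T ^ 3 * (1 - 1 / (z : ℝ) ^ N) := by
    have htR : (t : ℝ) ^ 3 * ((z : ℝ) - 1) ^ 2 * ((z : ℝ) ^ p.m - 1) =
        ((z : ℝ) ^ p.n - 1) ^ 2 * ((z : ℝ) ^ N - 1) := by exact_mod_cast ht
    have e1 : (z : ℝ) - 1 = z * x := by
      rw [hx]
      field_simp
    have e2 : (z : ℝ) ^ p.n - 1 = (z : ℝ) ^ p.n * y := by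
      rw [hy]
      field_simp
    have e3 : (z : ℝ) ^ N - 1 = (z : ℝ) ^ N * (1 - 1 / (z : ℝ) ^ N) := by
      field_simp
    have e6 : (z : ℝ) ^ p.m - 1 = (z : ℝ) ^ p.m * u := by
      rw [hu]
      field_simp
    rw [e1, e2, e3, e6, mul_pow, mul_pow] at htR
    have e4 : ((z : ℝ) ^ 2 * (z : ℝ) ^ p.m) * (x ^ 2 * u) ≠ 0 :=
      mul_ne_zero (mul_ne_zero (pow_ne_zero _ hz0.ne') (pow_ne_zero _ hz0.ne'))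
        (mul_ne_zero (pow_ne_zero _ hx0.ne') hu0.ne')
    apply mul_right_cancel₀ e4
    have e5 : (z : ℝ) ^ (3 * p.J) * (z : ℝ) ^ 2 * (z : ℝ) ^ p.m =
        (z : ℝ) ^ N * ((z : ℝ) ^ p.n) ^ 2 := by
      rw [← pow_add, ← pow_add, hJ, pow_add, ← pow_mul, mul_comm p.n]
    calc (t : ℝ) ^ 3 * (((z : ℝ) ^ 2 * (z : ℝ) ^ p.m) * (x ^ 2 * u))
        = (t : ℝ) ^ 3 * ((z : ℝ) ^ 2 * x ^ 2) * ((z : ℝ) ^ p.m * u) := by ring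
      _ = ((z : ℝ) ^ p.n) ^ 2 * y ^ 2 * ((z : ℝ) ^ N * (1 - 1 / (z : ℝ) ^ N)) := htR
      _ = ((z : ℝ) ^ N * ((z : ℝ) ^ p.n) ^ 2) * y ^ 2 * (1 - 1 / (z : ℝ) ^ N) := by ring
      _ = (z : ℝ) ^ 2 * (z : ℝ) ^ p.m * ((z : ℝ) ^ (3 * p.J) * y ^ 2) *
          (1 - 1 / (z : ℝ) ^ N) := by rw [← e5]; ring
      _ = (z : ℝ) ^ 2 * (z : ℝ) ^ p.m * (T ^ 3 * (x ^ 2 * u)) *
          (1 - 1 / (z : ℝ) ^ N) := by rw [hT3]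
      _ = _ := by ring
  have ht0 : (0 : ℝ) ≤ t := by positivity
  have hTq0 : 0 < T ^ 3 := by positivity
  have hle : (t : ℝ) ≤ T := by
    rw [← pow_le_pow_iff_left₀ ht0 hT0.le (by norm_num : (3 : ℕ) ≠ 0), htq]
    nlinarith
  have hge : T * (1 - 1 / (z : ℝ) ^ N) ≤ t := by
    have hδ2 : 0 ≤ 1 - 1 / (z : ℝ) ^ N := by linarith
    rw [← pow_le_pow_iff_left₀ (mul_nonneg hT0.le hδ2) ht0 (by norm_num : (3 : ℕ) ≠ 0), htq,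
      mul_pow]
    refine mul_le_mul_of_nonneg_left ?_ hTq0.le
    exact pow_le_of_le_one hδ2 (by linarith) (by norm_num)
  rw [abs_sub_comm, abs_of_nonneg (by linarith)]
  calc T - t ≤ T * (1 / (z : ℝ) ^ N) := by linarith
    _ ≤ 4 * (z : ℝ) ^ p.J * (1 / (z : ℝ) ^ N) := mul_le_mul_of_nonneg_right hT2 hδ0
    _ = 4 * ((z : ℝ) ^ p.J / (z : ℝ) ^ N) := by ring

end Pool.Agent.NLK
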