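import Pool.Agent.NLE.LTE

/-!
# NLK-Reduce: the integer `t`

PLAN.  `NLE.rep_div_pow` (`q = 3`, `b = p`, `n = p ^ 3`): `U1 ^ 3 = p * rep z (p ^ 2)` (`i = 1`),
`U2 ^ 3 = p ^ 2 * rep z p` (`i = 2`), `y ^ 3 = rep z (p ^ 3)`, and `NL.rep_mul_eq`:
`rep z (p ^ 3) = rep z (p ^ 2) * rep (z ^ p ^ 2) p`.  So `(U2 ^ 2 * y) ^ 3 = (p * U1) ^ 3 * (rep z p ^ 2 *
rep (z ^ p ^ 2) p)` (`rep z (p ^ 2) > 0` cancels), hence `(p * U1) ^ 3 ∣ (U2 ^ 2 * y) ^ 3`,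
`p * U1 ∣ U2 ^ 2 * y` (`Nat.pow_dvd_pow_iff`), `t` is the quotient.  `reduce3` (`p = 3`):
`rep z 9 = rep z 3 * rep (z^3) 3`, `rep z 27 = rep z 9 * rep (z^9) 3`, `U1 ^ 3 = 3 rep z 9`, `U2 ^ 3 = 9 rep z 3`,
`(3 y ^ 2) ^ 3 = (U1 U2) ^ 3 * (rep (z ^ 3) 3 * rep (z ^ 9) 3 ^ 2)`.
-/

namespace Pool.Agent.NLK

private theorem Reduce_quot {a b c : ℕ} (ha : 0 < a) (h : b ^ 3 = a ^ 3 * c) :
    ∃ t : ℕ, t ^ 3 = c := by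
  have h1 : a ^ 3 ∣ b ^ 3 := Dvd.intro c h.symm
  obtain ⟨t, ht⟩ := (Nat.pow_dvd_pow_iff (by norm_num)).1 h1
  refine ⟨t, ?_⟩
  rw [ht, mul_pow] at h
  exact Nat.eq_of_mul_eq_mul_left (by positivity) h

theorem reduce {z p y : ℕ} (hp : p.Prime) (hp2 : p ≠ 2) (hz : 2 ≤ z) (hpz : p ∣ z - 1)
    (h : y ^ 3 = NL.rep z (p ^ 3)) :
    ∃ t : ℕ, t ^ 3 = NL.rep z p ^ 2 * NL.rep (z ^ p ^ 2) p := by
  have hp0 : 0 < p := hp.pos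
  obtain ⟨-, hu⟩ := NLE.rep_div_pow (q := 3) hp hp2 hz hpz (Nat.pow_pos hp0)
    (dvd_pow_self p (by norm_num)) h
  obtain ⟨U1, h1⟩ := hu 1 (by norm_num)
  obtain ⟨U2, h2⟩ := hu 2 (by norm_num)
  have e1 : p ^ 3 / p ^ 1 = p ^ 2 := Nat.pow_div (by norm_num) hp0
  have e2 : p ^ 3 / p ^ 2 = p := by
    rw [Nat.pow_div (by norm_num) hp0]
    norm_num
  rw [e1, pow_one] at h1
  rw [e2] at h2
  have e3 : NL.rep z (p ^ 3) = NL.rep z (p ^ 2) * NL.rep (z ^ p ^ 2) p := by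
    rw [← NL.rep_mul_eq]
    congr 1
  rw [e3] at h
  have hR : 0 < NL.rep z (p ^ 2) := NL.rep_pos (Nat.pow_pos hp0)
  have hU : 0 < U1 := by
    rcases Nat.eq_zero_or_pos U1 with h0 | h0
    · rw [h0] at h1
      have : 0 < p * NL.rep z (p ^ 2) := Nat.mul_pos hp0 hR
      rw [← h1] at this
      norm_num at this
    · exact h0
  refine Reduce_quot (a := p * U1) (b := U2 ^ 2 * y) (Nat.mul_pos hp0 hU) ?_
  calc (U2 ^ 2 * y) ^ 3 = (U2 ^ 3) ^ 2 * y ^ 3 := by ring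
    _ = (p ^ 2 * NL.rep z p) ^ 2 * (NL.rep z (p ^ 2) * NL.rep (z ^ p ^ 2) p) := by rw [h2, h]
    _ = p ^ 3 * (p * NL.rep z (p ^ 2)) * (NL.rep z p ^ 2 * NL.rep (z ^ p ^ 2) p) := by ring
    _ = p ^ 3 * U1 ^ 3 * (NL.rep z p ^ 2 * NL.rep (z ^ p ^ 2) p) := by rw [h1]
    _ = _ := by rw [mul_pow]

private theorem Reduce_three {R3 R9 W V U1 U2 y : ℕ} (hR3 : 0 < R3) (hR9 : 0 < R9)
    (h1 : U1 ^ 3 = 3 * R9) (h2 : U2 ^ 3 = 9 * R3) (h : y ^ 3 = R9 * V) (e4 : R9 = R3 * W) :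
    ∃ t : ℕ, t ^ 3 = W * V ^ 2 := by
  have hU1 : 0 < U1 := by
    rcases Nat.eq_zero_or_pos U1 with h0 | h0
    · rw [h0] at h1
      norm_num at h1
      omega
    · exact h0
  have hU2 : 0 < U2 := by
    rcases Nat.eq_zero_or_pos U2 with h0 | h0
    · rw [h0] at h2
      norm_num at h2
      omega
    · exact h0
  refine Reduce_quot (a := U1 * U2) (b := 3 * y ^ 2) (Nat.mul_pos hU1 hU2) ?_
  calc (3 * y ^ 2) ^ 3 = 27 * (y ^ 3) ^ 2 := by ring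
    _ = 27 * (R9 * V) ^ 2 := by rw [h]
    _ = 27 * (R9 * R9) * V ^ 2 := by ring
    _ = 27 * (R9 * (R3 * W)) * V ^ 2 := by rw [← e4]
    _ = (3 * R9) * (9 * R3) * (W * V ^ 2) := by ring
    _ = U1 ^ 3 * U2 ^ 3 * (W * V ^ 2) := by rw [h1, h2]
    _ = _ := by rw [mul_pow]

theorem reduce3 {z y : ℕ} (hz : 2 ≤ z) (hz3 : 3 ∣ z - 1) (h : y ^ 3 = NL.rep z 27) :
    ∃ t : ℕ, t ^ 3 = NL.rep (z ^ 3) 3 * NL.rep (z ^ 9) 3 ^ 2 := by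
  obtain ⟨-, hu⟩ := NLE.rep_div_pow (q := 3) (b := 3) (n := 27) Nat.prime_three (by norm_num) hz hz3
    (by norm_num) (by norm_num) h
  obtain ⟨U1, h1⟩ := hu 1 (by norm_num)
  obtain ⟨U2, h2⟩ := hu 2 (by norm_num)
  rw [show 27 / 3 ^ 1 = 9 by norm_num, pow_one] at h1
  rw [show 27 / 3 ^ 2 = 3 by norm_num, show 3 ^ 2 = 9 by norm_num] at h2
  have e3 : NL.rep z 27 = NL.rep z 9 * NL.rep (z ^ 9) 3 := NL.rep_mul_eq z 9 3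
  have e4 : NL.rep z 9 = NL.rep z 3 * NL.rep (z ^ 3) 3 := NL.rep_mul_eq z 3 3
  exact Reduce_three (NL.rep_pos (by norm_num)) (NL.rep_pos (by norm_num)) h1 h2 (h.trans e3) e4

end Pool.Agent.NLK
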