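import Pool.Agent.NLC.Runge
import Pool.Agent.NL.Defs

/-!
# NLK-Small: fixed length (Runge's method)

PLAN.  Apply `NLC.runge` (`q = 3`) to `F = (∑ i < p, X^i)^2 * ∑ i < p, X^(p^2 i)`, monic of degree
`2 (p-1) + p^2 (p-1) = 3 J` (`p % 3 = 2`), resp. `F = (∑ i < 3, X^(3 i)) * (∑ i < 3, X^(9 i))^2` of degree
`42 = 3 * 14`.  `F` is not a cube: see `RungeP_mult` in `Pool/Agent/NLC/RungeP.lean`; over `ℂ` the primitive
`p^3`-th (resp. `27`-th) root of unity is a simple root of `∑ i < p, X^(p^2 i) = (X^(p^3) - 1)/(X^(p^2) - 1)` and no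
root of the other factor, so its multiplicity in `F` is `1` (resp. `2`), not divisible by `3`.
-/

namespace Pool.Agent.NLK

open Finset Polynomial

private theorem Small_geom (k n : ℕ) (R : Type*) [CommRing R] :
    (∑ i ∈ range n, ((X : R[X]) ^ k) ^ i) * (X ^ k - 1) = X ^ (k * n) - 1 := by
  rw [geom_sum_mul, pow_mul]

private theorem Small_monic (k n : ℕ) (hk : 1 ≤ k) (hn : 1 ≤ n) :
    (∑ i ∈ range n, ((X : ℤ[X]) ^ k) ^ i).Monic ∧
      (∑ i ∈ range n, ((X : ℤ[X]) ^ k) ^ i).natDegree = k * (n - 1) := by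
  have h := Small_geom k n ℤ
  have hX : (X ^ k - 1 : ℤ[X]) = X ^ k - C 1 := by rw [C_1]
  have hX2 : (X ^ (k * n) - 1 : ℤ[X]) = X ^ (k * n) - C 1 := by rw [C_1]
  rw [hX, hX2] at h
  have hm1 : (X ^ k - C 1 : ℤ[X]).Monic := monic_X_pow_sub_C 1 (by omega)
  have hm2 : (X ^ (k * n) - C 1 : ℤ[X]).Monic :=
    monic_X_pow_sub_C 1 (Nat.mul_ne_zero (by omega) (by omega))
  have hm : (∑ i ∈ range n, ((X : ℤ[X]) ^ k) ^ i).Monic := by
    rw [← h] at hm2
    exact hm1.of_mul_monic_right hm2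
  refine ⟨hm, ?_⟩
  have h2 := congrArg natDegree h
  rw [hm.natDegree_mul hm1, natDegree_X_pow_sub_C, natDegree_X_pow_sub_C] at h2
  rw [Nat.mul_sub_one]
  omega

/-- the multiplicity of a primitive `n`-th root of unity -/
private theorem Small_mult {n k m : ℕ} (hk : 0 < k) (hkn : k < n) (hm : 0 < m) (hmn : m < n)
    (A A' B H : ℂ[X]) (e s : ℕ) (hA : A * A' = X ^ m - 1) (hB : B * (X ^ k - 1) = X ^ n - 1)
    (h : H ^ 3 = A ^ e * B ^ s) : 3 ∣ s := by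
  have hn : n ≠ 0 := by omega
  have hz := Complex.isPrimitiveRoot_exp n hn
  set ζ : ℂ := Complex.exp (2 * Real.pi * Complex.I / n) with hζ
  have hzm : ζ ^ m ≠ 1 := hz.pow_ne_one_of_pos_of_lt (by omega) hmn
  have hzk : ζ ^ k ≠ 1 := hz.pow_ne_one_of_pos_of_lt (by omega) hkn
  have hzz : ζ ^ n = 1 := hz.pow_eq_one
  have hp2 : (X ^ n - 1 : ℂ[X]) ≠ 0 := by
    have := X_pow_sub_C_ne_zero (R := ℂ) (n := n) (by omega) 1
    rwa [C_1] at this
  have hB0 : B ≠ 0 := by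
    intro h0
    apply hp2
    rw [← hB, h0, zero_mul]
  have he1 : A.eval ζ ≠ 0 := by
    intro h0
    have h3 := congrArg (eval ζ) hA
    rw [eval_mul, h0, zero_mul, eval_sub, eval_pow, eval_X, eval_one] at h3
    exact hzm (sub_eq_zero.1 h3.symm)
  have hA0 : A ≠ 0 := by
    intro h0
    apply he1
    rw [h0, eval_zero]
  have hm1 : rootMultiplicity ζ (A ^ e) = 0 := by
    apply rootMultiplicity_eq_zero
    intro h0
    rw [IsRoot, eval_pow] at h0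
    exact pow_ne_zero e he1 h0
  have hmX : rootMultiplicity ζ (X ^ k - 1 : ℂ[X]) = 0 := by
    apply rootMultiplicity_eq_zero
    intro h0
    rw [IsRoot, eval_sub, eval_pow, eval_X, eval_one] at h0
    exact hzk (sub_eq_zero.1 h0)
  have hsep : (X ^ n - 1 : ℂ[X]).Separable :=
    X_pow_sub_one_separable_iff.2 (by exact_mod_cast hn)
  have hle : rootMultiplicity ζ (X ^ n - 1 : ℂ[X]) ≤ 1 :=
    rootMultiplicity_le_one_of_separable hsep ζ
  have hge : 0 < rootMultiplicity ζ (X ^ n - 1 : ℂ[X]) := by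
    rw [rootMultiplicity_pos hp2, IsRoot, eval_sub, eval_pow, eval_X, eval_one, hzz, sub_self]
  have hm2 : rootMultiplicity ζ B = 1 := by
    have h4 := rootMultiplicity_mul (x := ζ) (p := B) (q := X ^ k - 1) (by rw [hB]; exact hp2)
    rw [hB, hmX] at h4
    omega
  have hm3 : rootMultiplicity ζ (B ^ s) = s := by
    rw [← count_roots, roots_pow, Multiset.count_nsmul, count_roots, hm2, mul_one]
  have hne : A ^ e * B ^ s ≠ 0 := mul_ne_zero (pow_ne_zero _ hA0) (pow_ne_zero _ hB0)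
  have h5 := congrArg (rootMultiplicity ζ) h
  rw [rootMultiplicity_mul hne, hm1, hm3, ← count_roots, roots_pow, Multiset.count_nsmul,
    zero_add] at h5
  exact ⟨_, h5.symm⟩

theorem small {p : ℕ} (hp : p % 3 = 2) : ∃ Z0 : ℕ, ∀ z t : ℕ, Z0 ≤ z →
    t ^ 3 ≠ NL.rep z p ^ 2 * NL.rep (z ^ p ^ 2) p := by
  have hp1 : 2 ≤ p := by
    have := Nat.mod_le p 3
    omega
  obtain ⟨hma, hda⟩ := Small_monic 1 p le_rfl (by omega)
  obtain ⟨hmb, hdb⟩ := Small_monic (p ^ 2) p (Nat.one_le_pow _ _ (by omega)) (by omega)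
  obtain ⟨J, hJ⟩ : ∃ J, 2 * (p - 1) + p ^ 2 * (p - 1) = 3 * J := by
    obtain ⟨r, rfl⟩ : ∃ r, p = 3 * r + 2 := ⟨p / 3, by omega⟩
    refine ⟨(3 * r ^ 2 + 4 * r + 2) * (3 * r + 1), ?_⟩
    rw [show 3 * r + 2 - 1 = 3 * r + 1 by omega]
    ring
  obtain ⟨Z0, hZ⟩ := NLC.runge (q := 3) (J := J) (by norm_num)
    (F := (∑ i ∈ range p, ((X : ℤ[X]) ^ 1) ^ i) ^ 2 * (∑ i ∈ range p, ((X : ℤ[X]) ^ p ^ 2) ^ i))
    ((hma.pow 2).mul hmb)
    (by rw [(hma.pow 2).natDegree_mul hmb, hma.natDegree_pow, hda, hdb, one_mul, hJ])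
    (by
      intro G hG
      have h2 := congrArg (Polynomial.map (algebraMap ℚ ℂ)) hG
      have hlt : p < p ^ 2 * p := by
        calc p = 1 * p := (one_mul p).symm
          _ < p ^ 2 * p := Nat.mul_lt_mul_of_pos_right (Nat.one_lt_pow two_ne_zero hp1) (by omega)
      have h3 : 3 ∣ 1 := Small_mult (n := p ^ 2 * p) (k := p ^ 2) (m := 1 * p) (pow_pos (by omega) 2)
        (lt_mul_of_one_lt_right (pow_pos (by omega) 2) hp1) (by omega) (by rwa [one_mul])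
        (∑ i ∈ range p, ((X : ℂ[X]) ^ 1) ^ i) (X ^ 1 - 1) (∑ i ∈ range p, ((X : ℂ[X]) ^ p ^ 2) ^ i)
        (G.map (algebraMap ℚ ℂ)) 2 1 (Small_geom 1 p ℂ) (Small_geom (p ^ 2) p ℂ) (by
          rw [← Polynomial.map_pow, h2]
          simp [Polynomial.map_sum])
      omega)
  refine ⟨Z0, fun z t hz h => hZ z t hz ?_⟩
  rw [← Nat.cast_pow, h]
  simp [NL.rep, eval_finsetSum]

theorem small3 : ∃ Z0 : ℕ, ∀ z t : ℕ, Z0 ≤ z →
    t ^ 3 ≠ NL.rep (z ^ 3) 3 * NL.rep (z ^ 9) 3 ^ 2 := by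
  obtain ⟨hma, hda⟩ := Small_monic 3 3 (by norm_num) (by norm_num)
  obtain ⟨hmb, hdb⟩ := Small_monic 9 3 (by norm_num) (by norm_num)
  obtain ⟨Z0, hZ⟩ := NLC.runge (q := 3) (J := 14) (by norm_num)
    (F := (∑ i ∈ range 3, ((X : ℤ[X]) ^ 3) ^ i) * (∑ i ∈ range 3, ((X : ℤ[X]) ^ 9) ^ i) ^ 2)
    (hma.mul (hmb.pow 2))
    (by rw [hma.natDegree_mul (hmb.pow 2), hmb.natDegree_pow, hda, hdb])
    (by
      intro G hG
      have h2 := congrArg (Polynomial.map (algebraMap ℚ ℂ)) hG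
      have h3 : 3 ∣ 2 := Small_mult (n := 9 * 3) (k := 9) (m := 3 * 3) (by norm_num) (by norm_num)
        (by norm_num) (by norm_num)
        (∑ i ∈ range 3, ((X : ℂ[X]) ^ 3) ^ i) (X ^ 3 - 1) (∑ i ∈ range 3, ((X : ℂ[X]) ^ 9) ^ i)
        (G.map (algebraMap ℚ ℂ)) 1 2 (Small_geom 3 3 ℂ) (Small_geom 9 3 ℂ) (by
          rw [← Polynomial.map_pow, h2]
          simp [Polynomial.map_sum])
      omega)
  refine ⟨Z0, fun z t hz h => hZ z t hz ?_⟩
  rw [← Nat.cast_pow, h]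
  simp [NL.rep, eval_finsetSum]

end Pool.Agent.NLK
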