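import Pool.Agent.NLK.Main
import Pool.Agent.NLK.Reduce
import Pool.Agent.NLK.Small
import Pool.Agent.NL.FixedOne

/-!
# NLK-Final: exponent 3, length `p ^ 3`, `p ∣ z - 1`: the base is bounded
-/

namespace Pool.Agent.NLK

open Finset

theorem cube_bounded : ∃ Z0 : ℕ, ∀ z p y : ℕ, Z0 ≤ z → p.Prime → p ≠ 2 → p ∣ z - 1 →
    y ^ 3 ≠ NL.rep z (p ^ 3) := by
  obtain ⟨Z1, N1, h1⟩ := main
  obtain ⟨Z2, h2⟩ := NL.fixed_one (q := 3) (by norm_num)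
  obtain ⟨Z3, h3⟩ := small3
  have hsm : ∃ Z4 : ℕ, ∀ p < N1, p % 3 = 2 → ∀ z t : ℕ, Z4 ≤ z →
      t ^ 3 ≠ NL.rep z p ^ 2 * NL.rep (z ^ p ^ 2) p := by
    clear h1
    induction N1 with
    | zero => exact ⟨0, fun p hp => absurd hp (Nat.not_lt_zero _)⟩
    | succ N ih =>
      obtain ⟨Z4, h4⟩ := ih
      by_cases hN : N % 3 = 2
      · obtain ⟨Z5, h5⟩ := small hN
        refine ⟨max Z4 Z5, fun p hp hp3 z t hz => ?_⟩
        rcases Nat.lt_succ_iff_lt_or_eq.1 hp with hlt | rfl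
        · exact h4 p hlt hp3 z t ((le_max_left _ _).trans hz)
        · exact h5 z t ((le_max_right _ _).trans hz)
      · refine ⟨Z4, fun p hp hp3 z t hz => ?_⟩
        rcases Nat.lt_succ_iff_lt_or_eq.1 hp with hlt | rfl
        · exact h4 p hlt hp3 z t hz
        · exact absurd hp3 hN
  obtain ⟨Z4, h4⟩ := hsm
  refine ⟨Z1 + Z2 + Z3 + Z4 + 2, fun z p y hz hp hp2 hpz h => ?_⟩
  have hz2 : 2 ≤ z := by omega
  have hp1 := hp.two_le
  have hmod : p % 3 = 0 ∨ p % 3 = 1 ∨ p % 3 = 2 := by omega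
  rcases hmod with h0 | h0 | h0
  · have hp3 : p = 3 := ((Nat.prime_dvd_prime_iff_eq Nat.prime_three hp).1
      (Nat.dvd_of_mod_eq_zero h0)).symm
    subst hp3
    obtain ⟨t, ht⟩ := reduce3 hz2 hpz (by rw [h]; norm_num)
    exact h3 z t (by omega) ht
  · have h5 : p ^ 3 % 3 = 1 := by
      rw [Nat.pow_mod, h0]
    have h6 : 1 < p ^ 3 := Nat.one_lt_pow (by norm_num) hp.one_lt
    exact h2 z y (p ^ 3) (by omega) h6 h5 h
  · obtain ⟨t, ht⟩ := reduce hp hp2 hz2 hpz h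
    by_cases hN : p < N1
    · exact h4 p hN h0 z t (by omega) ht
    · obtain ⟨J, hJ⟩ : ∃ J, 3 * J + 2 + p ^ 2 = p ^ 3 + 2 * p := by
        obtain ⟨k, hk⟩ : ∃ k, p = 3 * k + 2 := ⟨p / 3, by omega⟩
        refine ⟨(3 * k + 1) * (3 * k ^ 2 + 4 * k + 2), ?_⟩
        rw [hk]
        ring
      refine h1 p J z t (not_lt.1 hN) hJ (by omega) ?_
      have e1 := NL.rep_mul_int z p
      have e2 := NL.rep_mul_int (z ^ p ^ 2) p
      have e3 : ((z ^ p ^ 2 : ℕ) : ℤ) ^ p = (z : ℤ) ^ (p ^ 3) := by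
        push_cast
        rw [← pow_mul]
        congr 1
      have e4 : ((z ^ p ^ 2 : ℕ) : ℤ) = (z : ℤ) ^ (p ^ 2) := by push_cast; rfl
      have ht' : (t : ℤ) ^ 3 = (NL.rep z p : ℤ) ^ 2 * (NL.rep (z ^ p ^ 2) p : ℤ) := by
        exact_mod_cast ht
      rw [ht', ← e1, ← e3, ← e2, e4]
      ring

end Pool.Agent.NLK
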