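import Pool.Agent.NLK.OneVar

/-!
# NLK-HSum: the expansion at infinity of the derivative of one monomial
-/

namespace Pool.Agent.NLK

open Finset Polynomial
open Pool.Agent.NLG (KZ kap)

private theorem hsum_congr {ι : Type} {f g : ι → ℝ} {a b : ℝ} (h : ∀ k, f k = g k) (hab : a = b)
    (hg : HasSum g b) : HasSum f a := by
  rw [show f = g from funext h, hab]
  exact hg

theorem hasSum_mono (p : Par) (hn : 1 ≤ p.n) (hm : 1 ≤ p.m) {z : ℕ} (hz : 2 ≤ z)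
    (a β γ l₁ l₂ l₃ : ℕ) :
    HasSum (fun x : ℕ × ℕ × ℕ => (9 : ℝ) ^ (l₁ + l₂ + l₃) * ((z : ℝ) - 1) ^ l₁ *
        ((z : ℝ) ^ p.n - 1) ^ l₂ * ((z : ℝ) ^ p.m - 1) ^ l₃ * FF p z l₁ l₂ l₃ a β γ x)
      (TT p z * (z : ℝ) ^ a *
        (EE (3 * ((a : ℤ) - p.n * β - p.m * γ + p.J) + 2) (-2) z l₁ : ℝ) *
        (EE (3 * β - 2) 2 ((z : ℤ) ^ p.n) l₂ : ℝ) *
        (EE (3 * γ + 1) (-1) ((z : ℤ) ^ p.m) l₃ : ℝ)) := by
  have hz1 : (1 : ℝ) < z := by exact_mod_cast hz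
  have hz0 : (z : ℝ) ≠ 0 := by linarith
  have hzn : 2 ≤ z ^ p.n := hz.trans (Nat.le_self_pow (by omega) z)
  have hzm : 2 ≤ z ^ p.m := hz.trans (Nat.le_self_pow (by omega) z)
  have s1 := hasSum_one hz (a := 3 * ((a : ℤ) - p.n * β - p.m * γ + p.J) + 2) (b := -2)
    (c := (a : ℤ) - p.n * β - p.m * γ + p.J) (by ring) l₁
  have s2 := hasSum_one hzn (a := 3 * (β : ℤ) - 2) (b := 2) (c := (β : ℤ)) (by ring) l₂
  have s3 := hasSum_one hzm (a := 3 * (γ : ℤ) + 1) (b := -1) (c := (γ : ℤ)) (by ring) l₃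
  have s23 := s2.mul s3 (summable_mul_of_summable_norm (summable_norm_iff.2 s2.summable)
    (summable_norm_iff.2 s3.summable))
  have s4 := (s1.mul s23 (summable_mul_of_summable_norm (summable_norm_iff.2 s1.summable)
    (summable_norm_iff.2 s23.summable))).mul_left ((z : ℝ) ^ a * (z : ℝ) ^ p.J)
  refine hsum_congr (fun x => ?_) ?_ s4
  · have e1 : (((-2 : ℤ) : ℚ) / 3) = -2 / 3 := by norm_num
    have e2 : (((2 : ℤ) : ℚ) / 3) = 2 / 3 := by norm_num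
    have e3 : (((-1 : ℤ) : ℚ) / 3) = -1 / 3 := by norm_num
    have e4 : (z : ℝ) ^ ((a : ℤ) + p.J - x.1 - p.n * x.2.1 - p.m * x.2.2) =
        (z : ℝ) ^ a * (z : ℝ) ^ p.J * ((z : ℝ) ^ x.1)⁻¹ * (((z : ℝ) ^ p.n) ^ x.2.1)⁻¹ *
          (((z : ℝ) ^ p.m) ^ x.2.2)⁻¹ := by
      have e6 : (z : ℝ) ^ ((p.n : ℤ) * (x.2.1 : ℤ)) = (z : ℝ) ^ (p.n * x.2.1) := by
        rw [← zpow_natCast]
        push_cast
        rfl
      have e7 : (z : ℝ) ^ ((p.m : ℤ) * (x.2.2 : ℤ)) = (z : ℝ) ^ (p.m * x.2.2) := by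
        rw [← zpow_natCast]
        push_cast
        rfl
      rw [zpow_sub₀ hz0, zpow_sub₀ hz0, zpow_sub₀ hz0, zpow_add₀ hz0, e6, e7, ← pow_mul,
        ← pow_mul, zpow_natCast, zpow_natCast, zpow_natCast]
      rw [div_eq_mul_inv, div_eq_mul_inv, div_eq_mul_inv]
    rw [FF, e1, e2, e3, e4]
    push_cast
    ring
  · rw [TT]
    have e1 : ((-2 : ℤ) : ℝ) / 3 = -2 / 3 := by norm_num
    have e2 : ((2 : ℤ) : ℝ) / 3 = 2 / 3 := by norm_num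
    have e3 : ((-1 : ℤ) : ℝ) / 3 = -1 / 3 := by norm_num
    have e4 : ((z ^ p.n : ℕ) : ℤ) = (z : ℤ) ^ p.n := by push_cast; rfl
    have e5 : ((z ^ p.m : ℕ) : ℤ) = (z : ℤ) ^ p.m := by push_cast; rfl
    have e6 : ((z ^ p.n : ℕ) : ℝ) = (z : ℝ) ^ p.n := by push_cast; rfl
    have e7 : ((z ^ p.m : ℕ) : ℝ) = (z : ℝ) ^ p.m := by push_cast; rfl
    rw [e1, e2, e3, e4, e5, e6, e7]
    ring

end Pool.Agent.NLK
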