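import Pool.Agent.NLK.Defs

/-!
# NLK-Sz: the sizes in the final inequality
-/

namespace Pool.Agent.NLK

/-- The bound for the degree of `NN` in `z`. -/
def dz (p : Par) : ℕ := p.P + p.S + p.n * (2 * p.B + p.L) + p.m * (2 * p.V + p.M) + 2

/-- The bound for the norm of `NN`. -/
def hh (p : Par) : ℕ :=
  24 * dz p * ((p.P * p.B * p.V * (p.P * p.B * p.V * 9 ^ p.Q) * 9 ^ p.Q) *
    (p.S * (p.B + p.L) * (p.V + p.M) * (p.P * p.B * p.V * (p.P * p.B * p.V * 9 ^ p.Q) * 9 ^ p.Q)))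

/-- The bound for the norm of the first determinant. -/
def bb (D1 D2 D3 H K : ℕ) : ℕ := K.factorial * (((D1 + (D1 + 1) * D2) * D3) ^ K * H) ^ K

end Pool.Agent.NLK
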