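import Pool.Agent.NLK.Nrm
import Pool.Agent.NLK.Deg
import Pool.Agent.NLK.Sz

/-!
# NLK-NBd: the size of `NN`

PLAN.  As `nbd_gZ`, `nbd_AP`, `nbd_BP`, `nrm_NN` in `Pool/Agent/NLC/NBd.lean` (`q = 3`, `h = 2`), using Nrm and Deg (may
be assumed).  `|mZ p r j k i β γ| ≤ 9 ^ Q` for `r < Q` (`abs_KZ3_le`, exponents add up to `Q`), so
`|gZ p A r j k| ≤ P B V (9 ^ Q H)`; `nrm AP ≤ P B V H 9 ^ Q`, `nrm BP ≤ S (B+L) (V+M) (P B V H 9 ^ Q)`;
`nrm NN ≤ 3 * 2 * (2 D nrm AP nrm BP) + nrm AP nrm BP (3 J * 2 + 2) ≤ 24 D nrm AP nrm BP`, `D = dz p ≥ J + 1`.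
`dz`, `hh` are in Sz.
-/

namespace Pool.Agent.NLK

open Finset Polynomial
open Pool.Agent.NLG (KZ kap)

private theorem nbd_CCC (c : ℤ) : nrm (C (C (C c)) : ℤ[X][X][X]) = |c| := by
  have h := nrm_monomial 0 0 0 c
  rwa [monomial_zero_left, monomial_zero_left, monomial_zero_left] at h

private theorem nbd_X : nrm (X : ℤ[X][X][X]) = 1 := by
  have h := nrm_monomial 1 0 0 1
  rw [monomial_zero_left, monomial_zero_left, C_1, C_1, monomial_one_one_eq_X, abs_one] at h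
  exact h

private theorem nbd_sub (F G : ℤ[X][X][X]) : nrm (F - G) ≤ nrm F + nrm G := by
  have h : F - G = F + -G := sub_eq_add_neg F G
  rw [h]
  refine (nrm_add _ _).trans ?_
  rw [nrm_neg]

private theorem nbd_X1 : nrm (X - 1 : ℤ[X][X][X]) ≤ 2 := by
  refine (nbd_sub _ _).trans ?_
  rw [nbd_X, nrm_one]
  norm_num

private theorem nbd_mZ (p : Par) (hn : 1 ≤ p.n) (hm : 1 ≤ p.m) {r : ℕ} (hr : r < p.Q)
    (j k i β γ : ℕ) : |mZ p r j k i β γ| ≤ 9 ^ p.Q := by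
  unfold mZ
  split_ifs with hc
  · obtain ⟨hc1, hc2, hc3⟩ := hc
    obtain ⟨a', ha'⟩ : ∃ a', a' = β + p.L - j := ⟨_, rfl⟩
    obtain ⟨a'', ha''⟩ : ∃ a'', a'' = γ + p.M - k := ⟨_, rfl⟩
    rw [← ha', ← ha''] at hc3 ⊢
    obtain ⟨a, ha⟩ : ∃ a, a = r - i - p.n * a' - p.m * a'' := ⟨_, rfl⟩
    rw [← ha]
    have h2 : a' ≤ p.n * a' := Nat.le_mul_of_pos_left _ hn
    have h3 : a'' ≤ p.m * a'' := Nat.le_mul_of_pos_left _ hm
    have k1 : |KZ 3 (-2) a| ≤ 9 ^ a := abs_KZ3_le (by norm_num) a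
    have k2 : |KZ 3 2 a'| ≤ 9 ^ a' := abs_KZ3_le (by norm_num) a'
    have k3 : |KZ 3 (-1) a''| ≤ 9 ^ a'' := abs_KZ3_le (by norm_num) a''
    have k4 : (0 : ℤ) ≤ 9 ^ (p.Q - a - a' - a'') := by positivity
    have e : (9 : ℤ) ^ p.Q = 9 ^ a * 9 ^ a' * 9 ^ a'' * 9 ^ (p.Q - a - a' - a'') := by
      rw [← pow_add, ← pow_add, ← pow_add]
      congr 1
      omega
    rw [abs_mul, abs_mul, abs_mul, abs_of_nonneg k4, e]
    refine mul_le_mul_of_nonneg_right ?_ k4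
    refine mul_le_mul ?_ k3 (abs_nonneg _) (by positivity)
    exact mul_le_mul k1 k2 (abs_nonneg _) (by positivity)
  · rw [abs_zero]
    positivity

private theorem nbd_gZ (p : Par) (hn : 1 ≤ p.n) (hm : 1 ≤ p.m) (A : ℕ → ℕ → ℕ → ℤ)
    {H : ℤ} (hA : ∀ i β γ, |A i β γ| ≤ H) {r : ℕ} (hr : r < p.Q) (j k : ℕ) :
    |gZ p A r j k| ≤ p.P * p.B * p.V * H * 9 ^ p.Q := by
  have hH : 0 ≤ H := (abs_nonneg _).trans (hA 0 0 0)
  unfold gZ
  refine (abs_sum_le_sum_abs _ _).trans ?_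
  calc ∑ i ∈ range p.P, |∑ β ∈ range p.B, ∑ γ ∈ range p.V, mZ p r j k i β γ * A i β γ|
      ≤ ∑ i ∈ range p.P, ∑ β ∈ range p.B, ∑ γ ∈ range p.V, 9 ^ p.Q * H := by
        refine sum_le_sum fun i _ => (abs_sum_le_sum_abs _ _).trans ?_
        refine sum_le_sum fun β _ => (abs_sum_le_sum_abs _ _).trans ?_
        refine sum_le_sum fun γ _ => ?_
        rw [abs_mul]
        exact mul_le_mul (nbd_mZ p hn hm hr j k i β γ) (hA i β γ) (abs_nonneg _) (by positivity)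
    _ = p.P * p.B * p.V * H * 9 ^ p.Q := by
        simp only [sum_const, card_range, nsmul_eq_mul]
        ring

private theorem nbd_AP (p : Par) (A : ℕ → ℕ → ℕ → ℤ)
    {H : ℤ} (hA : ∀ i β γ, |A i β γ| ≤ H) :
    nrm (AP p A) ≤ p.P * p.B * p.V * H * 9 ^ p.Q := by
  unfold AP
  refine (nrm_sum _ _).trans ?_
  calc ∑ i ∈ range p.P, nrm (∑ β ∈ range p.B, ∑ γ ∈ range p.V,
          monomial (p.P - 1 - i + p.n * (p.B - 1 - β) + p.m * (p.V - 1 - γ))
          (monomial (β + p.L) (monomial (γ + p.M) (9 ^ p.Q * A i β γ))))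
      ≤ ∑ i ∈ range p.P, ∑ β ∈ range p.B, ∑ γ ∈ range p.V, H * 9 ^ p.Q := by
        refine sum_le_sum fun i _ => (nrm_sum _ _).trans ?_
        refine sum_le_sum fun β _ => (nrm_sum _ _).trans ?_
        refine sum_le_sum fun γ _ => ?_
        have h0 : (0 : ℤ) ≤ 9 ^ p.Q := by positivity
        rw [nrm_monomial, abs_mul, abs_of_nonneg h0, mul_comm]
        exact mul_le_mul_of_nonneg_right (hA i β γ) h0
    _ = p.P * p.B * p.V * H * 9 ^ p.Q := by
        simp only [sum_const, card_range, nsmul_eq_mul]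
        ring

private theorem nbd_BP (p : Par) (hn : 1 ≤ p.n) (hm : 1 ≤ p.m) (hR : p.S ≤ p.Q)
    (A : ℕ → ℕ → ℕ → ℤ) {H : ℤ} (hA : ∀ i β γ, |A i β γ| ≤ H) :
    nrm (BP p A) ≤ p.S * (p.B + p.L) * (p.V + p.M) * (p.P * p.B * p.V * H * 9 ^ p.Q) := by
  unfold BP
  rw [nrm_neg]
  refine (nrm_sum _ _).trans ?_
  calc ∑ r ∈ range p.S, nrm (∑ j ∈ range (p.B + p.L), ∑ k ∈ range (p.V + p.M),
          monomial (p.S - 1 - r + p.n * (p.B + p.L - 1 - j) + p.m * (p.V + p.M - 1 - k))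
          (monomial j (monomial k (gZ p A r j k))))
      ≤ ∑ r ∈ range p.S, ∑ j ∈ range (p.B + p.L), ∑ k ∈ range (p.V + p.M),
          p.P * p.B * p.V * H * 9 ^ p.Q := by
        refine sum_le_sum fun r hr => (nrm_sum _ _).trans ?_
        refine sum_le_sum fun j _ => (nrm_sum _ _).trans ?_
        refine sum_le_sum fun k _ => ?_
        rw [nrm_monomial]
        refine nbd_gZ p hn hm A hA ?_ j k
        have h2 := mem_range.1 hr
        omega
    _ = p.S * (p.B + p.L) * (p.V + p.M) * (p.P * p.B * p.V * H * 9 ^ p.Q) := by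
        simp only [sum_const, card_range, nsmul_eq_mul]
        push_cast
        ring

theorem nrm_NN (p : Par) (hn : 1 ≤ p.n) (hm : 1 ≤ p.m) (A : ℕ → ℕ → ℕ → ℤ)
    (hA : ∀ i β γ, |A i β γ| ≤ p.P * p.B * p.V * 9 ^ p.Q) : nrm (NN p A) ≤ (hh p : ℤ) := by
  obtain ⟨H, hH⟩ : ∃ H : ℤ, H = p.P * p.B * p.V * 9 ^ p.Q := ⟨_, rfl⟩
  rw [← hH] at hA
  have hhh : (hh p : ℤ) = 24 * (dz p : ℤ) * ((p.P * p.B * p.V * H * 9 ^ p.Q) *
      (p.S * (p.B + p.L) * (p.V + p.M) * (p.P * p.B * p.V * H * 9 ^ p.Q))) := by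
    unfold hh
    rw [hH]
    push_cast
    ring
  rw [hhh]
  have hSQ : p.S ≤ p.Q := by
    unfold Par.S Par.Q
    omega
  have hJS : p.J ≤ p.S := by
    unfold Par.S
    omega
  have e1 : p.n * (2 * p.B + p.L) = p.n * p.B + p.n * (p.B + p.L) := by ring
  have e2 : p.m * (2 * p.V + p.M) = p.m * p.V + p.m * (p.V + p.M) := by ring
  obtain ⟨D, hD⟩ : ∃ D : ℕ, D = dz p := ⟨_, rfl⟩
  rw [← hD]
  unfold dz at hD
  have dA : (AP p A).natDegree ≤ D := (natDegree_AP p A).trans (by omega)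
  have dB : (BP p A).natDegree ≤ D := (natDegree_BP p A).trans (by omega)
  have hJ : p.J ≤ D := by omega
  have hD1 : 1 ≤ D := by omega
  have nA := nrm_nonneg (AP p A)
  have nB := nrm_nonneg (BP p A)
  have bA := nbd_AP p A hA
  have bB := nbd_BP p hn hm hSQ A hA
  have cA := nrm_derivative (AP p A) dA
  have cB := nrm_derivative (BP p A) dB
  have hD0 : (0 : ℤ) ≤ D := by positivity
  have hJ0 : (0 : ℤ) ≤ p.J := by positivity
  have key : nrm (NN p A) ≤ 24 * D * (nrm (AP p A) * nrm (BP p A)) := by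
    unfold NN
    refine (nrm_add _ _).trans ?_
    have f1 : nrm (C (C (C (3 : ℤ))) * (X * (X - 1)) *
        (BP p A * derivative (AP p A) - AP p A * derivative (BP p A))) ≤
        6 * (2 * D * (nrm (AP p A) * nrm (BP p A))) := by
      refine (nrm_mul _ _).trans ?_
      have g1 : nrm (C (C (C (3 : ℤ))) * (X * (X - 1)) : ℤ[X][X][X]) ≤ 6 := by
        refine (nrm_mul _ _).trans ?_
        rw [nbd_CCC, abs_of_nonneg (by norm_num)]
        have h1 : nrm (X * (X - 1) : ℤ[X][X][X]) ≤ 2 := by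
          refine (nrm_mul _ _).trans ?_
          rw [nbd_X, one_mul]
          exact nbd_X1
        linarith
      have g2 : nrm (BP p A * derivative (AP p A) - AP p A * derivative (BP p A)) ≤
          2 * D * (nrm (AP p A) * nrm (BP p A)) := by
        refine (nbd_sub _ _).trans ?_
        have u1 : nrm (BP p A * derivative (AP p A)) ≤ nrm (BP p A) * (D * nrm (AP p A)) :=
          (nrm_mul _ _).trans (mul_le_mul_of_nonneg_left cA nB)
        have u2 : nrm (AP p A * derivative (BP p A)) ≤ nrm (AP p A) * (D * nrm (BP p A)) :=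
          (nrm_mul _ _).trans (mul_le_mul_of_nonneg_left cB nA)
        linarith
      exact mul_le_mul g1 g2 (nrm_nonneg _) (by norm_num)
    have f2 : nrm (AP p A * BP p A *
        (C (C (C (3 * (p.J : ℤ)))) * (X - 1) - C (C (C (2 : ℤ))))) ≤
        (nrm (AP p A) * nrm (BP p A)) * (3 * p.J * 2 + 2) := by
      refine (nrm_mul _ _).trans ?_
      refine mul_le_mul (nrm_mul _ _) ?_ (nrm_nonneg _) (by positivity)
      refine (nbd_sub _ _).trans ?_
      have g1 : nrm (C (C (C (3 * (p.J : ℤ)))) * (X - 1) : ℤ[X][X][X]) ≤ 3 * p.J * 2 := by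
        refine (nrm_mul _ _).trans ?_
        rw [nbd_CCC, abs_of_nonneg (by positivity)]
        exact mul_le_mul_of_nonneg_left nbd_X1 (by positivity)
      have g2 : nrm (C (C (C (2 : ℤ))) : ℤ[X][X][X]) = 2 := by
        rw [nbd_CCC, abs_of_nonneg (by norm_num)]
      rw [g2]
      linarith
    have v1 : (p.J : ℤ) ≤ D := by exact_mod_cast hJ
    have v2 : (1 : ℤ) ≤ D := by exact_mod_cast hD1
    have v3 : (nrm (AP p A) * nrm (BP p A)) * (3 * p.J * 2 + 2) ≤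
        (nrm (AP p A) * nrm (BP p A)) * (8 * D) := by
      refine mul_le_mul_of_nonneg_left ?_ (mul_nonneg nA nB)
      linarith
    have v4 : 0 ≤ D * (nrm (AP p A) * nrm (BP p A)) := mul_nonneg hD0 (mul_nonneg nA nB)
    linarith
  refine key.trans ?_
  refine mul_le_mul_of_nonneg_left ?_ (by positivity)
  exact mul_le_mul bA bB nB (nA.trans bA)

end Pool.Agent.NLK
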