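import Pool.Agent.NLK.Defs

/-!
# NLK-NNz: the polynomial `NN` is not zero

Three-variable version of `Pool/Agent/NLC/NNz.lean`.
(1) `AP ≠ 0`: the coefficient at `(P-1-i + n (B-1-β) + m (V-1-γ), β+L, γ+M)` is `9 ^ Q A i β γ`.
(2) `BP ≠ 0`: let `γ₀` be the largest `γ < V` with some `A i β γ ≠ 0`, `β₀` the largest `β < B` with some
`A i β γ₀ ≠ 0`, `i₀` the smallest `i` with `A i β₀ γ₀ ≠ 0`; then `gZ i₀ (β₀ + L) (γ₀ + M) = 9 ^ Q A i₀ β₀ γ₀`.
(3) `3 (a - b) + 3 J + 2 ≠ 0`.
-/

namespace Pool.Agent.NLK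

open Finset Polynomial
open Pool.Agent.NLG (KZ kap)

section gen

variable {R : Type*} [CommRing R]

private theorem nnz_der (a : ℕ) (F : R[X]) :
    X * derivative (X ^ a * F) = X ^ a * (C (a : R) * F + X * derivative F) := by
  rw [derivative_mul, derivative_X_pow]
  rcases a with _ | a
  · simp
  · rw [Nat.add_sub_cancel]
    ring

private theorem nnz_split [IsDomain R] {F : R[X]} (hF : F ≠ 0) :
    ∃ (a : ℕ) (F1 : R[X]), F = X ^ a * F1 ∧ F1.eval 0 ≠ 0 := by
  have h1 : X ^ F.natTrailingDegree ∣ F := by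
    rw [X_pow_dvd_iff]
    intro d hd
    exact coeff_eq_zero_of_lt_natTrailingDegree hd
  obtain ⟨F1, h2⟩ := h1
  refine ⟨F.natTrailingDegree, F1, h2, ?_⟩
  have h3 : F.coeff F.natTrailingDegree ≠ 0 := by
    have := trailingCoeff_nonzero_iff_nonzero.2 hF
    exact this
  rw [← coeff_zero_eq_eval_zero]
  intro h4
  apply h3
  generalize F.natTrailingDegree = a at h2
  rw [h2, coeff_X_pow_mul', if_pos le_rfl, Nat.sub_self, h4]

private theorem nnz_main [IsDomain R] {F G : R[X]} (hF : F ≠ 0) (hG : G ≠ 0) {q J h : R}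
    (hc : ∀ a b : ℕ, q * ((a : R) - b) + J + h ≠ 0) :
    C q * (X * (X - 1)) * (G * derivative F - F * derivative G) +
      F * G * (C J * (X - 1) - C h) ≠ 0 := by
  obtain ⟨a, F1, rfl, hF1⟩ := nnz_split hF
  obtain ⟨b, G1, rfl, hG1⟩ := nnz_split hG
  have e : C q * (X * (X - 1)) * (X ^ b * G1 * derivative (X ^ a * F1) -
      X ^ a * F1 * derivative (X ^ b * G1)) + X ^ a * F1 * (X ^ b * G1) * (C J * (X - 1) - C h) =
      X ^ (a + b) * (C q * (X - 1) * (G1 * (C (a : R) * F1 + X * derivative F1) -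
        F1 * (C (b : R) * G1 + X * derivative G1)) + F1 * G1 * (C J * (X - 1) - C h)) := by
    have h1 := nnz_der a F1
    have h2 := nnz_der b G1
    have e1 : C q * (X * (X - 1)) * (X ^ b * G1 * derivative (X ^ a * F1) -
        X ^ a * F1 * derivative (X ^ b * G1)) =
        C q * (X - 1) * (X ^ b * G1 * (X * derivative (X ^ a * F1)) -
          X ^ a * F1 * (X * derivative (X ^ b * G1))) := by ring
    rw [e1, h1, h2, pow_add]
    ring
  rw [e]
  refine mul_ne_zero (pow_ne_zero _ X_ne_zero) fun h0 => ?_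
  have h3 := congrArg (eval 0) h0
  simp only [eval_add, eval_mul, eval_sub, eval_C, eval_X, eval_one, eval_zero, zero_mul, add_zero,
    zero_sub] at h3
  have h4 : F1.eval 0 * G1.eval 0 * (q * ((a : R) - b) + J + h) = 0 := by
    linear_combination -h3
  exact mul_ne_zero (mul_ne_zero hF1 hG1) (hc a b) h4

end gen

private theorem nnz_coeff {P B V n m : ℕ} (f : ℕ → ℕ → ℕ → ℤ) (d d' : ℕ → ℕ)
    (hd : ∀ β β', d β = d β' → β = β') (hd' : ∀ γ γ', d' γ = d' γ' → γ = γ')
    (e e' : ℕ → ℕ) {i β γ : ℕ} (hi : i < P) (hβ : β < B) (hγ : γ < V) :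
    (((∑ i ∈ range P, ∑ β ∈ range B, ∑ γ ∈ range V,
      monomial (P - 1 - i + n * e β + m * e' γ) (monomial (d β) (monomial (d' γ) (f i β γ))) :
      ℤ[X][X][X]).coeff (P - 1 - i + n * e β + m * e' γ)).coeff (d β)).coeff (d' γ) = f i β γ := by
  rw [finsetSum_coeff, finsetSum_coeff, finsetSum_coeff, Finset.sum_eq_single i]
  · rw [finsetSum_coeff, finsetSum_coeff, finsetSum_coeff, Finset.sum_eq_single β]
    · rw [finsetSum_coeff, finsetSum_coeff, finsetSum_coeff, Finset.sum_eq_single γ]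
      · rw [coeff_monomial, if_pos rfl, coeff_monomial, if_pos rfl, coeff_monomial, if_pos rfl]
      · intro γ' _ hne
        rw [coeff_monomial]
        split_ifs
        · rw [coeff_monomial, if_pos rfl, coeff_monomial, if_neg fun h => hne (hd' _ _ h)]
        · rw [coeff_zero, coeff_zero]
      · intro h
        exact absurd (Finset.mem_range.2 hγ) h
    · intro β' _ hne
      rw [finsetSum_coeff, finsetSum_coeff, finsetSum_coeff]
      refine Finset.sum_eq_zero fun γ' _ => ?_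
      rw [coeff_monomial]
      split_ifs
      · rw [coeff_monomial, if_neg fun h => hne (hd _ _ h), coeff_zero]
      · rw [coeff_zero, coeff_zero]
    · intro h
      exact absurd (Finset.mem_range.2 hβ) h
  · intro i' hi' hne
    rw [finsetSum_coeff, finsetSum_coeff, finsetSum_coeff]
    refine Finset.sum_eq_zero fun β' _ => ?_
    rw [finsetSum_coeff, finsetSum_coeff, finsetSum_coeff]
    refine Finset.sum_eq_zero fun γ' _ => ?_
    rw [coeff_monomial]
    split_ifs with h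
    · rw [coeff_monomial]
      split_ifs with h'
      · rw [coeff_monomial]
        split_ifs with h''
        · have h2 := hd _ _ h'
          have h4 := hd' _ _ h''
          subst h2
          subst h4
          have h3 := Finset.mem_range.1 hi'
          exfalso
          omega
        · rfl
      · rw [coeff_zero]
    · rw [coeff_zero, coeff_zero]
  · intro h
    exact absurd (Finset.mem_range.2 hi) h

private theorem nnz_AP (p : Par) (A : ℕ → ℕ → ℕ → ℤ)
    (hA : ∃ i < p.P, ∃ β < p.B, ∃ γ < p.V, A i β γ ≠ 0) : AP p A ≠ 0 := by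
  obtain ⟨i, hi, β, hβ, γ, hγ, hne⟩ := hA
  intro h0
  have h1 := nnz_coeff (n := p.n) (m := p.m) (fun i β γ => (9 : ℤ) ^ p.Q * A i β γ)
    (fun β => β + p.L) (fun γ => γ + p.M) (fun β β' h => by omega) (fun γ γ' h => by omega)
    (fun β => p.B - 1 - β) (fun γ => p.V - 1 - γ) hi hβ hγ
  have h2 : AP p A = ∑ i ∈ range p.P, ∑ β ∈ range p.B, ∑ γ ∈ range p.V,
    monomial (p.P - 1 - i + p.n * (p.B - 1 - β) + p.m * (p.V - 1 - γ))
      (monomial (β + p.L) (monomial (γ + p.M) ((9 : ℤ) ^ p.Q * A i β γ))) := rfl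
  rw [← h2, h0, coeff_zero, coeff_zero, coeff_zero] at h1
  have h3 : (9 : ℤ) ^ p.Q ≠ 0 := pow_ne_zero _ (by norm_num)
  exact mul_ne_zero h3 hne h1.symm

private theorem nnz_gZ (p : Par) (A : ℕ → ℕ → ℕ → ℤ)
    (hA : ∃ i < p.P, ∃ β < p.B, ∃ γ < p.V, A i β γ ≠ 0) :
    ∃ r < p.S, ∃ j < p.B + p.L, ∃ k < p.V + p.M, gZ p A r j k ≠ 0 := by
  classical
  obtain ⟨i, hi, β, hβ, γ, hγ, hne⟩ := hA
  -- the largest γ
  let Q0 : ℕ → Prop := fun γ => γ < p.V ∧ ∃ β < p.B, ∃ i < p.P, A i β γ ≠ 0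
  have hQ0 : Q0 γ := ⟨hγ, β, hβ, i, hi, hne⟩
  have hg1 : Q0 (Nat.findGreatest Q0 p.V) := Nat.findGreatest_spec hγ.le hQ0
  obtain ⟨hg2, β', hβ', i', hi', hne'⟩ := hg1
  have hg3 : ∀ γ', γ' < p.V → Nat.findGreatest Q0 p.V < γ' → ∀ β < p.B, ∀ i < p.P,
      A i β γ' = 0 := by
    intro γ' h1 h2 β h5 i h3
    by_contra h4
    exact Nat.findGreatest_is_greatest h2 h1.le ⟨h1, β, h5, i, h3, h4⟩
  generalize Nat.findGreatest Q0 p.V = γ0 at hg2 hne' hg3
  -- the largest β
  let Q1 : ℕ → Prop := fun β => β < p.B ∧ ∃ i < p.P, A i β γ0 ≠ 0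
  have hQ1 : Q1 β' := ⟨hβ', i', hi', hne'⟩
  have hb1 : Q1 (Nat.findGreatest Q1 p.B) := Nat.findGreatest_spec hβ'.le hQ1
  obtain ⟨hb2, i1, hi1, hne1⟩ := hb1
  have hb3 : ∀ β', β' < p.B → Nat.findGreatest Q1 p.B < β' → ∀ i < p.P, A i β' γ0 = 0 := by
    intro β' h1 h2 i h3
    by_contra h4
    exact Nat.findGreatest_is_greatest h2 h1.le ⟨h1, i, h3, h4⟩
  generalize Nat.findGreatest Q1 p.B = β0 at hb2 hne1 hb3
  -- the smallest i
  have hex : ∃ i, A i β0 γ0 ≠ 0 := ⟨i1, hne1⟩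
  have hi0 := Nat.find_spec hex
  have hi2 : ∀ i < Nat.find hex, A i β0 γ0 = 0 := fun i h => not_not.1 (Nat.find_min hex h)
  have hi3 : Nat.find hex < p.P := lt_of_le_of_lt (Nat.find_min' hex hne1) hi1
  generalize Nat.find hex = i0 at hi0 hi2 hi3
  refine ⟨i0, lt_of_lt_of_le hi3 (Nat.le_add_right _ _), β0 + p.L, by omega, γ0 + p.M, by omega, ?_⟩
  have key : gZ p A i0 (β0 + p.L) (γ0 + p.M) = 9 ^ p.Q * A i0 β0 γ0 := by
    unfold gZ
    rw [Finset.sum_eq_single i0]
    · rw [Finset.sum_eq_single β0]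
      · rw [Finset.sum_eq_single γ0]
        · unfold mZ
          rw [Nat.sub_self, Nat.sub_self, Nat.mul_zero, Nat.mul_zero, Nat.add_zero,
            if_pos ⟨le_rfl, le_rfl, le_rfl⟩, Nat.sub_self, Nat.sub_zero, Nat.sub_zero, Nat.sub_zero,
            Nat.sub_zero, Nat.sub_zero, KZ3_zero, KZ3_zero, KZ3_zero, one_mul, one_mul, one_mul]
        · intro γ hγ hne
          unfold mZ
          split_ifs with h
          · have h2 : γ0 < γ := by omega
            rw [hg3 γ (Finset.mem_range.1 hγ) h2 β0 hb2 i0 hi3, mul_zero]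
          · rw [zero_mul]
        · intro h
          exact absurd (Finset.mem_range.2 hg2) h
      · intro β hβ hne
        refine Finset.sum_eq_zero fun γ hγ => ?_
        unfold mZ
        split_ifs with h
        · rcases Nat.lt_or_ge γ0 γ with h2 | h2
          · rw [hg3 γ (Finset.mem_range.1 hγ) h2 β (Finset.mem_range.1 hβ) i0 hi3, mul_zero]
          · have h3 : γ = γ0 := by omega
            have h4 : β0 < β := by omega
            rw [h3, hb3 β (Finset.mem_range.1 hβ) h4 i0 hi3, mul_zero]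
        · rw [zero_mul]
      · intro h
        exact absurd (Finset.mem_range.2 hb2) h
    · intro i hi hne
      refine Finset.sum_eq_zero fun β hβ => Finset.sum_eq_zero fun γ hγ => ?_
      unfold mZ
      split_ifs with h
      · rcases Nat.lt_or_ge γ0 γ with h2 | h2
        · rw [hg3 γ (Finset.mem_range.1 hγ) h2 β (Finset.mem_range.1 hβ) i (Finset.mem_range.1 hi),
            mul_zero]
        · have h3 : γ = γ0 := by omega
          rcases Nat.lt_or_ge β0 β with h4 | h4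
          · rw [h3, hb3 β (Finset.mem_range.1 hβ) h4 i (Finset.mem_range.1 hi), mul_zero]
          · have h5 : β = β0 := by omega
            have h6 : i < i0 := by
              have h7 := h.2.2
              omega
            rw [h3, h5, hi2 i h6, mul_zero]
      · rw [zero_mul]
    · intro h
      exact absurd (Finset.mem_range.2 hi3) h
  rw [key]
  exact mul_ne_zero (pow_ne_zero _ (by norm_num)) hi0

private theorem nnz_BP (p : Par) (A : ℕ → ℕ → ℕ → ℤ)
    (hA : ∃ i < p.P, ∃ β < p.B, ∃ γ < p.V, A i β γ ≠ 0) : BP p A ≠ 0 := by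
  obtain ⟨r, hr, j, hj, k, hk, hne⟩ := nnz_gZ p A hA
  intro h0
  have h1 := nnz_coeff (n := p.n) (m := p.m) (fun r j k => gZ p A r j k) (fun j => j) (fun k => k)
    (fun _ _ h => h) (fun _ _ h => h) (fun j => p.B + p.L - 1 - j) (fun k => p.V + p.M - 1 - k)
    hr hj hk
  have h2 : BP p A = -∑ r ∈ range p.S, ∑ j ∈ range (p.B + p.L), ∑ k ∈ range (p.V + p.M),
    monomial (p.S - 1 - r + p.n * (p.B + p.L - 1 - j) + p.m * (p.V + p.M - 1 - k))
      (monomial j (monomial k (gZ p A r j k))) := rfl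
  rw [h2] at h0
  have h3 := (neg_eq_zero (α := ℤ[X][X][X])).1 h0
  rw [h3, coeff_zero, coeff_zero, coeff_zero] at h1
  exact hne h1.symm

theorem NN_ne_zero (p : Par) (A : ℕ → ℕ → ℕ → ℤ)
    (hA : ∃ i < p.P, ∃ β < p.B, ∃ γ < p.V, A i β γ ≠ 0) : NN p A ≠ 0 := by
  unfold NN
  refine nnz_main (nnz_AP p A hA) (nnz_BP p A hA) fun a b => ?_
  have e : C (C (3 : ℤ)) * ((a : ℤ[X][X]) - (b : ℤ[X][X])) + C (C (3 * (p.J : ℤ))) + C (C (2 : ℤ)) =
      C (C (3 * ((a : ℤ) - b) + 3 * p.J + 2)) := by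
    simp only [map_add, map_mul, map_sub, map_natCast]
  rw [e, Ne, C_eq_zero, C_eq_zero]
  omega

end Pool.Agent.NLK
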