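import Pool.Agent.NLK.RDefs

/-!
# NLK-RothB: the weighted order of the determinant

PLAN.  Three-variable copy of `Pool/Agent/NLC/RothB.lean`.  `mom z w v (monomial i (monomial j (monomial k c))) a b c' =
i^a z^i j^b w^j k^c' v^k c`, additivity, Leibniz rule with three binomials.
`mom z w v (tt Λ a b F) c d e = ∑ s ≤ a, choose a s * Λ^s * mom z w v F (c + (a - s)) (d + s) (b + e)`
(binomial theorem for `(i + Λ j)^a`), so if the moments of `F` of weight `< t` vanish then those of `tt Λ a b F` of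
weight `< t - n a - m b` vanish (`n ≥ 1`: `(a - s) + n s ≤ n a`).  Then products and the determinant:
`t - n (K-1) - m b ≤ t - n σ b - m b`.
-/

namespace Pool.Agent.NLK

open Finset Polynomial

private theorem rothb_ind {P : ℤ[X][X][X] → Prop} (hadd : ∀ F G, P F → P G → P (F + G))
    (hm : ∀ (i j k : ℕ) (c : ℤ), P (monomial i (monomial j (monomial k c))))
    (F : ℤ[X][X][X]) : P F := by
  induction F using Polynomial.induction_on' with
  | add p q hp hq => exact hadd p q hp hq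
  | monomial i f =>
    induction f using Polynomial.induction_on' with
    | add p q hp hq =>
      rw [map_add]
      exact hadd _ _ hp hq
    | monomial j g =>
      induction g using Polynomial.induction_on' with
      | add p q hp hq =>
        rw [map_add, map_add]
        exact hadd _ _ hp hq
      | monomial k c => exact hm i j k c

private theorem rothb_in1_add (w : ℤ) (b : ℕ) (f g : ℤ[X]) :
    ((f + g).sum fun j c => (j : ℤ) ^ b * w ^ j * c) =
      (f.sum fun j c => (j : ℤ) ^ b * w ^ j * c) + g.sum fun j c => (j : ℤ) ^ b * w ^ j * c :=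
  Polynomial.sum_add_index f g _ (fun _ => mul_zero _) (fun _ _ _ => mul_add _ _ _)

private theorem rothb_in1_zero (w : ℤ) (b : ℕ) :
    ((0 : ℤ[X]).sum fun j c => (j : ℤ) ^ b * w ^ j * c) = 0 := Polynomial.sum_zero_index _

private theorem rothb_in2_add (w v : ℤ) (b c : ℕ) (F G : ℤ[X][X]) :
    NLC.mom w v (F + G) b c = NLC.mom w v F b c + NLC.mom w v G b c := by
  unfold NLC.mom
  refine Polynomial.sum_add_index F G _ (fun i => ?_) (fun i f g => ?_)
  · rw [rothb_in1_zero, mul_zero]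
  · rw [rothb_in1_add, mul_add]

private theorem rothb_in2_zero (w v : ℤ) (b c : ℕ) : NLC.mom w v 0 b c = 0 :=
  Polynomial.sum_zero_index _

private theorem rothb_add (z w v : ℤ) (a b c : ℕ) (F G : ℤ[X][X][X]) :
    mom z w v (F + G) a b c = mom z w v F a b c + mom z w v G a b c := by
  unfold mom
  refine Polynomial.sum_add_index F G _ (fun i => ?_) (fun i f g => ?_)
  · rw [rothb_in2_zero, mul_zero]
  · rw [rothb_in2_add, mul_add]

private theorem rothb_zero (z w v : ℤ) (a b c : ℕ) : mom z w v 0 a b c = 0 :=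
  Polynomial.sum_zero_index _

private theorem rothb_mon (z w v : ℤ) (a b c i j k : ℕ) (x : ℤ) :
    mom z w v (monomial i (monomial j (monomial k x))) a b c =
      (i : ℤ) ^ a * z ^ i * ((j : ℤ) ^ b * w ^ j * ((k : ℤ) ^ c * v ^ k * x)) := by
  unfold mom NLC.mom
  rw [Polynomial.sum_monomial_index, Polynomial.sum_monomial_index,
    Polynomial.sum_monomial_index]
  · rw [mul_zero]
  · rw [rothb_in1_zero, mul_zero]
  · rw [Polynomial.sum_zero_index, mul_zero]

private theorem rothb_sum (z w v : ℤ) (a b c : ℕ) {ι : Type} (s : Finset ι)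
    (F : ι → ℤ[X][X][X]) :
    mom z w v (∑ x ∈ s, F x) a b c = ∑ x ∈ s, mom z w v (F x) a b c := by
  classical
  induction s using Finset.induction_on with
  | empty => rw [Finset.sum_empty, Finset.sum_empty, rothb_zero]
  | insert x s hx ih => rw [Finset.sum_insert hx, Finset.sum_insert hx, rothb_add, ih]

private theorem rothb_mul (z w v : ℤ) (a b c : ℕ) (F G : ℤ[X][X][X]) :
    mom z w v (F * G) a b c = ∑ a₁ ∈ range (a + 1), ∑ b₁ ∈ range (b + 1),
      ∑ c₁ ∈ range (c + 1), ((a.choose a₁ : ℤ) * (b.choose b₁ : ℤ) * (c.choose c₁ : ℤ)) *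
        (mom z w v F a₁ b₁ c₁ * mom z w v G (a - a₁) (b - b₁) (c - c₁)) := by
  revert G
  refine rothb_ind (P := fun F => ∀ G, mom z w v (F * G) a b c = ∑ a₁ ∈ range (a + 1),
    ∑ b₁ ∈ range (b + 1), ∑ c₁ ∈ range (c + 1),
      ((a.choose a₁ : ℤ) * (b.choose b₁ : ℤ) * (c.choose c₁ : ℤ)) *
        (mom z w v F a₁ b₁ c₁ * mom z w v G (a - a₁) (b - b₁) (c - c₁))) ?_ ?_ F
  · intro F F' h h' G
    rw [add_mul, rothb_add, h G, h' G, ← Finset.sum_add_distrib]
    refine Finset.sum_congr rfl fun a₁ _ => ?_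
    rw [← Finset.sum_add_distrib]
    refine Finset.sum_congr rfl fun b₁ _ => ?_
    rw [← Finset.sum_add_distrib]
    refine Finset.sum_congr rfl fun c₁ _ => ?_
    rw [rothb_add]
    ring
  · intro i j k x G
    refine rothb_ind (P := fun G => mom z w v (monomial i (monomial j (monomial k x)) * G) a b c =
      ∑ a₁ ∈ range (a + 1), ∑ b₁ ∈ range (b + 1), ∑ c₁ ∈ range (c + 1),
      ((a.choose a₁ : ℤ) * (b.choose b₁ : ℤ) * (c.choose c₁ : ℤ)) *
        (mom z w v (monomial i (monomial j (monomial k x))) a₁ b₁ c₁ *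
          mom z w v G (a - a₁) (b - b₁) (c - c₁))) ?_ ?_ G
    · intro G G' h h'
      rw [mul_add, rothb_add, h, h', ← Finset.sum_add_distrib]
      refine Finset.sum_congr rfl fun a₁ _ => ?_
      rw [← Finset.sum_add_distrib]
      refine Finset.sum_congr rfl fun b₁ _ => ?_
      rw [← Finset.sum_add_distrib]
      refine Finset.sum_congr rfl fun c₁ _ => ?_
      rw [rothb_add]
      ring
    · intro i' j' k' x'
      rw [monomial_mul_monomial, monomial_mul_monomial, monomial_mul_monomial, rothb_mon]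
      have e0 : ∀ (p p' q : ℕ), ((p + p' : ℕ) : ℤ) ^ q = ∑ r ∈ range (q + 1),
          (p : ℤ) ^ r * (p' : ℤ) ^ (q - r) * (q.choose r : ℤ) := by
        intro p p' q
        rw [Nat.cast_add, add_pow]
      have e3 : ((i + i' : ℕ) : ℤ) ^ a * z ^ (i + i') *
          (((j + j' : ℕ) : ℤ) ^ b * w ^ (j + j') *
            (((k + k' : ℕ) : ℤ) ^ c * v ^ (k + k') * (x * x'))) =
          (((i + i' : ℕ) : ℤ) ^ a * (((j + j' : ℕ) : ℤ) ^ b * ((k + k' : ℕ) : ℤ) ^ c)) *
            (z ^ i * z ^ i' * (w ^ j * w ^ j') * (v ^ k * v ^ k') * (x * x')) := by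
        rw [pow_add z, pow_add w, pow_add v]
        ring
      rw [e3, e0 i i' a, e0 j j' b, e0 k k' c, Finset.sum_mul_sum, Finset.sum_mul_sum,
        Finset.sum_mul]
      refine Finset.sum_congr rfl fun a₁ _ => ?_
      rw [Finset.sum_mul]
      refine Finset.sum_congr rfl fun b₁ _ => ?_
      rw [Finset.mul_sum, Finset.sum_mul]
      refine Finset.sum_congr rfl fun c₁ _ => ?_
      rw [rothb_mon, rothb_mon]
      ring

private theorem rothb_tt_add (Λ a b : ℕ) (F G : ℤ[X][X][X]) :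
    tt Λ a b (F + G) = tt Λ a b F + tt Λ a b G := by
  ext i j k
  rw [coeff_tt, coeff_add, coeff_add, coeff_add, coeff_add, coeff_add, coeff_add, coeff_tt,
    coeff_tt]
  ring

private theorem rothb_tt_mon (Λ a b i j k : ℕ) (x : ℤ) :
    tt Λ a b (monomial i (monomial j (monomial k x))) =
      monomial i (monomial j (monomial k (((i : ℤ) + Λ * j) ^ a * (k : ℤ) ^ b * x))) := by
  ext i' j' k'
  rw [coeff_tt, coeff_monomial, coeff_monomial]
  split_ifs with h
  · subst h
    rw [coeff_monomial, coeff_monomial]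
    split_ifs with h2
    · subst h2
      rw [coeff_monomial, coeff_monomial]
      split_ifs with h3
      · subst h3
        rfl
      · rw [mul_zero]
    · rw [coeff_zero, mul_zero]
  · rw [coeff_zero, coeff_zero, mul_zero]

private theorem rothb_tt (z w v : ℤ) (Λ a b c d e : ℕ) (F : ℤ[X][X][X]) :
    mom z w v (tt Λ a b F) c d e = ∑ s ∈ range (a + 1),
      ((a.choose s : ℤ) * (Λ : ℤ) ^ s) * mom z w v F (c + (a - s)) (d + s) (b + e) := by
  refine rothb_ind (P := fun F => mom z w v (tt Λ a b F) c d e = ∑ s ∈ range (a + 1),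
      ((a.choose s : ℤ) * (Λ : ℤ) ^ s) * mom z w v F (c + (a - s)) (d + s) (b + e)) ?_ ?_ F
  · intro F G h h'
    rw [rothb_tt_add, rothb_add, h, h', ← Finset.sum_add_distrib]
    refine Finset.sum_congr rfl fun s _ => ?_
    rw [rothb_add]
    ring
  · intro i j k x
    rw [rothb_tt_mon, rothb_mon]
    have e1 : ((i : ℤ) + Λ * j) ^ a = ∑ s ∈ range (a + 1),
        ((Λ : ℤ) * j) ^ s * (i : ℤ) ^ (a - s) * (a.choose s : ℤ) := by
      rw [add_comm, add_pow]
    have e2 : (i : ℤ) ^ c * z ^ i * ((j : ℤ) ^ d * w ^ j * ((k : ℤ) ^ e * v ^ k *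
        (((i : ℤ) + Λ * j) ^ a * (k : ℤ) ^ b * x))) = ((i : ℤ) + Λ * j) ^ a *
        ((i : ℤ) ^ c * z ^ i * ((j : ℤ) ^ d * w ^ j * ((k : ℤ) ^ e * v ^ k *
        ((k : ℤ) ^ b * x)))) := by ring
    rw [e2, e1, Finset.sum_mul]
    refine Finset.sum_congr rfl fun s _ => ?_
    rw [rothb_mon, mul_pow, pow_add, pow_add, pow_add]
    ring

private def Mo (z w v : ℤ) (n m t : ℕ) (F : ℤ[X][X][X]) : Prop :=
  ∀ a b c, a + n * b + m * c < t → mom z w v F a b c = 0

private theorem rothb_mo_zero (z w v : ℤ) (n m : ℕ) (F : ℤ[X][X][X]) : Mo z w v n m 0 F :=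
  fun _ _ _ h => absurd h (Nat.not_lt_zero _)

private theorem rothb_mo_mul {z w v : ℤ} {n m t t' : ℕ} {F G : ℤ[X][X][X]}
    (hF : Mo z w v n m t F) (hG : Mo z w v n m t' G) : Mo z w v n m (t + t') (F * G) := by
  intro a b c hab
  rw [rothb_mul]
  refine Finset.sum_eq_zero fun a₁ ha => Finset.sum_eq_zero fun b₁ hb =>
    Finset.sum_eq_zero fun c₁ hc => ?_
  have ha' : a₁ ≤ a := Nat.lt_succ_iff.1 (Finset.mem_range.1 ha)
  have hb' : b₁ ≤ b := Nat.lt_succ_iff.1 (Finset.mem_range.1 hb)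
  have hc' : c₁ ≤ c := Nat.lt_succ_iff.1 (Finset.mem_range.1 hc)
  by_cases h : a₁ + n * b₁ + m * c₁ < t
  · rw [hF a₁ b₁ c₁ h, zero_mul, mul_zero]
  · have h2 : (a - a₁) + n * (b - b₁) + m * (c - c₁) < t' := by
      have h3 : n * b = n * b₁ + n * (b - b₁) := by
        rw [← Nat.mul_add, Nat.add_sub_cancel' hb']
      have h4 : m * c = m * c₁ + m * (c - c₁) := by
        rw [← Nat.mul_add, Nat.add_sub_cancel' hc']
      omega
    rw [hG _ _ _ h2, mul_zero, mul_zero]

private theorem rothb_mo_prod {z w v : ℤ} {n m : ℕ} {ι : Type} (s : Finset ι) (t : ι → ℕ)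
    (F : ι → ℤ[X][X][X]) (h : ∀ x, Mo z w v n m (t x) (F x)) :
    Mo z w v n m (∑ x ∈ s, t x) (∏ x ∈ s, F x) := by
  classical
  induction s using Finset.induction_on with
  | empty => rw [Finset.sum_empty]; exact rothb_mo_zero z w v n m _
  | insert x s hx ih =>
    rw [Finset.sum_insert hx, Finset.prod_insert hx]
    exact rothb_mo_mul (h x) ih

private theorem rothb_mo_tt {z w v : ℤ} {n m t : ℕ} (hn : 1 ≤ n) {F : ℤ[X][X][X]}
    (hF : Mo z w v n m t F) (Λ a b : ℕ) :
    Mo z w v n m (t - n * a - m * b) (tt Λ a b F) := by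
  intro c d e hcd
  rw [rothb_tt]
  refine Finset.sum_eq_zero fun s hs => ?_
  have hs' : s ≤ a := Nat.lt_succ_iff.1 (Finset.mem_range.1 hs)
  rw [hF, mul_zero]
  have h3 : n * a = n * s + n * (a - s) := by
    rw [← Nat.mul_add, Nat.add_sub_cancel' hs']
  have h4 : a - s ≤ n * (a - s) := Nat.le_mul_of_pos_left _ hn
  rw [Nat.mul_add, Nat.mul_add]
  omega

theorem mom_DD {z w v : ℤ} {n m t : ℕ} (Λ : ℕ) (hn : 1 ≤ n) {N : ℤ[X][X][X]} (K : ℕ)
    (h : ∀ a b c, a + n * b + m * c < t → mom z w v N a b c = 0) :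
    ∀ a b c, a + n * b + m * c < ∑ e ∈ range K, (t - n * (K - 1) - m * e) →
      mom z w v (DD Λ K N) a b c = 0 := by
  intro a b c hab
  unfold DD
  rw [Matrix.det_apply', rothb_sum]
  refine Finset.sum_eq_zero fun σ _ => ?_
  have h1 : Mo z w v n m (∑ e : Fin K, (t - n * (σ e : ℕ) - m * (e : ℕ)))
      (∏ e : Fin K, tt Λ (σ e : ℕ) (e : ℕ) N) :=
    rothb_mo_prod Finset.univ (fun e : Fin K => t - n * (σ e : ℕ) - m * (e : ℕ)) _
      fun e => rothb_mo_tt hn (F := N) h Λ (σ e : ℕ) (e : ℕ)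
  have h2 := rothb_mo_mul (rothb_mo_zero z w v n m (((Equiv.Perm.sign σ : ℤ) : ℤ[X][X][X]))) h1
  refine h2 a b c (lt_of_lt_of_le hab ?_)
  rw [zero_add, Finset.sum_range]
  refine Finset.sum_le_sum fun e _ => ?_
  have h3 : (σ e : ℕ) ≤ K - 1 := by
    have := (σ e).isLt
    omega
  have h4 : n * (σ e : ℕ) ≤ n * (K - 1) := Nat.mul_le_mul_left n h3
  omega

end Pool.Agent.NLK
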