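import Pool.Agent.NLK.Defs

/-!
# NLK-Nrm: the norm `nrm` on `ℤ[X][X][X]`

PLAN.  The section `gen` of `Pool/Agent/NLC/NBd.lean` (private `nbd_g`, `nbd_g_add`, ..., for `ν : R → ℤ` on any commutative
ring `R`) applies to `R = ℤ[X][X]`, `ν = NLC.nrm` (public `NLC.nrm_add`, `NLC.nrm_neg`, `NLC.nrm_mul`,
`NLC.nrm_nonneg`, `NLC.nrm_monomial`, `NLC.coeff_le_nrm`): copy the section.
-/

namespace Pool.Agent.NLK

open Finset Polynomial

section gen

variable {R : Type*} [CommRing R]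

private noncomputable def nrmk_g (ν : R → ℤ) (F : R[X]) : ℤ := F.sum fun _ c => ν c

private theorem nrmk_g_range {ν : R → ℤ} (h0 : ν 0 = 0) (F : R[X]) {n : ℕ} (h : F.natDegree < n) :
    nrmk_g ν F = ∑ i ∈ range n, ν (F.coeff i) :=
  sum_over_range' F (fun _ => h0) n h

private theorem nrmk_g_nonneg {ν : R → ℤ} (hp : ∀ a, 0 ≤ ν a) (F : R[X]) : 0 ≤ nrmk_g ν F :=
  Finset.sum_nonneg fun _ _ => hp _

private theorem nrmk_g_zero (ν : R → ℤ) : nrmk_g ν (0 : R[X]) = 0 := by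
  unfold nrmk_g
  exact sum_zero_index _

private theorem nrmk_g_add {ν : R → ℤ} (h0 : ν 0 = 0) (ha : ∀ a b, ν (a + b) ≤ ν a + ν b)
    (F G : R[X]) : nrmk_g ν (F + G) ≤ nrmk_g ν F + nrmk_g ν G := by
  have h1 : F.natDegree < F.natDegree + G.natDegree + (F + G).natDegree + 1 := by omega
  have h2 : G.natDegree < F.natDegree + G.natDegree + (F + G).natDegree + 1 := by omega
  have h3 : (F + G).natDegree < F.natDegree + G.natDegree + (F + G).natDegree + 1 := by omega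
  rw [nrmk_g_range h0 F h1, nrmk_g_range h0 G h2, nrmk_g_range h0 (F + G) h3, ← sum_add_distrib]
  refine sum_le_sum fun i _ => ?_
  rw [coeff_add]
  exact ha _ _

private theorem nrmk_g_neg {ν : R → ℤ} (h0 : ν 0 = 0) (hn : ∀ a, ν (-a) = ν a)
    (F : R[X]) : nrmk_g ν (-F) = nrmk_g ν F := by
  have h1 : F.natDegree < F.natDegree + 1 := by omega
  have h2 : (-F).natDegree < F.natDegree + 1 := by rw [natDegree_neg]; omega
  rw [nrmk_g_range h0 F h1, nrmk_g_range h0 (-F) h2]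
  refine sum_congr rfl fun i _ => ?_
  rw [coeff_neg, hn]

private theorem nrmk_g_mono {ν : R → ℤ} (h0 : ν 0 = 0) (n : ℕ) (a : R) :
    nrmk_g ν (monomial n a) = ν a := by
  unfold nrmk_g
  exact sum_monomial_index a _ h0

private theorem nrmk_g_sum {ν : R → ℤ} (h0 : ν 0 = 0) (ha : ∀ a b, ν (a + b) ≤ ν a + ν b)
    {ι : Type*} (t : Finset ι) (f : ι → R[X]) :
    nrmk_g ν (∑ i ∈ t, f i) ≤ ∑ i ∈ t, nrmk_g ν (f i) := by
  classical
  induction t using Finset.induction_on with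
  | empty => rw [sum_empty, sum_empty, nrmk_g_zero]
  | insert a t hat ih =>
    rw [sum_insert hat, sum_insert hat]
    exact (nrmk_g_add h0 ha _ _).trans (by linarith)

private theorem nrmk_g_mul {ν : R → ℤ} (h0 : ν 0 = 0)
    (ha : ∀ a b, ν (a + b) ≤ ν a + ν b) (hm : ∀ a b, ν (a * b) ≤ ν a * ν b)
    (F G : R[X]) : nrmk_g ν (F * G) ≤ nrmk_g ν F * nrmk_g ν G := by
  rw [mul_eq_sum_sum]
  refine (nrmk_g_sum h0 ha _ _).trans ?_
  unfold nrmk_g
  rw [Polynomial.sum_def F, sum_mul]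
  refine sum_le_sum fun i _ => ?_
  rw [Polynomial.sum_def G, Polynomial.sum_def G, mul_sum]
  refine (nrmk_g_sum h0 ha _ _).trans ?_
  refine sum_le_sum fun j _ => ?_
  rw [nrmk_g_mono h0]
  exact hm _ _

private theorem nrmk_g_coeff {ν : R → ℤ} (h0 : ν 0 = 0) (hp : ∀ a, 0 ≤ ν a) (F : R[X]) (i : ℕ) :
    ν (F.coeff i) ≤ nrmk_g ν F := by
  by_cases h : i ∈ F.support
  · unfold nrmk_g
    rw [Polynomial.sum_def]
    exact single_le_sum (f := fun i => ν (F.coeff i)) (fun j _ => hp _) h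
  · rw [notMem_support_iff.1 h, h0]
    exact nrmk_g_nonneg hp F

private theorem nrmk_g_nsmul {ν : R → ℤ} (h0 : ν 0 = 0) (ha : ∀ a b, ν (a + b) ≤ ν a + ν b)
    (n : ℕ) (a : R) : ν (a * n) ≤ n * ν a := by
  induction n with
  | zero => rw [Nat.cast_zero, mul_zero, h0, Nat.cast_zero, zero_mul]
  | succ n ih =>
    have h1 := ha (a * n) a
    have h2 : a * ((n + 1 : ℕ) : R) = a * n + a := by push_cast; ring
    rw [h2]
    push_cast
    linarith

private theorem nrmk_g_der {ν : R → ℤ} (h0 : ν 0 = 0) (hp : ∀ a, 0 ≤ ν a)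
    (ha : ∀ a b, ν (a + b) ≤ ν a + ν b) (F : R[X]) {D : ℕ} (hD : F.natDegree ≤ D) :
    nrmk_g ν (derivative F) ≤ D * nrmk_g ν F := by
  rw [derivative_apply, Polynomial.sum_def]
  refine (nrmk_g_sum h0 ha _ _).trans ?_
  unfold nrmk_g
  rw [Polynomial.sum_def F, mul_sum]
  refine sum_le_sum fun i hi => ?_
  have h1 : (C (F.coeff i * (i : R)) * X ^ (i - 1)).sum (fun _ c => ν c) = ν (F.coeff i * (i : R)) := by
    rw [C_mul_X_pow_eq_monomial]
    exact nrmk_g_mono h0 _ _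
  rw [h1]
  refine (nrmk_g_nsmul h0 ha i _).trans ?_
  have h2 : i ≤ D := (le_natDegree_of_mem_supp i hi).trans hD
  have h3 : (i : ℤ) ≤ D := by exact_mod_cast h2
  exact mul_le_mul_of_nonneg_right h3 (hp _)

end gen

private noncomputable def nrmk_n : ℤ[X] → ℤ := nrmk_g (fun c : ℤ => |c|)

private theorem nrmk_nrm (F : ℤ[X][X][X]) : nrm F = nrmk_g NLC.nrm F := rfl

private theorem nrmk_nlc (F : ℤ[X][X]) : NLC.nrm F = nrmk_g nrmk_n F := rfl

private theorem nrmk_n_zero : nrmk_n 0 = 0 := nrmk_g_zero _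

private theorem nrmk_c_zero : NLC.nrm (0 : ℤ[X][X]) = 0 := by
  rw [nrmk_nlc]
  exact nrmk_g_zero _

theorem nrm_nonneg (F : ℤ[X][X][X]) : 0 ≤ nrm F := by
  rw [nrmk_nrm]
  exact nrmk_g_nonneg NLC.nrm_nonneg F

theorem nrm_zero : nrm (0 : ℤ[X][X][X]) = 0 := by
  rw [nrmk_nrm]
  exact nrmk_g_zero _

theorem nrm_one : nrm (1 : ℤ[X][X][X]) = 1 := by
  have h : nrm (monomial 0 (monomial 0 (monomial 0 1)) : ℤ[X][X][X]) = |(1 : ℤ)| := by
    rw [nrmk_nrm, nrmk_g_mono nrmk_c_zero, NLC.nrm_monomial]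
  rwa [monomial_zero_left, monomial_zero_left, monomial_zero_left, C_1, C_1, C_1, abs_one] at h

theorem nrm_add (F G : ℤ[X][X][X]) : nrm (F + G) ≤ nrm F + nrm G := by
  rw [nrmk_nrm, nrmk_nrm, nrmk_nrm]
  exact nrmk_g_add nrmk_c_zero NLC.nrm_add F G

theorem nrm_neg (F : ℤ[X][X][X]) : nrm (-F) = nrm F := by
  rw [nrmk_nrm, nrmk_nrm]
  exact nrmk_g_neg nrmk_c_zero NLC.nrm_neg F

theorem nrm_mul (F G : ℤ[X][X][X]) : nrm (F * G) ≤ nrm F * nrm G := by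
  rw [nrmk_nrm, nrmk_nrm, nrmk_nrm]
  exact nrmk_g_mul nrmk_c_zero NLC.nrm_add NLC.nrm_mul F G

theorem nrm_monomial (i j k : ℕ) (c : ℤ) :
    nrm (monomial i (monomial j (monomial k c)) : ℤ[X][X][X]) = |c| := by
  rw [nrmk_nrm, nrmk_g_mono nrmk_c_zero, NLC.nrm_monomial]

theorem nrm_sum {ι : Type} (s : Finset ι) (F : ι → ℤ[X][X][X]) :
    nrm (∑ x ∈ s, F x) ≤ ∑ x ∈ s, nrm (F x) := by
  simp only [nrmk_nrm]
  exact nrmk_g_sum nrmk_c_zero NLC.nrm_add s F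

theorem nrm_derivative (F : ℤ[X][X][X]) {D : ℕ} (hD : F.natDegree ≤ D) :
    nrm (derivative F) ≤ D * nrm F := by
  simp only [nrmk_nrm]
  exact nrmk_g_der nrmk_c_zero NLC.nrm_nonneg NLC.nrm_add F hD

theorem coeff_le_nrm (F : ℤ[X][X][X]) (i j k : ℕ) : |((F.coeff i).coeff j).coeff k| ≤ nrm F := by
  rw [nrmk_nrm]
  refine le_trans ?_ (nrmk_g_coeff nrmk_c_zero NLC.nrm_nonneg F i)
  exact NLC.coeff_le_nrm (F.coeff i) j k

theorem nrm_eq_sum {F : ℤ[X][X][X]} {D1 D2 D3 : ℕ} (h1 : F.natDegree ≤ D1)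
    (h2 : ∀ i, (F.coeff i).natDegree ≤ D2) (h3 : ∀ i j, ((F.coeff i).coeff j).natDegree ≤ D3) :
    nrm F = ∑ i ∈ range (D1 + 1), ∑ j ∈ range (D2 + 1), ∑ k ∈ range (D3 + 1),
      |((F.coeff i).coeff j).coeff k| := by
  rw [nrmk_nrm, nrmk_g_range nrmk_c_zero F (Nat.lt_succ_of_le h1)]
  refine sum_congr rfl fun i _ => ?_
  rw [nrmk_nlc, nrmk_g_range nrmk_n_zero (F.coeff i) (Nat.lt_succ_of_le (h2 i))]
  refine sum_congr rfl fun j _ => ?_
  exact nrmk_g_range (ν := fun c : ℤ => |c|) abs_zero ((F.coeff i).coeff j)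
    (Nat.lt_succ_of_le (h3 i j))

end Pool.Agent.NLK
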