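import Pool.Agent.NLK.RDefs
import Pool.Agent.NLK.Nrm
import Pool.Agent.NLK.Sz

/-!
# NLK-RothC: size and degrees of the determinant

As `Pool/Agent/NLC/RothC.lean`, with the lemmas of Nrm.  `nrm_eq_sum`, `coeff_tt`:
`nrm (tt (D1+1) a b N) ≤ ((D1 + (D1+1) D2) D3) ^ K nrm N` for `a, b < K` (`i + (D1+1) j ≤ D1 + (D1+1) D2`,
`1 ≤ D1`, `1 ≤ D3`).  `Matrix.det_apply`, `K!` terms.  Degrees of `tt`, of a product of `K` factors and of the
determinant.
-/

namespace Pool.Agent.NLK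

open Finset Polynomial

private theorem rothc_deg1 {N : ℤ[X][X][X]} {D1 : ℕ} (hD1 : N.natDegree ≤ D1) (Λ a b : ℕ) :
    (tt Λ a b N).natDegree ≤ D1 := by
  rw [Polynomial.natDegree_le_iff_coeff_eq_zero]
  intro i hi
  ext j k
  rw [coeff_tt, Polynomial.coeff_eq_zero_of_natDegree_lt (lt_of_le_of_lt hD1 hi), coeff_zero,
    coeff_zero, mul_zero]

private theorem rothc_deg2 {N : ℤ[X][X][X]} {D2 : ℕ} (hD2 : ∀ i, (N.coeff i).natDegree ≤ D2)
    (Λ a b i : ℕ) : ((tt Λ a b N).coeff i).natDegree ≤ D2 := by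
  rw [Polynomial.natDegree_le_iff_coeff_eq_zero]
  intro j hj
  ext k
  rw [coeff_tt, Polynomial.coeff_eq_zero_of_natDegree_lt (lt_of_le_of_lt (hD2 i) hj), coeff_zero,
    mul_zero]

private theorem rothc_deg3 {N : ℤ[X][X][X]} {D3 : ℕ}
    (hD3 : ∀ i j, ((N.coeff i).coeff j).natDegree ≤ D3) (Λ a b i j : ℕ) :
    (((tt Λ a b N).coeff i).coeff j).natDegree ≤ D3 := by
  rw [Polynomial.natDegree_le_iff_coeff_eq_zero]
  intro k hk
  rw [coeff_tt, Polynomial.coeff_eq_zero_of_natDegree_lt (lt_of_le_of_lt (hD3 i j) hk), mul_zero]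

private theorem rothc_tt {N : ℤ[X][X][X]} {D1 D2 D3 : ℕ} (h1 : 1 ≤ D1) (h3 : 1 ≤ D3)
    (hD1 : N.natDegree ≤ D1) (hD2 : ∀ i, (N.coeff i).natDegree ≤ D2)
    (hD3 : ∀ i j, ((N.coeff i).coeff j).natDegree ≤ D3) {a b K : ℕ} (ha : a < K) (hb : b < K) :
    nrm (tt (D1 + 1) a b N) ≤ (((D1 + (D1 + 1) * D2) * D3 : ℕ) : ℤ) ^ K * nrm N := by
  rw [nrm_eq_sum (rothc_deg1 hD1 _ _ _) (rothc_deg2 hD2 _ _ _) (rothc_deg3 hD3 _ _ _),
    nrm_eq_sum hD1 hD2 hD3, Finset.mul_sum]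
  refine Finset.sum_le_sum fun i hi => ?_
  rw [Finset.mul_sum]
  refine Finset.sum_le_sum fun j hj => ?_
  rw [Finset.mul_sum]
  refine Finset.sum_le_sum fun k hk => ?_
  have hi' : i ≤ D1 := Nat.lt_succ_iff.1 (Finset.mem_range.1 hi)
  have hj' : j ≤ D2 := Nat.lt_succ_iff.1 (Finset.mem_range.1 hj)
  have hk' : k ≤ D3 := Nat.lt_succ_iff.1 (Finset.mem_range.1 hk)
  have hij : i + (D1 + 1) * j ≤ D1 + (D1 + 1) * D2 :=
    add_le_add hi' (Nat.mul_le_mul_left _ hj')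
  rw [coeff_tt, abs_mul]
  refine mul_le_mul_of_nonneg_right ?_ (abs_nonneg _)
  have e1 : ((i : ℤ) + ((D1 + 1 : ℕ) : ℤ) * j) ^ a * (k : ℤ) ^ b =
      (((i + (D1 + 1) * j) ^ a * k ^ b : ℕ) : ℤ) := by
    push_cast
    ring
  rw [e1, Nat.abs_cast]
  have k1 : (i + (D1 + 1) * j) ^ a ≤ (D1 + (D1 + 1) * D2) ^ K :=
    (Nat.pow_le_pow_left hij a).trans (Nat.pow_le_pow_right (by omega) ha.le)
  have k2 : k ^ b ≤ D3 ^ K := (Nat.pow_le_pow_left hk' b).trans (Nat.pow_le_pow_right h3 hb.le)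
  have k3 : (i + (D1 + 1) * j) ^ a * k ^ b ≤ ((D1 + (D1 + 1) * D2) * D3) ^ K := by
    rw [mul_pow]
    exact Nat.mul_le_mul k1 k2
  exact_mod_cast k3

private theorem rothc_smul (F : ℤ[X][X][X]) : (-1 : ℤˣ) • F = -F := by
  rw [Units.smul_def, Units.val_neg, Units.val_one]
  exact neg_one_smul ℤ F

private theorem rothc_prod {ι : Type} (s : Finset ι) (F : ι → ℤ[X][X][X]) {B : ℤ}
    (h : ∀ x, nrm (F x) ≤ B) : nrm (∏ x ∈ s, F x) ≤ B ^ s.card := by
  classical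
  induction s using Finset.induction_on with
  | empty => rw [Finset.prod_empty, Finset.card_empty, pow_zero, nrm_one]
  | insert x s hx ih =>
    rw [Finset.prod_insert hx, Finset.card_insert_of_notMem hx, pow_succ']
    exact (nrm_mul _ _).trans (mul_le_mul (h x) ih (nrm_nonneg _) ((nrm_nonneg _).trans (h x)))

theorem nrm_DD {N : ℤ[X][X][X]} {D1 D2 D3 H : ℕ} (h1 : 1 ≤ D1) (h3 : 1 ≤ D3)
    (hD1 : N.natDegree ≤ D1) (hD2 : ∀ i, (N.coeff i).natDegree ≤ D2)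
    (hD3 : ∀ i j, ((N.coeff i).coeff j).natDegree ≤ D3) (hH : nrm N ≤ (H : ℤ)) (K : ℕ) :
    nrm (DD (D1 + 1) K N) ≤ (bb D1 D2 D3 H K : ℤ) := by
  have hB : ∀ a b : Fin K, nrm (tt (D1 + 1) (a : ℕ) (b : ℕ) N) ≤
      (((D1 + (D1 + 1) * D2) * D3 : ℕ) : ℤ) ^ K * H := by
    intro a b
    exact (rothc_tt h1 h3 hD1 hD2 hD3 a.isLt b.isLt).trans
      (mul_le_mul_of_nonneg_left hH (by positivity))
  have hbb : (bb D1 D2 D3 H K : ℤ) =
      (K.factorial : ℤ) * ((((D1 + (D1 + 1) * D2) * D3 : ℕ) : ℤ) ^ K * H) ^ K := by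
    unfold bb
    push_cast
    ring
  rw [hbb]
  unfold DD
  rw [Matrix.det_apply]
  have h4 : (K.factorial : ℤ) = ((Finset.univ : Finset (Equiv.Perm (Fin K))).card : ℤ) := by
    rw [Finset.card_univ, Fintype.card_perm, Fintype.card_fin]
  rw [h4, ← nsmul_eq_mul]
  refine (nrm_sum _ _).trans (Finset.sum_le_card_nsmul _ _ _ fun σ _ => ?_)
  have h5 : nrm (∏ i : Fin K, tt (D1 + 1) (σ i : ℕ) (i : ℕ) N) ≤
      ((((D1 + (D1 + 1) * D2) * D3 : ℕ) : ℤ) ^ K * H) ^ K := by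
    have h6 := rothc_prod Finset.univ (fun i : Fin K => tt (D1 + 1) (σ i : ℕ) (i : ℕ) N)
      fun i => hB (σ i) i
    rwa [Finset.card_univ, Fintype.card_fin] at h6
  rcases Int.units_eq_one_or (Equiv.Perm.sign σ) with h | h
  · rw [h, one_smul]
    exact h5
  · rw [h, rothc_smul, nrm_neg]
    exact h5

private theorem rothc_sgn {P : ℤ[X][X][X] → Prop} (hneg : ∀ F, P F → P (-F)) {K : ℕ}
    (σ : Equiv.Perm (Fin K)) {F : ℤ[X][X][X]} (h : P F) : P (Equiv.Perm.sign σ • F) := by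
  rcases Int.units_eq_one_or (Equiv.Perm.sign σ) with h1 | h1
  · rw [h1, one_smul]
    exact h
  · rw [h1, rothc_smul]
    exact hneg _ h

theorem natDegree_DD {N : ℤ[X][X][X]} {D1 : ℕ} (hD1 : N.natDegree ≤ D1) (Λ K : ℕ) :
    (DD Λ K N).natDegree ≤ K * D1 := by
  unfold DD
  rw [Matrix.det_apply]
  refine natDegree_sum_le_of_forall_le _ _ fun σ _ => ?_
  refine rothc_sgn (P := fun F => F.natDegree ≤ K * D1) (fun F h => ?_) σ ?_
  · rw [natDegree_neg]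
    exact h
  · refine (natDegree_prod_le _ _).trans ?_
    refine (Finset.sum_le_card_nsmul _ _ D1 fun i _ => rothc_deg1 hD1 _ _ _).trans ?_
    rw [Finset.card_univ, Fintype.card_fin, smul_eq_mul]

private theorem rothc_in_mul {F G : ℤ[X][X][X]} {a b : ℕ} (hF : ∀ i, (F.coeff i).natDegree ≤ a)
    (hG : ∀ i, (G.coeff i).natDegree ≤ b) : ∀ i, ((F * G).coeff i).natDegree ≤ a + b := fun i => by
  rw [coeff_mul]
  refine natDegree_sum_le_of_forall_le _ _ fun x _ => ?_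
  exact natDegree_mul_le.trans (add_le_add (hF _) (hG _))

private theorem rothc_in_prod {ι : Type} (s : Finset ι) (F : ι → ℤ[X][X][X]) {a : ℕ}
    (h : ∀ x i, ((F x).coeff i).natDegree ≤ a) :
    ∀ i, ((∏ x ∈ s, F x).coeff i).natDegree ≤ s.card * a := by
  classical
  induction s using Finset.induction_on with
  | empty =>
    intro i
    rw [Finset.prod_empty, coeff_one]
    split_ifs
    · rw [natDegree_one]
      exact Nat.zero_le _
    · rw [natDegree_zero]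
      exact Nat.zero_le _
  | insert x s hx ih =>
    intro i
    rw [Finset.prod_insert hx, Finset.card_insert_of_notMem hx]
    refine (rothc_in_mul (h x) ih i).trans (le_of_eq ?_)
    ring

theorem natDegree_coeff_DD {N : ℤ[X][X][X]} {D2 : ℕ} (hD2 : ∀ i, (N.coeff i).natDegree ≤ D2)
    (Λ K i : ℕ) : ((DD Λ K N).coeff i).natDegree ≤ K * D2 := by
  unfold DD
  rw [Matrix.det_apply, finsetSum_coeff]
  refine natDegree_sum_le_of_forall_le _ _ fun σ _ => ?_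
  refine rothc_sgn (P := fun F => (F.coeff i).natDegree ≤ K * D2) (fun F h => ?_) σ ?_
  · rw [coeff_neg, natDegree_neg]
    exact h
  · refine (rothc_in_prod (a := D2) Finset.univ _ (fun x j => ?_) i).trans (le_of_eq ?_)
    · exact rothc_deg2 hD2 _ _ _ _
    · rw [Finset.card_univ, Fintype.card_fin]

end Pool.Agent.NLK
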