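import Pool.Agent.NLK.RDefs
import Pool.Agent.NLK.Nrm
import Pool.Agent.NLG.Gau
import Pool.Agent.NLG.Mult

/-!
# NLK-RothD: splitting off the variable `v`

If all `2 x 2` minors (pairs `(i, j)` against `k`) of the coefficients of `M` vanish then
`M_{ijk} M_{i₀j₀k₀} = U_{ij} V_k`, so the moments of `M` are products of the moments of `U` and of `V`; the first
moment of `V` at `v = z ^ m` which does not vanish has an order `c` with `v ^ c` dominated by the coefficients
(Gauss lemma), and the moments of `U` below `T - m c` vanish.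
-/

namespace Pool.Agent.NLK

open Finset Polynomial

private theorem RothD_coeff {R : Type*} [CommRing R] (l : ℕ) (F : R[X]) (e : ℕ) :
    (Pool.Agent.NLG.thet l F).coeff e = F.coeff e * (e : R) ^ l := by
  unfold Pool.Agent.NLG.thet
  rw [Polynomial.sum_def, finsetSum_coeff]
  simp only [coeff_monomial]
  rw [Finset.sum_ite_eq']
  split_ifs with h
  · rfl
  · rw [notMem_support_iff.1 h, zero_mul]

private theorem RothD_zero {R : Type*} [CommRing R] (F : R[X]) : Pool.Agent.NLG.thet 0 F = F := by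
  ext e
  rw [RothD_coeff, pow_zero, mul_one]

private theorem RothD_thet {R : Type*} [CommRing R] (l m : ℕ) (F : R[X]) :
    Pool.Agent.NLG.thet m (Pool.Agent.NLG.thet l F) = Pool.Agent.NLG.thet (m + l) F := by
  ext e
  rw [RothD_coeff, RothD_coeff, RothD_coeff, pow_add]
  ring

private theorem RothD_one {R : Type*} [CommRing R] (F : R[X]) :
    Pool.Agent.NLG.thet 1 F = X * derivative F := by
  ext e
  rw [RothD_coeff]
  rcases e with _ | e
  · simp
  · rw [coeff_X_mul, coeff_derivative]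
    push_cast
    ring

private theorem RothD_eval {R : Type*} [CommRing R] (l : ℕ) (F : R[X]) (v : R) :
    (Pool.Agent.NLG.thet l F).eval v = F.sum (fun e c => c * v ^ e * (e : R) ^ l) := by
  unfold Pool.Agent.NLG.thet
  rw [Polynomial.sum_def, Polynomial.sum_def, eval_finsetSum]
  refine Finset.sum_congr rfl fun e _ => ?_
  rw [eval_monomial]
  ring

private theorem RothD_root {v : ℂ} (hv : v ≠ 0) (M : ℕ) : ∀ Φ : ℂ[X],
    (∀ m < M, (Pool.Agent.NLG.thet m Φ).eval v = 0) → (X - C v) ^ M ∣ Φ := by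
  induction M with
  | zero =>
    intro Φ _
    rw [pow_zero]
    exact one_dvd _
  | succ M ih =>
    intro Φ h
    by_cases hΦ : Φ = 0
    · rw [hΦ]
      exact dvd_zero _
    have h0 : Φ.IsRoot v := by
      have := h 0 (Nat.succ_pos M)
      rwa [RothD_zero] at this
    have h1 : (X - C v) ^ M ∣ X * derivative Φ := by
      rw [← RothD_one]
      refine ih _ fun m hm => ?_
      rw [RothD_thet]
      exact h (m + 1) (Nat.succ_lt_succ hm)
    have hX : ¬ (X - C v) ∣ (X : ℂ[X]) := by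
      rw [dvd_iff_isRoot, IsRoot.def, eval_X]
      exact hv
    have h2 : (X - C v) ^ M ∣ derivative Φ :=
      (prime_X_sub_C v).pow_dvd_of_dvd_mul_left M hX h1
    have hd : derivative Φ ≠ 0 := by
      intro hd
      have h3 := derivative_eq_zero.1 hd
      rw [eq_C_of_natDegree_eq_zero h3] at h0 hΦ
      rw [IsRoot.def, eval_C] at h0
      rw [h0, C_0] at hΦ
      exact hΦ rfl
    have h3 : M ≤ (derivative Φ).rootMultiplicity v := (le_rootMultiplicity_iff hd).2 h2
    rw [derivative_rootMultiplicity_of_root h0] at h3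
    have h4 : 0 < Φ.rootMultiplicity v := (rootMultiplicity_pos hΦ).2 h0
    exact (le_rootMultiplicity_iff hΦ).1 (by omega)

private theorem RothD_dvd {v : ℤ} (hv : v ≠ 0) (M : ℕ) (W : ℤ[X])
    (h : ∀ m < M, (Pool.Agent.NLG.thet m W).eval v = 0) : (X - C v) ^ M ∣ W := by
  apply Pool.Agent.NLG.dvd_int_of_complex
  refine RothD_root (Int.cast_ne_zero.2 hv) M _ fun m hm => ?_
  have e1 : Pool.Agent.NLG.thet m (W.map (Int.castRingHom ℂ)) =
      (Pool.Agent.NLG.thet m W).map (Int.castRingHom ℂ) := by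
    ext e
    rw [RothD_coeff, coeff_map, coeff_map, RothD_coeff]
    simp
  rw [e1, eval_intCast_map, Int.cast_id, h m hm, map_zero]

private theorem RothD_ex {v : ℤ} (hv : v ≠ 0) {W : ℤ[X]} (hW : W ≠ 0) :
    ∃ m, (Pool.Agent.NLG.thet m W).eval v ≠ 0 ∧ (X - C v) ^ m ∣ W := by
  have h1 : ∃ m, (Pool.Agent.NLG.thet m W).eval v ≠ 0 := by
    by_contra h
    push Not at h
    have h2 := RothD_dvd hv (W.natDegree + 1) W fun m _ => h m
    have h3 := natDegree_le_of_dvd h2 hW
    rw [natDegree_pow, natDegree_X_sub_C, mul_one] at h3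
    omega
  classical
  refine ⟨Nat.find h1, Nat.find_spec h1, ?_⟩
  refine RothD_dvd hv _ W fun m hm => ?_
  by_contra h2
  exact Nat.find_min h1 hm h2

theorem split_one {M : ℤ[X][X][X]} (hM : M ≠ 0)
    (hr : ∀ i j k i' j' k' : ℕ,
      ((M.coeff i).coeff j).coeff k * ((M.coeff i').coeff j').coeff k' =
        ((M.coeff i).coeff j).coeff k' * ((M.coeff i').coeff j').coeff k)
    {z : ℤ} (hz : 2 ≤ z) {n m T : ℕ} (hm : 1 ≤ m)
    (h : ∀ a b c, a + n * b + m * c < T → mom z (z ^ n) (z ^ m) M a b c = 0)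
    {D1 D2 : ℕ} (hD1 : M.natDegree ≤ D1) (hD2 : ∀ i, (M.coeff i).natDegree ≤ D2) {B : ℤ}
    (hB : nrm M ≤ B) :
    ∃ (U : ℤ[X][X]) (c : ℕ), U ≠ 0 ∧ U.natDegree ≤ D1 ∧ (∀ i, (U.coeff i).natDegree ≤ D2) ∧
      NLC.nrm U ≤ B ∧ z ^ (m * c) ≤ B ∧
      ∀ a b, a + n * b < T - m * c → NLC.mom z (z ^ n) U a b = 0 := by
  have h0 : ∃ i₀ j₀ k₀, ((M.coeff i₀).coeff j₀).coeff k₀ ≠ 0 := by
    by_contra hcon
    push Not at hcon
    apply hM
    ext i j k
    rw [hcon i j k, coeff_zero, coeff_zero, coeff_zero]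
  obtain ⟨i₀, j₀, k₀, hc⟩ := h0
  obtain ⟨D3, hD3⟩ : ∃ D3, ∀ i j, ((M.coeff i).coeff j).natDegree ≤ D3 := by
    refine ⟨M.support.sup fun i => (M.coeff i).support.sup fun j =>
      ((M.coeff i).coeff j).natDegree, fun i j => ?_⟩
    by_cases hi : i ∈ M.support
    · by_cases hj : j ∈ (M.coeff i).support
      · exact (Finset.le_sup (f := fun j => ((M.coeff i).coeff j).natDegree) hj).trans
          (Finset.le_sup (f := fun i => (M.coeff i).support.sup fun j =>
            ((M.coeff i).coeff j).natDegree) hi)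
      · rw [notMem_support_iff.1 hj, natDegree_zero]
        exact Nat.zero_le _
    · rw [notMem_support_iff.1 hi, coeff_zero, natDegree_zero]
      exact Nat.zero_le _
  have hk0 : k₀ ∈ range (D3 + 1) := by
    rw [mem_range]
    by_contra hcon
    exact hc (coeff_eq_zero_of_natDegree_lt (by have := hD3 i₀ j₀; omega))
  obtain ⟨U, hU⟩ : ∃ U : ℤ[X][X], U = ∑ i ∈ range (D1 + 1), monomial i
      (∑ j ∈ range (D2 + 1), monomial j (((M.coeff i).coeff j).coeff k₀)) := ⟨_, rfl⟩
  have hUc : ∀ i j, (U.coeff i).coeff j = ((M.coeff i).coeff j).coeff k₀ := by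
    intro i j
    rw [hU, finsetSum_coeff]
    simp only [coeff_monomial]
    rw [Finset.sum_ite_eq']
    split_ifs with h1
    · rw [finsetSum_coeff]
      simp only [coeff_monomial]
      rw [Finset.sum_ite_eq']
      split_ifs with h2
      · rfl
      · rw [mem_range, not_lt] at h2
        have h3 : (M.coeff i).coeff j = 0 :=
          coeff_eq_zero_of_natDegree_lt (by have := hD2 i; omega)
        rw [h3, coeff_zero]
    · rw [mem_range, not_lt] at h1
      have h2 : M.coeff i = 0 := coeff_eq_zero_of_natDegree_lt (by omega)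
      rw [h2, coeff_zero, coeff_zero, coeff_zero]
  have hU0 : U ≠ 0 := by
    intro h1
    apply hc
    rw [← hUc, h1, coeff_zero, coeff_zero]
  have hUd1 : U.natDegree ≤ D1 := by
    rw [natDegree_le_iff_coeff_eq_zero]
    intro i hi
    ext j
    have h2 : M.coeff i = 0 := coeff_eq_zero_of_natDegree_lt (by omega)
    rw [hUc, h2, coeff_zero, coeff_zero, coeff_zero]
  have hUd2 : ∀ i, (U.coeff i).natDegree ≤ D2 := by
    intro i
    rw [natDegree_le_iff_coeff_eq_zero]
    intro j hj
    have h3 : (M.coeff i).coeff j = 0 :=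
      coeff_eq_zero_of_natDegree_lt (by have := hD2 i; omega)
    rw [hUc, h3, coeff_zero]
  have hV0 : (M.coeff i₀).coeff j₀ ≠ 0 := by
    intro h1
    apply hc
    rw [h1, coeff_zero]
  have hz0 : z ≠ 0 := by omega
  have hv0 : z ^ m ≠ 0 := pow_ne_zero _ hz0
  obtain ⟨c, hc1, hc2⟩ := RothD_ex hv0 hV0
  refine ⟨U, c, hU0, hUd1, hUd2, ?_, ?_, ?_⟩
  · refine le_trans ?_ hB
    rw [nrm_eq_sum hD1 hD2 hD3]
    unfold NLC.nrm
    rw [Polynomial.sum_over_range' U (fun _ => Polynomial.sum_zero_index _) (D1 + 1)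
      (Nat.lt_succ_iff.2 hUd1)]
    refine Finset.sum_le_sum fun i _ => ?_
    rw [Polynomial.sum_over_range' (U.coeff i) (fun _ => abs_zero) (D2 + 1)
      (Nat.lt_succ_iff.2 (hUd2 i))]
    refine Finset.sum_le_sum fun j _ => ?_
    rw [hUc]
    exact Finset.single_le_sum (f := fun k => |((M.coeff i).coeff j).coeff k|)
      (fun k _ => abs_nonneg _) hk0
  · have hg : |z ^ m| ^ c ≤ B := Pool.Agent.NLG.gauss hV0 hv0 hc2 fun d =>
      (coeff_le_nrm M i₀ j₀ d).trans hB
    rw [abs_pow, abs_of_nonneg (by omega : (0 : ℤ) ≤ z), ← pow_mul] at hg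
    exact hg
  · intro a b hab
    have key : ((M.coeff i₀).coeff j₀).coeff k₀ * mom z (z ^ n) (z ^ m) M a b c =
        NLC.mom z (z ^ n) U a b *
          (Pool.Agent.NLG.thet c ((M.coeff i₀).coeff j₀)).eval (z ^ m) := by
      have e1 : mom z (z ^ n) (z ^ m) M a b c = ∑ i ∈ range (D1 + 1), (i : ℤ) ^ a * z ^ i *
          ∑ j ∈ range (D2 + 1), (j : ℤ) ^ b * (z ^ n) ^ j *
            ∑ k ∈ range (D3 + 1), (k : ℤ) ^ c * (z ^ m) ^ k * ((M.coeff i).coeff j).coeff k := by
        unfold mom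
        rw [Polynomial.sum_over_range' M
          (by intro i; unfold NLC.mom; rw [sum_zero_index, mul_zero]) _ (Nat.lt_succ_iff.2 hD1)]
        refine Finset.sum_congr rfl fun i _ => ?_
        unfold NLC.mom
        rw [Polynomial.sum_over_range' (M.coeff i)
          (by intro j; rw [sum_zero_index, mul_zero]) _ (Nat.lt_succ_iff.2 (hD2 i))]
        refine congrArg _ (Finset.sum_congr rfl fun j _ => ?_)
        rw [Polynomial.sum_over_range' ((M.coeff i).coeff j) (by intro k; rw [mul_zero]) _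
          (Nat.lt_succ_iff.2 (hD3 i j))]
      have e2 : NLC.mom z (z ^ n) U a b = ∑ i ∈ range (D1 + 1), (i : ℤ) ^ a * z ^ i *
          ∑ j ∈ range (D2 + 1), (j : ℤ) ^ b * (z ^ n) ^ j * ((M.coeff i).coeff j).coeff k₀ := by
        unfold NLC.mom
        rw [Polynomial.sum_over_range' U (by intro i; rw [sum_zero_index, mul_zero]) _
          (Nat.lt_succ_iff.2 hUd1)]
        refine Finset.sum_congr rfl fun i _ => ?_
        rw [Polynomial.sum_over_range' (U.coeff i) (by intro j; rw [mul_zero]) _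
          (Nat.lt_succ_iff.2 (hUd2 i))]
        refine congrArg _ (Finset.sum_congr rfl fun j _ => ?_)
        rw [hUc]
      have e3 : (Pool.Agent.NLG.thet c ((M.coeff i₀).coeff j₀)).eval (z ^ m) =
          ∑ k ∈ range (D3 + 1), ((M.coeff i₀).coeff j₀).coeff k * (z ^ m) ^ k * (k : ℤ) ^ c := by
        rw [RothD_eval, Polynomial.sum_over_range' ((M.coeff i₀).coeff j₀)
          (by intro k; rw [zero_mul, zero_mul]) _ (Nat.lt_succ_iff.2 (hD3 i₀ j₀))]
      rw [e1, e2, e3, Finset.mul_sum, Finset.sum_mul]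
      refine Finset.sum_congr rfl fun i _ => ?_
      have e4 : ((M.coeff i₀).coeff j₀).coeff k₀ * (∑ j ∈ range (D2 + 1),
          (j : ℤ) ^ b * (z ^ n) ^ j *
            ∑ k ∈ range (D3 + 1), (k : ℤ) ^ c * (z ^ m) ^ k * ((M.coeff i).coeff j).coeff k) =
          (∑ j ∈ range (D2 + 1),
            (j : ℤ) ^ b * (z ^ n) ^ j * ((M.coeff i).coeff j).coeff k₀) *
          ∑ k ∈ range (D3 + 1),
            ((M.coeff i₀).coeff j₀).coeff k * (z ^ m) ^ k * (k : ℤ) ^ c := by
        rw [Finset.mul_sum, Finset.sum_mul]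
        refine Finset.sum_congr rfl fun j _ => ?_
        rw [Finset.mul_sum, Finset.mul_sum, Finset.mul_sum]
        refine Finset.sum_congr rfl fun k _ => ?_
        linear_combination ((j : ℤ) ^ b * (z ^ n) ^ j * ((k : ℤ) ^ c * (z ^ m) ^ k)) *
          hr i j k i₀ j₀ k₀
      linear_combination ((i : ℤ) ^ a * z ^ i) * e4
    rw [h a b c (by omega), mul_zero] at key
    rcases mul_eq_zero.1 key.symm with h1 | h1
    · exact h1
    · exact absurd h1 hc1

end Pool.Agent.NLK
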