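import Pool.Agent.NLK.RothA
import Pool.Agent.NLK.RothB
import Pool.Agent.NLK.RothC
import Pool.Agent.NLK.RothD
import Pool.Agent.NLC.Roth

/-!
# NLK-Roth: Roth's lemma in three variables for the integer point `(z, z ^ n, z ^ m)`
-/

namespace Pool.Agent.NLK

open Finset Polynomial

theorem roth {N : ℤ[X][X][X]} (hN : N ≠ 0) {D1 D2 D3 H : ℕ} (h1 : 1 ≤ D1) (h2 : 1 ≤ D2)
    (h3 : 1 ≤ D3) (hD1 : N.natDegree ≤ D1) (hD2 : ∀ i, (N.coeff i).natDegree ≤ D2)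
    (hD3 : ∀ i j, ((N.coeff i).coeff j).natDegree ≤ D3) (hH : nrm N ≤ (H : ℤ))
    {z : ℕ} (hz : 2 ≤ z) {n m t : ℕ} (hn : 1 ≤ n) (hm : 1 ≤ m)
    (h : ∀ a b c, a + n * b + m * c < t → mom z ((z : ℤ) ^ n) ((z : ℤ) ^ m) N a b c = 0) :
    ∃ K c K2 : ℕ, 1 ≤ K ∧ K ≤ D3 + 1 ∧ z ^ (m * c) ≤ bb D1 D2 D3 H K ∧ 1 ≤ K2 ∧
      K2 ≤ K * D2 + 1 ∧
      z ^ (∑ e ∈ range K2, ((∑ e ∈ range K, (t - n * (K - 1) - m * e)) - m * c - (K2 - 1) -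
        n * e)) ≤ (K2.factorial * (((K * D1) * (K * D2)) ^ K2 * bb D1 D2 D3 H K) ^ K2) ^ 2 := by
  have hz' : (2 : ℤ) ≤ (z : ℤ) := by exact_mod_cast hz
  obtain ⟨K, hK1, hK2, hne, hr⟩ := rank_one hN hD1 hD3
  obtain ⟨U, c, hU, hUd1, hUd2, hUn, hc, hUm⟩ := split_one hne hr hz' hm
    (mom_DD (D1 + 1) hn K h) (natDegree_DD hD1 (D1 + 1) K) (natDegree_coeff_DD hD2 (D1 + 1) K)
    (nrm_DD h1 h3 hD1 hD2 hD3 hH K)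
  obtain ⟨K2, hK3, hK4, hK5⟩ := NLC.roth hU (D1 := K * D1) (D2 := K * D2)
    (Nat.mul_pos hK1 h1) (Nat.mul_pos hK1 h2) hUd1 hUd2 hUn hz' hn hUm
  refine ⟨K, c, K2, hK1, hK2, by exact_mod_cast hc, hK3, hK4, ?_⟩
  have h4 : ((z ^ (∑ e ∈ range K2, ((∑ e ∈ range K, (t - n * (K - 1) - m * e)) - m * c -
      (K2 - 1) - n * e)) : ℕ) : ℤ) ≤
      (((K2.factorial * (((K * D1) * (K * D2)) ^ K2 * bb D1 D2 D3 H K) ^ K2) ^ 2 : ℕ) : ℤ) := by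
    push_cast
    push_cast at hK5
    exact hK5
  exact_mod_cast h4

end Pool.Agent.NLK
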