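import Pool.Agent.NLK.Tail
import Pool.Agent.NLK.Err

/-!
# NLK-Vals: the integers `vv` vanish

`vv = t vA - vB = (T vA - vB) + (t - T) vA`; both parts are `< 1/2` in absolute value (`tail`, `err` and
the choice of the parameters `Good`), and `vv` is an integer.
-/

namespace Pool.Agent.NLK

open Finset Polynomial
open Pool.Agent.NLG (KZ kap)

private lemma Vals_bd {P B V Q R k : ℕ} {W : ℝ} (hW0 : 0 ≤ W) (hW : W ≤ 2 ^ (300 * R))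
    (hk : k ≤ R) (hP : P ≤ 8 * R) (hB : B ≤ 31 * R) (hV : V ≤ 31 * R) (hQ : Q ≤ 30 * R) :
    (9 : ℝ) ^ k * (P * B * V * (P * B * V * 9 ^ Q * 9 ^ Q) * W) ≤
      ((9 : ℝ) ^ 61 * 2 ^ 440) ^ R := by
  have h1 : (P : ℝ) ≤ 2 ^ (8 * R) := by
    have h3 : P ≤ 2 ^ (8 * R) := hP.trans Nat.lt_two_pow_self.le
    exact_mod_cast h3
  have h2 : (B : ℝ) ≤ 2 ^ (31 * R) := by
    have h3 : B ≤ 2 ^ (31 * R) := hB.trans Nat.lt_two_pow_self.le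
    exact_mod_cast h3
  have h3 : (V : ℝ) ≤ 2 ^ (31 * R) := by
    have h3 : V ≤ 2 ^ (31 * R) := hV.trans Nat.lt_two_pow_self.le
    exact_mod_cast h3
  have h4 : (9 : ℝ) ^ k ≤ 9 ^ R := pow_le_pow_right₀ (by norm_num) hk
  have h5 : (9 : ℝ) ^ Q ≤ 9 ^ (30 * R) := pow_le_pow_right₀ (by norm_num) hQ
  calc (9 : ℝ) ^ k * (P * B * V * (P * B * V * 9 ^ Q * 9 ^ Q) * W)
      ≤ 9 ^ R * (2 ^ (8 * R) * 2 ^ (31 * R) * 2 ^ (31 * R) *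
        (2 ^ (8 * R) * 2 ^ (31 * R) * 2 ^ (31 * R) * 9 ^ (30 * R) * 9 ^ (30 * R)) *
          2 ^ (300 * R)) := by gcongr
    _ = 9 ^ (61 * R) * 2 ^ (440 * R) := by
        have e1 : (9 : ℝ) ^ (61 * R) = 9 ^ R * (9 ^ (30 * R) * 9 ^ (30 * R)) := by
          rw [← pow_add, ← pow_add]
          congr 1
          ring
        have e2 : (2 : ℝ) ^ (440 * R) = 2 ^ (8 * R) * 2 ^ (31 * R) * 2 ^ (31 * R) *
            (2 ^ (8 * R) * 2 ^ (31 * R) * 2 ^ (31 * R)) * 2 ^ (300 * R) := by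
          rw [← pow_add, ← pow_add, ← pow_add, ← pow_add]
          congr 1
          ring
        rw [e1, e2]
        ring
    _ = ((9 : ℝ) ^ 61 * 2 ^ 440) ^ R := by
        rw [mul_pow, ← pow_mul, ← pow_mul]

private lemma Vals_key {c z R l : ℕ} (hc : 1 ≤ c) (hR : 1 ≤ R) (hl : 2 * l ≤ R)
    (hz : 16 * c ^ 2 ≤ z) : (c : ℝ) ^ R * ((z : ℝ) ^ l / (z : ℝ) ^ R) < 1 / 2 := by
  have hz1 : 1 ≤ z := le_trans (by nlinarith [Nat.one_le_pow 2 c hc]) hz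
  have hz0 : (0 : ℝ) < z := by exact_mod_cast hz1
  have hzR : (0 : ℝ) < (z : ℝ) ^ R := pow_pos hz0 R
  have h1 : (2 * (c ^ R * z ^ l)) ^ 2 < (z ^ R) ^ 2 := by
    have h2 : (16 * c ^ 2) ^ R ≤ z ^ R := Nat.pow_le_pow_left hz R
    have h3 : (z ^ l) ^ 2 ≤ z ^ R := by
      rw [← pow_mul, mul_comm]
      exact Nat.pow_le_pow_right hz1 hl
    have h4 : 16 ≤ 16 ^ R := by
      calc 16 = 16 ^ 1 := by norm_num
        _ ≤ 16 ^ R := Nat.pow_le_pow_right (by norm_num) hR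
    have h5 : 0 < (c ^ R) ^ 2 := by positivity
    have h6 : (16 * c ^ 2) ^ R = 16 ^ R * (c ^ R) ^ 2 := by
      rw [mul_pow, ← pow_mul, ← pow_mul, mul_comm 2 R]
    have h7 : 4 * (c ^ R) ^ 2 < z ^ R := by
      calc 4 * (c ^ R) ^ 2 < 16 * (c ^ R) ^ 2 := by omega
        _ ≤ 16 ^ R * (c ^ R) ^ 2 := Nat.mul_le_mul_right _ h4
        _ ≤ z ^ R := h6 ▸ h2
    have h8 : 0 < z ^ R := by positivity
    calc (2 * (c ^ R * z ^ l)) ^ 2 = 4 * (c ^ R) ^ 2 * (z ^ l) ^ 2 := by ring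
      _ ≤ 4 * (c ^ R) ^ 2 * z ^ R := Nat.mul_le_mul_left _ h3
      _ < z ^ R * z ^ R := Nat.mul_lt_mul_of_pos_right h7 h8
      _ = (z ^ R) ^ 2 := by ring
  have h2 : 2 * (c ^ R * z ^ l) < z ^ R := lt_of_pow_lt_pow_left₀ 2 (Nat.zero_le _) h1
  have h3 : 2 * ((c : ℝ) ^ R * (z : ℝ) ^ l) < (z : ℝ) ^ R := by exact_mod_cast h2
  rw [← mul_div_assoc, div_lt_iff₀ hzR]
  linarith

private lemma Vals_div {z a b R : ℕ} (hz : 1 ≤ z) (h : a + R ≤ b) :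
    (z : ℝ) ^ a / (z : ℝ) ^ b ≤ 1 / (z : ℝ) ^ R := by
  have hz1 : (1 : ℝ) ≤ z := by exact_mod_cast hz
  have hz0 : (0 : ℝ) < z := by linarith
  rw [div_le_div_iff₀ (pow_pos hz0 b) (pow_pos hz0 R), one_mul, ← pow_add]
  exact pow_le_pow_right₀ hz1 h

theorem vals : ∃ Z0 : ℕ, ∀ p : Par, Good p → ∀ z t : ℕ, Z0 ≤ z →
    (t : ℤ) ^ 3 * ((z : ℤ) - 1) ^ 2 * ((z : ℤ) ^ p.m - 1) =
      ((z : ℤ) ^ p.n - 1) ^ 2 * ((z : ℤ) ^ (p.n ^ 3) - 1) →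
    ∀ A : ℕ → ℕ → ℕ → ℤ, (∀ i β γ, |A i β γ| ≤ p.P * p.B * p.V * 9 ^ p.Q) →
    (∀ r j k, p.S ≤ r → r < p.S + p.R → j < p.B + p.L → k < p.V + p.M → gZ p A r j k = 0) →
    ∀ l₁ l₂ l₃, 2 * (l₁ + p.n * l₂ + p.m * l₃) ≤ p.R →
      vv p A z ((z : ℤ) ^ p.n) ((z : ℤ) ^ p.m) t l₁ l₂ l₃ = 0 := by
  obtain ⟨c, hc⟩ : ∃ c : ℕ, c = 9 ^ 61 * 2 ^ 440 := ⟨_, rfl⟩
  refine ⟨16 * c ^ 2 + 16, ?_⟩
  intro p hG z t hz ht A hA hg l₁ l₂ l₃ hl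
  have f := hG.facts
  have hz16 : 16 ≤ z := by omega
  have hc1 : 1 ≤ c := by
    rw [hc]
    exact Nat.mul_pos (Nat.pow_pos (by norm_num)) (Nat.pow_pos (by norm_num))
  have hkey := Vals_key (l := l₁ + p.n * l₂ + p.m * l₃) hc1 f.R1 hl (le_trans (by omega) hz)
  have hz0 : (0 : ℝ) ≤ (z : ℝ) ^ (l₁ + p.n * l₂ + p.m * l₃) / (z : ℝ) ^ p.R := by positivity
  have hcc : (c : ℝ) = 9 ^ 61 * 2 ^ 440 := by
    rw [hc, Nat.cast_mul, Nat.cast_pow, Nat.cast_pow, Nat.cast_ofNat, Nat.cast_ofNat]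
  rw [hcc] at hkey
  have hB : p.B ≤ 31 * p.R := (Nat.le_mul_of_pos_left _ (by have := f.n3; omega)).trans f.B1
  have hV : p.V ≤ 31 * p.R := (Nat.le_mul_of_pos_left _ (by have := f.n4; omega)).trans f.V1
  have hl2 : l₂ ≤ p.n * l₂ := Nat.le_mul_of_pos_left _ (by have := f.n3; omega)
  have hl3 : l₃ ≤ p.m * l₃ := Nat.le_mul_of_pos_left _ (by have := f.n4; omega)
  have hll : l₁ + l₂ + l₃ ≤ p.R := by omega
  have hH : (0 : ℝ) ≤ p.P * p.B * p.V * 9 ^ p.Q := by positivity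
  have hA' : ∀ i β γ, |(A i β γ : ℝ)| ≤ p.P * p.B * p.V * 9 ^ p.Q := fun i β γ => by
    exact_mod_cast hA i β γ
  have h1 := tail p f.n3 f.n4 f.L2 f.M2 A hH hA' hg hz16 l₁ l₂ l₃
  have h2 := err p f.n3 f.n4 A hH hA' (z := z) (t := t) (N := p.n ^ 3) (by omega) hG.hJ ht
    l₁ l₂ l₃
  have hR1 := f.R1
  have hQ1 := f.Q1
  have hP1 := f.P1
  have hJ1 := f.J1
  have hB1 := f.B1
  have hV1 := f.V1
  have b1 : |TT p z * (vA p A z ((z : ℤ) ^ p.n) ((z : ℤ) ^ p.m) l₁ l₂ l₃ : ℝ) -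
        (vB p A z ((z : ℤ) ^ p.n) ((z : ℤ) ^ p.m) l₁ l₂ l₃ : ℝ)| < 1 / 2 := by
    refine h1.trans_lt ?_
    have hW : (16 : ℝ) ^ p.Q *
        2 ^ (p.n * p.B + p.m * p.V + p.B + p.V + l₁ + l₂ + l₃ + 3) ≤ 2 ^ (300 * p.R) := by
      have e : (16 : ℝ) ^ p.Q = 2 ^ (4 * p.Q) := by
        rw [pow_mul]
        norm_num
      rw [e, ← pow_add]
      exact pow_le_pow_right₀ (by norm_num) (by omega)
    have h3 := Vals_bd (k := l₁ + l₂ + l₃) (by positivity) hW hll hP1.le hB hV hQ1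
    calc _ = ((9 : ℝ) ^ (l₁ + l₂ + l₃) * (p.P * p.B * p.V * (p.P * p.B * p.V * 9 ^ p.Q *
          9 ^ p.Q) * ((16 : ℝ) ^ p.Q *
            2 ^ (p.n * p.B + p.m * p.V + p.B + p.V + l₁ + l₂ + l₃ + 3)))) *
          ((z : ℝ) ^ (l₁ + p.n * l₂ + p.m * l₃) / (z : ℝ) ^ p.R) := by ring
      _ ≤ ((9 : ℝ) ^ 61 * 2 ^ 440) ^ p.R *
          ((z : ℝ) ^ (l₁ + p.n * l₂ + p.m * l₃) / (z : ℝ) ^ p.R) :=
          mul_le_mul_of_nonneg_right h3 hz0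
      _ < 1 / 2 := hkey
  have b2 : |((t : ℝ) - TT p z) * (vA p A z ((z : ℤ) ^ p.n) ((z : ℤ) ^ p.m) l₁ l₂ l₃ : ℝ)| <
      1 / 2 := by
    refine h2.trans_lt ?_
    have hW : (2 : ℝ) ^ (p.P + p.J + p.n * p.B + p.m * p.V + p.B + p.V + l₁ + l₂ + l₃ + 5) ≤
        2 ^ (300 * p.R) := pow_le_pow_right₀ (by norm_num) (by omega)
    have h3 := Vals_bd (k := l₁ + l₂ + l₃) (by positivity) hW hll hP1.le hB hV hQ1
    have h4 := Vals_div (z := z) (a := p.P + p.J) (b := p.n ^ 3) (R := p.R) (by omega) f.Q2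
    have h5 : (z : ℝ) ^ (l₁ + p.n * l₂ + p.m * l₃) *
        ((z : ℝ) ^ (p.P + p.J) / (z : ℝ) ^ (p.n ^ 3)) ≤
        (z : ℝ) ^ (l₁ + p.n * l₂ + p.m * l₃) / (z : ℝ) ^ p.R := by
      refine (mul_le_mul_of_nonneg_left h4 (by positivity)).trans_eq ?_
      rw [mul_one_div]
    calc _ = ((9 : ℝ) ^ (l₁ + l₂ + l₃) * (p.P * p.B * p.V * (p.P * p.B * p.V * 9 ^ p.Q *
          9 ^ p.Q) *
            (2 : ℝ) ^ (p.P + p.J + p.n * p.B + p.m * p.V + p.B + p.V + l₁ + l₂ + l₃ + 5))) *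
          ((z : ℝ) ^ (l₁ + p.n * l₂ + p.m * l₃) *
            ((z : ℝ) ^ (p.P + p.J) / (z : ℝ) ^ (p.n ^ 3))) := by
            rw [pow_add (z : ℝ) p.P p.J]
            ring
      _ ≤ ((9 : ℝ) ^ 61 * 2 ^ 440) ^ p.R *
          ((z : ℝ) ^ (l₁ + p.n * l₂ + p.m * l₃) / (z : ℝ) ^ p.R) :=
          mul_le_mul h3 h5 (by positivity) (by positivity)
      _ < 1 / 2 := hkey
  have h3 : (vv p A z ((z : ℤ) ^ p.n) ((z : ℤ) ^ p.m) t l₁ l₂ l₃ : ℝ) =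
      (TT p z * (vA p A z ((z : ℤ) ^ p.n) ((z : ℤ) ^ p.m) l₁ l₂ l₃ : ℝ) -
        (vB p A z ((z : ℤ) ^ p.n) ((z : ℤ) ^ p.m) l₁ l₂ l₃ : ℝ)) +
      ((t : ℝ) - TT p z) * (vA p A z ((z : ℤ) ^ p.n) ((z : ℤ) ^ p.m) l₁ l₂ l₃ : ℝ) := by
    unfold vv
    push_cast
    ring
  have h4 : |(vv p A z ((z : ℤ) ^ p.n) ((z : ℤ) ^ p.m) t l₁ l₂ l₃ : ℝ)| < 1 := by
    rw [h3]
    refine (abs_add_le _ _).trans_lt ?_
    linarith
  have h5 : |vv p A z ((z : ℤ) ^ p.n) ((z : ℤ) ^ p.m) t l₁ l₂ l₃| < 1 := by exact_mod_cast h4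
  exact Int.abs_lt_one_iff.1 h5

end Pool.Agent.NLK
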