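import Pool.Agent.NLK.Siegel
import Pool.Agent.NLK.Vals
import Pool.Agent.NLK.Elim
import Pool.Agent.NLK.NNz
import Pool.Agent.NLK.NBd
import Pool.Agent.NLK.Roth
import Pool.Agent.NLK.Arith

/-!
# NLK-Main: the three-variable argument
-/

namespace Pool.Agent.NLK

open Finset Polynomial

theorem main : ∃ Z0 N0 : ℕ, ∀ n J z t : ℕ, N0 ≤ n → 3 * J + 2 + n ^ 2 = n ^ 3 + 2 * n → Z0 ≤ z →
    (t : ℤ) ^ 3 * ((z : ℤ) - 1) ^ 2 * ((z : ℤ) ^ (n ^ 2) - 1) ≠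
      ((z : ℤ) ^ n - 1) ^ 2 * ((z : ℤ) ^ (n ^ 3) - 1) := by
  obtain ⟨Z1, hZ1⟩ := vals
  obtain ⟨Z2, N2, hZ2⟩ := arith
  refine ⟨max (max Z1 Z2) 2, max N2 61, fun n J z t hN hJ hz ht => ?_⟩
  have hzZ1 : Z1 ≤ z := ((le_max_left _ _).trans (le_max_left _ _)).trans hz
  have hzZ2 : Z2 ≤ z := ((le_max_right _ _).trans (le_max_left _ _)).trans hz
  have hz2 : 2 ≤ z := (le_max_right _ _).trans hz
  have hN2 : N2 ≤ n := (le_max_left _ _).trans hN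
  have hn61 : 61 ≤ n := (le_max_right _ _).trans hN
  obtain ⟨R, hR⟩ : ∃ R, R = n ^ 3 / 60 := ⟨_, rfl⟩
  obtain ⟨p, hp⟩ : ∃ p : Par, p = ⟨n, n ^ 2, J, 8 * R, R, (8 * R + J + R) / n + 1,
    (8 * R + J + R) / n, (8 * R + J + R) / n ^ 2 + 1, (8 * R + J + R) / n ^ 2⟩ := ⟨_, rfl⟩
  have hg : Good p := by
    rw [hp]
    exact ⟨hn61, rfl, hJ, hR, rfl, rfl, rfl, rfl, rfl⟩
  have hpn : p.n = n := by rw [hp]
  have hpm : p.m = n ^ 2 := by rw [hp]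
  have F := hg.facts
  have hm : p.m = p.n ^ 2 := hg.hm
  rw [← hpm, ← hpn] at ht
  have hU : 2 * (p.R * (p.B + p.L) * (p.V + p.M)) ≤ p.P * p.B * p.V := by
    have h1 : p.B + p.L ≤ 2 * p.B := by
      have := F.B2
      omega
    have h2 : p.V + p.M ≤ 2 * p.V := by
      have := F.V2
      omega
    rw [F.P1]
    calc 2 * (p.R * (p.B + p.L) * (p.V + p.M)) ≤ 2 * (p.R * (2 * p.B) * (2 * p.V)) := by gcongr
      _ = 8 * p.R * p.B * p.V := by ring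
  have hB1 : 1 ≤ p.B := by
    have := F.B2
    omega
  have hV1 : 1 ≤ p.V := by
    have := F.V2
    omega
  obtain ⟨A, hA1, hA2, hA3⟩ := siegel p F.n3 F.n4 F.R1 hB1 hV1 hU
  have hv := hZ1 p hg z t hzZ1 ht A hA2 hA3
  have hzi : (2 : ℤ) ≤ (z : ℤ) := by exact_mod_cast hz2
  have ht0 : (t : ℤ) ≠ 0 := by
    intro h0
    rw [h0, zero_pow (by norm_num), zero_mul, zero_mul] at ht
    have h3 : ∀ k : ℕ, 1 ≤ k → (z : ℤ) ^ k - 1 ≠ 0 := by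
      intro k hk h4
      have h5 : (z : ℤ) ≤ (z : ℤ) ^ k := le_self_pow₀ (by omega) (by omega)
      omega
    have hn3 : 1 ≤ p.n ^ 3 := Nat.one_le_pow _ _ F.n3
    exact (mul_ne_zero (pow_ne_zero _ (h3 p.n F.n3)) (h3 _ hn3)) ht.symm
  have hmo := elim p F.n3 F.n4 hB1 hV1 A hzi ht0 (T := p.R / 2) (fun l₁ l₂ l₃ hl =>
    hv l₁ l₂ l₃ (by omega))
  obtain ⟨K, c, K2, hK1, hK2, hc, hK3, hK4, hK5⟩ := roth (NN_ne_zero p A hA1) (D1 := dz p)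
    (D2 := 2 * (p.B + p.L)) (D3 := 2 * (p.V + p.M)) (H := hh p) (by unfold dz; omega) (by omega)
    (by omega) (natDegree_NN p A) (natDegree_coeff_NN p A) (natDegree_coeff_coeff_NN p A)
    (nrm_NN p F.n3 F.n4 A hA2) hz2 F.n3 F.n4 hmo
  exact absurd hK5 (not_le.2 (hZ2 p F hm (by rw [hpn]; exact hN2) z hzZ2 K c K2 hK1 hK2 hc hK3 hK4))

end Pool.Agent.NLK
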