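import Pool.Agent.NLK.Defs

/-!
# NLK-OneVar: the expansion at infinity in one variable

The series `∑ kap (b/3) s * kap (c - s) l * x ^ (-s)`, `a + b = 3 c`, as `(1 - 1/x) ^ (b/3)` times the
integer `EE a b x l`, up to the factor `9 ^ l (x - 1) ^ l`.
-/

namespace Pool.Agent.NLK

open Finset Polynomial
open Pool.Agent.NLG (KZ kap)

private theorem onevar_congr {ι : Type} {f g : ι → ℝ} {a b : ℝ} (h : ∀ k, f k = g k) (hab : a = b)
    (hg : HasSum g b) : HasSum f a := by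
  rw [show f = g from funext h, hab]
  exact hg

/-- The binomial series. -/
private theorem onevar_bin (ρ : ℚ) (x : ℝ) (h0 : 0 ≤ x) (h1 : x < 1) :
    HasSum (fun a : ℕ => ((kap ρ a : ℚ) : ℝ) * x ^ a) ((1 - x) ^ (ρ : ℝ)) := by
  have h := (Real.one_add_rpow_hasFPowerSeriesOnBall_zero (a := (ρ : ℝ))).hasSum
    (y := -x) (by
      rw [← ENNReal.ofReal_one, Metric.eball_ofReal]
      simp [abs_of_nonneg h0, h1])
  rw [zero_add, ← sub_eq_add_neg] at h
  refine onevar_congr (fun k => ?_) rfl h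
  have hc : ((Ring.choose ρ k : ℚ) : ℝ) = Ring.choose (ρ : ℝ) k := by
    have := Ring.map_choose (algebraMap ℚ ℝ) ρ k
    simpa using this
  rw [binomialSeries_apply]
  simp only [List.ofFn_const, List.prod_replicate, smul_eq_mul]
  unfold kap
  push_cast
  rw [hc, neg_pow x k]
  ring

private theorem onevar_kap (α : ℚ) (a j : ℕ) :
    kap α a * kap (α - a) j = kap α (a + j) * ((a + j).choose j : ℚ) := by
  induction j with
  | zero => rw [Nat.choose_zero_right, Pool.Agent.NLG.kap_zero, Nat.cast_one, add_zero]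
  | succ j ih =>
    have h1 := Pool.Agent.NLG.kap_succ (α - a) j
    have h2 := Pool.Agent.NLG.kap_succ α (a + j)
    have h3 : ((a + j + 1 : ℕ) : ℚ) * ((a + j).choose j : ℚ) =
        ((a + j + 1).choose (j + 1) : ℚ) * ((j + 1 : ℕ) : ℚ) := by
      exact_mod_cast Nat.add_one_mul_choose_eq (a + j) j
    have hj : ((j : ℚ) + 1) ≠ 0 := by positivity
    apply mul_left_cancel₀ hj
    have e : a + (j + 1) = a + j + 1 := by ring
    rw [e]
    push_cast at h2 h3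
    calc ((j : ℚ) + 1) * (kap α a * kap (α - a) (j + 1))
        = kap α a * (((j : ℚ) + 1) * kap (α - a) (j + 1)) := by ring
      _ = (((a : ℚ) + j) - α) * (kap α a * kap (α - a) j) := by rw [h1]; ring
      _ = ((((a : ℚ) + j) - α) * kap α (a + j)) * ((a + j).choose j : ℚ) := by rw [ih]; ring
      _ = kap α (a + j + 1) * (((a : ℚ) + j + 1) * ((a + j).choose j : ℚ)) := by rw [← h2]; ring
      _ = ((j : ℚ) + 1) * (kap α (a + j + 1) * ((a + j + 1).choose (j + 1) : ℚ)) := by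
        rw [h3]; ring

private theorem onevar_kap_symm (α : ℚ) (a j : ℕ) :
    kap α a * kap (α - a) j = kap α j * kap (α - j) a := by
  rw [onevar_kap, onevar_kap, add_comm j a, Nat.choose_symm_add]

/-- The sum in one variable. -/
private theorem onevar_one (e α : ℚ) (l : ℕ) (x : ℝ) (hx : 1 < x) :
    HasSum (fun a : ℕ => ((kap α a : ℚ) : ℝ) * ((kap (e + α - a) l : ℚ) : ℝ) * (x ^ a)⁻¹)
      ((1 - 1 / x) ^ (α : ℝ) * ∑ k ∈ range (l + 1), ((kap e k : ℚ) : ℝ) *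
        ((kap α (l - k) : ℚ) : ℝ) * (x / (x - 1)) ^ (l - k)) := by
  have hx0 : 0 < x := by linarith
  have h0 : 0 ≤ 1 / x := by positivity
  have h1 : 1 / x < 1 := by rw [div_lt_one hx0]; exact hx
  have h2 : 0 < 1 - 1 / x := by linarith
  have h3 : ∀ k ∈ range (l + 1), HasSum (fun a : ℕ => ((kap e k : ℚ) : ℝ) *
      ((kap α (l - k) : ℚ) : ℝ) * (((kap (α - ((l - k : ℕ) : ℚ)) a : ℚ) : ℝ) * (1 / x) ^ a))
      (((kap e k : ℚ) : ℝ) * ((kap α (l - k) : ℚ) : ℝ) *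
        ((1 - 1 / x) ^ (α : ℝ) * (x / (x - 1)) ^ (l - k))) := by
    intro k _
    refine HasSum.mul_left _ ?_
    refine onevar_congr (fun _ => rfl) ?_ (onevar_bin (α - ((l - k : ℕ) : ℚ)) (1 / x) h0 h1)
    have h4 : (((α - ((l - k : ℕ) : ℚ) : ℚ)) : ℝ) = (α : ℝ) - ((l - k : ℕ) : ℝ) := by
      push_cast
      rfl
    have h5 : x - 1 ≠ 0 := by linarith
    have h6 : x / (x - 1) = (1 - 1 / x)⁻¹ := by
      rw [one_sub_div hx0.ne', inv_div]
    rw [h4, Real.rpow_sub_natCast h2.ne', h6, inv_pow, ← div_eq_mul_inv]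
  refine onevar_congr (fun a => ?_) ?_ (hasSum_sum h3)
  · have h4 : kap α a * kap (e + α - a) l = ∑ k ∈ range (l + 1),
        kap e k * kap α (l - k) * kap (α - ((l - k : ℕ) : ℚ)) a := by
      rw [show e + α - a = e + (α - a) from by ring, Pool.Agent.NLG.kap_add, Finset.mul_sum]
      refine Finset.sum_congr rfl fun k _ => ?_
      rw [mul_left_comm, onevar_kap_symm, mul_assoc]
    have h5 : ((kap α a : ℚ) : ℝ) * ((kap (e + α - a) l : ℚ) : ℝ) =
        ((kap α a * kap (e + α - a) l : ℚ) : ℝ) := by push_cast; rfl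
    rw [h5, h4]
    push_cast
    rw [Finset.sum_mul]
    refine Finset.sum_congr rfl fun k _ => ?_
    rw [one_div, inv_pow]
    ring
  · rw [Finset.mul_sum]
    refine Finset.sum_congr rfl fun k _ => ?_
    ring

private theorem onevar_E (a b : ℤ) (l : ℕ) (x : ℝ) (hx : x - 1 ≠ 0) :
    (9 : ℝ) ^ l * (x - 1) ^ l * (∑ k ∈ range (l + 1), ((kap ((a : ℚ) / 3) k : ℚ) : ℝ) *
        ((kap ((b : ℚ) / 3) (l - k) : ℚ) : ℝ) * (x / (x - 1)) ^ (l - k)) =
      ∑ k ∈ range (l + 1), ((KZ 3 a k : ℤ) : ℝ) * (x - 1) ^ k *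
        (((KZ 3 b (l - k) : ℤ) : ℝ) * x ^ (l - k)) := by
  rw [Finset.mul_sum]
  refine Finset.sum_congr rfl fun k hk => ?_
  have hkl : k ≤ l := Nat.lt_succ_iff.mp (mem_range.mp hk)
  have h1 := KZ3_castR a k
  have h2 := KZ3_castR b (l - k)
  have h3 : (9 : ℝ) ^ l = 9 ^ k * 9 ^ (l - k) := by
    rw [← pow_add, Nat.add_sub_cancel' hkl]
  have h4 : (x - 1) ^ l = (x - 1) ^ k * (x - 1) ^ (l - k) := by
    rw [← pow_add, Nat.add_sub_cancel' hkl]
  have h5 : (x - 1) ^ (l - k) * (x / (x - 1)) ^ (l - k) = x ^ (l - k) := by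
    rw [← mul_pow, mul_div_cancel₀ _ hx]
  rw [h1, h2, h3, h4, ← h5]
  ring

theorem hasSum_one {x : ℕ} (hx : 2 ≤ x) {a b c : ℤ} (hc : a + b = 3 * c) (l : ℕ) :
    HasSum (fun s : ℕ => (9 : ℝ) ^ l * ((x : ℝ) - 1) ^ l *
        ((kap ((b : ℚ) / 3) s : ℝ) * (kap ((c - s : ℤ) : ℚ) l : ℝ) * ((x : ℝ) ^ s)⁻¹))
      ((1 - 1 / (x : ℝ)) ^ ((b : ℝ) / 3) * (EE a b x l : ℝ)) := by
  have hx1 : (1 : ℝ) < x := by exact_mod_cast hx
  have hx1' : (x : ℝ) - 1 ≠ 0 := by linarith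
  have s1 := onevar_one ((a : ℚ) / 3) ((b : ℚ) / 3) l (x : ℝ) hx1
  have s2 := s1.mul_left ((9 : ℝ) ^ l * ((x : ℝ) - 1) ^ l)
  refine onevar_congr (fun s => ?_) ?_ s2
  · have e1 : (a : ℚ) / 3 + (b : ℚ) / 3 - s = ((c - s : ℤ) : ℚ) := by
      have h : (a : ℚ) + b = 3 * c := by exact_mod_cast hc
      push_cast
      linear_combination h / 3
    rw [e1]
  · have e3 : (((b : ℚ) / 3 : ℚ) : ℝ) = (b : ℝ) / 3 := by push_cast; rfl
    have f1 := onevar_E a b l (x : ℝ) hx1'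
    have g1 : _ = ((EE a b x l : ℤ) : ℝ) := f1.trans (by
      unfold EE
      push_cast
      rfl)
    rw [← g1, e3]
    ring

end Pool.Agent.NLK
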