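import Pool.Agent.NLK.PSDefs

/-!
# NLK-PS: three-level power series - basic properties

Coefficients of sums, products and constants, the order (weights `1`, `n`, `m`) of a product and of the
derivative, derivatives of the embedded one-variable series.
-/

namespace Pool.Agent.NLK

open Finset Polynomial
open Pool.Agent.NLG (KZ kap)
open Pool.Agent.NLC (bs wS)

theorem co_add (l₁ l₂ l₃ : ℕ) (F G : Rg) : co l₁ l₂ l₃ (F + G) = co l₁ l₂ l₃ F + co l₁ l₂ l₃ G := by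
  unfold co
  rw [map_add, map_add, map_add]

theorem co_neg (l₁ l₂ l₃ : ℕ) (F : Rg) : co l₁ l₂ l₃ (-F) = -co l₁ l₂ l₃ F := by
  unfold co
  rw [map_neg, map_neg, map_neg]

theorem co_sub (l₁ l₂ l₃ : ℕ) (F G : Rg) : co l₁ l₂ l₃ (F - G) = co l₁ l₂ l₃ F - co l₁ l₂ l₃ G := by
  rw [sub_eq_add_neg, co_add, co_neg, sub_eq_add_neg]

theorem co_sum {ι : Type} (l₁ l₂ l₃ : ℕ) (s : Finset ι) (F : ι → Rg) :
    co l₁ l₂ l₃ (∑ x ∈ s, F x) = ∑ x ∈ s, co l₁ l₂ l₃ (F x) := by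
  unfold co
  rw [map_sum, map_sum, map_sum]

private theorem PS3_cc (x : ℚ) :
    cc x = PowerSeries.C (PowerSeries.C (PowerSeries.C x) : NLC.Rg) := by
  unfold cc emZ
  rw [RingHom.comp_apply, PowerSeries.map_C, RingHom.comp_apply]

theorem co_em (f g h : PowerSeries ℚ) (l₁ l₂ l₃ : ℕ) :
    co l₁ l₂ l₃ (emZ f * (emW g * emV h)) =
      PowerSeries.coeff l₁ f * (PowerSeries.coeff l₂ g * PowerSeries.coeff l₃ h) := by
  unfold co emZ emW emV
  rw [RingHom.comp_apply, RingHom.comp_apply, ← map_mul, PowerSeries.coeff_mul_C,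
    PowerSeries.coeff_map, RingHom.comp_apply, PowerSeries.coeff_C_mul, PowerSeries.coeff_C_mul,
    NLC.coeff_emZ_mul_emW]

theorem co_cc (x : ℚ) (F : Rg) (l₁ l₂ l₃ : ℕ) : co l₁ l₂ l₃ (cc x * F) = x * co l₁ l₂ l₃ F := by
  rw [PS3_cc]
  unfold co
  rw [PowerSeries.coeff_C_mul, PowerSeries.coeff_C_mul, PowerSeries.coeff_C_mul]

theorem cc_emZ (x : ℚ) : emZ (PowerSeries.C x) = cc x := rfl

theorem cc_emW (x : ℚ) : emW (PowerSeries.C x) = cc x := by
  rw [PS3_cc]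
  unfold emW NLC.emZ
  rw [RingHom.comp_apply, PowerSeries.map_C]

theorem cc_emV (x : ℚ) : emV (PowerSeries.C x) = cc x := by
  rw [PS3_cc]
  unfold emV NLC.emW
  rw [RingHom.comp_apply]

theorem Wt_add {n m t : ℕ} {F G : Rg} (hF : Wt n m t F) (hG : Wt n m t G) : Wt n m t (F + G) := by
  intro l₁ l₂ l₃ h
  rw [co_add, hF l₁ l₂ l₃ h, hG l₁ l₂ l₃ h, add_zero]

theorem Wt_neg {n m t : ℕ} {F : Rg} (hF : Wt n m t F) : Wt n m t (-F) := by
  intro l₁ l₂ l₃ h
  rw [co_neg, hF l₁ l₂ l₃ h, neg_zero]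

theorem Wt_mul {n m t : ℕ} {F : Rg} (hF : Wt n m t F) (G : Rg) : Wt n m t (G * F) := by
  intro l₁ l₂ l₃ h
  unfold co
  rw [PowerSeries.coeff_mul, map_sum, map_sum]
  refine sum_eq_zero fun p hp => ?_
  rw [PowerSeries.coeff_mul, map_sum]
  refine sum_eq_zero fun r hr => ?_
  rw [PowerSeries.coeff_mul]
  refine sum_eq_zero fun s hs => ?_
  have h1 : p.2 ≤ l₁ := by
    have := mem_antidiagonal.1 hp
    omega
  have h2 : r.2 ≤ l₂ := by
    have := mem_antidiagonal.1 hr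
    omega
  have h3 : s.2 ≤ l₃ := by
    have := mem_antidiagonal.1 hs
    omega
  have h4 : n * r.2 ≤ n * l₂ := Nat.mul_le_mul_left n h2
  have h5 : m * s.2 ≤ m * l₃ := Nat.mul_le_mul_left m h3
  have h6 : PowerSeries.coeff s.2 (PowerSeries.coeff r.2 (PowerSeries.coeff p.2 F)) = 0 :=
    hF p.2 r.2 s.2 (by omega)
  rw [h6, mul_zero]

theorem Wt_mono {n m t t' : ℕ} (h : t' ≤ t) {F : Rg} (hF : Wt n m t F) : Wt n m t' F := by
  exact fun l₁ l₂ l₃ h1 => hF l₁ l₂ l₃ (h1.trans_le h)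

private theorem PS3_deriv (F : Rg) (l₁ : ℕ) :
    PowerSeries.coeff l₁ (PowerSeries.derivative NLC.Rg F) =
      (l₁ + 1) • PowerSeries.coeff (l₁ + 1) F := by
  rw [PowerSeries.coeff_derivative, nsmul_eq_mul, mul_comm]
  push_cast
  rfl

theorem Wt_deriv {n m t : ℕ} {F : Rg} (hF : Wt n m (t + 1) F) :
    Wt n m t (PowerSeries.derivative NLC.Rg F) := by
  intro l₁ l₂ l₃ h
  have h1 : PowerSeries.coeff l₃ (PowerSeries.coeff l₂ (PowerSeries.coeff (l₁ + 1) F)) = 0 :=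
    hF (l₁ + 1) l₂ l₃ (by omega)
  unfold co
  rw [PS3_deriv, map_nsmul, map_nsmul, h1, smul_zero]

theorem deriv_emZ (f : PowerSeries ℚ) : PowerSeries.derivative NLC.Rg (emZ f) =
    emZ (PowerSeries.derivative ℚ f) := by
  refine PowerSeries.ext fun l₁ => ?_
  rw [PS3_deriv]
  unfold emZ
  rw [PowerSeries.coeff_map, PowerSeries.coeff_map, PowerSeries.coeff_derivative, map_mul,
    nsmul_eq_mul, mul_comm]
  congr 1
  rw [map_add, map_natCast, map_one]
  push_cast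
  rfl

theorem deriv_emW (f : PowerSeries ℚ) : PowerSeries.derivative NLC.Rg (emW f) = 0 := by
  unfold emW
  rw [RingHom.comp_apply]
  exact PowerSeries.derivative_C

theorem deriv_emV (f : PowerSeries ℚ) : PowerSeries.derivative NLC.Rg (emV f) = 0 := by
  unfold emV
  rw [RingHom.comp_apply]
  exact PowerSeries.derivative_C

end Pool.Agent.NLK
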