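import Pool.Agent.NLK.Defs

/-!
# NLK-PSDefs: three-level power series at the point `(z, w, v)` - definitions

`Rg = NLC.Rg⟦X⟧ = ((ℚ⟦X⟧)⟦X⟧)⟦X⟧`: outer variable `τ` (`z(τ) = z (1 - (z-1) τ)`), middle `σ` (`w`), inner `υ` (`v`).
`emZ f`, `emW f`, `emV f`: one-variable series in `τ`, `σ`, `υ`.  `NLC.bs c e = (1 - c X) ^ e`,
`NLC.wS z = z (1 - (z-1) X)`, `NLC.phi w v : ℤ[X][X] →+* NLC.Rg` the expansion in `(σ, υ)`.
-/

namespace Pool.Agent.NLK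

open Finset Polynomial
open Pool.Agent.NLG (KZ kap)
open Pool.Agent.NLC (bs wS)

/-- The ring of three-level power series. -/
abbrev Rg := PowerSeries NLC.Rg

/-- A series in `τ`. -/
noncomputable def emZ : PowerSeries ℚ →+* Rg :=
  PowerSeries.map ((PowerSeries.C (R := PowerSeries ℚ)).comp (PowerSeries.C (R := ℚ)))

/-- A series in `σ`. -/
noncomputable def emW : PowerSeries ℚ →+* Rg := (PowerSeries.C (R := NLC.Rg)).comp NLC.emZ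

/-- A series in `υ`. -/
noncomputable def emV : PowerSeries ℚ →+* Rg := (PowerSeries.C (R := NLC.Rg)).comp NLC.emW

/-- The coefficient of `τ ^ l₁ σ ^ l₂ υ ^ l₃`. -/
noncomputable def co (l₁ l₂ l₃ : ℕ) (F : Rg) : ℚ :=
  PowerSeries.coeff l₃ (PowerSeries.coeff l₂ (PowerSeries.coeff l₁ F))

/-- The coefficients of `τ ^ l₁ σ ^ l₂ υ ^ l₃` with `l₁ + n l₂ + m l₃ < t` vanish. -/
def Wt (n m t : ℕ) (F : Rg) : Prop := ∀ l₁ l₂ l₃, l₁ + n * l₂ + m * l₃ < t → co l₁ l₂ l₃ F = 0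

/-- The expansion of polynomials at the point `(z, w, v)`. -/
noncomputable def phi (z w v : ℤ) : ℤ[X][X][X] →+* Rg :=
  eval₂RingHom ((PowerSeries.C (R := NLC.Rg)).comp (NLC.phi w v)) (emZ (wS z))

/-- The constants. -/
noncomputable def cc : ℚ →+* Rg := emZ.comp (PowerSeries.C (R := ℚ))

/-- The form at the point. -/
noncomputable def GG (p : Par) (A : ℕ → ℕ → ℕ → ℤ) (z w v t : ℤ) : Rg :=
  cc (t : ℚ) * ∑ i ∈ range p.P, ∑ β ∈ range p.B, ∑ γ ∈ range p.V,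
    cc ((A i β γ : ℚ) * 9 ^ p.Q * (z : ℚ) ^ (p.P - 1 - i)) *
      (emZ (bs ((z : ℚ) - 1) (((p.P - 1 - i : ℕ) : ℚ) - p.n * β - p.m * γ + p.J + 2 / 3) *
          bs (z : ℚ) (-2 / 3)) *
        (emW (bs ((w : ℚ) - 1) ((β : ℚ) - 2 / 3) * bs (w : ℚ) (2 / 3)) *
          emV (bs ((v : ℚ) - 1) ((γ : ℚ) + 1 / 3) * bs (v : ℚ) (-1 / 3)))) -
  ∑ r ∈ range p.S, ∑ j ∈ range (p.B + p.L), ∑ k ∈ range (p.V + p.M),
    cc ((gZ p A r j k : ℚ) * (z : ℚ) ^ (p.S - 1 - r)) *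
      (emZ (bs ((z : ℚ) - 1)
          (((p.S - 1 - r : ℕ) : ℚ) - p.n * ((j : ℚ) - p.L) - p.m * ((k : ℚ) - p.M))) *
        (emW (bs ((w : ℚ) - 1) ((j : ℚ) - p.L)) * emV (bs ((v : ℚ) - 1) ((k : ℚ) - p.M))))

/-- `T(z, w, v)` relative to the point. -/
noncomputable def Th (p : Par) (z w v : ℤ) : Rg :=
  emZ (bs ((z : ℚ) - 1) ((p.J : ℚ) + 2 / 3) * bs (z : ℚ) (-2 / 3)) *
    (emW (bs ((w : ℚ) - 1) (-2 / 3) * bs (w : ℚ) (2 / 3)) *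
      emV (bs ((v : ℚ) - 1) (1 / 3) * bs (v : ℚ) (-1 / 3)))

/-- The unit. -/
noncomputable def UU (p : Par) (z w v : ℤ) : Rg :=
  cc ((z : ℚ) ^ (p.n * (p.B - 1 + p.L) + p.m * (p.V - 1 + p.M))) *
    (emZ (bs ((z : ℚ) - 1) (p.n * ((p.B : ℚ) - 1) + p.m * ((p.V : ℚ) - 1))) *
      (emW (bs ((w : ℚ) - 1) p.L) * emV (bs ((v : ℚ) - 1) p.M)))

end Pool.Agent.NLK
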