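import Pool.Agent.NLK.PS

/-!
# NLK-Phi: the expansion of polynomials at the point `(z, w, v)`

PLAN.  Three-variable copy of `Pool/Agent/NLC/Phi.lean`.  `phi z w v (monomial i f) =
PowerSeries.C (NLC.phi w v f) * emZ (wS z) ^ i`; `NLC.phi_monomial` for `f = monomial j (monomial k c)`;
`wS z ^ i = C (z ^ i) * bs (z-1) i` (`NLC.bs_nat`).  `phi_deriv` as `NLC.phi_deriv`.  `mom_of_Wt`: the
coefficient `(l₁, l₂, l₃)` of `phi N` is `∑ N_ijk z^i w^j v^k kap i l₁ kap j l₂ kap k l₃` times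
`(z-1)^l₁ (w-1)^l₂ (v-1)^l₃`, then three inductions with `ρ kap ρ l = l kap ρ l - (l+1) kap ρ (l+1)` (private
`Phi_rec`); `mom` (Defs) unfolds to the triple sum.
-/

namespace Pool.Agent.NLK

open Finset Polynomial
open Pool.Agent.NLG (KZ kap)
open Pool.Agent.NLC (bs wS)

private theorem Phi_wS_pow (z : ℤ) (i : ℕ) :
    wS z ^ i = PowerSeries.C ((z : ℚ) ^ i) * bs ((z : ℚ) - 1) i := by
  rw [wS, mul_pow, NLC.bs_nat, map_pow]

private theorem Phi_mono (z w v : ℤ) (i : ℕ) (f : ℤ[X][X]) :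
    phi z w v (monomial i f) =
      PowerSeries.C (R := NLC.Rg) (NLC.phi w v f) * emZ (wS z) ^ i := by
  unfold phi
  rw [coe_eval₂RingHom, eval₂_monomial]
  rfl

theorem phi_monomial (z w v : ℤ) (i j k : ℕ) (c : ℤ) :
    phi z w v (monomial i (monomial j (monomial k c))) =
      emZ (PowerSeries.C ((c : ℚ) * (z : ℚ) ^ i) * bs ((z : ℚ) - 1) i) *
        (emW (PowerSeries.C ((w : ℚ) ^ j) * bs ((w : ℚ) - 1) j) *
          emV (PowerSeries.C ((v : ℚ) ^ k) * bs ((v : ℚ) - 1) k)) := by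
  have h1 : PowerSeries.C (R := NLC.Rg) (NLC.phi w v (monomial j (monomial k c))) =
      emW (PowerSeries.C ((c : ℚ) * (w : ℚ) ^ j) * bs ((w : ℚ) - 1) j) *
        emV (PowerSeries.C ((v : ℚ) ^ k) * bs ((v : ℚ) - 1) k) := by
    rw [NLC.phi_monomial, map_mul (PowerSeries.C (R := NLC.Rg))]
    rfl
  rw [Phi_mono, h1, ← map_pow, Phi_wS_pow, map_mul (PowerSeries.C (R := ℚ)),
    mul_assoc (PowerSeries.C (c : ℚ)), map_mul emW (PowerSeries.C (c : ℚ)), cc_emW,
    map_mul (PowerSeries.C (R := ℚ)), mul_assoc (PowerSeries.C (c : ℚ)),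
    map_mul emZ (PowerSeries.C (c : ℚ)), cc_emZ]
  ring

private theorem Phi_leib0 {R : Type} [CommRing R] (a b : PowerSeries R) :
    PowerSeries.derivative R (a * b) =
      a * PowerSeries.derivative R b + b * PowerSeries.derivative R a :=
  Derivation.leibniz (PowerSeries.derivative R) a b

private theorem Phi_leib (a b : Rg) : PowerSeries.derivative NLC.Rg (a * b) =
    a * PowerSeries.derivative NLC.Rg b + b * PowerSeries.derivative NLC.Rg a :=
  Phi_leib0 a b

private theorem Phi_deriv_C (f : NLC.Rg) :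
    PowerSeries.derivative NLC.Rg (PowerSeries.C (R := NLC.Rg) f) = 0 :=
  PowerSeries.derivative_C

private theorem Phi_leib_pow (a : Rg) (i : ℕ) :
    PowerSeries.derivative NLC.Rg (a ^ i) =
      (i : Rg) * a ^ (i - 1) * PowerSeries.derivative NLC.Rg a := by
  induction i with
  | zero =>
    rw [pow_zero, Nat.cast_zero, zero_mul, zero_mul, ← map_one (PowerSeries.C (R := NLC.Rg)),
      Phi_deriv_C]
  | succ i ih =>
    rw [pow_succ, Phi_leib, ih, Nat.add_sub_cancel]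
    rcases Nat.eq_zero_or_pos i with rfl | hi
    · simp
    · obtain ⟨m, rfl⟩ : ∃ m, i = m + 1 := ⟨i - 1, by omega⟩
      rw [Nat.add_sub_cancel]
      push_cast
      ring

theorem phi_deriv (z w v : ℤ) (N : ℤ[X][X][X]) :
    PowerSeries.derivative NLC.Rg (phi z w v N) =
      cc (-((z : ℚ) * ((z : ℚ) - 1))) * phi z w v (derivative N) := by
  have hD : PowerSeries.derivative NLC.Rg (emZ (wS z)) =
      cc (-((z : ℚ) * ((z : ℚ) - 1))) := by
    rw [deriv_emZ, ← cc_emZ]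
    congr 1
    unfold wS
    simp only [Derivation.leibniz, map_sub, PowerSeries.derivative_C, PowerSeries.derivative_X,
      Derivation.map_one_eq_zero, add_zero, zero_sub, smul_eq_mul, mul_one, mul_zero]
    simp only [map_neg, map_mul, map_sub]
    ring
  induction N using Polynomial.induction_on' with
  | add p q hp hq => rw [map_add, map_add, hp, hq, map_add, map_add, mul_add]
  | monomial i f =>
    rw [Phi_mono, derivative_monomial, Phi_mono, Phi_leib, Phi_deriv_C, mul_zero, add_zero,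
      Phi_leib_pow, hD, map_mul (NLC.phi w v), map_natCast, map_mul (PowerSeries.C (R := NLC.Rg)),
      map_natCast]
    ring

private noncomputable def Phi_M (z w v : ℤ) (N : ℤ[X][X][X]) (g : ℕ → ℕ → ℕ → ℚ) : ℚ :=
  ∑ i ∈ N.support, ∑ j ∈ (N.coeff i).support, ∑ k ∈ ((N.coeff i).coeff j).support,
    ((((N.coeff i).coeff j).coeff k : ℚ) * (z : ℚ) ^ i * (w : ℚ) ^ j * (v : ℚ) ^ k) * g i j k

private theorem Phi_coeff (z w v : ℤ) (N : ℤ[X][X][X]) (l₁ l₂ l₃ : ℕ) :
    co l₁ l₂ l₃ (phi z w v N) =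
      Phi_M z w v N (fun i j k => kap i l₁ * kap j l₂ * kap k l₃) *
        (((z : ℚ) - 1) ^ l₁ * ((w : ℚ) - 1) ^ l₂ * ((v : ℚ) - 1) ^ l₃) := by
  have hN : N = ∑ i ∈ N.support, ∑ j ∈ (N.coeff i).support, ∑ k ∈ ((N.coeff i).coeff j).support,
      monomial i (monomial j (monomial k (((N.coeff i).coeff j).coeff k))) := by
    conv_lhs => rw [N.as_sum_support]
    refine Finset.sum_congr rfl fun i _ => ?_
    conv_lhs => rw [(N.coeff i).as_sum_support]
    rw [map_sum]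
    refine Finset.sum_congr rfl fun j _ => ?_
    conv_lhs => rw [((N.coeff i).coeff j).as_sum_support]
    rw [map_sum, map_sum]
  conv_lhs => rw [hN]
  rw [map_sum, co_sum, Phi_M, Finset.sum_mul]
  refine Finset.sum_congr rfl fun i _ => ?_
  rw [map_sum, co_sum, Finset.sum_mul]
  refine Finset.sum_congr rfl fun j _ => ?_
  rw [map_sum, co_sum, Finset.sum_mul]
  refine Finset.sum_congr rfl fun k _ => ?_
  rw [phi_monomial, co_em, PowerSeries.coeff_C_mul, PowerSeries.coeff_C_mul,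
    PowerSeries.coeff_C_mul, bs, bs, bs, PowerSeries.coeff_mk, PowerSeries.coeff_mk,
    PowerSeries.coeff_mk]
  ring

private theorem Phi_rec (ρ : ℚ) (l : ℕ) :
    ρ * kap ρ l = (l : ℚ) * kap ρ l - ((l : ℚ) + 1) * kap ρ (l + 1) := by
  have := Pool.Agent.NLG.kap_succ ρ l
  linarith

private theorem Phi_M_lin (z w v : ℤ) (N : ℤ[X][X][X]) (x y : ℚ) (g g' : ℕ → ℕ → ℕ → ℚ) :
    Phi_M z w v N (fun i j k => x * g i j k - y * g' i j k) =
      x * Phi_M z w v N g - y * Phi_M z w v N g' := by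
  unfold Phi_M
  rw [Finset.mul_sum, Finset.mul_sum, ← Finset.sum_sub_distrib]
  refine Finset.sum_congr rfl fun i _ => ?_
  rw [Finset.mul_sum, Finset.mul_sum, ← Finset.sum_sub_distrib]
  refine Finset.sum_congr rfl fun j _ => ?_
  rw [Finset.mul_sum, Finset.mul_sum, ← Finset.sum_sub_distrib]
  refine Finset.sum_congr rfl fun k _ => ?_
  ring

private theorem Phi_M_congr (z w v : ℤ) (N : ℤ[X][X][X]) {g g' : ℕ → ℕ → ℕ → ℚ}
    (h : ∀ i j k, g i j k = g' i j k) : Phi_M z w v N g = Phi_M z w v N g' := by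
  have : g = g' := by
    funext i j k
    exact h i j k
  rw [this]

private theorem Phi_mom (z w v : ℤ) (N : ℤ[X][X][X]) (a b c : ℕ) :
    ((mom z w v N a b c : ℤ) : ℚ) =
      Phi_M z w v N (fun i j k => (i : ℚ) ^ a * ((j : ℚ) ^ b * (k : ℚ) ^ c)) := by
  unfold mom NLC.mom Phi_M
  rw [Polynomial.sum_def, Int.cast_sum]
  refine Finset.sum_congr rfl fun i _ => ?_
  rw [Polynomial.sum_def, Int.cast_mul, Int.cast_sum, Finset.mul_sum]
  refine Finset.sum_congr rfl fun j _ => ?_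
  rw [Polynomial.sum_def, Int.cast_mul ((j : ℤ) ^ b * w ^ j), Int.cast_sum, Finset.mul_sum,
    Finset.mul_sum]
  refine Finset.sum_congr rfl fun k _ => ?_
  push_cast
  ring

theorem mom_of_Wt {z w v : ℤ} (hz : z ≠ 1) (hw : w ≠ 1) (hv : v ≠ 1) {n m t : ℕ} {N : ℤ[X][X][X]}
    (h : Wt n m t (phi z w v N)) : ∀ a b c, a + n * b + m * c < t → mom z w v N a b c = 0 := by
  have hz' : (z : ℚ) - 1 ≠ 0 := by
    rw [sub_ne_zero]
    exact_mod_cast hz
  have hw' : (w : ℚ) - 1 ≠ 0 := by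
    rw [sub_ne_zero]
    exact_mod_cast hw
  have hv' : (v : ℚ) - 1 ≠ 0 := by
    rw [sub_ne_zero]
    exact_mod_cast hv
  have h0 : ∀ l₁ l₂ l₃, l₁ + n * l₂ + m * l₃ < t →
      Phi_M z w v N (fun i j k => kap i l₁ * kap j l₂ * kap k l₃) = 0 := by
    intro l₁ l₂ l₃ hl
    have h1 := h l₁ l₂ l₃ hl
    rw [Phi_coeff] at h1
    exact (mul_eq_zero.1 h1).resolve_right
      (mul_ne_zero (mul_ne_zero (pow_ne_zero _ hz') (pow_ne_zero _ hw')) (pow_ne_zero _ hv'))
  have h1 : ∀ a l₁ l₂ l₃, (a + l₁) + n * l₂ + m * l₃ < t →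
      Phi_M z w v N (fun i j k => (i : ℚ) ^ a * kap i l₁ * (kap j l₂ * kap k l₃)) = 0 := by
    intro a
    induction a with
    | zero =>
      intro l₁ l₂ l₃ hl
      rw [zero_add] at hl
      rw [← h0 l₁ l₂ l₃ hl]
      refine Phi_M_congr z w v N fun i j k => ?_
      rw [pow_zero]
      ring
    | succ a ih =>
      intro l₁ l₂ l₃ hl
      have e : Phi_M z w v N (fun i j k => (i : ℚ) ^ (a + 1) * kap i l₁ * (kap j l₂ * kap k l₃)) =
          Phi_M z w v N (fun i j k =>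
            (l₁ : ℚ) * ((i : ℚ) ^ a * kap i l₁ * (kap j l₂ * kap k l₃)) -
            ((l₁ : ℚ) + 1) * ((i : ℚ) ^ a * kap i (l₁ + 1) * (kap j l₂ * kap k l₃))) := by
        refine Phi_M_congr z w v N fun i j k => ?_
        have := Phi_rec (i : ℚ) l₁
        calc (i : ℚ) ^ (a + 1) * kap i l₁ * (kap j l₂ * kap k l₃)
            = (i : ℚ) ^ a * (kap j l₂ * kap k l₃) * ((i : ℚ) * kap i l₁) := by ring
          _ = _ := by rw [this]; ring
      rw [e, Phi_M_lin, ih l₁ l₂ l₃ (by omega), ih (l₁ + 1) l₂ l₃ (by omega)]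
      ring
  have h2 : ∀ b a l₂ l₃, a + n * (b + l₂) + m * l₃ < t →
      Phi_M z w v N (fun i j k => (i : ℚ) ^ a * ((j : ℚ) ^ b * kap j l₂ * kap k l₃)) = 0 := by
    intro b
    induction b with
    | zero =>
      intro a l₂ l₃ hl
      rw [zero_add] at hl
      rw [← h1 a 0 l₂ l₃ (by omega)]
      refine Phi_M_congr z w v N fun i j k => ?_
      rw [pow_zero, Pool.Agent.NLG.kap_zero]
      ring
    | succ b ih =>
      intro a l₂ l₃ hl
      have e : Phi_M z w v N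
            (fun i j k => (i : ℚ) ^ a * ((j : ℚ) ^ (b + 1) * kap j l₂ * kap k l₃)) =
          Phi_M z w v N (fun i j k =>
            (l₂ : ℚ) * ((i : ℚ) ^ a * ((j : ℚ) ^ b * kap j l₂ * kap k l₃)) -
            ((l₂ : ℚ) + 1) * ((i : ℚ) ^ a * ((j : ℚ) ^ b * kap j (l₂ + 1) * kap k l₃))) := by
        refine Phi_M_congr z w v N fun i j k => ?_
        have := Phi_rec (j : ℚ) l₂
        calc (i : ℚ) ^ a * ((j : ℚ) ^ (b + 1) * kap j l₂ * kap k l₃)
            = (i : ℚ) ^ a * ((j : ℚ) ^ b * kap k l₃ * ((j : ℚ) * kap j l₂)) := by ring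
          _ = _ := by rw [this]; ring
      have hb : n * (b + (l₂ + 1)) = n * (b + 1 + l₂) := by ring
      have hb' : n * (b + l₂) ≤ n * (b + 1 + l₂) := Nat.mul_le_mul_left _ (by omega)
      rw [e, Phi_M_lin, ih a l₂ l₃ (by omega), ih a (l₂ + 1) l₃ (by omega)]
      ring
  have h3 : ∀ c b a l₃, a + n * b + m * (c + l₃) < t →
      Phi_M z w v N (fun i j k => (i : ℚ) ^ a * ((j : ℚ) ^ b * ((k : ℚ) ^ c * kap k l₃))) = 0 := by
    intro c
    induction c with
    | zero =>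
      intro b a l₃ hl
      rw [zero_add] at hl
      rw [← h2 b a 0 l₃ (by rw [add_zero]; exact hl)]
      refine Phi_M_congr z w v N fun i j k => ?_
      rw [pow_zero, Pool.Agent.NLG.kap_zero]
      ring
    | succ c ih =>
      intro b a l₃ hl
      have e : Phi_M z w v N
            (fun i j k => (i : ℚ) ^ a * ((j : ℚ) ^ b * ((k : ℚ) ^ (c + 1) * kap k l₃))) =
          Phi_M z w v N (fun i j k =>
            (l₃ : ℚ) * ((i : ℚ) ^ a * ((j : ℚ) ^ b * ((k : ℚ) ^ c * kap k l₃))) -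
            ((l₃ : ℚ) + 1) * ((i : ℚ) ^ a * ((j : ℚ) ^ b * ((k : ℚ) ^ c * kap k (l₃ + 1))))) := by
        refine Phi_M_congr z w v N fun i j k => ?_
        have := Phi_rec (k : ℚ) l₃
        calc (i : ℚ) ^ a * ((j : ℚ) ^ b * ((k : ℚ) ^ (c + 1) * kap k l₃))
            = (i : ℚ) ^ a * ((j : ℚ) ^ b * (k : ℚ) ^ c * ((k : ℚ) * kap k l₃)) := by ring
          _ = _ := by rw [this]; ring
      have hb : m * (c + (l₃ + 1)) = m * (c + 1 + l₃) := by ring
      have hb' : m * (c + l₃) ≤ m * (c + 1 + l₃) := Nat.mul_le_mul_left _ (by omega)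
      rw [e, Phi_M_lin, ih b a l₃ (by omega), ih b a (l₃ + 1) (by omega)]
      ring
  intro a b c habc
  have h4 := h3 c b a 0 (by rw [add_zero]; exact habc)
  have h5 := Phi_mom z w v N a b c
  have h6 : Phi_M z w v N (fun i j k => (i : ℚ) ^ a * ((j : ℚ) ^ b * (k : ℚ) ^ c)) =
      Phi_M z w v N (fun i j k => (i : ℚ) ^ a * ((j : ℚ) ^ b * ((k : ℚ) ^ c * kap k 0))) := by
    refine Phi_M_congr z w v N fun i j k => ?_
    rw [Pool.Agent.NLG.kap_zero, mul_one]
  rw [h6, h4] at h5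
  exact_mod_cast h5

end Pool.Agent.NLK
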