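import Pool.Agent.NLK.Defs

/-!
# NLK-RDefs: definitions for the first step of Roth's lemma in three variables
-/

namespace Pool.Agent.NLK

open Finset Polynomial

/-- Multiplication of the coefficient of `z ^ i w ^ j v ^ k` by `(i + Λ j) ^ a k ^ b`. -/
noncomputable def tt (Λ a b : ℕ) (N : ℤ[X][X][X]) : ℤ[X][X][X] :=
  N.sum fun i f => monomial i (f.sum fun j g => monomial j (g.sum fun k c =>
    monomial k (((i : ℤ) + Λ * j) ^ a * (k : ℤ) ^ b * c)))

/-- The determinant of the `tt Λ a b N`, `a, b < K`. -/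
noncomputable def DD (Λ K : ℕ) (N : ℤ[X][X][X]) : ℤ[X][X][X] :=
  (Matrix.of fun a b : Fin K => tt Λ (a : ℕ) (b : ℕ) N).det

/-- Multiplication of the coefficient of `z ^ i w ^ j` by `(i + Λ j) ^ a`. -/
noncomputable def th2 (Λ a : ℕ) (F : ℚ[X][X]) : ℚ[X][X] :=
  F.sum fun i f => monomial i (f.sum fun j c => monomial j (((i : ℚ) + Λ * j) ^ a * c))

theorem coeff_tt (Λ a b : ℕ) (N : ℤ[X][X][X]) (i j k : ℕ) :
    (((tt Λ a b N).coeff i).coeff j).coeff k =
      ((i : ℤ) + Λ * j) ^ a * (k : ℤ) ^ b * ((N.coeff i).coeff j).coeff k := by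
  unfold tt
  rw [Polynomial.sum, finsetSum_coeff]
  simp only [coeff_monomial]
  rw [Finset.sum_ite_eq' N.support i]
  split_ifs with h
  · rw [Polynomial.sum, finsetSum_coeff]
    simp only [coeff_monomial]
    rw [Finset.sum_ite_eq' (N.coeff i).support j]
    split_ifs with h2
    · rw [Polynomial.sum, finsetSum_coeff]
      simp only [coeff_monomial]
      rw [Finset.sum_ite_eq' ((N.coeff i).coeff j).support k]
      split_ifs with h3
      · rfl
      · rw [notMem_support_iff.1 h3, mul_zero]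
    · rw [notMem_support_iff.1 h2, coeff_zero, mul_zero]
  · rw [notMem_support_iff.1 h, coeff_zero, coeff_zero, mul_zero]

theorem coeff_th2 (Λ a : ℕ) (F : ℚ[X][X]) (i j : ℕ) :
    ((th2 Λ a F).coeff i).coeff j = ((i : ℚ) + Λ * j) ^ a * (F.coeff i).coeff j := by
  unfold th2
  rw [Polynomial.sum, finsetSum_coeff]
  simp only [coeff_monomial]
  rw [Finset.sum_ite_eq' F.support i]
  split_ifs with h
  · rw [Polynomial.sum, finsetSum_coeff]
    simp only [coeff_monomial]
    rw [Finset.sum_ite_eq' (F.coeff i).support j]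
    split_ifs with h2
    · rfl
    · rw [notMem_support_iff.1 h2, mul_zero]
  · rw [notMem_support_iff.1 h, coeff_zero, mul_zero]

end Pool.Agent.NLK
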