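import Pool.Agent.NLK.RDefs
import Pool.Agent.NLG.EWr

/-!
# NLK-RothW: the generalized Wronskian in two variables

The substitution `w = z ^ (D1 + 1)` reduces it to one variable (`NLG.det_thet_ne_zero`).
-/

namespace Pool.Agent.NLK

open Finset Polynomial

/-- The substitution of `X ^ Λ` for the inner variable, `X` for the outer one. -/
private noncomputable def RothW_k (Λ : ℕ) : ℚ[X][X] →+* ℚ[X] :=
  eval₂RingHom ((expand ℚ Λ : ℚ[X] →ₐ[ℚ] ℚ[X]) : ℚ[X] →+* ℚ[X]) X

private theorem RothW_k_mono (Λ i j : ℕ) (c : ℚ) :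
    RothW_k Λ (monomial i (monomial j c)) = monomial (i + Λ * j) c := by
  rw [RothW_k, coe_eval₂RingHom, eval₂_monomial]
  show expand ℚ Λ (monomial j c) * X ^ i = _
  rw [expand_monomial, ← C_mul_X_pow_eq_monomial, ← C_mul_X_pow_eq_monomial, mul_assoc, ← pow_add]
  congr 2
  ring

private theorem RothW_k_coeff {D1 : ℕ} {F : ℚ[X][X]} (hF : F.natDegree ≤ D1) {i : ℕ}
    (hi : i ≤ D1) (j : ℕ) :
    (RothW_k (D1 + 1) F).coeff (i + (D1 + 1) * j) = (F.coeff i).coeff j := by
  rw [RothW_k, coe_eval₂RingHom, eval₂_eq_sum_range' _ (Nat.lt_succ_of_le hF), finsetSum_coeff,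
    Finset.sum_eq_single i]
  · show (expand ℚ (D1 + 1) (F.coeff i) * X ^ i).coeff _ = _
    rw [coeff_mul_X_pow', if_pos (Nat.le_add_right _ _), Nat.add_sub_cancel_left,
      coeff_expand (Nat.succ_pos D1), if_pos (Dvd.intro _ rfl),
      Nat.mul_div_cancel_left _ (Nat.succ_pos D1)]
  · intro k hk hne
    rw [Finset.mem_range] at hk
    show (expand ℚ (D1 + 1) (F.coeff k) * X ^ k).coeff _ = _
    rw [coeff_mul_X_pow']
    split_ifs with h
    · rw [coeff_expand (Nat.succ_pos D1), if_neg]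
      intro hd
      apply hne
      have h1 : (i + (D1 + 1) * j) ≡ k [MOD (D1 + 1)] :=
        ((Nat.modEq_iff_dvd' h).2 hd).symm
      have h2 : (i + (D1 + 1) * j) ≡ i [MOD (D1 + 1)] := by
        unfold Nat.ModEq
        rw [Nat.add_mul_mod_self_left]
      have h3 : k ≡ i [MOD (D1 + 1)] := h1.symm.trans h2
      exact Nat.ModEq.eq_of_lt_of_lt h3 (by omega) (by omega)
    · rfl
  · intro h
    exact absurd (Finset.mem_range.2 (by omega)) h

private theorem RothW_thet (l : ℕ) (F : ℚ[X]) (n : ℕ) :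
    (NLG.thet l F).coeff n = F.coeff n * (n : ℚ) ^ l := by
  unfold NLG.thet
  rw [Polynomial.sum, finsetSum_coeff]
  simp only [coeff_monomial]
  rw [Finset.sum_ite_eq' F.support n (fun e => F.coeff e * (e : ℚ) ^ l)]
  split_ifs with h
  · rfl
  · rw [notMem_support_iff.1 h, zero_mul]

private theorem RothW_thet_add (l : ℕ) (F G : ℚ[X]) :
    NLG.thet l (F + G) = NLG.thet l F + NLG.thet l G := by
  ext n
  rw [coeff_add, RothW_thet, RothW_thet, RothW_thet, coeff_add, add_mul]

private theorem RothW_th2_add (Λ l : ℕ) (F G : ℚ[X][X]) :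
    th2 Λ l (F + G) = th2 Λ l F + th2 Λ l G := by
  ext i j
  rw [coeff_add, coeff_add, coeff_th2, coeff_th2, coeff_th2, coeff_add, coeff_add, mul_add]

private theorem RothW_th2_mono (Λ l i j : ℕ) (c : ℚ) :
    th2 Λ l (monomial i (monomial j c)) = monomial i (monomial j (((i : ℚ) + Λ * j) ^ l * c)) := by
  ext i' j'
  rw [coeff_th2, coeff_monomial, coeff_monomial]
  split_ifs with h
  · subst h
    rw [coeff_monomial, coeff_monomial]
    split_ifs with h2
    · subst h2
      rfl
    · rw [mul_zero]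
  · rw [coeff_zero, mul_zero]

private theorem RothW_thet_mono (l e : ℕ) (c : ℚ) :
    NLG.thet l (monomial e c) = monomial e ((e : ℚ) ^ l * c) := by
  ext n
  rw [RothW_thet, coeff_monomial, coeff_monomial]
  split_ifs with h
  · subst h
    ring
  · rw [zero_mul]

private theorem RothW_comm (Λ l : ℕ) (F : ℚ[X][X]) :
    RothW_k Λ (th2 Λ l F) = NLG.thet l (RothW_k Λ F) := by
  induction F using Polynomial.induction_on' with
  | add F G hF hG => rw [RothW_th2_add, map_add, map_add, RothW_thet_add, hF, hG]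
  | monomial i p =>
    induction p using Polynomial.induction_on' with
    | add p q hp hq => rw [map_add, RothW_th2_add, map_add, map_add, RothW_thet_add, hp, hq]
    | monomial j c =>
      rw [RothW_th2_mono, RothW_k_mono, RothW_k_mono, RothW_thet_mono]
      push_cast
      rfl

theorem det_th2_ne_zero {K D1 : ℕ} (f : Fin K → ℚ[X][X])
    (hf : ∀ t : Fin K → ℚ, (∀ i j, ∑ k, t k * ((f k).coeff i).coeff j = 0) → ∀ k, t k = 0)
    (hD : ∀ k, (f k).natDegree ≤ D1) :
    (Matrix.of fun a k : Fin K => th2 (D1 + 1) (a : ℕ) (f k)).det ≠ 0 := by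
  have hli : LinearIndependent ℚ fun k => RothW_k (D1 + 1) (f k) := by
    rw [Fintype.linearIndependent_iff]
    intro t ht
    apply hf t
    intro i j
    by_cases hi : i ≤ D1
    · have h1 := congrArg (fun P : ℚ[X] => P.coeff (i + (D1 + 1) * j)) ht
      simp only [finsetSum_coeff, coeff_smul, smul_eq_mul, coeff_zero] at h1
      rw [← h1]
      refine Finset.sum_congr rfl fun k _ => ?_
      rw [RothW_k_coeff (hD k) hi]
    · refine Finset.sum_eq_zero fun k _ => ?_
      rw [coeff_eq_zero_of_natDegree_lt (lt_of_le_of_lt (hD k) (not_le.1 hi)), coeff_zero,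
        mul_zero]
  intro h0
  apply NLG.det_thet_ne_zero _ hli
  have h1 : (Matrix.of fun l k : Fin K => NLG.thet (l : ℕ) (RothW_k (D1 + 1) (f k))) =
      (RothW_k (D1 + 1)).mapMatrix (Matrix.of fun a k : Fin K => th2 (D1 + 1) (a : ℕ) (f k)) := by
    ext1 l k
    exact (RothW_comm (D1 + 1) l (f k)).symm
  rw [h1, ← RingHom.map_det, h0, map_zero]

end Pool.Agent.NLK
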