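import Pool.Agent.NLK.RothDec
import Pool.Agent.NLK.RothW

/-!
# NLK-RothA: the determinant is a product `U(z, w) V(v) ≠ 0`

With the rank decomposition `dec` of `N` the matrix of the `tt Λ a b N` is the product of the
matrices of the `th2 Λ a (f k)` and of the `thet b (g k)`, whose determinants `U`, `V` are not
zero; the coefficient of `DD` at `(i, j, l)` is `(U.coeff i).coeff j * V.coeff l`.
-/

namespace Pool.Agent.NLK

open Finset Polynomial

private theorem rothA_coeff_thet {R : Type*} [CommRing R] (l : ℕ) (F : R[X]) (n : ℕ) :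
    (Pool.Agent.NLG.thet l F).coeff n = F.coeff n * (n : R) ^ l := by
  unfold Pool.Agent.NLG.thet
  rw [Polynomial.sum, finsetSum_coeff]
  simp only [coeff_monomial]
  rw [Finset.sum_ite_eq' F.support n (fun e => F.coeff e * (e : R) ^ l)]
  split_ifs with h
  · rfl
  · rw [notMem_support_iff.1 h, zero_mul]

private theorem rothA_coeff_map (P : ℚ[X][X]) (i j : ℕ) :
    (((mapRingHom (mapRingHom (C : ℚ →+* ℚ[X]))) P).coeff i).coeff j =
      C ((P.coeff i).coeff j) := by
  rw [coe_mapRingHom, coeff_map, coe_mapRingHom, coeff_map]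

private theorem rothA_coeff_mul (P : ℚ[X][X]) (Q : ℚ[X]) (i j l : ℕ) :
    (((((mapRingHom (mapRingHom (C : ℚ →+* ℚ[X]))) P) * C (C Q)).coeff i).coeff j).coeff l =
      (P.coeff i).coeff j * Q.coeff l := by
  rw [coeff_mul_C, coeff_mul_C, rothA_coeff_map, coeff_C_mul]

private theorem rothA_det {R R1 R2 S : Type*} [CommRing R] [CommRing R1] [CommRing R2]
    [CommRing S] {K : ℕ} (φ : R →+* S) (α : R1 →+* S) (β : R2 →+* S)
    (M : Matrix (Fin K) (Fin K) R) (U : Matrix (Fin K) (Fin K) R1)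
    (V : Matrix (Fin K) (Fin K) R2)
    (h : ∀ a b, φ (M a b) = ∑ k, α (U a k) * β (V b k)) : φ M.det = α U.det * β V.det := by
  rw [RingHom.map_det, RingHom.map_det, RingHom.map_det,
    ← Matrix.det_transpose (β.mapMatrix V), ← Matrix.det_mul]
  refine congrArg Matrix.det ?_
  ext a b
  rw [Matrix.mul_apply]
  exact h a b

theorem rank_one {N : ℤ[X][X][X]} (hN : N ≠ 0) {D1 D3 : ℕ} (hD1 : N.natDegree ≤ D1)
    (hD3 : ∀ i j, ((N.coeff i).coeff j).natDegree ≤ D3) :
    ∃ K : ℕ, 1 ≤ K ∧ K ≤ D3 + 1 ∧ DD (D1 + 1) K N ≠ 0 ∧ ∀ i j k i' j' k' : ℕ,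
      (((DD (D1 + 1) K N).coeff i).coeff j).coeff k *
          (((DD (D1 + 1) K N).coeff i').coeff j').coeff k' =
        (((DD (D1 + 1) K N).coeff i).coeff j).coeff k' *
          (((DD (D1 + 1) K N).coeff i').coeff j').coeff k := by
  classical
  obtain ⟨K, c, g, hK1, hK2, hc, hg, hc0, hcg⟩ := dec hN hD3
  obtain ⟨M, hM⟩ : ∃ M : ℕ, ∀ i, (N.coeff i).natDegree < M := by
    refine ⟨(N.support.sup fun i => (N.coeff i).natDegree) + 1, fun i => ?_⟩
    by_cases hi : i ∈ N.support
    · exact Nat.lt_succ_of_le (Finset.le_sup (f := fun i => (N.coeff i).natDegree) hi)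
    · rw [notMem_support_iff.1 hi, natDegree_zero]
      exact Nat.succ_pos _
  let f : Fin K → ℚ[X][X] := fun k =>
    ∑ i ∈ range (D1 + 1), monomial i (∑ j ∈ range M, monomial j (c i j k))
  have hfi : ∀ k i, (f k).coeff i =
      if i ∈ range (D1 + 1) then ∑ j ∈ range M, monomial j (c i j k) else 0 := by
    intro k i
    change (∑ i ∈ range (D1 + 1), monomial i (∑ j ∈ range M, monomial j (c i j k))).coeff i = _
    rw [finsetSum_coeff]
    simp only [coeff_monomial]
    rw [Finset.sum_ite_eq' (range (D1 + 1)) i (fun i => ∑ j ∈ range M, monomial j (c i j k))]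
  have hfc : ∀ k i j, ((f k).coeff i).coeff j = c i j k := by
    intro k i j
    rw [hfi]
    by_cases hi : i ∈ range (D1 + 1)
    · rw [if_pos hi, finsetSum_coeff]
      simp only [coeff_monomial]
      rw [Finset.sum_ite_eq' (range M) j (fun j => c i j k)]
      split_ifs with hj
      · rfl
      · symm
        apply hc0
        refine coeff_eq_zero_of_natDegree_lt ?_
        rw [Finset.mem_range, not_lt] at hj
        exact lt_of_lt_of_le (hM i) hj
    · rw [if_neg hi, coeff_zero]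
      symm
      apply hc0
      have h1 : N.coeff i = 0 := coeff_eq_zero_of_natDegree_lt (by
        rw [Finset.mem_range, not_lt] at hi
        omega)
      rw [h1, coeff_zero]
  have hfd : ∀ k, (f k).natDegree ≤ D1 := by
    intro k
    rw [natDegree_le_iff_coeff_eq_zero]
    intro n hn
    rw [hfi, if_neg]
    rw [Finset.mem_range, not_lt]
    omega
  let ι : ℤ[X][X][X] →+* ℚ[X][X][X] := mapRingHom (mapRingHom (mapRingHom (Int.castRingHom ℚ)))
  have hι : ∀ (P : ℤ[X][X][X]) (i j l : ℕ), (((ι P).coeff i).coeff j).coeff l =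
      ((((P.coeff i).coeff j).coeff l : ℤ) : ℚ) := by
    intro P i j l
    change (((P.map (mapRingHom (mapRingHom (Int.castRingHom ℚ)))).coeff i).coeff j).coeff l = _
    rw [coeff_map, coe_mapRingHom, coeff_map, coe_mapRingHom, coeff_map]
    rfl
  let Um : Matrix (Fin K) (Fin K) ℚ[X][X] :=
    Matrix.of fun a k : Fin K => th2 (D1 + 1) (a : ℕ) (f k)
  let Vm : Matrix (Fin K) (Fin K) ℚ[X] :=
    Matrix.of fun b k : Fin K => Pool.Agent.NLG.thet (b : ℕ) (g k)
  have hU : Um.det ≠ 0 := by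
    refine det_th2_ne_zero f (fun t ht => hc t fun i j => ?_) hfd
    have h1 := ht i j
    simp only [hfc] at h1
    exact h1
  have hV : Vm.det ≠ 0 := Pool.Agent.NLG.det_thet_ne_zero g hg
  have hdet : ι (DD (D1 + 1) K N) =
      mapRingHom (mapRingHom (C : ℚ →+* ℚ[X])) Um.det * C (C Vm.det) := by
    unfold DD
    refine rothA_det (R := ℤ[X][X][X]) (R1 := ℚ[X][X]) (R2 := ℚ[X]) (S := ℚ[X][X][X]) ι
      (mapRingHom (mapRingHom (C : ℚ →+* ℚ[X]))) ((C : ℚ[X][X] →+* ℚ[X][X][X]).comp (C : ℚ[X] →+* ℚ[X][X])) _ Um Vm fun a b => ?_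
    rw [Matrix.of_apply]
    ext i j l
    rw [hι, coeff_tt, finsetSum_coeff, finsetSum_coeff, finsetSum_coeff]
    push_cast
    rw [hcg, Finset.mul_sum]
    refine Finset.sum_congr rfl fun k _ => ?_
    rw [RingHom.comp_apply, rothA_coeff_mul]
    change _ = ((th2 (D1 + 1) (a : ℕ) (f k)).coeff i).coeff j *
      (Pool.Agent.NLG.thet (b : ℕ) (g k)).coeff l
    rw [coeff_th2, rothA_coeff_thet, hfc]
    push_cast
    ring
  have hco : ∀ i j l : ℕ, (((((DD (D1 + 1) K N).coeff i).coeff j).coeff l : ℤ) : ℚ) =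
      (Um.det.coeff i).coeff j * Vm.det.coeff l := by
    intro i j l
    rw [← hι, hdet, rothA_coeff_mul]
  refine ⟨K, hK1, hK2, ?_, ?_⟩
  · intro h0
    rw [h0, map_zero] at hdet
    rcases mul_eq_zero.1 hdet.symm with h1 | h1
    · rw [coe_mapRingHom, Polynomial.map_eq_zero_iff] at h1
      · exact hU h1
      · exact map_injective _ C_injective
    · rw [C_eq_zero, C_eq_zero] at h1
      exact hV h1
  · intro i j k i' j' k'
    have h1 : (((((DD (D1 + 1) K N).coeff i).coeff j).coeff k *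
        (((DD (D1 + 1) K N).coeff i').coeff j').coeff k' : ℤ) : ℚ) =
        (((((DD (D1 + 1) K N).coeff i).coeff j).coeff k' *
        (((DD (D1 + 1) K N).coeff i').coeff j').coeff k : ℤ) : ℚ) := by
      rw [Int.cast_mul, Int.cast_mul, hco, hco, hco, hco]
      ring
    exact_mod_cast h1

end Pool.Agent.NLK
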