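import Pool.Agent.NLK.RDefs

/-!
# NLK-RothDec: rank decomposition with respect to the variable `v`

The inner polynomials `(N.coeff i).coeff j` are written in a basis `g` of the space they span; the
coordinates `c i j` are independent as functions of `k`.
-/

namespace Pool.Agent.NLK

open Finset Polynomial

theorem dec {N : ℤ[X][X][X]} (hN : N ≠ 0) {D3 : ℕ}
    (hD3 : ∀ i j, ((N.coeff i).coeff j).natDegree ≤ D3) :
    ∃ (K : ℕ) (c : ℕ → ℕ → Fin K → ℚ) (g : Fin K → ℚ[X]), 1 ≤ K ∧ K ≤ D3 + 1 ∧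
      (∀ t : Fin K → ℚ, (∀ i j, ∑ k, t k * c i j k = 0) → ∀ k, t k = 0) ∧ LinearIndependent ℚ g ∧
      (∀ i j, (N.coeff i).coeff j = 0 → ∀ k, c i j k = 0) ∧
      ∀ i j l : ℕ, ((((N.coeff i).coeff j).coeff l : ℤ) : ℚ) = ∑ k, c i j k * (g k).coeff l := by
  classical
  let v : ℕ × ℕ → ℚ[X] := fun i => ((N.coeff i.1).coeff i.2).map (Int.castRingHom ℚ)
  let W : Submodule ℚ ℚ[X] := Submodule.span ℚ (Set.range v)
  have hWle : W ≤ degreeLT ℚ (D3 + 1) := by
    refine Submodule.span_le.2 ?_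
    rintro _ ⟨i, rfl⟩
    rw [SetLike.mem_coe, mem_degreeLT]
    refine lt_of_le_of_lt degree_le_natDegree ?_
    have h1 : (v i).natDegree ≤ D3 := natDegree_map_le.trans (hD3 i.1 i.2)
    exact_mod_cast Nat.lt_succ_of_le h1
  have hfd : FiniteDimensional ℚ (degreeLT ℚ (D3 + 1)) :=
    (degreeLTEquiv ℚ (D3 + 1)).symm.finiteDimensional
  have hfr : Module.finrank ℚ (degreeLT ℚ (D3 + 1)) = D3 + 1 := by
    rw [(degreeLTEquiv ℚ (D3 + 1)).finrank_eq, Module.finrank_fin_fun]
  have hWfd : FiniteDimensional ℚ W := Submodule.finiteDimensional_of_le hWle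
  have hvW : ∀ i, v i ∈ W := fun i => Submodule.subset_span ⟨i, rfl⟩
  let b := Module.finBasis ℚ W
  let c : ℕ → ℕ → Fin (Module.finrank ℚ W) → ℚ := fun i j k => b.repr ⟨v (i, j), hvW (i, j)⟩ k
  refine ⟨Module.finrank ℚ W, c, fun k => (b k : ℚ[X]), ?_, ?_, ?_, ?_, ?_, ?_⟩
  · rw [Nat.one_le_iff_ne_zero, Ne, Submodule.finrank_eq_zero]
    intro h0
    apply hN
    ext1 i
    ext1 j
    have h1 := hvW (i, j)
    rw [h0, Submodule.mem_bot] at h1
    have h2 : ((N.coeff i).coeff j).map (Int.castRingHom ℚ) = 0 := h1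
    rw [Polynomial.map_eq_zero_iff Int.cast_injective] at h2
    rw [h2, coeff_zero, coeff_zero]
  · rw [← hfr]
    exact Submodule.finrank_mono hWle
  · intro t ht k
    let φ : W →ₗ[ℚ] ℚ := ∑ k, t k • b.coord k
    have hφv : ∀ i, φ ⟨v i, hvW i⟩ = 0 := by
      intro i
      have h1 := ht i.1 i.2
      change (∑ k, t k • b.coord k) ⟨v i, hvW i⟩ = 0
      rw [LinearMap.sum_apply]
      exact h1
    have hφ : ∀ x : ℚ[X], ∀ hx : x ∈ W, φ ⟨x, hx⟩ = 0 := by
      intro x hx
      refine Submodule.span_induction (p := fun x hx => φ ⟨x, hx⟩ = 0) ?_ ?_ ?_ ?_ hx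
      · rintro _ ⟨i, rfl⟩
        exact hφv i
      · exact map_zero φ
      · intro x y hx hy h1 h2
        have h3 : φ (⟨x, hx⟩ + ⟨y, hy⟩) = 0 := by rw [map_add, h1, h2, add_zero]
        exact h3
      · intro a x hx h1
        have h3 : φ (a • ⟨x, hx⟩) = 0 := by rw [map_smul, h1, smul_zero]
        exact h3
    have h1 : φ (b k) = t k := by
      change (∑ k, t k • b.coord k) (b k) = t k
      rw [LinearMap.sum_apply, Finset.sum_eq_single k]
      · rw [LinearMap.smul_apply, Module.Basis.coord_apply, Module.Basis.repr_self,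
          Finsupp.single_eq_same, smul_eq_mul, mul_one]
      · intro j _ hj
        rw [LinearMap.smul_apply, Module.Basis.coord_apply, Module.Basis.repr_self,
          Finsupp.single_eq_of_ne hj, smul_zero]
      · intro h
        exact absurd (Finset.mem_univ k) h
    rw [← h1]
    exact hφ _ (b k).2
  · exact b.linearIndependent.map' W.subtype (Submodule.ker_subtype W)
  · intro i j h1 k
    have h2 : (⟨v (i, j), hvW (i, j)⟩ : W) = 0 := by
      apply Subtype.ext
      change ((N.coeff i).coeff j).map (Int.castRingHom ℚ) = 0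
      rw [h1, Polynomial.map_zero]
    change b.repr ⟨v (i, j), hvW (i, j)⟩ k = 0
    rw [h2, map_zero, Finsupp.zero_apply]
  · intro i j l
    have h1 := b.sum_repr ⟨v (i, j), hvW (i, j)⟩
    have h2 := congrArg (fun w : W => ((w : ℚ[X]).coeff l)) h1
    have h3 : ((((N.coeff i).coeff j).coeff l : ℤ) : ℚ) = (v (i, j)).coeff l := by
      change _ = (((N.coeff i).coeff j).map (Int.castRingHom ℚ)).coeff l
      rw [coeff_map]
      rfl
    rw [h3]
    change _ = (v (i, j)).coeff l at h2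
    rw [← h2, Submodule.coe_sum, finsetSum_coeff]
    refine Finset.sum_congr rfl fun k _ => ?_
    rw [Submodule.coe_smul, coeff_smul, smul_eq_mul]

end Pool.Agent.NLK
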