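import Pool.Agent.NLK.Defs

/-!
# NLK-Siegel: the auxiliary form (Siegel's lemma)

PLAN.  Copy of `Pool/Agent/NLC/Siegel.lean` with a third variable; the matrix entry is `mZ` (Defs) and `gZ` is
already written as `∑ i, ∑ β, ∑ γ, mZ * A`.  Unknowns `Fin P × Fin B × Fin V`, equations `(r, j, k)`,
`r = S + r'`: `Fin R × Fin (B + L) × Fin (V + M)`.  `|mZ p r j k i β γ| ≤ 9 ^ Q` for `r < Q`: `abs_KZ3_le`
(Defs) for `-2, 2, -1`; with `b = β + L - j`, `c = γ + M - k`, `a = r - i - n b - m c` we have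
`a + b + c ≤ a + n b + m c ≤ r < Q`, so the four exponents of `9` add up to `Q`.  Kernel vector: private
theorem `Siegel_vec` of `NLC/Siegel.lean` (copy it).
`A i β γ := if h : i < P ∧ β < B ∧ γ < V then t (⟨i,_⟩,⟨β,_⟩,⟨γ,_⟩) else 0`.
-/

namespace Pool.Agent.NLK

open Finset Polynomial
open Pool.Agent.NLG (KZ kap)

attribute [local instance] Matrix.seminormedAddCommGroup

private theorem Siegel_vec {α β : Type} [Fintype α] [Fintype β] (A : Matrix α β ℤ)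
    (hlt : Fintype.card α < Fintype.card β) (h0 : 0 < Fintype.card α)
    (h : 2 * Fintype.card α ≤ Fintype.card β) (M : ℝ) (hM : 1 ≤ M)
    (hA : ∀ i j, |(A i j : ℝ)| ≤ M) :
    ∃ t : β → ℤ, t ≠ 0 ∧ A.mulVec t = 0 ∧ ∀ j, |(t j : ℝ)| ≤ (Fintype.card β : ℝ) * M := by
  obtain ⟨t, ht0, ht1, ht2⟩ := Int.Matrix.exists_ne_zero_int_vec_norm_le A hlt h0
  refine ⟨t, ht0, ht1, fun j => ?_⟩
  have hβ : (1 : ℝ) ≤ Fintype.card β := by exact_mod_cast (h0.trans hlt)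
  have hAn : ‖A‖ ≤ M := by
    rw [Matrix.norm_le_iff (by linarith)]
    intro i j
    rw [Int.norm_eq_abs]
    exact hA i j
  have hmax : max 1 ‖A‖ ≤ M := max_le hM hAn
  have hb1 : (1 : ℝ) ≤ Fintype.card β * max 1 ‖A‖ := by nlinarith [le_max_left (1 : ℝ) ‖A‖]
  have hlt' : (Fintype.card α : ℝ) < Fintype.card β := by exact_mod_cast hlt
  have h' : 2 * (Fintype.card α : ℝ) ≤ Fintype.card β := by exact_mod_cast h
  have hexp : (Fintype.card α : ℝ) / (Fintype.card β - Fintype.card α) ≤ 1 := by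
    rw [div_le_iff₀ (by linarith)]
    linarith
  have h4 := norm_le_pi_norm t j
  rw [Int.norm_eq_abs] at h4
  calc |(t j : ℝ)| ≤ ‖t‖ := h4
    _ ≤ _ := ht2
    _ ≤ ((Fintype.card β : ℝ) * max 1 ‖A‖) ^ (1 : ℝ) := Real.rpow_le_rpow_of_exponent_le hb1 hexp
    _ = (Fintype.card β : ℝ) * max 1 ‖A‖ := Real.rpow_one _
    _ ≤ _ := mul_le_mul_of_nonneg_left hmax (by linarith)

private theorem Siegel_le (p : Par) (hn : 1 ≤ p.n) (hm : 1 ≤ p.m) (r j k i β γ : ℕ)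
    (hr : r < p.Q) : |mZ p r j k i β γ| ≤ 9 ^ p.Q := by
  unfold mZ
  split_ifs with hc
  · obtain ⟨b, hb⟩ : ∃ b, b = β + p.L - j := ⟨_, rfl⟩
    obtain ⟨c, hc'⟩ : ∃ c, c = γ + p.M - k := ⟨_, rfl⟩
    obtain ⟨a, ha⟩ : ∃ a, a = r - i - p.n * (β + p.L - j) - p.m * (γ + p.M - k) := ⟨_, rfl⟩
    rw [← ha, ← hb, ← hc']
    have hc2 := hc.2.2
    rw [← hb, ← hc'] at ha hc2
    have h5 : b ≤ p.n * b := Nat.le_mul_of_pos_left _ hn
    have h6 : c ≤ p.m * c := Nat.le_mul_of_pos_left _ hm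
    have h2 := abs_KZ3_le (j := -2) (by norm_num) a
    have h3 := abs_KZ3_le (j := 2) (by norm_num) b
    have h4 := abs_KZ3_le (j := -1) (by norm_num) c
    have h9 : ∀ l : ℕ, (0 : ℤ) ≤ 9 ^ l := fun l => by positivity
    rw [abs_mul, abs_mul, abs_mul, abs_of_nonneg (h9 (p.Q - a - b - c))]
    calc |KZ 3 (-2) a| * |KZ 3 2 b| * |KZ 3 (-1) c| * 9 ^ (p.Q - a - b - c)
        ≤ 9 ^ a * 9 ^ b * 9 ^ c * 9 ^ (p.Q - a - b - c) := by
          refine mul_le_mul_of_nonneg_right ?_ (h9 _)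
          refine mul_le_mul ?_ h4 (abs_nonneg _) (mul_nonneg (h9 _) (h9 _))
          exact mul_le_mul h2 h3 (abs_nonneg _) (h9 _)
      _ = 9 ^ p.Q := by
          rw [← pow_add, ← pow_add, ← pow_add]
          congr 1
          omega
  · rw [abs_zero]
    positivity

theorem siegel (p : Par) (hn : 1 ≤ p.n) (hm : 1 ≤ p.m) (hR : 1 ≤ p.R) (hB : 1 ≤ p.B) (hV : 1 ≤ p.V)
    (hU : 2 * (p.R * (p.B + p.L) * (p.V + p.M)) ≤ p.P * p.B * p.V) :
    ∃ A : ℕ → ℕ → ℕ → ℤ, (∃ i < p.P, ∃ β < p.B, ∃ γ < p.V, A i β γ ≠ 0) ∧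
      (∀ i β γ, |A i β γ| ≤ p.P * p.B * p.V * 9 ^ p.Q) ∧
      ∀ r j k, p.S ≤ r → r < p.S + p.R → j < p.B + p.L → k < p.V + p.M → gZ p A r j k = 0 := by
  have hE : 0 < p.R * (p.B + p.L) * (p.V + p.M) :=
    Nat.mul_pos (Nat.mul_pos hR (by omega)) (by omega)
  have hSQ : p.S + p.R = p.Q := rfl
  obtain ⟨t, ht0, ht1, ht2⟩ := Siegel_vec (α := (Fin p.R × Fin (p.B + p.L)) × Fin (p.V + p.M))
    (β := (Fin p.P × Fin p.B) × Fin p.V)
    (Matrix.of fun v u => mZ p (p.S + v.1.1) v.1.2 v.2 u.1.1 u.1.2 u.2)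
    (by
      rw [Fintype.card_prod, Fintype.card_prod, Fintype.card_prod, Fintype.card_prod,
        Fintype.card_fin, Fintype.card_fin, Fintype.card_fin, Fintype.card_fin,
        Fintype.card_fin, Fintype.card_fin]
      omega)
    (by
      rw [Fintype.card_prod, Fintype.card_prod, Fintype.card_fin, Fintype.card_fin,
        Fintype.card_fin]
      exact hE)
    (by
      rw [Fintype.card_prod, Fintype.card_prod, Fintype.card_prod, Fintype.card_prod,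
        Fintype.card_fin, Fintype.card_fin, Fintype.card_fin, Fintype.card_fin,
        Fintype.card_fin, Fintype.card_fin]
      exact hU)
    ((9 : ℝ) ^ p.Q) (one_le_pow₀ (by norm_num))
    (fun v u => by
      have h2 := Siegel_le p hn hm (p.S + v.1.1) v.1.2 v.2 u.1.1 u.1.2 u.2 (by
        have := v.1.1.2
        omega)
      rw [Matrix.of_apply]
      exact_mod_cast h2)
  obtain ⟨A, hA⟩ : ∃ A : ℕ → ℕ → ℕ → ℤ, A = fun i β γ =>
      if h : i < p.P ∧ β < p.B ∧ γ < p.V then t ((⟨i, h.1⟩, ⟨β, h.2.1⟩), ⟨γ, h.2.2⟩) else 0 :=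
    ⟨_, rfl⟩
  have hA1 : ∀ (i : Fin p.P) (β : Fin p.B) (γ : Fin p.V), A i β γ = t ((i, β), γ) := by
    intro i β γ
    rw [hA]
    exact dif_pos ⟨i.2, β.2, γ.2⟩
  refine ⟨A, ?_, ?_, ?_⟩
  · obtain ⟨u, hu⟩ := Function.ne_iff.1 ht0
    refine ⟨u.1.1, u.1.1.2, u.1.2, u.1.2.2, u.2, u.2.2, ?_⟩
    rw [hA1]
    exact hu
  · intro i β γ
    by_cases h : i < p.P ∧ β < p.B ∧ γ < p.V
    · have h2 := ht2 ((⟨i, h.1⟩, ⟨β, h.2.1⟩), ⟨γ, h.2.2⟩)
      rw [Fintype.card_prod, Fintype.card_prod, Fintype.card_fin, Fintype.card_fin,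
        Fintype.card_fin] at h2
      rw [hA]
      simp only [dif_pos h]
      exact_mod_cast h2
    · rw [hA]
      simp only [dif_neg h, abs_zero]
      positivity
  · intro r j k hr hr' hj hk
    obtain ⟨s, rfl⟩ := Nat.exists_eq_add_of_le hr
    have h2 := congrFun ht1 ((⟨s, by omega⟩, ⟨j, hj⟩), ⟨k, hk⟩)
    have h3 : ∑ u : (Fin p.P × Fin p.B) × Fin p.V,
        mZ p (p.S + s) j k u.1.1 u.1.2 u.2 * t u = 0 := h2
    unfold gZ
    rw [Finset.sum_range (fun i => ∑ β ∈ range p.B, ∑ γ ∈ range p.V,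
      mZ p (p.S + s) j k i β γ * A i β γ)]
    rw [Fintype.sum_prod_type, Fintype.sum_prod_type] at h3
    rw [← h3]
    refine Finset.sum_congr rfl fun i _ => ?_
    rw [Finset.sum_range (fun β => ∑ γ ∈ range p.V, mZ p (p.S + s) j k i β γ * A i β γ)]
    refine Finset.sum_congr rfl fun β _ => ?_
    rw [Finset.sum_range (fun γ => mZ p (p.S + s) j k i β γ * A i β γ)]
    refine Finset.sum_congr rfl fun γ _ => ?_
    rw [hA1]

end Pool.Agent.NLK
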