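import Pool.Agent.NLK.Defs

/-!
# NLK-Split: the finite part of the expansion, sorted by weight

Three-variable copy of Pool/Agent/NLC/Split.lean: `r = i + a + n b + m c`, `j = β + L - b`, `k = γ + M - c`.
-/

namespace Pool.Agent.NLK

open Finset Polynomial
open Pool.Agent.NLG (KZ kap)

private theorem Split_triple (s t u : Finset ℕ) (F : ℕ → ℕ → ℕ → ℝ) :
    ∑ a ∈ s, ∑ b ∈ t, ∑ c ∈ u, F a b c =
      ∑ x ∈ s ×ˢ (t ×ˢ u), F x.1 x.2.1 x.2.2 := by
  rw [sum_product]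
  refine sum_congr rfl fun a _ => ?_
  rw [sum_product]

private theorem Split_aux (Q L M B V n m i β γ : ℕ) (hβ : β < B) (hγ : γ < V)
    (hL : Q < n * (L + 1)) (hM : Q < m * (M + 1)) (f : ℕ → ℕ → ℕ → ℕ → ℕ → ℕ → ℝ) :
    ∑ a ∈ range Q, ∑ b ∈ range (L + 1), ∑ c ∈ range (M + 1),
      (if i + a + n * b + m * c < Q then
        f a b c (i + a + n * b + m * c) (β + L - b) (γ + M - c) else 0) =
    ∑ r ∈ range Q, ∑ j ∈ range (B + L), ∑ k ∈ range (V + M),
      (if j ≤ β + L ∧ k ≤ γ + M ∧ i + n * (β + L - j) + m * (γ + M - k) ≤ r then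
        f (r - i - n * (β + L - j) - m * (γ + M - k)) (β + L - j) (γ + M - k) r j k else 0) := by
  rw [Split_triple, Split_triple, ← sum_filter, ← sum_filter]
  refine sum_nbij' (fun x => (i + x.1 + n * x.2.1 + m * x.2.2, β + L - x.2.1, γ + M - x.2.2))
    (fun y => (y.1 - i - n * (β + L - y.2.1) - m * (γ + M - y.2.2), β + L - y.2.1,
      γ + M - y.2.2)) ?_ ?_ ?_ ?_ ?_
  · rintro ⟨a, b, c⟩ h
    simp only [mem_filter, mem_product, mem_range] at h ⊢
    obtain ⟨⟨h1, h2, h3⟩, h4⟩ := h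
    have e : β + L - (β + L - b) = b := Nat.sub_sub_self (by omega)
    have e' : γ + M - (γ + M - c) = c := Nat.sub_sub_self (by omega)
    rw [e, e']
    refine ⟨⟨h4, by omega, by omega⟩, by omega, by omega, by omega⟩
  · rintro ⟨r, j, k⟩ h
    simp only [mem_filter, mem_product, mem_range] at h ⊢
    obtain ⟨⟨h1, h2, h3⟩, h4, h5, h6⟩ := h
    have h7 : n * (β + L - j) < n * (L + 1) := by omega
    have h8 := Nat.lt_of_mul_lt_mul_left h7
    have h9 : m * (γ + M - k) < m * (M + 1) := by omega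
    have h10 := Nat.lt_of_mul_lt_mul_left h9
    refine ⟨⟨by omega, h8, h10⟩, by omega⟩
  · rintro ⟨a, b, c⟩ h
    simp only [mem_filter, mem_product, mem_range] at h ⊢
    obtain ⟨⟨h1, h2, h3⟩, h4⟩ := h
    have e : β + L - (β + L - b) = b := Nat.sub_sub_self (by omega)
    have e' : γ + M - (γ + M - c) = c := Nat.sub_sub_self (by omega)
    rw [e, e']
    refine Prod.ext ?_ rfl
    show i + a + n * b + m * c - i - n * b - m * c = a
    omega
  · rintro ⟨r, j, k⟩ h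
    simp only [mem_filter, mem_product, mem_range] at h ⊢
    obtain ⟨⟨h1, h2, h3⟩, h4, h5, h6⟩ := h
    refine Prod.ext ?_ (Prod.ext ?_ ?_)
    · show i + (r - i - n * (β + L - j) - m * (γ + M - k)) + n * (β + L - j) +
        m * (γ + M - k) = r
      omega
    · exact Nat.sub_sub_self h4
    · exact Nat.sub_sub_self h5
  · rintro ⟨a, b, c⟩ h
    simp only [mem_filter, mem_product, mem_range] at h ⊢
    obtain ⟨⟨h1, h2, h3⟩, h4⟩ := h
    have e : β + L - (β + L - b) = b := Nat.sub_sub_self (by omega)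
    have e' : γ + M - (γ + M - c) = c := Nat.sub_sub_self (by omega)
    rw [e, e']
    have e2 : i + a + n * b + m * c - i - n * b - m * c = a := by omega
    rw [e2]

private theorem Split_swap (s t u s' t' u' : Finset ℕ) (g : ℕ → ℕ → ℕ → ℕ → ℕ → ℕ → ℝ) :
    ∑ i ∈ s, ∑ β ∈ t, ∑ γ ∈ u, ∑ r ∈ s', ∑ j ∈ t', ∑ k ∈ u', g i β γ r j k =
      ∑ r ∈ s', ∑ j ∈ t', ∑ k ∈ u', ∑ i ∈ s, ∑ β ∈ t, ∑ γ ∈ u, g i β γ r j k := by
  rw [Split_triple s t u fun i β γ => ∑ r ∈ s', ∑ j ∈ t', ∑ k ∈ u', g i β γ r j k]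
  rw [sum_comm]
  refine sum_congr rfl fun r _ => ?_
  rw [sum_comm]
  refine sum_congr rfl fun j _ => ?_
  rw [sum_comm]
  refine sum_congr rfl fun k _ => ?_
  exact (Split_triple s t u fun i β γ => g i β γ r j k).symm

theorem split (p : Par) (hn : 1 ≤ p.n) (hm : 1 ≤ p.m) (hL : p.Q < p.n * (p.L + 1))
    (hM : p.Q < p.m * (p.M + 1)) (A : ℕ → ℕ → ℕ → ℤ) (K : ℕ → ℕ → ℕ → ℝ) :
    ∑ i ∈ range p.P, ∑ β ∈ range p.B, ∑ γ ∈ range p.V, (A i β γ : ℝ) * 9 ^ p.Q *
      (∑ a ∈ range p.Q, ∑ b ∈ range (p.L + 1), ∑ c ∈ range (p.M + 1),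
        if i + a + p.n * b + p.m * c < p.Q then
          (kap (-2 / 3) a : ℝ) * (kap (2 / 3) b : ℝ) * (kap (-1 / 3) c : ℝ) *
            K (i + a + p.n * b + p.m * c) (β + p.L - b) (γ + p.M - c) else 0) =
    ∑ r ∈ range p.Q, ∑ j ∈ range (p.B + p.L), ∑ k ∈ range (p.V + p.M),
      (gZ p A r j k : ℝ) * K r j k := by
  have key : ∀ i ∈ range p.P, ∀ β ∈ range p.B, ∀ γ ∈ range p.V, (A i β γ : ℝ) * 9 ^ p.Q *
      (∑ a ∈ range p.Q, ∑ b ∈ range (p.L + 1), ∑ c ∈ range (p.M + 1),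
        if i + a + p.n * b + p.m * c < p.Q then
          (kap (-2 / 3) a : ℝ) * (kap (2 / 3) b : ℝ) * (kap (-1 / 3) c : ℝ) *
            K (i + a + p.n * b + p.m * c) (β + p.L - b) (γ + p.M - c) else 0) =
      ∑ r ∈ range p.Q, ∑ j ∈ range (p.B + p.L), ∑ k ∈ range (p.V + p.M),
        ((mZ p r j k i β γ * A i β γ : ℤ) : ℝ) * K r j k := by
    intro i hi β hβ γ hγ
    rw [Split_aux p.Q p.L p.M p.B p.V p.n p.m i β γ (mem_range.1 hβ) (mem_range.1 hγ) hL hM
      (fun a b c r j k => (kap (-2 / 3) a : ℝ) * (kap (2 / 3) b : ℝ) * (kap (-1 / 3) c : ℝ) *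
        K r j k), mul_sum]
    refine sum_congr rfl fun r hr => ?_
    rw [mul_sum]
    refine sum_congr rfl fun j hj => ?_
    rw [mul_sum]
    refine sum_congr rfl fun k hk => ?_
    have hr' := mem_range.1 hr
    unfold mZ
    by_cases h : j ≤ β + p.L ∧ k ≤ γ + p.M ∧
        i + p.n * (β + p.L - j) + p.m * (γ + p.M - k) ≤ r
    · rw [if_pos h, if_pos h]
      obtain ⟨h1, h2, h3⟩ := h
      generalize hb : β + p.L - j = b at h3 ⊢
      generalize hc : γ + p.M - k = c at h3 ⊢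
      generalize ha : r - i - p.n * b - p.m * c = a
      have h4 : b ≤ p.n * b := Nat.le_mul_of_pos_left b hn
      have h5 : c ≤ p.m * c := Nat.le_mul_of_pos_left c hm
      have h6 : a + b + c ≤ p.Q := by omega
      have h7 : (9 : ℝ) ^ p.Q = 9 ^ a * 9 ^ b * 9 ^ c * 9 ^ (p.Q - a - b - c) := by
        rw [← pow_add, ← pow_add, ← pow_add]
        congr 1
        omega
      have e1 := KZ3_castR (-2) a
      have e2 := KZ3_castR 2 b
      have e3 := KZ3_castR (-1) c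
      have f1 : ((-2 : ℤ) : ℚ) / 3 = -2 / 3 := by norm_num
      have f2 : ((2 : ℤ) : ℚ) / 3 = 2 / 3 := by norm_num
      have f3 : ((-1 : ℤ) : ℚ) / 3 = -1 / 3 := by norm_num
      rw [f1] at e1
      rw [f2] at e2
      rw [f3] at e3
      rw [Int.cast_mul, Int.cast_mul, Int.cast_mul, Int.cast_mul, e1, e2, e3, Int.cast_pow, h7]
      push_cast
      ring
    · rw [if_neg h, if_neg h, mul_zero, zero_mul, Int.cast_zero, zero_mul]
  rw [sum_congr rfl fun i hi => sum_congr rfl fun β hβ => sum_congr rfl fun γ hγ =>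
    key i hi β hβ γ hγ]
  have e1 : ∀ r j k : ℕ, (gZ p A r j k : ℝ) * K r j k =
      ∑ i ∈ range p.P, ∑ β ∈ range p.B, ∑ γ ∈ range p.V,
        ((mZ p r j k i β γ * A i β γ : ℤ) : ℝ) * K r j k := by
    intro r j k
    unfold gZ
    rw [Int.cast_sum, sum_mul]
    refine sum_congr rfl fun i _ => ?_
    rw [Int.cast_sum, sum_mul]
    refine sum_congr rfl fun β _ => ?_
    rw [Int.cast_sum, sum_mul]
  rw [sum_congr rfl fun r _ => sum_congr rfl fun j _ => sum_congr rfl fun k _ => e1 r j k]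
  exact Split_swap _ _ _ _ _ _
    (fun i β γ r j k => ((mZ p r j k i β γ * A i β γ : ℤ) : ℝ) * K r j k)

end Pool.Agent.NLK
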