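import Pool.Agent.NLK.Defs

/-!
# NLK-TailA: the terms of the tail

PLAN.  Three-variable copy of `Tail_F_le` of `Pool/Agent/NLC/Tail.lean` (copy the private lemmas
`Tail_abs_le_one`, `Tail_int`, `Tail_one` there).  With `r = i + a + n b + m c = Q + d`:
`|kap (P-1-i - nβ - mγ + J - a) l₁| ≤ 2 ^ (r + n B + m V + l₁)`, `|kap (β - b) l₂| ≤ 2 ^ (r + B + l₂)`,
`|kap (γ - c) l₃| ≤ 2 ^ (r + V + l₃)`, the exponent of `z` is `P + J - 1 - r = -(R + d + 1)`, and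
`8 ^ (Q + d) 2 ^ (Q + d) = 16 ^ (Q + d) ≤ 16 ^ Q z ^ (d + 1)`, `a + b + c ≤ Q + d`.
-/

namespace Pool.Agent.NLK

open Finset Polynomial
open Pool.Agent.NLG (KZ kap)

private theorem TailA_abs_le_one {ρ : ℚ} (h1 : -1 ≤ ρ) (h2 : ρ ≤ 1) (m : ℕ) : |kap ρ m| ≤ 1 := by
  induction m with
  | zero => rw [NLG.kap_zero, abs_one]
  | succ m ih =>
    have h := NLG.kap_succ ρ m
    have hm : (0 : ℚ) < (m : ℚ) + 1 := by positivity
    have h3 : ((m : ℚ) + 1) * |kap ρ (m + 1)| = |(m : ℚ) - ρ| * |kap ρ m| := by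
      rw [← abs_mul, ← h, abs_mul, abs_of_pos hm]
    have h4 : |(m : ℚ) - ρ| ≤ (m : ℚ) + 1 := by
      rw [abs_le]
      constructor
      · have : (0 : ℚ) ≤ m := by positivity
        linarith
      · linarith
    have h5 : ((m : ℚ) + 1) * |kap ρ (m + 1)| ≤ ((m : ℚ) + 1) * 1 := by
      rw [h3]
      exact mul_le_mul h4 ih (abs_nonneg _) hm.le
    exact le_of_mul_le_mul_left h5 hm

private theorem TailA_succ_left (ρ : ℚ) (m : ℕ) : kap (ρ + 1) (m + 1) = kap ρ (m + 1) - kap ρ m := by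
  unfold kap
  rw [Ring.choose_succ_succ, pow_succ]
  ring

private theorem TailA_nat (d : ℕ) (m : ℕ) : |kap (d : ℚ) m| ≤ 2 ^ d := by
  induction d generalizing m with
  | zero =>
    rw [Nat.cast_zero, pow_zero]
    exact TailA_abs_le_one (by norm_num) (by norm_num) m
  | succ d ih =>
    rw [Nat.cast_add, Nat.cast_one]
    cases m with
    | zero =>
      rw [NLG.kap_zero, abs_one]
      exact one_le_pow₀ (by norm_num)
    | succ m =>
      rw [TailA_succ_left]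
      have h4 := ih (m + 1)
      have h5 := ih m
      have h6 : |kap (d : ℚ) (m + 1) - kap (d : ℚ) m| ≤
          |kap (d : ℚ) (m + 1)| + |kap (d : ℚ) m| := abs_sub _ _
      rw [pow_succ]
      linarith

private theorem TailA_neg (d : ℕ) (m : ℕ) : |kap (-(d : ℚ)) m| ≤ 2 ^ (d + m) := by
  induction d generalizing m with
  | zero =>
    rw [Nat.cast_zero, neg_zero]
    exact (TailA_abs_le_one (by norm_num) (by norm_num) m).trans (one_le_pow₀ (by norm_num))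
  | succ d ih =>
    induction m with
    | zero =>
      rw [NLG.kap_zero, abs_one]
      exact one_le_pow₀ (by norm_num)
    | succ m ih2 =>
      have h3 := TailA_succ_left (-((d + 1 : ℕ) : ℚ)) m
      have h4 : -((d + 1 : ℕ) : ℚ) + 1 = -(d : ℚ) := by push_cast; ring
      rw [h4] at h3
      have h5 : kap (-((d + 1 : ℕ) : ℚ)) (m + 1) = kap (-(d : ℚ)) (m + 1) + kap (-((d + 1 : ℕ) : ℚ)) m := by
        linarith
      rw [h5]
      have h6 := ih (m + 1)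
      have h7 : (2 : ℚ) ^ (d + 1 + (m + 1)) = 2 ^ (d + (m + 1)) + 2 ^ (d + 1 + m) := by
        have e1 : d + 1 + (m + 1) = (d + m + 1) + 1 := by ring
        have e2 : d + (m + 1) = d + m + 1 := by ring
        have e3 : d + 1 + m = d + m + 1 := by ring
        rw [e1, e2, e3, pow_succ]
        ring
      rw [h7]
      exact (abs_add_le _ _).trans (add_le_add h6 ih2)

private theorem TailA_int (N : ℤ) (l : ℕ) : |(kap (N : ℚ) l : ℝ)| ≤ 2 ^ (N.natAbs + l) := by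
  have h : |kap (N : ℚ) l| ≤ 2 ^ (N.natAbs + l) := by
    obtain ⟨n, rfl | rfl⟩ := Int.eq_nat_or_neg N
    · rw [Int.natAbs_natCast, Int.cast_natCast]
      exact (TailA_nat n l).trans (pow_le_pow_right₀ (by norm_num) (Nat.le_add_right _ _))
    · rw [Int.natAbs_neg, Int.natAbs_natCast, Int.cast_neg, Int.cast_natCast]
      exact TailA_neg n l
  have h' : ((|kap (N : ℚ) l| : ℚ) : ℝ) ≤ ((2 ^ (N.natAbs + l) : ℚ) : ℝ) := by exact_mod_cast h
  push_cast at h'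
  exact h'

private theorem TailA_one {ρ : ℚ} (h1 : -1 ≤ ρ) (h2 : ρ ≤ 1) (m : ℕ) : |(kap ρ m : ℝ)| ≤ 1 := by
  have h := TailA_abs_le_one h1 h2 m
  have h' : ((|kap ρ m| : ℚ) : ℝ) ≤ ((1 : ℚ) : ℝ) := by exact_mod_cast h
  push_cast at h'
  exact h'

theorem FF_le (p : Par) (hn : 1 ≤ p.n) (hm : 1 ≤ p.m) {z : ℕ} (hz : 16 ≤ z) (l₁ l₂ l₃ : ℕ)
    {i β γ a b c : ℕ} (hi : i < p.P) (hβ : β < p.B) (hγ : γ < p.V)
    (hr : p.Q ≤ i + a + p.n * b + p.m * c) :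
    |FF p z l₁ l₂ l₃ (p.P - 1 - i) β γ (a, b, c)| ≤
      16 ^ p.Q * 2 ^ (p.n * p.B + p.m * p.V + p.B + p.V + l₁ + l₂ + l₃) / (z : ℝ) ^ p.R *
        ((1 / 2 : ℝ) ^ a * ((1 / 2 : ℝ) ^ b * (1 / 2 : ℝ) ^ c)) := by
  obtain ⟨r, hr'⟩ : ∃ r, r = i + a + p.n * b + p.m * c := ⟨_, rfl⟩
  obtain ⟨d, hd⟩ : ∃ d, r = p.Q + d := ⟨r - p.Q, by omega⟩
  have k1 : |(kap (-2 / 3) a : ℝ)| ≤ 1 := TailA_one (by norm_num) (by norm_num) a
  have k2 : |(kap (2 / 3) b : ℝ)| ≤ 1 := TailA_one (by norm_num) (by norm_num) b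
  have k2' : |(kap (-1 / 3) c : ℝ)| ≤ 1 := TailA_one (by norm_num) (by norm_num) c
  have hPi : ((p.P - 1 - i : ℕ) : ℤ) = (p.P : ℤ) - 1 - i := by omega
  have hiP : (i : ℤ) + 1 ≤ p.P := by exact_mod_cast hi
  have hQ : (p.Q : ℤ) = p.P + p.J + p.R := by
    unfold Par.Q
    push_cast
    ring
  have hn1 : (1 : ℤ) ≤ p.n := by exact_mod_cast hn
  have hm1 : (1 : ℤ) ≤ p.m := by exact_mod_cast hm
  have hnβ : (p.n : ℤ) * β ≤ p.n * p.B := by
    have h2 : (β : ℤ) ≤ p.B := by exact_mod_cast hβ.le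
    exact mul_le_mul_of_nonneg_left h2 (by positivity)
  have hmγ : (p.m : ℤ) * γ ≤ p.m * p.V := by
    have h2 : (γ : ℤ) ≤ p.V := by exact_mod_cast hγ.le
    exact mul_le_mul_of_nonneg_left h2 (by positivity)
  have hnb : (b : ℤ) ≤ p.n * b := le_mul_of_one_le_left (by positivity) hn1
  have hmc : (c : ℤ) ≤ p.m * c := le_mul_of_one_le_left (by positivity) hm1
  have hnn : (0 : ℤ) ≤ (p.n : ℤ) * β := by positivity
  have hmm : (0 : ℤ) ≤ (p.m : ℤ) * γ := by positivity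
  have hb0 : (0 : ℤ) ≤ (p.n : ℤ) * b := by positivity
  have hc0 : (0 : ℤ) ≤ (p.m : ℤ) * c := by positivity
  have hB0 : (0 : ℤ) ≤ (p.n : ℤ) * p.B := by positivity
  have hV0 : (0 : ℤ) ≤ (p.m : ℤ) * p.V := by positivity
  have hrz : (r : ℤ) = i + a + p.n * b + p.m * c := by
    rw [hr']
    push_cast
    ring
  have hQr : (p.Q : ℤ) ≤ r := by
    rw [hd]
    push_cast
    linarith [Int.natCast_nonneg d]
  have g1 := Int.natCast_nonneg i
  have g2 := Int.natCast_nonneg a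
  have g3 := Int.natCast_nonneg p.J
  have g4 := Int.natCast_nonneg p.R
  have g5 := Int.natCast_nonneg b
  have g6 := Int.natCast_nonneg c
  have g7 := Int.natCast_nonneg β
  have g8 := Int.natCast_nonneg γ
  have k3 : |(kap ((((p.P - 1 - i : ℕ) : ℤ) - p.n * β - p.m * γ + p.J - a : ℤ) : ℚ) l₁ : ℝ)| ≤
      2 ^ (r + p.n * p.B + p.m * p.V + l₁) := by
    refine (TailA_int _ l₁).trans (pow_le_pow_right₀ (by norm_num) ?_)
    have h2 : (((p.P - 1 - i : ℕ) : ℤ) - p.n * β - p.m * γ + p.J - a).natAbs ≤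
        r + p.n * p.B + p.m * p.V := by
      have h3 : |((p.P - 1 - i : ℕ) : ℤ) - p.n * β - p.m * γ + p.J - a| ≤
          (r : ℤ) + p.n * p.B + p.m * p.V := by
        rw [abs_le, hPi]
        constructor
        · linarith
        · linarith
      have h5 := Int.natCast_natAbs (((p.P - 1 - i : ℕ) : ℤ) - p.n * β - p.m * γ + p.J - a)
      have h6 : ((((p.P - 1 - i : ℕ) : ℤ) - p.n * β - p.m * γ + p.J - a).natAbs : ℤ) ≤
          ((r + p.n * p.B + p.m * p.V : ℕ) : ℤ) := by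
        rw [h5]
        push_cast
        exact h3
      exact_mod_cast h6
    omega
  have k4 : |(kap (((β : ℤ) - b : ℤ) : ℚ) l₂ : ℝ)| ≤ 2 ^ (r + p.B + l₂) := by
    refine (TailA_int _ l₂).trans (pow_le_pow_right₀ (by norm_num) ?_)
    have h2 : b ≤ r := by
      have : (b : ℤ) ≤ r := by linarith
      exact_mod_cast this
    omega
  have k4' : |(kap (((γ : ℤ) - c : ℤ) : ℚ) l₃ : ℝ)| ≤ 2 ^ (r + p.V + l₃) := by
    refine (TailA_int _ l₃).trans (pow_le_pow_right₀ (by norm_num) ?_)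
    have h2 : c ≤ r := by
      have : (c : ℤ) ≤ r := by linarith
      exact_mod_cast this
    omega
  have hz0 : (0 : ℝ) < z := by
    have : 0 < z := by omega
    exact_mod_cast this
  have hz16 : (16 : ℝ) ≤ z := by exact_mod_cast hz
  have k5 : (z : ℝ) ^ (((p.P - 1 - i : ℕ) : ℤ) + p.J - a - p.n * b - p.m * c) ≤
      1 / (z : ℝ) ^ p.R * (1 / 16) ^ (d + 1) := by
    have h2 : (((p.P - 1 - i : ℕ) : ℤ) + p.J - a - p.n * b - p.m * c) =
        -((p.R + (d + 1) : ℕ) : ℤ) := by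
      have h3 : (r : ℤ) = p.Q + d := by
        rw [hd]
        push_cast
        ring
      rw [hPi]
      push_cast
      linarith
    rw [h2, zpow_neg, zpow_natCast, pow_add, mul_inv, one_div, one_div, inv_pow]
    refine mul_le_mul_of_nonneg_left ?_ (by positivity)
    exact inv_anti₀ (by positivity) (pow_le_pow_left₀ (by norm_num) hz16 _)
  have k6 : (0 : ℝ) ≤ (z : ℝ) ^ (((p.P - 1 - i : ℕ) : ℤ) + p.J - a - p.n * b - p.m * c) :=
    (zpow_pos hz0 _).le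
  unfold FF
  rw [abs_mul, abs_mul, abs_mul, abs_mul, abs_mul, abs_mul, abs_of_nonneg k6]
  have k7 : |(kap (-2 / 3) a : ℝ)| * |(kap (2 / 3) b : ℝ)| * |(kap (-1 / 3) c : ℝ)| ≤ 1 :=
    mul_le_one₀ (mul_le_one₀ k1 (abs_nonneg _) k2) (abs_nonneg _) k2'
  have k8 := mul_le_mul (mul_le_mul k3 k4 (abs_nonneg _) (by positivity)) k4' (abs_nonneg _)
    (by positivity)
  have k9 := mul_le_mul k8 k5 k6 (by positivity)
  have k10 := mul_le_mul k7 k9 (by positivity) zero_le_one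
  refine k10.trans ?_
  rw [one_mul]
  have e1 : (2 : ℝ) ^ (r + p.n * p.B + p.m * p.V + l₁) * 2 ^ (r + p.B + l₂) *
      2 ^ (r + p.V + l₃) =
      2 ^ (p.n * p.B + p.m * p.V + p.B + p.V + l₁ + l₂ + l₃) * 8 ^ p.Q * 8 ^ d := by
    have h2 : (8 : ℝ) = 2 ^ 3 := by norm_num
    rw [h2, ← pow_mul, ← pow_mul, ← pow_add, ← pow_add, ← pow_add, ← pow_add, hd]
    congr 1
    ring
  rw [e1]
  have e2 : (1 / 2 : ℝ) ^ (p.Q + d) ≤ (1 / 2 : ℝ) ^ a * ((1 / 2 : ℝ) ^ b * (1 / 2 : ℝ) ^ c) := by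
    rw [← pow_add, ← pow_add]
    refine pow_le_pow_of_le_one (by norm_num) (by norm_num) ?_
    have : (a : ℤ) + (b + c) ≤ r := by linarith
    have h3 : a + (b + c) ≤ r := by exact_mod_cast this
    omega
  have e3 : (8 : ℝ) ^ p.Q * 8 ^ d * (1 / 16) ^ (d + 1) ≤ 16 ^ p.Q * (1 / 2) ^ (p.Q + d) := by
    have h2 : (8 : ℝ) ^ p.Q = 16 ^ p.Q * (1 / 2) ^ p.Q := by
      rw [← mul_pow]
      norm_num
    have h3 : (8 : ℝ) ^ d * (1 / 16) ^ d = (1 / 2) ^ d := by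
      rw [← mul_pow]
      norm_num
    rw [pow_add (1 / 2 : ℝ) p.Q d, pow_succ (1 / 16 : ℝ) d]
    have h6 : (0 : ℝ) ≤ (1 / 2) ^ d := by positivity
    calc (8 : ℝ) ^ p.Q * 8 ^ d * ((1 / 16) ^ d * (1 / 16))
        = 16 ^ p.Q * (1 / 2) ^ p.Q * (8 ^ d * (1 / 16) ^ d) * (1 / 16) := by
          rw [h2]
          ring
      _ = 16 ^ p.Q * (1 / 2) ^ p.Q * (1 / 2) ^ d * (1 / 16) := by rw [h3]
      _ ≤ 16 ^ p.Q * (1 / 2) ^ p.Q * (1 / 2) ^ d * 1 :=
          mul_le_mul_of_nonneg_left (by norm_num) (by positivity)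
      _ = 16 ^ p.Q * ((1 / 2) ^ p.Q * (1 / 2) ^ d) := by ring
  obtain ⟨K, hK⟩ : ∃ K : ℝ, K = 2 ^ (p.n * p.B + p.m * p.V + p.B + p.V + l₁ + l₂ + l₃) := ⟨_, rfl⟩
  have hK0 : 0 ≤ K := by
    rw [hK]
    positivity
  rw [← hK]
  calc K * 8 ^ p.Q * 8 ^ d * (1 / (z : ℝ) ^ p.R * (1 / 16) ^ (d + 1))
      = K / (z : ℝ) ^ p.R * (8 ^ p.Q * 8 ^ d * (1 / 16) ^ (d + 1)) := by ring
    _ ≤ K / (z : ℝ) ^ p.R * (16 ^ p.Q * (1 / 2) ^ (p.Q + d)) :=
        mul_le_mul_of_nonneg_left e3 (by positivity)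
    _ = 16 ^ p.Q * K / (z : ℝ) ^ p.R * (1 / 2) ^ (p.Q + d) := by ring
    _ ≤ _ := mul_le_mul_of_nonneg_left e2 (by positivity)

end Pool.Agent.NLK
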