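import Pool.Agent.NLK.HSum
import Pool.Agent.NLK.Split
import Pool.Agent.NLK.TailA

/-!
# NLK-Tail: the form is small at the point

PLAN.  Three-variable copy of `Tail_FK`, `Tail_sum` and `tail` of `Pool/Agent/NLC/Tail.lean`.
`hasSum_mono` (HSum), `split` (Split), `FF_le` (TailA) may be assumed.  `FF p z l₁ l₂ l₃ (P-1-i) β γ (a,b,c) =
kap (-2/3) a * kap (2/3) b * kap (-1/3) c * KK p z l₁ l₂ l₃ (i + a + n b + m c) (β + L - b) (γ + M - c)`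
(`i < P`, `b ≤ L`, `c ≤ M`); the sum over all `(a,b,c)` minus the finite sum (weights `< Q`) is bounded by the
geometric triple series (`2 * (2 * 2)`), multiplied by
`Pw = 9 ^ (l₁+l₂+l₃) (z-1)^l₁ (z^n-1)^l₂ (z^m-1)^l₃ ≤ 9 ^ (l₁+l₂+l₃) z ^ (l₁ + n l₂ + m l₃)`;
`KZ 3 (3 k) l = 9 ^ l kap k l` (`KZ3_castR`).
-/

namespace Pool.Agent.NLK

open Finset Polynomial
open Pool.Agent.NLG (KZ kap)

private theorem Tail_FK (p : Par) (z l₁ l₂ l₃ i β γ a b c : ℕ) (hi : i < p.P) (hb : b ≤ p.L)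
    (hc : c ≤ p.M) :
    FF p z l₁ l₂ l₃ (p.P - 1 - i) β γ (a, b, c) =
      (kap (-2 / 3) a : ℝ) * (kap (2 / 3) b : ℝ) * (kap (-1 / 3) c : ℝ) *
      KK p z l₁ l₂ l₃ (i + a + p.n * b + p.m * c) (β + p.L - b) (γ + p.M - c) := by
  unfold FF KK Par.S
  have h1 : ((p.P - 1 - i : ℕ) : ℤ) = (p.P : ℤ) - 1 - i := by omega
  have h2 : ((β + p.L - b : ℕ) : ℤ) = (β : ℤ) + p.L - b := by omega
  have h2' : ((γ + p.M - c : ℕ) : ℤ) = (γ : ℤ) + p.M - c := by omega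
  have h3 : (((p.P + p.J : ℕ) : ℤ) - 1 - ((i + a + p.n * b + p.m * c : ℕ) : ℤ) -
      p.n * (((β + p.L - b : ℕ) : ℤ) - p.L) - p.m * (((γ + p.M - c : ℕ) : ℤ) - p.M) : ℤ) =
      ((p.P - 1 - i : ℕ) : ℤ) - p.n * β - p.m * γ + p.J - a := by
    rw [h1, h2, h2']
    push_cast
    ring
  have h4 : ((β + p.L - b : ℕ) : ℤ) - p.L = (β : ℤ) - b := by
    rw [h2]
    ring
  have h4' : ((γ + p.M - c : ℕ) : ℤ) - p.M = (γ : ℤ) - c := by
    rw [h2']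
    ring
  have h5 : (((p.P + p.J : ℕ) : ℤ) - 1 - ((i + a + p.n * b + p.m * c : ℕ) : ℤ) : ℤ) =
      ((p.P - 1 - i : ℕ) : ℤ) + p.J - a - p.n * b - p.m * c := by
    rw [h1]
    push_cast
    ring
  rw [h3, h4, h4', h5]

private theorem Tail_sum (p : Par) (hn : 1 ≤ p.n) (hm : 1 ≤ p.m)
    (hL : p.Q < p.n * (p.L + 1)) (hM : p.Q < p.m * (p.M + 1)) {z : ℕ} (hz : 16 ≤ z)
    (l₁ l₂ l₃ : ℕ) {i β γ : ℕ} (hi : i < p.P) (hβ : β < p.B) (hγ : γ < p.V)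
    {s : ℝ} (hs : HasSum (FF p z l₁ l₂ l₃ (p.P - 1 - i) β γ) s) :
    |s - ∑ a ∈ range p.Q, ∑ b ∈ range (p.L + 1), ∑ c ∈ range (p.M + 1),
        (if i + a + p.n * b + p.m * c < p.Q then
        (kap (-2 / 3) a : ℝ) * (kap (2 / 3) b : ℝ) * (kap (-1 / 3) c : ℝ) *
          KK p z l₁ l₂ l₃ (i + a + p.n * b + p.m * c) (β + p.L - b) (γ + p.M - c) else 0)| ≤
      16 ^ p.Q * 2 ^ (p.n * p.B + p.m * p.V + p.B + p.V + l₁ + l₂ + l₃ + 3) / (z : ℝ) ^ p.R := by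
  classical
  obtain ⟨e, he0⟩ : ∃ e, e = p.n * p.B + p.m * p.V + p.B + p.V + l₁ + l₂ + l₃ := ⟨_, rfl⟩
  have hfin : HasSum (fun x : ℕ × ℕ × ℕ => if i + x.1 + p.n * x.2.1 + p.m * x.2.2 < p.Q then
        FF p z l₁ l₂ l₃ (p.P - 1 - i) β γ x else 0)
      (∑ x ∈ range p.Q ×ˢ (range (p.L + 1) ×ˢ range (p.M + 1)),
        if i + x.1 + p.n * x.2.1 + p.m * x.2.2 < p.Q then
          FF p z l₁ l₂ l₃ (p.P - 1 - i) β γ x else 0) := by
    refine hasSum_sum_of_ne_finset_zero ?_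
    intro x hx
    rw [if_neg]
    intro h2
    have h5 := Nat.zero_le (p.n * x.2.1)
    have h6 := Nat.zero_le (p.m * x.2.2)
    refine hx (mem_product.2 ⟨mem_range.2 ?_, mem_product.2 ⟨mem_range.2 ?_, mem_range.2 ?_⟩⟩)
    · omega
    · by_contra h3
      rw [not_lt] at h3
      have h4 := Nat.mul_le_mul_left p.n h3
      omega
    · by_contra h3
      rw [not_lt] at h3
      have h4 := Nat.mul_le_mul_left p.m h3
      omega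
  rw [sum_product] at hfin
  have he : ∑ a ∈ range p.Q, ∑ y ∈ range (p.L + 1) ×ˢ range (p.M + 1),
      (if i + (a, y).1 + p.n * (a, y).2.1 + p.m * (a, y).2.2 < p.Q then
      FF p z l₁ l₂ l₃ (p.P - 1 - i) β γ (a, y) else 0) =
      ∑ a ∈ range p.Q, ∑ b ∈ range (p.L + 1), ∑ c ∈ range (p.M + 1),
        (if i + a + p.n * b + p.m * c < p.Q then
        (kap (-2 / 3) a : ℝ) * (kap (2 / 3) b : ℝ) * (kap (-1 / 3) c : ℝ) *
          KK p z l₁ l₂ l₃ (i + a + p.n * b + p.m * c) (β + p.L - b) (γ + p.M - c) else 0) := by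
    refine sum_congr rfl fun a _ => ?_
    rw [sum_product]
    refine sum_congr rfl fun b hb => sum_congr rfl fun c hc => ?_
    rw [Tail_FK p z l₁ l₂ l₃ i β γ a b c hi (by have := mem_range.1 hb; omega)
      (by have := mem_range.1 hc; omega)]
  rw [he] at hfin
  have hd := hs.sub hfin
  have hg2 : HasSum (fun y : ℕ × ℕ => (1 / 2 : ℝ) ^ y.1 * (1 / 2 : ℝ) ^ y.2) (2 * 2) :=
    hasSum_geometric_two.mul hasSum_geometric_two
      (hasSum_geometric_two.summable.mul_of_nonneg hasSum_geometric_two.summable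
        (fun _ => by positivity) (fun _ => by positivity))
  have hg : HasSum (fun x : ℕ × ℕ × ℕ => 16 ^ p.Q * 2 ^ e / (z : ℝ) ^ p.R *
      ((1 / 2 : ℝ) ^ x.1 * ((1 / 2 : ℝ) ^ x.2.1 * (1 / 2 : ℝ) ^ x.2.2)))
      (16 ^ p.Q * 2 ^ e / (z : ℝ) ^ p.R * (2 * (2 * 2))) := by
    refine HasSum.mul_left _ ?_
    exact hasSum_geometric_two.mul hg2
      (hasSum_geometric_two.summable.mul_of_nonneg hg2.summable
        (fun _ => by positivity) (fun _ => by positivity))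
  have hb : ∀ x : ℕ × ℕ × ℕ, ‖FF p z l₁ l₂ l₃ (p.P - 1 - i) β γ x -
      (if i + x.1 + p.n * x.2.1 + p.m * x.2.2 < p.Q then
        FF p z l₁ l₂ l₃ (p.P - 1 - i) β γ x else 0)‖ ≤
      16 ^ p.Q * 2 ^ e / (z : ℝ) ^ p.R *
        ((1 / 2 : ℝ) ^ x.1 * ((1 / 2 : ℝ) ^ x.2.1 * (1 / 2 : ℝ) ^ x.2.2)) := by
    intro x
    by_cases hx : i + x.1 + p.n * x.2.1 + p.m * x.2.2 < p.Q
    · rw [if_pos hx, sub_self, norm_zero]
      positivity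
    · rw [if_neg hx, sub_zero, Real.norm_eq_abs, he0]
      exact FF_le p hn hm hz l₁ l₂ l₃ (a := x.1) (b := x.2.1) (c := x.2.2) hi hβ hγ (by omega)
  have hfinal := hd.norm_le_of_bounded hg hb
  rw [Real.norm_eq_abs] at hfinal
  refine hfinal.trans (le_of_eq ?_)
  rw [← he0, pow_add (2 : ℝ) e 3]
  ring

theorem tail (p : Par) (hn : 1 ≤ p.n) (hm : 1 ≤ p.m) (hL : p.Q < p.n * (p.L + 1))
    (hM : p.Q < p.m * (p.M + 1)) (A : ℕ → ℕ → ℕ → ℤ) {H : ℝ} (hH : 0 ≤ H)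
    (hA : ∀ i β γ, |(A i β γ : ℝ)| ≤ H)
    (hg : ∀ r j k, p.S ≤ r → r < p.S + p.R → j < p.B + p.L → k < p.V + p.M → gZ p A r j k = 0)
    {z : ℕ} (hz : 16 ≤ z) (l₁ l₂ l₃ : ℕ) :
    |TT p z * (vA p A z ((z : ℤ) ^ p.n) ((z : ℤ) ^ p.m) l₁ l₂ l₃ : ℝ) -
        (vB p A z ((z : ℤ) ^ p.n) ((z : ℤ) ^ p.m) l₁ l₂ l₃ : ℝ)| ≤
      9 ^ (l₁ + l₂ + l₃) * (z : ℝ) ^ (l₁ + p.n * l₂ + p.m * l₃) *
        (p.P * p.B * p.V * (H * 9 ^ p.Q) *
          (16 ^ p.Q * 2 ^ (p.n * p.B + p.m * p.V + p.B + p.V + l₁ + l₂ + l₃ + 3) /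
            (z : ℝ) ^ p.R)) := by
  have hz16 : (16 : ℝ) ≤ z := by exact_mod_cast hz
  have hw1 : (1 : ℝ) < (z : ℝ) ^ p.n := one_lt_pow₀ (by linarith) (by omega)
  have hv1 : (1 : ℝ) < (z : ℝ) ^ p.m := one_lt_pow₀ (by linarith) (by omega)
  obtain ⟨Pw, hPw⟩ : ∃ Pw : ℝ, Pw = (9 : ℝ) ^ (l₁ + l₂ + l₃) * ((z : ℝ) - 1) ^ l₁ *
      ((z : ℝ) ^ p.n - 1) ^ l₂ * ((z : ℝ) ^ p.m - 1) ^ l₃ := ⟨_, rfl⟩
  have hz1 : (0 : ℝ) < (z : ℝ) - 1 := by linarith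
  have hw0 : (0 : ℝ) < (z : ℝ) ^ p.n - 1 := by linarith
  have hv0 : (0 : ℝ) < (z : ℝ) ^ p.m - 1 := by linarith
  have hPw0 : 0 < Pw := by
    rw [hPw]
    positivity
  have hPwle : Pw ≤ 9 ^ (l₁ + l₂ + l₃) * (z : ℝ) ^ (l₁ + p.n * l₂ + p.m * l₃) := by
    rw [hPw, pow_add (z : ℝ) (l₁ + p.n * l₂), pow_add (z : ℝ) l₁, pow_mul (z : ℝ) p.n l₂,
      pow_mul (z : ℝ) p.m l₃, mul_assoc, mul_assoc, ← mul_assoc (((z : ℝ) - 1) ^ l₁)]
    refine mul_le_mul_of_nonneg_left ?_ (by positivity)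
    refine mul_le_mul (mul_le_mul ?_ ?_ (by positivity) (by positivity)) ?_ (by positivity)
      (by positivity)
    · exact pow_le_pow_left₀ hz1.le (by linarith) _
    · exact pow_le_pow_left₀ hw0.le (by linarith) _
    · exact pow_le_pow_left₀ hv0.le (by linarith) _
  -- the sums of the expansions
  obtain ⟨s, hs⟩ : ∃ s : ℕ → ℕ → ℕ → ℝ, s = fun (i β γ : ℕ) => TT p z * (z : ℝ) ^ (p.P - 1 - i) *
      (EE (3 * (((p.P - 1 - i : ℕ) : ℤ) - p.n * β - p.m * γ + p.J) + 2) (-2) z l₁ : ℝ) *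
      (EE (3 * β - 2) 2 ((z : ℤ) ^ p.n) l₂ : ℝ) *
      (EE (3 * γ + 1) (-1) ((z : ℤ) ^ p.m) l₃ : ℝ) := ⟨_, rfl⟩
  have hsum : ∀ i β γ, HasSum (FF p z l₁ l₂ l₃ (p.P - 1 - i) β γ) (s i β γ / Pw) := by
    intro i β γ
    have h2 := hasSum_mono p hn hm (z := z) (by omega) (p.P - 1 - i) β γ l₁ l₂ l₃
    have h3 := h2.div_const Pw
    have h4 : ∀ x : ℕ × ℕ × ℕ, Pw * FF p z l₁ l₂ l₃ (p.P - 1 - i) β γ x / Pw =
        FF p z l₁ l₂ l₃ (p.P - 1 - i) β γ x := fun x => mul_div_cancel_left₀ _ hPw0.ne'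
    have h5 : (fun x : ℕ × ℕ × ℕ => Pw * FF p z l₁ l₂ l₃ (p.P - 1 - i) β γ x / Pw) =
        FF p z l₁ l₂ l₃ (p.P - 1 - i) β γ := funext h4
    rw [← h5, hs, hPw]
    rw [hPw] at h3
    exact h3
  obtain ⟨fin, hfin⟩ : ∃ fin : ℕ → ℕ → ℕ → ℝ, fin = fun (i β γ : ℕ) => ∑ a ∈ range p.Q,
      ∑ b ∈ range (p.L + 1), ∑ c ∈ range (p.M + 1),
      (if i + a + p.n * b + p.m * c < p.Q then
        (kap (-2 / 3) a : ℝ) * (kap (2 / 3) b : ℝ) * (kap (-1 / 3) c : ℝ) *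
          KK p z l₁ l₂ l₃ (i + a + p.n * b + p.m * c) (β + p.L - b) (γ + p.M - c) else 0) :=
    ⟨_, rfl⟩
  have hsp := split p hn hm hL hM A (KK p z l₁ l₂ l₃)
  have hTA : TT p z * (vA p A z ((z : ℤ) ^ p.n) ((z : ℤ) ^ p.m) l₁ l₂ l₃ : ℝ) =
      ∑ i ∈ range p.P, ∑ β ∈ range p.B, ∑ γ ∈ range p.V,
        (A i β γ : ℝ) * 9 ^ p.Q * s i β γ := by
    unfold vA
    push_cast
    rw [mul_sum]
    refine sum_congr rfl fun i _ => ?_
    rw [mul_sum]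
    refine sum_congr rfl fun β _ => ?_
    rw [mul_sum]
    refine sum_congr rfl fun γ _ => ?_
    rw [hs]
    push_cast
    ring
  have hVB : (vB p A z ((z : ℤ) ^ p.n) ((z : ℤ) ^ p.m) l₁ l₂ l₃ : ℝ) =
      Pw * ∑ r ∈ range p.Q, ∑ j ∈ range (p.B + p.L), ∑ k ∈ range (p.V + p.M),
        (gZ p A r j k : ℝ) * KK p z l₁ l₂ l₃ r j k := by
    have hQ : p.Q = p.S + p.R := rfl
    rw [hQ, sum_range_add]
    have h0 : ∑ x ∈ range p.R, ∑ j ∈ range (p.B + p.L), ∑ k ∈ range (p.V + p.M),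
        (gZ p A (p.S + x) j k : ℝ) * KK p z l₁ l₂ l₃ (p.S + x) j k = 0 := by
      refine sum_eq_zero fun x hx => sum_eq_zero fun j hj => sum_eq_zero fun k hk => ?_
      rw [hg (p.S + x) j k (Nat.le_add_right _ _) (Nat.add_lt_add_left (mem_range.1 hx) _)
        (mem_range.1 hj) (mem_range.1 hk)]
      rw [Int.cast_zero, zero_mul]
    rw [h0, add_zero, mul_sum]
    unfold vB
    push_cast
    refine sum_congr rfl fun r hr => ?_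
    rw [mul_sum]
    refine sum_congr rfl fun j _ => ?_
    rw [mul_sum]
    refine sum_congr rfl fun k _ => ?_
    have hr' : r < p.S := mem_range.1 hr
    have hKZ : ∀ (k : ℤ) (l : ℕ), (KZ 3 (3 * k) l : ℝ) = 9 ^ l * (kap (k : ℚ) l : ℝ) := by
      intro k l
      have h2 := KZ3_castR (3 * k) l
      have h3 : (((3 * k : ℤ) : ℚ)) / 3 = (k : ℚ) := by
        push_cast
        ring
      rw [h3] at h2
      exact h2
    rw [hKZ, hKZ, hKZ]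
    unfold KK
    have h6 : ((p.S - 1 - r : ℕ) : ℤ) = (p.S : ℤ) - 1 - r := by omega
    have h7 : (z : ℝ) ^ ((p.S : ℤ) - 1 - r) = (z : ℝ) ^ (p.S - 1 - r) := by
      rw [← h6, zpow_natCast]
    rw [h6, h7, hPw, pow_add, pow_add]
    ring
  have hdiff : TT p z * (vA p A z ((z : ℤ) ^ p.n) ((z : ℤ) ^ p.m) l₁ l₂ l₃ : ℝ) -
      (vB p A z ((z : ℤ) ^ p.n) ((z : ℤ) ^ p.m) l₁ l₂ l₃ : ℝ) =
      ∑ i ∈ range p.P, ∑ β ∈ range p.B, ∑ γ ∈ range p.V,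
        (A i β γ : ℝ) * 9 ^ p.Q * (Pw * (s i β γ / Pw - fin i β γ)) := by
    rw [hTA, hVB, ← hsp, mul_sum, ← sum_sub_distrib]
    refine sum_congr rfl fun i _ => ?_
    rw [mul_sum, ← sum_sub_distrib]
    refine sum_congr rfl fun β _ => ?_
    rw [mul_sum, ← sum_sub_distrib]
    refine sum_congr rfl fun γ _ => ?_
    rw [hfin]
    have h2 : Pw * (s i β γ / Pw) = s i β γ := mul_div_cancel₀ _ hPw0.ne'
    rw [mul_sub, h2]
    ring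
  obtain ⟨M, hM'⟩ : ∃ M : ℝ, M = 16 ^ p.Q *
      2 ^ (p.n * p.B + p.m * p.V + p.B + p.V + l₁ + l₂ + l₃ + 3) / (z : ℝ) ^ p.R := ⟨_, rfl⟩
  have hM0 : 0 ≤ M := by
    rw [hM']
    positivity
  have hterm : ∀ i ∈ range p.P, ∀ β ∈ range p.B, ∀ γ ∈ range p.V,
      |(A i β γ : ℝ) * 9 ^ p.Q * (Pw * (s i β γ / Pw - fin i β γ))| ≤
        H * 9 ^ p.Q * (Pw * M) := by
    intro i hi β hβ γ hγ
    have h2 := Tail_sum p hn hm hL hM hz l₁ l₂ l₃ (mem_range.1 hi) (mem_range.1 hβ)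
      (mem_range.1 hγ) (hsum i β γ)
    rw [← hM'] at h2
    rw [abs_mul, abs_mul, abs_mul, abs_of_pos hPw0,
      abs_of_nonneg (by positivity : (0 : ℝ) ≤ (9 : ℝ) ^ p.Q)]
    have h3 : |s i β γ / Pw - fin i β γ| ≤ M := by
      rw [hfin]
      exact h2
    have h4 := mul_le_mul_of_nonneg_left h3 hPw0.le
    exact mul_le_mul (mul_le_mul_of_nonneg_right (hA i β γ) (by positivity)) h4 (by positivity)
      (by positivity)
  rw [hdiff, ← hM']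
  calc |∑ i ∈ range p.P, ∑ β ∈ range p.B, ∑ γ ∈ range p.V,
        (A i β γ : ℝ) * 9 ^ p.Q * (Pw * (s i β γ / Pw - fin i β γ))|
      ≤ ∑ i ∈ range p.P, |∑ β ∈ range p.B, ∑ γ ∈ range p.V,
          (A i β γ : ℝ) * 9 ^ p.Q * (Pw * (s i β γ / Pw - fin i β γ))| :=
        abs_sum_le_sum_abs _ _
    _ ≤ ∑ i ∈ range p.P, ∑ β ∈ range p.B, |∑ γ ∈ range p.V,
          (A i β γ : ℝ) * 9 ^ p.Q * (Pw * (s i β γ / Pw - fin i β γ))| :=
        sum_le_sum fun i _ => abs_sum_le_sum_abs _ _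
    _ ≤ ∑ i ∈ range p.P, ∑ β ∈ range p.B, ∑ γ ∈ range p.V,
          |(A i β γ : ℝ) * 9 ^ p.Q * (Pw * (s i β γ / Pw - fin i β γ))| :=
        sum_le_sum fun i _ => sum_le_sum fun β _ => abs_sum_le_sum_abs _ _
    _ ≤ ∑ i ∈ range p.P, ∑ β ∈ range p.B, ∑ γ ∈ range p.V, H * 9 ^ p.Q * (Pw * M) :=
        sum_le_sum fun i hi => sum_le_sum fun β hβ => sum_le_sum fun γ hγ => hterm i hi β hβ γ hγ
    _ = Pw * (p.P * p.B * p.V * (H * 9 ^ p.Q) * M) := by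
        rw [sum_const, sum_const, sum_const, card_range, card_range, card_range, nsmul_eq_mul,
          nsmul_eq_mul, nsmul_eq_mul]
        ring
    _ ≤ _ := mul_le_mul_of_nonneg_right hPwle (by positivity)

end Pool.Agent.NLK
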